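import Pool.Agent.TAU.Bas

/-! Project TAU, module TAU-Neu: B. H. Neumann's lemma in a lattice space.

If `u + W A` is covered by the cosets `j.2 + W j.1` then one of them with `A ≤ j.1` contains it.

The proof uses the covering theorem of B. H. Neumann (`AddSubgroup.exists_finiteIndex_of_leftCoset_cover`)
in the additive group `W A`. -/

namespace TAU

variable {F Λ V : Type} [Field F] [DistribLattice Λ] [BoundedOrder Λ] [AddCommGroup V]
  [Module F V] {W : Λ → Submodule F V}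

open scoped Pointwise in
theorem avoid (hW : LatSpace W) (A : Λ) (u : V) (J : Finset (Λ × V))
    (h : ∀ j ∈ J, A ≤ j.1 → u - j.2 ∉ W j.1) :
    ∃ w ∈ W A, ∀ j ∈ J, u + w - j.2 ∉ W j.1 := by
  classical
  by_contra hcon
  push Not at hcon
  let H : Λ × V → AddSubgroup ↥(W A).toAddSubgroup := fun j =>
    (W j.1).toAddSubgroup.addSubgroupOf (W A).toAddSubgroup
  let s : Finset (Λ × V) := J.filter fun j => ¬ A ≤ j.1
  have hchoice : ∀ j : Λ × V, ∃ g : ↥(W A).toAddSubgroup,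
      (∃ w ∈ W A, u + w - j.2 ∈ W j.1) → u + (g : V) - j.2 ∈ W j.1 := by
    intro j
    by_cases hj : ∃ w ∈ W A, u + w - j.2 ∈ W j.1
    · obtain ⟨w, hw, hw'⟩ := hj
      exact ⟨⟨w, hw⟩, fun _ => hw'⟩
    · exact ⟨0, fun h' => absurd h' hj⟩
  choose g hg using hchoice
  have hcov : ⋃ j ∈ s, g j +ᵥ (H j : Set ↥(W A).toAddSubgroup) = Set.univ := by
    rw [Set.iUnion₂_eq_univ_iff]
    intro x
    have hx : (x : V) ∈ W A := x.2
    obtain ⟨j, hj, hxj⟩ := hcon x hx
    have hA : ¬ A ≤ j.1 := by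
      intro hA
      refine h j hj hA ?_
      have h1 := (W j.1).sub_mem hxj (hW.mono hA hx)
      have e : u + (x : V) - j.2 - (x : V) = u - j.2 := by abel
      rwa [e] at h1
    refine ⟨j, Finset.mem_filter.2 ⟨hj, hA⟩, ?_⟩
    rw [Set.mem_vadd_set_iff_neg_vadd_mem]
    have h2 := hg j ⟨x, hx, hxj⟩
    have h3 := (W j.1).sub_mem hxj h2
    have e : u + (x : V) - j.2 - (u + (g j : V) - j.2) = -(g j : V) + (x : V) := by abel
    rw [e] at h3
    exact h3
  obtain ⟨j, hj, hfi⟩ := AddSubgroup.exists_finiteIndex_of_leftCoset_cover hcov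
  have hA : ¬ A ≤ j.1 := (Finset.mem_filter.1 hj).2
  have h1 : (W j.1).toAddSubgroup.relIndex (W A).toAddSubgroup = 0 := by
    rw [← AddSubgroup.inf_relIndex_right]
    have e : (W j.1).toAddSubgroup ⊓ (W A).toAddSubgroup = (W (j.1 ⊓ A)).toAddSubgroup := by
      ext v
      rw [AddSubgroup.mem_inf, Submodule.mem_toAddSubgroup, Submodule.mem_toAddSubgroup,
        Submodule.mem_toAddSubgroup, hW.mem_inf]
    rw [e]
    exact hW.index _ _ (inf_lt_right.2 hA)
  exact hfi.index_ne_zero h1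

theorem avoid0 (hW : LatSpace W) (A : Λ) (T : Finset Λ) (h : ∀ C ∈ T, ¬ A ≤ C) :
    ∃ w ∈ W A, ∀ C ∈ T, w ∉ W C := by
  classical
  obtain ⟨w, hw, hw'⟩ := avoid hW A 0 (T.image fun C => (C, (0 : V))) (by
    intro j hj hA
    obtain ⟨C, hC, rfl⟩ := Finset.mem_image.1 hj
    exact absurd hA (h C hC))
  refine ⟨w, hw, fun C hC hwC => hw' (C, 0) (Finset.mem_image_of_mem _ hC) ?_⟩
  rw [zero_add, sub_zero]
  exact hwC

theorem cover (hW : LatSpace W) (A : Λ) (u : V) (J : Finset (Λ × V))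
    (h : ∀ w ∈ W A, ∃ j ∈ J, u + w - j.2 ∈ W j.1) : ∃ j ∈ J, A ≤ j.1 ∧ u - j.2 ∈ W j.1 := by
  by_contra hcon
  push Not at hcon
  obtain ⟨w, hw, hw'⟩ := avoid hW A u J hcon
  obtain ⟨j, hj, hj'⟩ := h w hw
  exact hw' j hj hj'

end TAU
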