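import Pool.Agent.TAU.Hd
import Pool.Agent.TAU.Neu

/-! Project TAU, module TAU-Atom: if the type of every element of `Sol Φ M` is isolated (among the
elements of `Sol Φ M`) then `Atom1 W`.

The isolating formula of `b` depends only on the membership in finitely many `W C`, `C ∈ J`; let
`A` be the meet of the `C ∈ J` with `b ∈ W C` and `Jn` the set of the other ones.  Every `w ∈ W A`
outside all `W C`, `C ∈ Jn`, lies in the same `W B` as `b`; with `avoid0` this gives that `A` is the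
least `B` with `b ∈ W B` and that the `C ⊓ A`, `C ∈ Jn`, cover all `B < A`. -/

namespace TAU

open FirstOrder FirstOrder.Language

variable {L : FirstOrder.Language.{0, 0}} {M : Type} [L.Structure M] (Φ : L.Formula (Fin 1))
  {F Λ : Type} [Field F] [DistribLattice Λ] [BoundedOrder Λ] [AddCommGroup (Sol Φ M)]
  [Module F (Sol Φ M)]

omit [DistribLattice Λ] [BoundedOrder Λ] in
private theorem lc_fin1 (μ : Fin 1 → F) (v : Fin 1 → Sol Φ M) : lc μ v = μ 0 • v 0 := by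
  unfold lc
  rw [Finset.univ_unique, Finset.sum_singleton]
  rfl

omit [DistribLattice Λ] [BoundedOrder Λ] in
private theorem basic_fin1 {W : Λ → Submodule F (Sol Φ M)} {t : Set (Fin 1 → Sol Φ M)}
    (ht : t ∈ basics W (Fin 1)) : ∃ A : Λ, ∀ w w' : Fin 1 → Sol Φ M,
      (w 0 ∈ W A ↔ w' 0 ∈ W A) → (w ∈ t ↔ w' ∈ t) := by
  obtain ⟨μ, A, rfl⟩ := ht
  refine ⟨A, fun w w' h => ?_⟩
  show lc μ w ∈ W A ↔ lc μ w' ∈ W A
  rw [lc_fin1, lc_fin1]
  by_cases hμ : μ 0 = 0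
  · rw [hμ, zero_smul, zero_smul]
  · rw [Submodule.smul_mem_iff _ hμ, Submodule.smul_mem_iff _ hμ]
    exact h

theorem atom1_of_atomic {W : Λ → Submodule F (Sol Φ M)} (hW : LatSpace W) (hd : HDef Φ W)
    (h : ∀ b : Sol Φ M, ∃ ψ : L.Formula (Fin 1), ψ.Realize (fun _ => (b : M)) ∧
      ∀ w : Sol Φ M, ψ.Realize (fun _ => (w : M)) → ∀ θ : L.Formula (Fin 1),
        θ.Realize (fun _ => (b : M)) → θ.Realize (fun _ => (w : M))) : Atom1 W := by
  classical
  intro b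
  obtain ⟨ψ, hψb, hψ⟩ := h b
  have h1 : BoolComb (basics W (Fin 1))
      {v : Fin 1 → Sol Φ M | ψ.Realize fun i => (v i : M)} :=
    (hdef_iff Φ hd _).mp ⟨ψ, fun v => Iff.rfl⟩
  obtain ⟨𝒢', h𝒢, hagree⟩ := h1.finite
  have hch : ∀ t : Set (Fin 1 → Sol Φ M), ∃ A : Λ, t ∈ 𝒢' → ∀ w w' : Fin 1 → Sol Φ M,
      (w 0 ∈ W A ↔ w' 0 ∈ W A) → (w ∈ t ↔ w' ∈ t) := by
    intro t
    by_cases ht : t ∈ 𝒢'
    · obtain ⟨A, hA⟩ := basic_fin1 Φ (h𝒢 t ht)
      exact ⟨A, fun _ => hA⟩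
    · exact ⟨⊤, fun ht' => absurd ht' ht⟩
  choose Af hAf using hch
  obtain ⟨J, hJ⟩ : ∃ J : Finset Λ, J = 𝒢'.image Af := ⟨_, rfl⟩
  have key : ∀ w w' : Sol Φ M, (∀ C ∈ J, (w ∈ W C ↔ w' ∈ W C)) →
      ψ.Realize (fun _ => (w : M)) → ψ.Realize (fun _ => (w' : M)) := by
    intro w w' hC hw
    have h2 := hagree (fun _ => w) (fun _ => w') (fun t ht =>
      hAf t ht (fun _ => w) (fun _ => w') (hC _ (by rw [hJ]; exact Finset.mem_image_of_mem _ ht)))
    exact h2.mp hw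
  have hform : ∀ B : Λ, ∃ θ : L.Formula (Fin 1), ∀ w : Sol Φ M,
      θ.Realize (fun _ => (w : M)) ↔ w ∈ W B := by
    intro B
    have h2 : BoolComb (basics W (Fin 1)) {v : Fin 1 → Sol Φ M | v 0 ∈ W B} := by
      refine BoolComb.basic _ ⟨fun _ => 1, B, ?_⟩
      ext v
      show v 0 ∈ W B ↔ lc (fun _ => (1 : F)) v ∈ W B
      rw [lc_fin1, one_smul]
    obtain ⟨θ, hθ⟩ := (hdef_iff Φ hd _).mpr h2
    exact ⟨θ, fun w => (hθ (fun _ => w)).symm⟩
  obtain ⟨Jn, hJn⟩ : ∃ Jn : Finset Λ, Jn = J.filter (fun C => b ∉ W C) := ⟨_, rfl⟩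
  obtain ⟨A, hA⟩ : ∃ A : Λ, A = (J.filter (fun C => b ∈ W C)).inf id := ⟨_, rfl⟩
  have hbA : b ∈ W A := by
    rw [hA, hW.mem_finset_inf]
    intro C hC
    exact (Finset.mem_filter.mp hC).2
  have hnJ : ∀ C ∈ Jn, b ∉ W C := by
    intro C hC
    rw [hJn] at hC
    exact (Finset.mem_filter.mp hC).2
  have star : ∀ w ∈ W A, (∀ C ∈ Jn, w ∉ W C) → ∀ B, (w ∈ W B ↔ b ∈ W B) := by
    intro w hwA hwn B
    have hψw : ψ.Realize (fun _ => (w : M)) := by
      refine key b w (fun C hC => ?_) hψb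
      by_cases hbC : b ∈ W C
      · refine ⟨fun _ => ?_, fun _ => hbC⟩
        rw [hA, hW.mem_finset_inf] at hwA
        exact hwA C (Finset.mem_filter.mpr ⟨hC, hbC⟩)
      · refine ⟨fun h' => absurd h' hbC, fun h' => absurd h' ?_⟩
        exact hwn C (by rw [hJn]; exact Finset.mem_filter.mpr ⟨hC, hbC⟩)
    obtain ⟨θ, hθ⟩ := hform B
    constructor
    · intro hwB
      by_contra hbB
      have h3 := hψ w hψw θ.not (by
        rw [Formula.realize_not, hθ b]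
        exact hbB)
      rw [Formula.realize_not, hθ w] at h3
      exact h3 hwB
    · intro hbB
      exact (hθ w).mp (hψ w hψw θ ((hθ b).mpr hbB))
  have hleast : ∀ B, b ∈ W B → A ≤ B := by
    intro B hB
    by_contra hAB
    obtain ⟨w, hwA, hw⟩ := avoid0 hW A (insert B Jn) (by
      intro C hC hAC
      rcases Finset.mem_insert.mp hC with rfl | hC
      · exact hAB hAC
      · exact hnJ C hC (hW.mono hAC hbA))
    have h4 := star w hwA (fun C hC => hw C (Finset.mem_insert_of_mem hC)) B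
    exact hw B (Finset.mem_insert_self B Jn) (h4.mpr hB)
  refine ⟨A, ⟨hbA, hleast⟩, Jn.image (fun C => C ⊓ A), ?_, ?_⟩
  · intro D hD
    obtain ⟨C, hC, rfl⟩ := Finset.mem_image.mp hD
    exact inf_lt_right.mpr (fun hAC => hnJ C hC (hW.mono hAC hbA))
  · intro B hBA
    by_contra hcon
    push Not at hcon
    obtain ⟨w, hwB, hw⟩ := avoid0 hW B Jn (by
      intro C hC hBC
      exact hcon (C ⊓ A) (Finset.mem_image_of_mem _ hC) (le_inf hBC hBA.le))
    have h5 := (star w (hW.mono hBA.le hwB) hw B).mp hwB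
    exact absurd (hleast B h5) (not_le_of_gt hBA)

end TAU
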