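import Pool.Agent.TAU.Defs

/-! Project TAU, module TAU-CntF: a family of continuum many pairwise non-isomorphic countable
models gives `numModels = 2^ℵ₀` (at least).

PROOF.  `N S` is countably infinite; choose a bijection `e S : N S ≃ ℕ` and transport the structure
(`Equiv.inducedStructure`, `Equiv.inducedStructureEquiv : M ≃[L] N`).  The transported structure is
a model of `T` (`FirstOrder.Language.Equiv.theory_model`).  The map
`Set ℕ → Quotient (isoSetoid L T)` is injective by `h` (compose the isomorphisms), so
`𝔠 = #(Set ℕ) ≤ numModels L T` (`Cardinal.mk_set`, `Cardinal.two_power_aleph0`,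
`Cardinal.mk_le_of_injective`). -/

namespace TAU

open FirstOrder FirstOrder.Language

variable {L : FirstOrder.Language.{0, 0}}

theorem not_few_family (T : L.Theory) (N : Set ℕ → Type) [inst : ∀ S, L.Structure (N S)]
    (hc : ∀ S, Countable (N S)) (hi : ∀ S, Infinite (N S)) (hT : ∀ S, N S ⊨ T)
    (h : ∀ S S', Nonempty (N S ≃[L] N S') → S = S') :
    Cardinal.continuum ≤ numModels L T := by
  have e : ∀ S, N S ≃ ℕ := fun S => (nonempty_equiv_of_countable (α := N S) (β := ℕ)).some
  have hst : ∀ S, ∃ s : {S : L.Structure ℕ // @Theory.Model L ℕ S T},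
      Nonempty (@Language.Equiv L (N S) ℕ _ s.1) := by
    intro S
    have hT' := hT S
    exact ⟨⟨(e S).inducedStructure, @StrongHomClass.theory_model L (N S) ℕ _
      (e S).inducedStructure T _ _ _ (e S).inducedStructureEquiv hT'⟩,
      ⟨(e S).inducedStructureEquiv⟩⟩
  choose s hs using hst
  have hinj : Function.Injective fun S => (Quotient.mk (isoSetoid L T) (s S)) := by
    intro S S' hSS
    have h1 : (isoSetoid L T).r (s S) (s S') := Quotient.exact hSS
    obtain ⟨f⟩ := h1
    obtain ⟨g⟩ := hs S
    obtain ⟨g'⟩ := hs S'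
    refine h S S' ⟨?_⟩
    letI i1 := (s S).1
    exact @Language.Equiv.comp L (N S) ℕ _ (s S').1 (N S') _ (@Language.Equiv.symm L _ _ _ (s S').1 g')
      (@Language.Equiv.comp L (N S) ℕ _ (s S).1 ℕ (s S').1 f g)
  have h2 := Cardinal.mk_le_of_injective hinj
  rw [Cardinal.mk_set, Cardinal.mk_nat, Cardinal.two_power_aleph0] at h2
  exact h2

end TAU
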