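import Pool.Agent.TAU.Spec

/-! Project TAU, module TAU-Good: isolated points of the spectrum and representing pairs.

* `good_isOpen`: `{x} = hat A \ hat C` for `A`, `C` as in `Pt.Good x`.
* `isOpen_iff_pair`: `{y}` open: `nhd_basis` gives `A, B`; take `C = A ⊓ B`.
* `exists_pair_of_min`: `hat A \ {y}` is clopen and an upper set, so it is `hat C`.
* `pair_change`: all inclusions are checked on points of the spectrum (`hat_subset_iff`).
* `exists_rep`: let `b ∈ W A'` with `y ∈ Mn (hat A')`, and let `(A', C')` be a pair.  `A' ≤ (A ⊓ A') ⊔ C'`, so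
  `b = b1 + b2` with `b1 ∈ W (A ⊓ A') ≤ W A`, `b2 ∈ W C' ≤ Vm W y`.
* `mem_W_Vm`: `b ∈ W A` and `b ∈ Vm W y`: `b ∈ W B`, `B ∉ y`, so `b ∈ W (A ⊓ B) ≤ W C`. -/

namespace TAU

section
variable {Λ : Type} [DistribLattice Λ] [BoundedOrder Λ]

private theorem sing_eq {y : Pt Λ} {A C : Λ} (hA : y.mem A) (hC : ¬ y.mem C)
    (h : ∀ z : Pt Λ, z.mem A → ¬ z.mem C → z = y) : ({y} : Set (Pt Λ)) = hat A \ hat C := by
  ext z
  constructor
  · intro hz
    rw [Set.mem_singleton_iff.1 hz]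
    exact ⟨hA, hC⟩
  · rintro ⟨h1, h2⟩
    exact h z h1 h2

private theorem sing_open {y : Pt Λ} {A C : Λ} (hA : y.mem A) (hC : ¬ y.mem C)
    (h : ∀ z : Pt Λ, z.mem A → ¬ z.mem C → z = y) : IsOpen ({y} : Set (Pt Λ)) := by
  rw [sing_eq hA hC h]
  exact (isClopen_hat A).isOpen.sdiff (isClopen_hat C).isClosed

theorem good_isOpen {x : Pt Λ} (h : x.Good) : IsOpen ({x} : Set (Pt Λ)) := by
  obtain ⟨A, hA, hmin, C, hCA, hC⟩ := h
  refine sing_open hA (C := C) (fun hc => not_le_of_gt hCA (hmin C hc)) fun z hzA hzC => ?_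
  refine le_antisymm (fun B hB => ?_) (fun B hB => z.mem_of_le hzA (hmin B hB))
  by_contra hxB
  have h1 : ¬ A ≤ B := fun hAB => hxB (x.mem_of_le hA hAB)
  have h2 : A ⊓ B < A := inf_lt_left.2 h1
  exact hzC (z.mem_of_le (z.mem_inf.2 ⟨hzA, hB⟩) (hC _ h2))

theorem good_princ {x : Pt Λ} (h : x.Good) : x.Princ := by
  obtain ⟨A, hA, hmin, -⟩ := h
  exact ⟨A, hA, hmin⟩

theorem isOpen_iff_pair {y : Pt Λ} : IsOpen ({y} : Set (Pt Λ)) ↔ ∃ A C, Pair y A C := by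
  constructor
  · intro h
    obtain ⟨A, B, hA, hB, hz⟩ := nhd_basis h (Set.mem_singleton y)
    refine ⟨A, A ⊓ B, hA, fun h1 => hB (y.mem_inf.1 h1).2, inf_le_left, fun z hzA hzC => ?_⟩
    exact hz z hzA fun hzB => hzC (z.mem_inf.2 ⟨hzA, hzB⟩)
  · rintro ⟨A, C, hA, hC, -, hz⟩
    exact sing_open hA hC hz

theorem Pair.min {y : Pt Λ} {A C : Λ} (h : Pair y A C) : y ∈ Mn (hat A) := by
  obtain ⟨hA, hC, -, hz⟩ := h
  exact ⟨hA, fun z hzA hzy => hz z hzA fun hzC => hC (hzy C hzC)⟩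

theorem Pair.le_of_notMem {y : Pt Λ} {A C B : Λ} (h : Pair y A C) (hB : ¬ y.mem B) :
    A ⊓ B ≤ C := by
  obtain ⟨-, -, -, hz⟩ := h
  refine hat_subset_iff.1 fun z hzAB => ?_
  have h1 := z.mem_inf.1 hzAB
  by_contra hzC
  have h2 := hz z h1.1 hzC
  rw [h2] at h1
  exact hB h1.2

theorem exists_pair_of_min {y : Pt Λ} {A : Λ} (ho : IsOpen ({y} : Set (Pt Λ)))
    (h : y ∈ Mn (hat A)) : ∃ C, Pair y A C := by
  have hcl : IsClopen (hat A \ {y}) := (isClopen_hat A).diff ⟨isClosed_singleton, ho⟩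
  have hup : IsUpperSet (hat A \ {y}) := by
    rintro z w hzw ⟨hzA, hzy⟩
    refine ⟨isUpperSet_hat A hzw hzA, fun hwy => hzy ?_⟩
    rw [Set.mem_singleton_iff.1 hwy] at hzw
    exact Set.mem_singleton_iff.2 (h.2 z hzA hzw)
  obtain ⟨C, hC⟩ := clopen_upper hcl hup
  refine ⟨C, h.1, fun hyC => ?_, hat_subset_iff.1 fun z hz => ?_, fun z hzA hzC => ?_⟩
  · have h1 : y ∈ hat A \ {y} := by
      rw [hC]
      exact hyC
    exact h1.2 rfl
  · rw [← hC] at hz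
    exact hz.1
  · by_contra hne
    have h1 : z ∈ hat A \ {y} := ⟨hzA, hne⟩
    rw [hC] at h1
    exact hzC h1

private theorem pc1 {y : Pt Λ} {A C A' C' : Λ} (h : Pair y A C) (h' : Pair y A' C') :
    A ⊓ A' ⊓ C ≤ C' := by
  refine hat_subset_iff.1 fun z hz => ?_
  have h1 := z.mem_inf.1 hz
  have h2 := z.mem_inf.1 h1.1
  by_contra hzC
  have h3 := h'.2.2.2 z h2.2 hzC
  rw [h3] at h1
  exact h.2.1 h1.2

theorem pair_change {y : Pt Λ} {A C A' C' : Λ} (h : Pair y A C) (h' : Pair y A' C') :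
    A ⊓ A' ⊓ C = A ⊓ A' ⊓ C' ∧ A ≤ A ⊓ A' ⊔ C ∧ A' ≤ A ⊓ A' ⊔ C' := by
  refine ⟨le_antisymm (le_inf inf_le_left (pc1 h h')) (le_inf inf_le_left ?_), ?_, ?_⟩
  · have h1 := pc1 h' h
    rwa [inf_comm A' A] at h1
  · refine hat_subset_iff.1 fun z hz => ?_
    refine z.mem_sup.2 ?_
    by_cases hzC : z.mem C
    · exact Or.inr hzC
    · left
      rw [h.2.2.2 z hz hzC]
      exact y.mem_inf.2 ⟨h.1, h'.1⟩
  · refine hat_subset_iff.1 fun z hz => ?_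
    refine z.mem_sup.2 ?_
    by_cases hzC : z.mem C'
    · exact Or.inr hzC
    · left
      rw [h'.2.2.2 z hz hzC]
      exact y.mem_inf.2 ⟨h.1, h'.1⟩

/-- A principal filter is the least point of a clopen upper set. -/
theorem princ_hat {x : Pt Λ} (h : x.Princ) : ∃ A, x.mem A ∧ ∀ z : Pt Λ, z.mem A ↔ x ≤ z := by
  obtain ⟨A, hA, hmin⟩ := h
  exact ⟨A, hA, fun z => ⟨fun hz B hB => z.mem_of_le hz (hmin B hB), fun h => h A hA⟩⟩

end

section
variable {F Λ V : Type} [Field F] [DistribLattice Λ] [BoundedOrder Λ] [AddCommGroup V]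
  [Module F V] {W : Λ → Submodule F V}

theorem exists_rep (hW : LatSpace W) {y : Pt Λ} {A C : Λ} (h : Pair y A C) {b : V}
    (hb : b ∈ Kx W y) : ∃ b1 ∈ W A, b - b1 ∈ Vm W y ∧ ∃ A', b ∈ W A' ∧ b1 ∈ W A' := by
  obtain ⟨A', hbA', hmin⟩ := hb
  obtain ⟨C', h'⟩ := exists_pair_of_min (isOpen_iff_pair.2 ⟨A, C, h⟩) hmin
  have h1 := (pair_change h h').2.2
  obtain ⟨a, ha, c, hc, hac⟩ := hW.exists_add (hW.mono h1 hbA')
  refine ⟨a, hW.mono inf_le_left ha, ?_, A', hbA', hW.mono inf_le_right ha⟩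
  rw [← hac, add_sub_cancel_left]
  exact (mem_Vm hW).2 ⟨C', h'.2.1, hc⟩

theorem mem_W_Vm (hW : LatSpace W) {y : Pt Λ} {A C : Λ} (h : Pair y A C) {b : V}
    (hb : b ∈ W A) : b ∈ Vm W y ↔ b ∈ W C := by
  rw [mem_Vm hW]
  constructor
  · rintro ⟨B, hB, hbB⟩
    exact hW.mono (h.le_of_notMem hB) (hW.mem_inf.2 ⟨hb, hbB⟩)
  · intro hbC
    exact ⟨C, h.2.1, hbC⟩

end

end TAU
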