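import Pool.Agent.TAU.Neu
import Pool.Agent.TAU.Good

/-! Project TAU, module TAU-Vs: adding to a lattice space one line for each `x i`, `i ∈ S`.

`extW W x S A` is the set of the `(v, f)`, `f : S →₀ F`, with `v ∈ W A` and `A ∈ x i` for all `i`
in the support of `f`. -/

namespace TAU

variable {F Λ V : Type} [Field F] [DistribLattice Λ] [BoundedOrder Λ] [AddCommGroup V]
  [Module F V]

/-- The lattice space `V ⊕ ⊕_{i ∈ S} F`. -/
def extW (W : Λ → Submodule F V) (x : ℕ → Pt Λ) (S : Set ℕ) (A : Λ) :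
    Submodule F (V × (S →₀ F)) where
  carrier := {p | p.1 ∈ W A ∧ ∀ i : S, p.2 i ≠ 0 → (x i).mem A}
  add_mem' := by
    rintro ⟨v, f⟩ ⟨w, g⟩ ⟨h1, h2⟩ ⟨h3, h4⟩
    refine ⟨(W A).add_mem h1 h3, fun i hi => ?_⟩
    by_cases hf : f i = 0
    · refine h4 i fun hg => hi ?_
      simpa [hf] using hg
    · exact h2 i hf
  zero_mem' := ⟨(W A).zero_mem, fun i hi => absurd rfl hi⟩
  smul_mem' := by
    rintro a ⟨v, f⟩ ⟨h1, h2⟩
    refine ⟨(W A).smul_mem a h1, fun i hi => h2 i fun hf => hi ?_⟩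
    show a • f i = 0
    rw [hf, smul_zero]

variable {W : Λ → Submodule F V}

private theorem vs_mem {x : ℕ → Pt Λ} {S : Set ℕ} {A : Λ} {p : V × (S →₀ F)} :
    p ∈ extW W x S A ↔ p.1 ∈ W A ∧ ∀ i : S, p.2 i ≠ 0 → (x i).mem A := Iff.rfl

theorem extW_lat (hW : LatSpace W) (x : ℕ → Pt Λ) (S : Set ℕ) : LatSpace (extW W x S) := by
  classical
  have hmono : ∀ A B : Λ, A ≤ B → extW W x S A ≤ extW W x S B := fun A B h p hp =>
    ⟨hW.mono h hp.1, fun i hi => (x i).mem_of_le (hp.2 i hi) h⟩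
  refine ⟨?_, ?_, ?_, ?_, ?_⟩
  · rw [eq_bot_iff]
    rintro ⟨v, f⟩ ⟨h1, h2⟩
    have hv : v = 0 := hW.mem_bot.1 h1
    have hf : f = 0 := by
      ext i
      by_contra hi
      exact (x i).not_mem_bot (h2 i hi)
    rw [hv, hf]
    exact Submodule.zero_mem _
  · rw [eq_top_iff]
    rintro ⟨v, f⟩ _
    exact ⟨hW.mem_top v, fun i _ => (x i).mem_top⟩
  · intro A B
    ext ⟨v, f⟩
    rw [Submodule.mem_inf, vs_mem, vs_mem, vs_mem]
    constructor
    · rintro ⟨h1, h2⟩
      have h3 := hW.mem_inf.1 h1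
      exact ⟨⟨h3.1, fun i hi => ((x i).mem_inf.1 (h2 i hi)).1⟩,
        ⟨h3.2, fun i hi => ((x i).mem_inf.1 (h2 i hi)).2⟩⟩
    · rintro ⟨⟨h1, h2⟩, ⟨h3, h4⟩⟩
      exact ⟨hW.mem_inf.2 ⟨h1, h3⟩, fun i hi => (x i).mem_inf.2 ⟨h2 i hi, h4 i hi⟩⟩
  · intro A B
    apply le_antisymm
    · rintro ⟨v, f⟩ ⟨h1, h2⟩
      obtain ⟨a, ha, b, hb, hab⟩ := hW.exists_add h1
      have h3 : ((v, f) : V × (S →₀ F)) =
          (a, f.filter fun i : S => (x i).mem A) + (b, f.filter fun i : S => ¬ (x i).mem A) := by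
        rw [Prod.mk_add_mk, Finsupp.filter_add_filter_not, hab]
      rw [h3]
      refine Submodule.add_mem_sup ⟨ha, fun i hi => ?_⟩ ⟨hb, fun i hi => ?_⟩
      · by_contra hA
        exact hi (Finsupp.filter_apply_neg _ f hA)
      · have hA : ¬ (x i).mem A := by
          intro hA
          exact hi (Finsupp.filter_apply_neg (fun i : S => ¬ (x i).mem A) f (not_not.2 hA))
        have hfi : f i ≠ 0 := by
          intro h0
          apply hi
          show (f.filter fun i : S => ¬ (x i).mem A) i = 0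
          rw [Finsupp.filter_apply_pos (fun i : S => ¬ (x i).mem A) f hA, h0]
        rcases (x i).mem_sup.1 (h2 i hfi) with h | h
        · exact absurd h hA
        · exact h
    · exact sup_le (hmono _ _ le_sup_left) (hmono _ _ le_sup_right)
  · intro A B hAB
    have h1 := hW.index A B hAB
    have h2 : (W A).toAddSubgroup =
        (extW W x S A).toAddSubgroup.comap (AddMonoidHom.inl V (S →₀ F)) := by
      ext v
      constructor
      · intro hv
        exact ⟨hv, fun i hi => absurd rfl hi⟩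
      · intro hv
        exact hv.1
    rw [h2, AddSubgroup.relIndex_comap] at h1
    refine AddSubgroup.relIndex_eq_zero_of_le_right ?_ h1
    rintro _ ⟨v, hv, rfl⟩
    exact ⟨hv, fun i hi => absurd rfl hi⟩

theorem extW_type (hW : LatSpace W) (hA : Atom1 W) {x : ℕ → Pt Λ} (hx : Function.Injective x)
    (hbad : ∀ i, ¬ (x i).Good) (S : Set ℕ) (j : ℕ) :
    j ∈ S ↔ ∃ p : V × (S →₀ F), ∀ A, p ∈ extW W x S A ↔ (x j).mem A := by
  classical
  constructor
  · intro hj
    refine ⟨(0, Finsupp.single ⟨j, hj⟩ 1), fun A => ?_⟩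
    rw [vs_mem]
    constructor
    · rintro ⟨_, h⟩
      exact h ⟨j, hj⟩ (by
        show (Finsupp.single (⟨j, hj⟩ : S) (1 : F)) ⟨j, hj⟩ ≠ 0
        rw [Finsupp.single_eq_same]
        exact one_ne_zero)
    · intro h
      refine ⟨(W A).zero_mem, fun i hi => ?_⟩
      by_cases hij : i = ⟨j, hj⟩
      · rw [hij]
        exact h
      · exact absurd (Finsupp.single_eq_of_ne hij) hi
  · rintro ⟨⟨v, f⟩, hp⟩
    obtain ⟨A0, ⟨h1, h2⟩, T, hT1, hT2⟩ := hA v
    have hmem : ∀ A, (x j).mem A ↔ A0 ≤ A ∧ ∀ i : S, f i ≠ 0 → (x i).mem A := by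
      intro A
      rw [← hp A, vs_mem]
      constructor
      · rintro ⟨h3, h4⟩
        exact ⟨h2 A h3, h4⟩
      · rintro ⟨h3, h4⟩
        exact ⟨hW.mono h3 h1, h4⟩
    by_contra hj
    have hD : ∀ i : S, ∃ D, f i ≠ 0 → (x i).mem D ∧ ¬ (x j).mem D := by
      intro i
      by_contra hcon
      push Not at hcon
      have hne : f i ≠ 0 := (hcon ⊤).1
      have h3 : x i = x j := by
        apply le_antisymm
        · intro D hDi
          exact (hcon D).2 hDi
        · intro D hDj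
          exact ((hmem D).1 hDj).2 i hne
      exact hj (by rw [← hx h3]; exact i.2)
    choose D hD using hD
    by_cases hA0 : (x j).mem A0
    · apply hbad j
      have hge : ∀ B, (x j).mem B → A0 ≤ B := fun B hB => ((hmem B).1 hB).1
      refine ⟨A0, hA0, hge, T.sup id, ?_, ?_⟩
      · refine lt_of_le_of_ne (Finset.sup_le fun C hC => (hT1 C hC).le) ?_
        intro h
        rw [← h] at hA0
        obtain ⟨C, hC, hCm⟩ := ((x j).mem_finset_sup T id).1 hA0
        exact (hT1 C hC).not_ge (hge C hCm)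
      · intro B hB
        obtain ⟨C, hC, hBC⟩ := hT2 B hB
        exact hBC.trans (Finset.le_sup (f := id) hC)
    · have h3 : (x j).mem (A0 ⊔ f.support.sup D) := by
        rw [hmem]
        refine ⟨le_sup_left, fun i hi => ?_⟩
        have h4 : D i ≤ A0 ⊔ f.support.sup D :=
          (Finset.le_sup (Finsupp.mem_support_iff.2 hi)).trans le_sup_right
        exact (x i).mem_of_le (hD i hi).1 h4
      rcases (x j).mem_sup.1 h3 with h | h
      · exact hA0 h
      · obtain ⟨i, hi, him⟩ := ((x j).mem_finset_sup f.support D).1 h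
        exact (hD i (Finsupp.mem_support_iff.1 hi)).2 him

end TAU
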