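import Pool.Agent.TAU.Ms
import Pool.Agent.TAU.Vs
import Pool.Agent.TAU.CntF

/-! Project TAU, module TAU-BadFin: few models imply that only finitely many prime filters are not
good.

PROOF.  Suppose that `{x | ¬ x.Good}` is infinite; choose an injective sequence
`x : ℕ → Pt Λ` of points which are not good (`Set.Infinite.natEmbedding`).  For `S : Set ℕ` let
`V' S = Sol Φ M × (S →₀ F)` (countable: `M` is countable, `F` is finite), `W' S = extW W x S`, a
lattice space by `extW_lat`; let `N S`, `e S` be given by `model_of_space` (use `choose`, or work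
with the structure as a sigma type).  `N S` is a countable model of `completeTheory M`; it is
infinite since `M` is infinite (or since `e S` is injective and `V' S` is infinite).
Apply `not_few_family`.  Let `f : N S ≃[L] N S'` and `j ∈ S`; show `j ∈ S'`.  For `A : Λ` let `φ A`
be a formula in the variable `Fin 1` which is equivalent on `Sol Φ M` to
`BF.basic (fun _ => 1) A` (`hdef_formula`).  By the last clause of `model_of_space`
`(φ A).Realize (fun _ => e S p) ↔ p ∈ W' S A` (`lc (fun _ => 1) (fun _ => p) = p`).  By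
`extW_type` there is `p` with `p ∈ W' S A ↔ A ∈ x j` for all `A`.  `f (e S p)` satisfies `Φ` (as
`e S p` does and `f` is an isomorphism), so it is `e S' p'` for some `p'`, and
`p' ∈ W' S' A ↔ (φ A).Realize (f (e S p)) ↔ (φ A).Realize (e S p) ↔ A ∈ x j`
(`Equiv.realize_formula`).  So `j ∈ S'` by `extW_type`.  By symmetry `S = S'`. -/

namespace TAU

open FirstOrder FirstOrder.Language

variable {L : FirstOrder.Language.{0, 0}} {M : Type} [L.Structure M] (Φ : L.Formula (Fin 1))
  {F Λ : Type} [Field F] [DistribLattice Λ] [BoundedOrder Λ] [AddCommGroup (Sol Φ M)]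
  [Module F (Sol Φ M)]

private theorem lc_one {V : Type} [AddCommGroup V] [Module F V] (p : V) :
    lc (fun _ : Fin 1 => (1 : F)) (fun _ => p) = p := by
  unfold lc
  simp

theorem bad_fin (hL : L.card ≤ Cardinal.aleph0) [Infinite M] [Countable M] [Finite F]
    {W : Λ → Submodule F (Sol Φ M)} (hW : LatSpace W) (hA : Atom1 W) (hd : HDef Φ W)
    (hfew : numModels L (L.completeTheory M) < Cardinal.continuum) :
    {x : Pt Λ | ¬ x.Good}.Finite := by
  by_contra hfin
  have hinf : {x : Pt Λ | ¬ x.Good}.Infinite := hfin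
  haveI : Countable F := Finite.to_countable
  let x : ℕ → Pt Λ := fun n => (hinf.natEmbedding _ n).1
  have hx : Function.Injective x := fun a b hab =>
    (hinf.natEmbedding _).injective (Subtype.ext hab)
  have hbad : ∀ i, ¬ (x i).Good := fun i => (hinf.natEmbedding _ i).2
  choose N inst hne hc e hT hinj hsol htr using fun S : Set ℕ =>
    model_of_space Φ hL hW hd (Sol Φ M × (S →₀ F)) (extW_lat hW x S)
  choose φ hφ using fun A : Λ => hdef_formula Φ hd (BF.basic (fun _ : Fin 1 => (1 : F)) A)
  have hmem : ∀ (S : Set ℕ) (A : Λ) (p : Sol Φ M × (S →₀ F)),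
      (@Formula.Realize L (N S) (inst S) (Fin 1) (φ A) fun _ => e S p) ↔ p ∈ extW W x S A := by
    intro S A p
    have h1 := htr S 1 (φ A) _ (hφ A) (fun _ => p)
    rw [h1]
    show lc (fun _ : Fin 1 => (1 : F)) (fun _ => p) ∈ extW W x S A ↔ _
    rw [lc_one]
  have key : ∀ S S' : Set ℕ, Nonempty (@FirstOrder.Language.Equiv L (N S) (N S') (inst S) (inst S')) →
      ∀ j ∈ S, j ∈ S' := by
    rintro S S' ⟨f⟩ j hj
    letI := inst S
    letI := inst S'
    obtain ⟨p, hp⟩ := (extW_type hW hA hx hbad S j).1 hj
    have h1 : Φ.Realize (fun _ => e S p) := (hsol S (e S p)).2 ⟨p, rfl⟩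
    have h2 : Φ.Realize (f ∘ fun _ => e S p) := (StrongHomClass.realize_formula f Φ).2 h1
    obtain ⟨p', hp'⟩ := (hsol S' (f (e S p))).1 h2
    refine (extW_type hW hA hx hbad S' j).2 ⟨p', fun A => ?_⟩
    rw [← hmem S' A p', ← hp A, ← hmem S A p, hp']
    exact StrongHomClass.realize_formula f (φ A)
  have hi : ∀ S, Infinite (N S) := by
    intro S
    letI := inst S
    have hM : M ⊨ L.infiniteTheory := L.model_infiniteTheory_iff.2 inferInstance
    rw [← L.model_infiniteTheory_iff]
    refine Theory.model_iff _ |>.2 fun σ hσ => ?_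
    exact (hT S).realize_of_mem σ ((mem_completeTheory).2 (hM.realize_of_mem σ hσ))
  have h := not_few_family (L.completeTheory M) N (inst := inst) hc hi hT
    (fun S S' hn => Set.Subset.antisymm (fun j hj => key S S' hn j hj)
      (fun j hj => key S' S (hn.elim fun f => ⟨@FirstOrder.Language.Equiv.symm L _ _ (inst S) (inst S') f⟩) j hj))
  exact absurd hfew (not_lt.2 h)

end TAU
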