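import Pool.Agent.TAU.LimA

/-! Project TAU, module TAU-LimB: closed upper sets of the spectrum have finitely many minimal
points.

PROOF of `min_fin`.  Let `Z` be a closed upper set and suppose that `Mn Z` is infinite; take an
injective sequence `z` in `Mn Z`.  It is an antichain: `z i ≤ z j` implies `z i = z j` by
minimality of `z j`.  The space is compact, so the infinite set `Mn Z` has an accumulation point
`x` (every neighbourhood of `x` contains infinitely many points of `range z`:
`Set.Infinite.exists_accPt_of_subset_isCompact` or similar), `x ∈ Z` as `Z` is closed, and `x` is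
not isolated.  Let `N` be as in `lim_nbhd`.  The set `{i | z i ∈ N, z i ≠ x}` is infinite; pass to
the subsequence (`Nat.orderEmbeddingOfSet` / `Set.Infinite.natEmbedding`).  Then for each `B ∈ x`
all but finitely many `z i` contain `B` (`conv_of_nbhd` with `O = hat B`).  And `¬ x ≤ z i`:
otherwise `x ∈ Z` and minimality of `z i` give `x = z i`.  So it is a `BadSeq`: contradiction.
`specFin` collects `lim_fin`, `lim_nbhd`, `min_fin`. -/

namespace TAU

variable {Λ : Type} [DistribLattice Λ] [BoundedOrder Λ]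

private theorem min_fin (hbad : {x : Pt Λ | ¬ x.Good}.Finite)
    (hanti : ∀ (x : Pt Λ) (z : ℕ → Pt Λ), ¬ BadSeq x z) (Z : Set (Pt Λ)) (hZ : IsClosed Z) :
    (Mn Z).Finite := by
  by_contra hinf
  obtain ⟨x, hx⟩ := Set.Infinite.exists_accPt_principal (s := Mn Z) hinf
  have hxZ : x ∈ Z := by
    have h1 : x ∈ closure Z :=
      closure_mono (fun z hz => hz.1) (mem_closure_iff_clusterPt.2 (AccPt.clusterPt hx))
    rwa [hZ.closure_eq] at h1
  obtain ⟨N, hN, hxN, hNz⟩ := lim_nbhd hbad hanti x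
  have hA : ((Mn Z ∩ N) \ {x}).Infinite := by
    intro hfin
    have hU : N \ ((Mn Z ∩ N) \ {x}) ∈ nhds x :=
      (hN.isOpen.sdiff hfin.isClosed).mem_nhds ⟨hxN, fun h => h.2 rfl⟩
    obtain ⟨y, ⟨hy1, hy2⟩, hy3⟩ := accPt_iff_nhds.1 hx _ hU
    exact hy1.2 ⟨⟨hy2, hy1.1⟩, hy3⟩
  refine hanti x (fun i => (hA.natEmbedding _ i).1) ⟨fun i h => ?_, fun i j hij h => ?_,
    fun B hB => ?_⟩
  · exact (hA.natEmbedding _ i).2.2 ((hA.natEmbedding _ i).2.1.1.2 x hxZ h).symm
  · refine hij ((hA.natEmbedding _).injective (Subtype.ext ?_))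
    exact (hA.natEmbedding _ j).2.1.1.2 _ (hA.natEmbedding _ i).2.1.1.1 h
  · have h1 := conv_of_nbhd hN (fun z hz hzx => (hNz z hz hzx).1) (isClopen_hat B).isOpen
      (show x ∈ hat B from hB)
    refine (h1.preimage (f := fun i => (hA.natEmbedding _ i).1) ?_).subset ?_
    · intro i _ j _ hij
      exact (hA.natEmbedding _).injective (Subtype.ext hij)
    · intro i hi
      exact ⟨(hA.natEmbedding _ i).2.1.2, hi⟩

theorem specFin (hbad : {x : Pt Λ | ¬ x.Good}.Finite)
    (hanti : ∀ (x : Pt Λ) (z : ℕ → Pt Λ), ¬ BadSeq x z) : SpecFin Λ :=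
  ⟨lim_fin hbad, lim_nbhd hbad hanti, fun Z hZ _ => min_fin hbad hanti Z hZ⟩

end TAU
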