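import Pool.Agent.TAU.Om1

/-! Project TAU, module TAU-CntT: continuum many pairwise contradictory types give continuum many
countable models.

PROOF of `not_few_types`.  Fix `S : Set ℕ`.  The set `p S ∪ {sentences true in M}` (as formulas in
the variables `κ`) is finitely satisfiable in `M` by `hfin`, so by `compact_formulas` (with
`C = κ`) it is realized by some `v : κ → N` in a structure `N : Type`, `N ⊨ completeTheory M`.
`N` is infinite (an elementarily equivalent structure of an infinite one; e.g.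
`ElementarilyEquivalent.infinite`).  By the downward Löwenheim-Skolem theorem
(`exists_elementarySubstructure_card_eq L (range v) ℵ₀`) there is a countable infinite elementary
substructure `N' ⊇ range v`; transport it to `ℕ` by a bijection.  So there are a structure
`𝒩 S` on `ℕ`, a model of `completeTheory M`, and `v S : κ → ℕ` realizing `p S` in it.
Consider `f : Set ℕ → Quotient (isoSetoid L T)`, `S ↦ [𝒩 S]`.  Every fibre of `f` is countable: let
`q` be a class with representative `𝒩`; for `S` in the fibre choose an isomorphism `g S` from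
`𝒩 S` to `𝒩`; the tuple `g S ∘ v S : κ → ℕ` determines `S` in the fibre (it realizes `p S` in `𝒩`;
if `S ≠ S'` had the same tuple, `hne` gives a formula which is true and false at it); there are
only countably many tuples `κ → ℕ` (`κ` finite).  Hence
`𝔠 = #(Set ℕ) ≤ #(Quotient) * ℵ₀` (`Cardinal.mk_le_mk_mul_of_mk_preimage_le` or an injection
`Set ℕ → Quotient × (κ → ℕ)`), so `𝔠 ≤ #(Quotient)` (if `#(Quotient) < 𝔠` then
`#(Quotient) * ℵ₀ ≤ max .. < 𝔠`, `Cardinal.mul_lt_of_lt`).

`not_few_patterns`: `p S = {θ i | i ∈ S} ∪ {(θ i).not | i ∉ S}`. -/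

namespace TAU

open FirstOrder FirstOrder.Language

variable {L : FirstOrder.Language.{0, 0}}

private theorem exists_nat_model (hL : L.card ≤ Cardinal.aleph0) (M : Type) [L.Structure M]
    [Infinite M] (κ : Type) [Finite κ] (P : Set (L.Formula κ))
    (hfin : ∀ Δ : Finset (L.Formula κ), (∀ φ ∈ Δ, φ ∈ P) → ∃ v : κ → M, ∀ φ ∈ Δ, φ.Realize v) :
    ∃ (S : {S : L.Structure ℕ // @Theory.Model L ℕ S (L.completeTheory M)}) (v : κ → ℕ),
      ∀ φ ∈ P, @Formula.Realize L ℕ S.1 κ φ v := by
  classical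
  obtain ⟨N, iN, neN, v, hv⟩ := compact_formulas
    (P ∪ {γ | ∃ σ ∈ L.completeTheory M, γ = Formula.relabel (Empty.elim : Empty → κ) σ}) (by
      intro Δ hΔ
      obtain ⟨w, hw⟩ := hfin (Δ.filter (fun φ => φ ∈ P))
        (fun φ hφ => (Finset.mem_filter.1 hφ).2)
      refine ⟨M, inferInstance, inferInstance, w, ?_⟩
      intro γ hγ
      rcases hΔ γ hγ with h | ⟨σ, hσ, rfl⟩
      · exact hw γ (Finset.mem_filter.2 ⟨hγ, h⟩)
      · rw [Formula.realize_relabel]
        have hσ' : M ⊨ σ := (mem_completeTheory).1 hσ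
        have : (w ∘ (Empty.elim : Empty → κ)) = default := Subsingleton.elim _ _
        rw [this]
        exact hσ')
  have hmod : ∀ σ ∈ L.completeTheory M, N ⊨ σ := by
    intro σ hσ
    have h := hv _ (Or.inr ⟨σ, hσ, rfl⟩)
    rw [Formula.realize_relabel] at h
    have : (v ∘ (Empty.elim : Empty → κ)) = default := Subsingleton.elim _ _
    rw [this] at h
    exact h
  have hEE : L.ElementarilyEquivalent M N := by
    rw [elementarilyEquivalent_iff]
    intro σ
    constructor
    · intro h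
      exact hmod σ (mem_completeTheory.2 h)
    · intro h
      by_contra hn
      have h1 : M ⊨ σ.not := (Sentence.realize_not M).2 hn
      exact (Sentence.realize_not N).1 (hmod _ (mem_completeTheory.2 h1)) h
  have hinf : Infinite N := hEE.infinite
  have hfr : (Set.range v).Finite := Set.finite_range v
  obtain ⟨S, hS, hcard⟩ := exists_elementarySubstructure_card_eq L (Set.range v) Cardinal.aleph0.{0}
    le_rfl (by
      rw [Cardinal.lift_id, Cardinal.lift_id]
      exact (Cardinal.lt_aleph0_iff_set_finite.2 hfr).le) (by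
      rw [Cardinal.lift_id, Cardinal.lift_id]; exact hL) (by
      rw [Cardinal.lift_id, Cardinal.lift_id]; exact Cardinal.aleph0_le_mk N)
  rw [Cardinal.lift_id, Cardinal.lift_id] at hcard
  obtain ⟨e⟩ : Nonempty (S ≃ ℕ) := Cardinal.eq.1 (hcard.trans Cardinal.mk_nat.symm)
  let iS : L.Structure ℕ := e.inducedStructure
  let E : S ≃[L] ℕ := e.inducedStructureEquiv
  have hST : (S : Type) ⊨ L.completeTheory M := by
    rw [ElementarySubstructure.theory_model_iff]
    exact (Theory.model_iff _).2 hmod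
  have hNT : ℕ ⊨ L.completeTheory M := (StrongHomClass.theory_model E)
  refine ⟨⟨iS, hNT⟩, fun k => E ⟨v k, hS ⟨k, rfl⟩⟩, ?_⟩
  intro φ hφ
  have h1 : φ.Realize v := hv φ (Or.inl hφ)
  have h2 : φ.Realize (fun k => (⟨v k, hS ⟨k, rfl⟩⟩ : S)) := by
    rw [← S.subtype.map_formula]
    exact h1
  exact (StrongHomClass.realize_formula E φ).2 h2

theorem not_few_types (hL : L.card ≤ Cardinal.aleph0) (M : Type) [L.Structure M] [Infinite M]
    (κ : Type) [Finite κ] (p : Set ℕ → Set (L.Formula κ))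
    (hfin : ∀ (S : Set ℕ) (Δ : Finset (L.Formula κ)), (∀ φ ∈ Δ, φ ∈ p S) →
      ∃ v : κ → M, ∀ φ ∈ Δ, φ.Realize v)
    (hne : ∀ S S', S ≠ S' → ∃ φ : L.Formula κ,
      (φ ∈ p S ∧ φ.not ∈ p S') ∨ (φ ∈ p S' ∧ φ.not ∈ p S)) :
    Cardinal.continuum ≤ numModels L (L.completeTheory M) := by
  classical
  have hA := fun S => exists_nat_model hL M κ (p S) (hfin S)
  choose 𝒩 v hv using hA
  let q : Set ℕ → Quotient (isoSetoid L (L.completeTheory M)) := fun S => Quotient.mk _ (𝒩 S)
  have hiso : ∀ S, Nonempty (@FirstOrder.Language.Equiv L ℕ ℕ (𝒩 S).1 (Quotient.out (q S)).1) := by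
    intro S
    have h : (isoSetoid L (L.completeTheory M)).r (Quotient.out (q S)) (𝒩 S) :=
      Quotient.mk_out (𝒩 S)
    exact (isoSetoid L (L.completeTheory M)).iseqv.symm h
  let g := fun S => Classical.choice (hiso S)
  let f : Set ℕ → Quotient (isoSetoid L (L.completeTheory M)) × (κ → ℕ) :=
    fun S => (q S, fun k => (@FirstOrder.Language.Equiv.toEquiv L ℕ ℕ (𝒩 S).1
      (Quotient.out (q S)).1 (g S)) (v S k))
  have hreal : ∀ S, ∀ φ ∈ p S, @Formula.Realize L ℕ (Quotient.out (f S).1).1 κ φ (f S).2 := by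
    intro S φ hφ
    exact (@StrongHomClass.realize_formula L ℕ ℕ (𝒩 S).1 (Quotient.out (q S)).1 κ _ _ _ (g S) φ
      (v S)).2 (hv S φ hφ)
  have hfi : Function.Injective f := by
    intro S S' hSS
    by_contra hne'
    obtain ⟨φ, h | h⟩ := hne S S' hne'
    · have h1 := hreal S φ h.1
      have h2 := hreal S' _ h.2
      rw [← hSS] at h2
      exact h2 h1
    · have h1 := hreal S' φ h.1
      have h2 := hreal S _ h.2
      rw [hSS] at h2
      exact h2 h1
  have hcard := Cardinal.mk_le_of_injective hfi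
  have h1 : Cardinal.mk (Set ℕ) = Cardinal.continuum := by
    rw [Cardinal.mk_set, Cardinal.mk_nat, Cardinal.two_power_aleph0]
  rw [h1, Cardinal.mk_prod, Cardinal.lift_id, Cardinal.lift_id] at hcard
  by_contra hlt
  rw [not_le] at hlt
  have h2 : Cardinal.mk (κ → ℕ) < Cardinal.continuum := by
    have : Countable (κ → ℕ) := inferInstance
    exact (Cardinal.mk_le_aleph0).trans_lt Cardinal.aleph0_lt_continuum
  exact absurd hcard (not_le.2 (Cardinal.mul_lt_of_lt Cardinal.aleph0_le_continuum hlt h2))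

theorem not_few_patterns (hL : L.card ≤ Cardinal.aleph0) (M : Type) [L.Structure M] [Infinite M]
    (κ : Type) [Finite κ] (θ : ℕ → L.Formula κ)
    (h : ∀ (n : ℕ) (S : Set ℕ), ∃ v : κ → M, ∀ i < n, (θ i).Realize v ↔ i ∈ S) :
    Cardinal.continuum ≤ numModels L (L.completeTheory M) := by
  classical
  refine not_few_types hL M κ (fun S => {φ | ∃ i, (i ∈ S ∧ φ = θ i) ∨ (i ∉ S ∧ φ = (θ i).not)})
    ?_ ?_
  · intro S Δ hΔ
    have hA : ∀ φ : L.Formula κ, ∃ i : ℕ, φ ∈ Δ → ((i ∈ S ∧ φ = θ i) ∨ (i ∉ S ∧ φ = (θ i).not)) := by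
      intro φ
      by_cases hφ : φ ∈ Δ
      · obtain ⟨i, hi⟩ := hΔ φ hφ
        exact ⟨i, fun _ => hi⟩
      · exact ⟨0, fun h => absurd h hφ⟩
    choose ix hix using hA
    obtain ⟨v, hv⟩ := h (Δ.sup ix + 1) S
    refine ⟨v, ?_⟩
    intro φ hφ
    have hlt : ix φ < Δ.sup ix + 1 := Nat.lt_succ_of_le (Finset.le_sup hφ)
    have h1 := hv (ix φ) hlt
    rcases hix φ hφ with h2 | h2
    · rw [h2.2]
      exact h1.2 h2.1
    · rw [h2.2, Formula.realize_not]
      exact fun h3 => h2.1 (h1.1 h3)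
  · intro S S' hSS
    have : ∃ i, ¬ (i ∈ S ↔ i ∈ S') := by
      by_contra hn
      exact hSS (Set.ext fun i => by
        by_contra hi
        exact hn ⟨i, hi⟩)
    obtain ⟨i, hi⟩ := this
    refine ⟨θ i, ?_⟩
    by_cases h1 : i ∈ S
    · have h2 : i ∉ S' := fun h2 => hi ⟨fun _ => h2, fun _ => h1⟩
      exact Or.inl ⟨⟨i, Or.inl ⟨h1, rfl⟩⟩, ⟨i, Or.inr ⟨h2, rfl⟩⟩⟩
    · have h2 : i ∈ S' := by
        by_contra h2
        exact hi ⟨fun h => absurd h h1, fun h => absurd h h2⟩
      exact Or.inr ⟨⟨i, Or.inl ⟨h2, rfl⟩⟩, ⟨i, Or.inr ⟨h1, rfl⟩⟩⟩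

end TAU
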