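import Pool.Agent.TAU.MD

/-! Project TAU, module TAU-Hd: the main hypothesis `HDef` for arbitrary finite index types.

`HDef Φ W`: the traces on `(Sol Φ M)^n` of the sets definable in `M` without parameters are exactly
the Boolean combinations of the basic conditions. -/

namespace TAU

open FirstOrder FirstOrder.Language

variable {L : FirstOrder.Language.{0, 0}} {M : Type} [L.Structure M] (Φ : L.Formula (Fin 1))
  {F Λ : Type} [Field F] [DistribLattice Λ] [BoundedOrder Λ] [AddCommGroup (Sol Φ M)]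
  [Module F (Sol Φ M)]

/-- The full induced structure on `Sol Φ M` is `(V; +, F, W A)`, with quantifier elimination. -/
def HDef (W : Λ → Submodule F (Sol Φ M)) : Prop :=
  ∀ (n : ℕ) (s : Set (Fin n → Sol Φ M)),
    (∃ φ : L.Formula (Fin n), ∀ v : Fin n → Sol Φ M, v ∈ s ↔ φ.Realize fun i => (v i : M)) ↔
      BoolComb (basics W (Fin n)) s

variable {W : Λ → Submodule F (Sol Φ M)} (hd : HDef Φ W)

omit [DistribLattice Λ] [BoundedOrder Λ] in
private theorem pre_reindex {ι κ : Type} [Fintype ι] [Fintype κ] (g : ι → κ)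
    {s : Set (ι → Sol Φ M)} (hs : BoolComb (basics W ι) s) :
    BoolComb (basics W κ) ((fun v : κ → Sol Φ M => fun i => v (g i)) ⁻¹' s) := by
  refine BoolComb.preimage _ ?_ hs
  rintro t ⟨μ, A, rfl⟩
  obtain ⟨ν, hν⟩ := lc_reindex g μ
  refine BoolComb.basic _ ⟨ν, A, ?_⟩
  ext v
  show lc μ (fun i => v (g i)) ∈ W A ↔ lc ν v ∈ W A
  rw [hν]

include hd

theorem hdef_iff {ι : Type} [Fintype ι] (s : Set (ι → Sol Φ M)) :
    (∃ φ : L.Formula ι, ∀ v : ι → Sol Φ M, v ∈ s ↔ φ.Realize fun i => (v i : M)) ↔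
      BoolComb (basics W ι) s := by
  let e : ι ≃ Fin (Fintype.card ι) := Fintype.equivFin ι
  let s' : Set (Fin (Fintype.card ι) → Sol Φ M) :=
    (fun w : Fin (Fintype.card ι) → Sol Φ M => fun i => w (e i)) ⁻¹' s
  have hss' : s = (fun v : ι → Sol Φ M => fun j => v (e.symm j)) ⁻¹' s' := by
    ext v
    show v ∈ s ↔ (fun i => v (e.symm (e i))) ∈ s
    simp only [Equiv.symm_apply_apply]
  constructor
  · rintro ⟨φ, hφ⟩
    have h1 : BoolComb (basics W (Fin (Fintype.card ι))) s' := by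
      refine (hd _ s').mp ⟨φ.relabel e, fun w => ?_⟩
      rw [Formula.realize_relabel]
      exact hφ (fun i => w (e i))
    rw [hss']
    exact pre_reindex Φ e.symm h1
  · intro h
    have h1 : BoolComb (basics W (Fin (Fintype.card ι))) s' := pre_reindex Φ e h
    obtain ⟨φ, hφ⟩ := (hd _ s').mpr h1
    refine ⟨φ.relabel e.symm, fun v => ?_⟩
    rw [Formula.realize_relabel]
    have h2 := hφ (fun j => v (e.symm j))
    have h3 : v ∈ s ↔ (fun j => v (e.symm j)) ∈ s' := by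
      conv_lhs => rw [hss']
      rfl
    exact h3.trans h2

theorem hdef_bf {ι : Type} [Fintype ι] (φ : L.Formula ι) :
    ∃ χ : BF F Λ ι, ∀ v : ι → Sol Φ M, (φ.Realize fun i => (v i : M)) ↔ χ.Real W v := by
  have h1 : BoolComb (basics W ι) {v : ι → Sol Φ M | φ.Realize fun i => (v i : M)} :=
    (hdef_iff Φ hd _).mp ⟨φ, fun v => Iff.rfl⟩
  obtain ⟨χ, hχ⟩ := boolComb_iff_bf.mp h1
  exact ⟨χ, hχ⟩

theorem hdef_formula {ι : Type} [Fintype ι] (χ : BF F Λ ι) :
    ∃ φ : L.Formula ι, ∀ v : ι → Sol Φ M, (φ.Realize fun i => (v i : M)) ↔ χ.Real W v := by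
  have h1 : BoolComb (basics W ι) {v : ι → Sol Φ M | χ.Real W v} :=
    boolComb_iff_bf.mpr ⟨χ, fun v => Iff.rfl⟩
  obtain ⟨φ, hφ⟩ := (hdef_iff Φ hd _).mpr h1
  exact ⟨φ, fun v => (hφ v).symm⟩

theorem mdef_basic {α ι : Type} [Fintype ι] (μ : ι → F) (A : Λ) :
    MDef (L := L) {p : (α → M) × (ι → Sol Φ M) | lc μ p.2 ∈ W A} := by
  have h1 : BoolComb (basics W ι) {v : ι → Sol Φ M | lc μ v ∈ W A} :=
    BoolComb.basic _ ⟨μ, A, rfl⟩
  obtain ⟨φ, hφ⟩ := (hdef_iff Φ hd _).mpr h1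
  refine ⟨φ.relabel Sum.inr, fun x v => ?_⟩
  rw [Formula.realize_relabel]
  exact hφ v

theorem bool_of_mdef {α ι : Type} [IsEmpty α] [Fintype ι] {s : Set ((α → M) × (ι → Sol Φ M))}
    (hs : MDef (L := L) s) (x : α → M) : BoolComb (basics W ι) {v | (x, v) ∈ s} := by
  obtain ⟨φ, hφ⟩ := hs
  refine (hdef_iff Φ hd _).mp ⟨φ.relabel (Equiv.emptySum α ι), fun v => ?_⟩
  rw [Formula.realize_relabel]
  have h1 : (fun i => (v i : M)) ∘ (Equiv.emptySum α ι) = Sum.elim x fun i => (v i : M) := by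
    funext i
    rcases i with a | i
    · exact isEmptyElim a
    · rfl
  rw [h1]
  exact hφ x v

theorem trSys_lin {α : Type} (c : α → M) : (trSys Φ c).Lin W := by
  intro ι _ μ A
  exact trSys_of_mdef Φ c (mdef_basic (α := α) Φ hd μ A)

end TAU
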