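import Pool.Agent.TAU.Gen2
import Pool.Agent.TAU.Hd

/-! Project TAU, module TAU-PatR: existence of `c'` with prescribed algebraic subspaces.

PROOF.  Let `R` be the set of the `v : κ → Sol Φ M` for which there is `c' : α → M` with
`∀ i w, (c', fun _ => w) ∈ t i ↔ ∃ l, (∀ k, l k ≠ 0 → k ∈ K i) ∧ w - lc l v ∈ W (C i)`.
`R` is a Boolean combination of basic conditions: by `bool_of_mdef` (with `α := Empty`) it suffices
that `{(x, v) | v ∈ R}` is `MDef`; use `MDef.exM` (over `α → M`), `fin_all` over `i : Fin n`,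
`allQ` over `w` (`Unit → Sol Φ M`), the Boolean operations, `comap`, `fin_ex` over the finitely
many `l : κ → F` with support in `K i`, and `mdef_basic` (`w - lc l v` is a linear combination of
the tuple `Sum.elim v w`, `lc_elim`).
`R` is invariant: if `u k ∈ W (pC (pt k))` for all `k` then for `l` supported on `K i`:
`lc l (v + u) - lc l v = lc l u ∈ W (C i)` by `hKC`, so the condition is the same for `v` and
`v + u` (same `c'`).
`b ∈ R` with `c' = c` by `hT`.  Apply `gen_inv`. -/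

namespace TAU

open FirstOrder FirstOrder.Language

variable {L : FirstOrder.Language.{0, 0}} {M : Type} [L.Structure M] (Φ : L.Formula (Fin 1))
  {F Λ : Type} [Field F] [DistribLattice Λ] [BoundedOrder Λ] [AddCommGroup (Sol Φ M)]
  [Module F (Sol Φ M)]

private theorem pr_lc_mem {κ : Type} [Fintype κ] (S : Submodule F (Sol Φ M)) (l : κ → F)
    (v : κ → Sol Φ M) (h : ∀ k, l k ≠ 0 → v k ∈ S) : lc l v ∈ S := by
  unfold lc
  apply Submodule.sum_mem
  intro k _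
  by_cases hk : l k = 0
  · rw [hk, zero_smul]
    exact S.zero_mem
  · exact S.smul_mem _ (h k hk)

/-- the pattern relation -/
private def prR (W : Λ → Submodule F (Sol Φ M)) {α : Type} (n : ℕ)
    (t : Fin n → Set ((α → M) × (Unit → Sol Φ M))) {κ : Type} [Fintype κ]
    (K : Fin n → Set κ) (C : Fin n → Λ) (x : α → M) (v : κ → Sol Φ M) : Prop :=
  ∀ (i : Fin n) (w : Sol Φ M), ((x, fun _ => w) : (α → M) × (Unit → Sol Φ M)) ∈ t i ↔
    ∃ l : κ → F, (∀ k, l k ≠ 0 → k ∈ K i) ∧ w - lc l v ∈ W (C i)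

private theorem pr_mdef [Finite F] {W : Λ → Submodule F (Sol Φ M)}
    (hd : HDef Φ W) {α : Type} (n : ℕ)
    (t : Fin n → Set ((α → M) × (Unit → Sol Φ M))) (ht : ∀ i, MDef (L := L) (t i))
    {κ : Type} [Fintype κ] (K : Fin n → Set κ) (C : Fin n → Λ) :
    MDef (L := L) {p : (α → M) × (κ → Sol Φ M) | prR Φ W n t K C p.1 p.2} := by
  have hB : ∀ i : Fin n, MDef (L := L) {q : (α → M) × (κ ⊕ Unit → Sol Φ M) |
      ∃ l : {l : κ → F // ∀ k, l k ≠ 0 → k ∈ K i},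
        q ∈ {q : (α → M) × (κ ⊕ Unit → Sol Φ M) |
          lc (Sum.elim (-l.1) (fun _ => (1 : F)) : κ ⊕ Unit → F) q.2 ∈ W (C i)}} :=
    fun i => MDef.fin_ex _ fun l => mdef_basic Φ hd _ _
  have hA : ∀ i : Fin n, MDef (L := L) {q : (α → M) × (κ ⊕ Unit → Sol Φ M) |
      ((fun a => q.1 (id a)), fun u => q.2 (Sum.inr u)) ∈ t i} :=
    fun i => MDef.comap id Sum.inr (ht i)
  have hD := fun i : Fin n =>
    MDef.allQ Φ (((hA i).inter (hB i)).union ((hA i).compl.inter (hB i).compl))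
  obtain ⟨φ, hφ⟩ := MDef.fin_all _ hD
  refine ⟨φ, fun x v => ?_⟩
  rw [← hφ x v]
  have hlc : ∀ (l : κ → F) (w : Unit → Sol Φ M),
      lc (Sum.elim (-l) (fun _ => (1 : F)) : κ ⊕ Unit → F) (Sum.elim v w) = w () - lc l v := by
    intro l w
    rw [lc_elim]
    have e0 : (fun k => (Sum.elim (-l) (fun _ => (1 : F)) : κ ⊕ Unit → F) (Sum.inl k)) = -l := rfl
    have e1 : (fun k => (Sum.elim (-l) (fun _ => (1 : F)) : κ ⊕ Unit → F) (Sum.inr k)) =
        fun _ => (1 : F) := rfl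
    rw [e0, e1]
    have e2 : lc (fun _ : Unit => (1 : F)) w = w () := by
      unfold lc
      rw [Fintype.sum_unique, one_smul]
    have e3 : lc (-l) v = - lc l v := by
      have := lc_sub_left (0 : κ → F) l v
      rw [zero_sub, lc_zero_left, zero_sub] at this
      exact this
    rw [e2, e3]
    abel
  have hBi : ∀ (i : Fin n) (w : Unit → Sol Φ M),
      ((x, Sum.elim v w) : (α → M) × (κ ⊕ Unit → Sol Φ M)) ∈
        {q : (α → M) × (κ ⊕ Unit → Sol Φ M) | ∃ l : {l : κ → F // ∀ k, l k ≠ 0 → k ∈ K i},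
          q ∈ {q : (α → M) × (κ ⊕ Unit → Sol Φ M) |
            lc (Sum.elim (-l.1) (fun _ => (1 : F)) : κ ⊕ Unit → F) q.2 ∈ W (C i)}} ↔
        ∃ l : κ → F, (∀ k, l k ≠ 0 → k ∈ K i) ∧ w () - lc l v ∈ W (C i) := by
    intro i w
    constructor
    · rintro ⟨⟨l, hl⟩, h⟩
      have h' : lc (Sum.elim (-l) (fun _ => (1 : F)) : κ ⊕ Unit → F) (Sum.elim v w) ∈ W (C i) := h
      rw [hlc] at h'
      exact ⟨l, hl, h'⟩
    · rintro ⟨l, hl, h⟩
      refine ⟨⟨l, hl⟩, ?_⟩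
      show lc (Sum.elim (-l) (fun _ => (1 : F)) : κ ⊕ Unit → F) (Sum.elim v w) ∈ W (C i)
      rw [hlc]
      exact h
  constructor
  · intro h i w
    have h1 := h i (w ())
    have h2 := hBi i w
    have h3 : (((x, fun _ => w ()) : (α → M) × (Unit → Sol Φ M)) ∈ t i) ↔
        ((x, Sum.elim v w) : (α → M) × (κ ⊕ Unit → Sol Φ M)) ∈
          {q : (α → M) × (κ ⊕ Unit → Sol Φ M) |
            ((fun a => q.1 (id a)), fun u => q.2 (Sum.inr u)) ∈ t i} := Iff.rfl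
    by_cases h4 : ((x, fun _ => w ()) : (α → M) × (Unit → Sol Φ M)) ∈ t i
    · exact Or.inl ⟨h3.1 h4, h2.2 (h1.1 h4)⟩
    · exact Or.inr ⟨fun h5 => h4 (h3.2 h5), fun h5 => h4 (h1.2 (h2.1 h5))⟩
  · intro h i w
    have h1 := h i (fun _ => w)
    have h2 := hBi i (fun _ => w)
    rcases h1 with ⟨h3, h4⟩ | ⟨h3, h4⟩
    · exact ⟨fun _ => h2.1 h4, fun _ => h3⟩
    · exact ⟨fun h5 => absurd h5 h3, fun h5 => absurd (h2.2 h5) h4⟩

private theorem pr_bool [Finite F] {W : Λ → Submodule F (Sol Φ M)}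
    (hd : HDef Φ W) {α : Type} [Finite α] (n : ℕ)
    (t : Fin n → Set ((α → M) × (Unit → Sol Φ M))) (ht : ∀ i, MDef (L := L) (t i))
    {κ : Type} [Fintype κ] (K : Fin n → Set κ) (C : Fin n → Λ) :
    BoolComb (basics W κ) {v : κ → Sol Φ M | ∃ x : α → M, prR Φ W n t K C x v} := by
  have h1 := MDef.comap (Sum.inr : α → Empty ⊕ α) (id : κ → κ) (pr_mdef Φ hd n t ht K C)
  have h2 := MDef.exM (α := Empty) (β := α) h1
  exact bool_of_mdef Φ hd h2 (fun e => e.elim)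

theorem exists_copy [Finite F] {W : Λ → Submodule F (Sol Φ M)} (hW : LatSpace W)
    (hd : HDef Φ W) {α : Type} [Finite α] (c : α → M) (n : ℕ)
    (t : Fin n → Set ((α → M) × (Unit → Sol Φ M))) (ht : ∀ i, MDef (L := L) (t i))
    {κ : Type} [Fintype κ] (pt : κ → Pt Λ) (pA pC : Pt Λ → Λ)
    (hp : ∀ k, Pair (pt k) (pA (pt k)) (pC (pt k))) (K : Fin n → Set κ) (C : Fin n → Λ)
    (hKC : ∀ i, ∀ k ∈ K i, pC (pt k) = C i) (b : κ → Sol Φ M)
    (hb : ∀ k, b k ∈ W (pA (pt k))) (hbi : LInd W pt b)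
    (hT : ∀ (i : Fin n) (w : Sol Φ M), ((c, fun _ => w) : (α → M) × (Unit → Sol Φ M)) ∈ t i ↔
      ∃ l : κ → F, (∀ k, l k ≠ 0 → k ∈ K i) ∧ w - lc l b ∈ W (C i))
    (v : κ → Sol Φ M) (hv : ∀ k, v k ∈ W (pA (pt k))) (hvi : LInd W pt v) :
    ∃ c' : α → M, ∀ (i : Fin n) (w : Sol Φ M),
      ((c', fun _ => w) : (α → M) × (Unit → Sol Φ M)) ∈ t i ↔
        ∃ l : κ → F, (∀ k, l k ≠ 0 → k ∈ K i) ∧ w - lc l v ∈ W (C i) := by
  have hR := pr_bool Φ hd n t ht K C
  refine gen_inv hW pt pA pC hp _ hR ?_ b v hb hv hbi hvi ⟨c, hT⟩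
  rintro v u hu ⟨x, hx⟩
  refine ⟨x, fun i w => (hx i w).trans ?_⟩
  refine exists_congr fun l => and_congr_right fun hl => ?_
  have h1 : lc l u ∈ W (C i) := by
    refine pr_lc_mem Φ _ l u fun k hk => ?_
    rw [← hKC i k (hl k hk)]
    exact hu k
  have h2 : w - lc l (v + u) = (w - lc l v) - lc l u := by
    rw [lc_add]
    abel
  rw [h2]
  exact ((W (C i)).sub_mem_iff_left h1).symm

end TAU
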