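import Pool.Agent.TAU.PatL
import Pool.Agent.TAU.PatR
import Pool.Agent.TAU.CntT

/-! Project TAU, module TAU-PatFew: a sequence of items which are definable over a finite tuple `c`
gives continuum many countable models.

The pattern formulas `θ i` say that some `w` lies in both copies of `T i`, but not in `W (pC (y i))` and not in the first copies
of the earlier `T j` at the same point. -/

namespace TAU

open FirstOrder FirstOrder.Language

variable {L : FirstOrder.Language.{0, 0}} {M : Type} [L.Structure M] (Φ : L.Formula (Fin 1))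
  {F Λ : Type} [Field F] [DistribLattice Λ] [BoundedOrder Λ] [AddCommGroup (Sol Φ M)]
  [Module F (Sol Φ M)]

private theorem patFew_formula {W : Λ → Submodule F (Sol Φ M)} (hd : HDef Φ W) {α : Type}
    (t : ℕ → Set ((α → M) × (Unit → Sol Φ M))) (ht : ∀ i, MDef (L := L) (t i)) (A : ℕ → Λ)
    (E : ℕ → ℕ → Prop) (i : ℕ) :
    ∃ θ : L.Formula (α ⊕ α), ∀ x x' : α → M, θ.Realize (Sum.elim x x') ↔
      ∃ w : Unit → Sol Φ M, (x, w) ∈ t i ∧ (x', w) ∈ t i ∧ w () ∉ W (A i) ∧
        ∀ j : Fin i, E j i → (x, w) ∉ t j := by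
  classical
  have h1 := MDef.comap (Sum.inl : α → α ⊕ α) (Sum.inr : Unit → Empty ⊕ Unit) (ht i)
  have h2 := MDef.comap (Sum.inr : α → α ⊕ α) (Sum.inr : Unit → Empty ⊕ Unit) (ht i)
  have h3 := (mdef_basic (α := α ⊕ α) Φ hd
    (Sum.elim (fun e => Empty.elim e) (fun _ => 1) : Empty ⊕ Unit → F) (A i)).compl
  have h4 := MDef.fin_all (L := L) (fun j : Fin i => if E j i then
    {p : (α ⊕ α → M) × (Empty ⊕ Unit → Sol Φ M) |
      ((fun a => p.1 (Sum.inl a)), fun u => p.2 (Sum.inr u)) ∈ t j}ᶜ else Set.univ) (by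
      intro j
      show MDef (L := L) (if E j i then _ else _)
      split_ifs
      · exact (MDef.comap (Sum.inl : α → α ⊕ α) (Sum.inr : Unit → Empty ⊕ Unit) (ht j)).compl
      · exact MDef.univ)
  obtain ⟨φ, hφ⟩ := MDef.exQ Φ (((h1.inter h2).inter h3).inter h4)
  refine ⟨φ.relabel (Sum.elim id (fun e => Empty.elim e) : (α ⊕ α) ⊕ Empty → α ⊕ α), fun x x' => ?_⟩
  rw [Formula.realize_relabel]
  have h5 : (Sum.elim x x') ∘ (Sum.elim id (fun e => Empty.elim e) : (α ⊕ α) ⊕ Empty → α ⊕ α) =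
      Sum.elim (Sum.elim x x') fun e => (((fun e => Empty.elim e : Empty → Sol Φ M) e : Sol Φ M) : M) := by
    funext s
    rcases s with s | s
    · rfl
    · exact s.elim
  rw [h5, ← hφ]
  have hlc : ∀ u : Empty ⊕ Unit → Sol Φ M,
      lc (Sum.elim (fun e => Empty.elim e) (fun _ => 1) : Empty ⊕ Unit → F) u = u (Sum.inr ()) := by
    intro u
    unfold lc
    simp
  refine exists_congr fun w => ?_
  constructor
  · rintro ⟨⟨⟨g1, g2⟩, g3⟩, g4⟩
    refine ⟨g1, g2, fun h => g3 ?_, fun j hj hjt => ?_⟩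
    · show lc _ _ ∈ W (A i)
      rw [hlc]
      exact h
    · have g5 := g4 j
      simp only [if_pos hj] at g5
      exact g5 hjt
  · rintro ⟨g1, g2, g3, g4⟩
    refine ⟨⟨⟨g1, g2⟩, fun h => g3 ?_⟩, fun j => ?_⟩
    · have h' : lc (Sum.elim (fun e => Empty.elim e) (fun _ => 1) : Empty ⊕ Unit → F)
          (Sum.elim (fun e => Empty.elim e) w) ∈ W (A i) := h
      rw [hlc] at h'
      exact h'
    · by_cases hj : E j i
      · simp only [if_pos hj]
        exact g4 j hj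
      · simp only [if_neg hj]
        exact Set.mem_univ _

theorem items_few (hL : L.card ≤ Cardinal.aleph0) [Infinite M] [Finite F]
    {W : Λ → Submodule F (Sol Φ M)} (hW : LatSpace W) (hd : HDef Φ W) {α : Type} [Finite α]
    (c : α → M) {pA pC : Pt Λ → Λ} {y : ℕ → Pt Λ} {T : ℕ → Submodule F (Sol Φ M)}
    (h : Items W pA pC y T) (hT : ∀ i, (trSys Φ c).Def1 (T i : Set (Sol Φ M))) :
    Cardinal.continuum ≤ numModels L (L.completeTheory M) := by
  classical
  have htr : ∀ i, ∃ t : Set ((α → M) × (Unit → Sol Φ M)), MDef (L := L) t ∧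
      ∀ w : Unit → Sol Φ M, w () ∈ T i ↔ (c, w) ∈ t := by
    intro i
    obtain ⟨t, ht, he⟩ := (trSys_iff_mdef Φ c _).1 (hT i)
    exact ⟨t, ht, fun w => Set.ext_iff.1 he w⟩
  choose t ht htT using htr
  have hθ := fun i => patFew_formula Φ hd t ht (fun i => pC (y i)) (fun j i => y j = y i) i
  choose θ hθ using hθ
  refine not_few_patterns hL M (α ⊕ α) θ fun n S => ?_
  obtain ⟨κ, iκ, st, b, hbT, hbi, hst, hTb⟩ := exists_basis hW h n
  obtain ⟨v, hvA, hvi, hpat⟩ := exists_pattern_family hW h n st b hbT hbi hst hTb S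
  obtain ⟨c', hc'⟩ := exists_copy Φ hW hd c n (fun i => t i) (fun i => ht i)
    (fun k => y (st k)) pA pC (fun k => h.pair (st k))
    (fun i => {k | st k ≤ i ∧ y (st k) = y i}) (fun i => pC (y i))
    (fun i k hk => congrArg pC hk.2) b (fun k => h.le _ (hbT k)) hbi
    (fun i w => (htT i (fun _ => w)).symm.trans (hTb i w)) v hvA hvi
  refine ⟨Sum.elim c c', fun i hi => ?_⟩
  rw [hθ, ← hpat ⟨i, hi⟩]
  constructor
  · rintro ⟨w, g1, g2, g3, g4⟩
    refine ⟨w (), (htT i w).2 g1, (hc' ⟨i, hi⟩ (w ())).1 g2, g3, fun j hj hjy hw => ?_⟩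
    exact g4 ⟨j, hj⟩ hjy ((htT j w).1 hw)
  · rintro ⟨w, g1, g2, g3, g4⟩
    refine ⟨fun _ => w, (htT i (fun _ => w)).1 g1, (hc' ⟨i, hi⟩ w).2 g2, g3, fun j hjy hw => ?_⟩
    exact g4 ⟨j, j.2.trans hi⟩ j.2 hjy ((htT j (fun _ => w)).2 hw)

end TAU
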