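import Pool.Agent.TAU.Good

/-! Project TAU, module TAU-Basis: adapted bases for a sequence of items.

An item is an isolated point `y i` with a subspace `W (pC (y i)) < T i ≤ W (pA (y i))`, finite
modulo `W (pC (y i))`; items at the same point are strictly increasing.

`exists_basis`: PROOF by induction on `n`.  `n = 0`: `κ = Empty` (or `PEmpty`, `Fin 0`).  Step from
`n` to `n + 1`: let `κ, st, b` be given for `n`; put `y = y n`, `A = pA y`, `C = pC y`, `T = T n`.
Let `X` be the set of the `w` with `w - lc l b ∈ W C` for some `l : κ → F` supported on the `k` with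
`y (st k) = y`.  `X` is a subspace.  If some `j < n` has `y j = y`, let `j` be the largest one; all
`k` with `y (st k) = y` satisfy `st k ≤ j`, so `X = T j < T` by the induction hypothesis.  If there
is none, `X = W C < T`.  Since `T` is finite modulo `W C ≤ X`, there is a finite family
`b' : κ' → T` which is a basis of `T` modulo `X` (e.g. lift a basis of the quotient
`T / (X as a subspace of T)`, which is finite-dimensional as it is finite), and `κ'` is not empty.
Take `κ ⊕ κ'`, `st` with value `n` (`Fin.last n`) on `κ'` and `castSucc` on `κ`, `Sum.elim b b'`.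
`LInd`: let `x` be a label, `l`, `l'` supported on the label `x`, `lc l b + lc l' b' ∈ Vm W x`.  If
`x ≠ y` then `l' = 0` and `l = 0` by the induction hypothesis.  If `x = y`: all `b k` with
`y (st k) = y` are in `T (st k) ≤ W A`, all `b'` are in `T ≤ W A`, so the sum is in
`W A ⊓ Vm W y = W C` (`mem_W_Vm`), hence `lc l' b' ∈ X`, so `l' = 0`, and then `l = 0`.
Last clause: for `i < n` the coefficients on `κ'` vanish (`st = n > i`), use the induction
hypothesis (`b` restricted); for `i = n`: `w ∈ T` iff `w = x + lc l' b'` with `x ∈ X`.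
(`(T i).toAddSubgroup`-free: all in terms of `Submodule F V`.) -/

namespace TAU

variable {F Λ V : Type} [Field F] [DistribLattice Λ] [BoundedOrder Λ] [AddCommGroup V]
  [Module F V]

/-- A sequence of items. -/
structure Items (W : Λ → Submodule F V) (pA pC : Pt Λ → Λ) (y : ℕ → Pt Λ)
    (T : ℕ → Submodule F V) : Prop where
  pair : ∀ i, Pair (y i) (pA (y i)) (pC (y i))
  lt : ∀ i, W (pC (y i)) < T i
  le : ∀ i, T i ≤ W (pA (y i))
  fin : ∀ i, ∃ R : Finset V, ∀ x ∈ T i, ∃ r ∈ R, x - r ∈ W (pC (y i))
  mono : ∀ i j, i < j → y i = y j → T i < T j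

private theorem step {W : Λ → Submodule F V} (hW : LatSpace W) [Finite F] {pA pC : Pt Λ → Λ}
    {y : ℕ → Pt Λ} {T : ℕ → Submodule F V} (h : Items W pA pC y T) (n : ℕ)
    (κ : Type) [Fintype κ] (st : κ → Fin n) (b : κ → V) (hb : ∀ k, b k ∈ T (st k))
    (hL : LInd W (fun k => y (st k)) b) (hne : ∀ i : Fin n, ∃ k, st k = i)
    (hlast : ∀ (i : Fin n) (w : V), w ∈ T i ↔ ∃ l : κ → F,
        (∀ k, l k ≠ 0 → st k ≤ i ∧ y (st k) = y i) ∧ w - lc l b ∈ W (pC (y i))) :
    ∃ (κ : Type) (_ : Fintype κ) (st : κ → Fin (n + 1)) (b : κ → V), (∀ k, b k ∈ T (st k)) ∧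
      LInd W (fun k => y (st k)) b ∧ (∀ i : Fin (n + 1), ∃ k, st k = i) ∧
      ∀ (i : Fin (n + 1)) (w : V), w ∈ T i ↔ ∃ l : κ → F,
        (∀ k, l k ≠ 0 → st k ≤ i ∧ y (st k) = y i) ∧ w - lc l b ∈ W (pC (y i)) := by
  classical
  -- the subspace X
  let X : Submodule F V :=
    { carrier := {w | ∃ l : κ → F, (∀ k, l k ≠ 0 → y (st k) = y n) ∧ w - lc l b ∈ W (pC (y n))}
      add_mem' := by
        rintro u v ⟨l, hl, hu⟩ ⟨l', hl', hv⟩
        refine ⟨l + l', ?_, ?_⟩
        · intro k hk
          by_cases h1 : l k = 0
          · by_cases h2 : l' k = 0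
            · exact absurd (by simp [h1, h2]) hk
            · exact hl' k h2
          · exact hl k h1
        · have := Submodule.add_mem _ hu hv
          rw [lc_add_left]
          have e : u + v - (lc l b + lc l' b) = (u - lc l b) + (v - lc l' b) := by abel
          rw [e]
          exact this
      zero_mem' := ⟨0, by simp, by rw [lc_zero_left]; simp⟩
      smul_mem' := by
        rintro c v ⟨l, hl, hv⟩
        refine ⟨c • l, ?_, ?_⟩
        · intro k hk
          apply hl k
          intro h0
          apply hk
          simp [h0]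
        · rw [lc_smul_left, ← smul_sub]
          exact Submodule.smul_mem _ c hv }
  have hXmem : ∀ w, w ∈ X ↔ ∃ l : κ → F, (∀ k, l k ≠ 0 → y (st k) = y n) ∧
      w - lc l b ∈ W (pC (y n)) := fun w => Iff.rfl
  have hXT : X < T n := by
    by_cases hj : ∃ j : Fin n, y j = y n
    · -- the largest one
      obtain ⟨j, hjy, hjm⟩ : ∃ j : Fin n, y j = y n ∧ ∀ i : Fin n, y i = y n → i ≤ j := by
        have hne' : (Finset.univ.filter (fun j : Fin n => y j = y n)).Nonempty := by
          obtain ⟨j, hj⟩ := hj
          exact ⟨j, by simp [hj]⟩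
        refine ⟨(Finset.univ.filter (fun j : Fin n => y j = y n)).max' hne', ?_, ?_⟩
        · have := Finset.max'_mem _ hne'
          exact (Finset.mem_filter.1 this).2
        · intro i hi
          exact Finset.le_max' _ _ (by simp [hi])
      have e : X = T j := by
        ext w
        rw [hXmem, hlast j w]
        constructor
        · rintro ⟨l, hl, hw⟩
          refine ⟨l, fun k hk => ⟨hjm _ (hl k hk), ?_⟩, ?_⟩
          · rw [hjy]; exact hl k hk
          · rw [hjy]; exact hw
        · rintro ⟨l, hl, hw⟩
          refine ⟨l, fun k hk => ?_, ?_⟩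
          · rw [← hjy]; exact (hl k hk).2
          · rw [← hjy]; exact hw
      rw [e]
      exact h.mono j n j.2 hjy
    · have e : X = W (pC (y n)) := by
        ext w
        rw [hXmem]
        constructor
        · rintro ⟨l, hl, hw⟩
          have : l = 0 := by
            funext k
            by_contra hk
            exact hj ⟨st k, hl k hk⟩
          rw [this, lc_zero_left, sub_zero] at hw
          exact hw
        · intro hw
          exact ⟨0, by simp, by rw [lc_zero_left, sub_zero]; exact hw⟩
      rw [e]
      exact h.lt n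
  have hCX : W (pC (y n)) ≤ X := fun w hw => (hXmem w).2 ⟨0, by simp, by
    rw [lc_zero_left, sub_zero]; exact hw⟩
  -- the quotient
  let X' : Submodule F (T n) := X.comap (T n).subtype
  let Q := (T n) ⧸ X'
  haveI hfin : Finite Q := by
    obtain ⟨R, hR⟩ := h.fin n
    let g : R → Q := fun r => if hr : (r : V) ∈ T n then Submodule.Quotient.mk ⟨(r : V), hr⟩ else 0
    apply Finite.of_surjective g
    intro q
    obtain ⟨⟨x, hx⟩, rfl⟩ := Submodule.Quotient.mk_surjective X' q
    obtain ⟨r, hr, hxr⟩ := hR x hx
    have hrT : r ∈ T n := by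
      have h1 : x - r ∈ T n := (h.lt n).le hxr
      have : r = x - (x - r) := by abel
      rw [this]
      exact Submodule.sub_mem _ hx h1
    refine ⟨⟨r, hr⟩, ?_⟩
    have hg : g ⟨r, hr⟩ = Submodule.Quotient.mk (⟨r, hrT⟩ : T n) := dif_pos hrT
    rw [hg]
    rw [Submodule.Quotient.eq]
    change ((⟨r, hrT⟩ : T n) - ⟨x, hx⟩ : T n) ∈ X.comap (T n).subtype
    rw [Submodule.mem_comap]
    change r - x ∈ X
    have : r - x = - (x - r) := by abel
    rw [this]
    exact Submodule.neg_mem _ (hCX hxr)
  haveI : Module.Finite F Q := Module.Finite.of_finite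
  let B := Module.finBasis F Q
  have hlift : ∀ i, ∃ v : T n, (Submodule.Quotient.mk v : Q) = B i := fun i =>
    Submodule.Quotient.mk_surjective X' (B i)
  choose b' hb' using hlift
  have hm : 0 < Module.finrank F Q := by
    haveI : Nontrivial Q := by
      obtain ⟨w, hw, hwX⟩ := SetLike.exists_of_lt hXT
      refine ⟨⟨Submodule.Quotient.mk ⟨w, hw⟩, 0, ?_⟩⟩
      intro h0
      rw [Submodule.Quotient.mk_eq_zero] at h0
      exact hwX h0
    exact Module.finrank_pos
  -- lifting linear combinations
  have hmk : ∀ c : Fin (Module.finrank F Q) → F, ∀ w : T n,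
      ((w : V) - lc c (fun i => (b' i : V)) ∈ X ↔ (Submodule.Quotient.mk w : Q) = ∑ i, c i • B i) := by
    intro c w
    have e1 : (∑ i, c i • B i) = (Submodule.Quotient.mk (∑ i, c i • b' i) : Q) := by
      have : (Submodule.Quotient.mk (∑ i, c i • b' i) : Q) = X'.mkQ (∑ i, c i • b' i) := rfl
      rw [this, map_sum]
      refine Finset.sum_congr rfl fun i _ => ?_
      rw [map_smul, ← hb' i]
      rfl
    rw [e1, Submodule.Quotient.eq]
    have e2 : ((w - ∑ i, c i • b' i : T n) : V) = (w : V) - lc c (fun i => (b' i : V)) := by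
      unfold lc
      rw [Submodule.coe_sub, Submodule.coe_sum]
      simp
    rw [← e2]
    exact Iff.rfl
  have hlcT : ∀ c : Fin (Module.finrank F Q) → F, lc c (fun i => (b' i : V)) ∈ T n := by
    intro c
    unfold lc
    exact Submodule.sum_mem _ fun i _ => Submodule.smul_mem _ _ (b' i).2
  refine ⟨κ ⊕ Fin (Module.finrank F Q), inferInstance,
    Sum.elim (fun k => (st k).castSucc) (fun _ => Fin.last n),
    Sum.elim b (fun i => (b' i : V)), ?_, ?_, ?_, ?_⟩
  · rintro (k | k)
    · simpa using hb k
    · simpa using (b' k).2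
  · intro x l hl hlc
    rw [lc_elim] at hlc
    by_cases hx : x = y n
    · subst hx
      have hA1 : lc (fun k => l (Sum.inl k)) b ∈ W (pA (y n)) := by
        unfold lc
        refine Submodule.sum_mem _ fun k _ => ?_
        by_cases hk : y (st k) = y n
        · apply Submodule.smul_mem
          rw [← hk]
          exact h.le _ (hb k)
        · have := hl (Sum.inl k) (by simpa using hk)
          change l (Sum.inl k) • b k ∈ _
          rw [this, zero_smul]
          exact Submodule.zero_mem _
      have hA2 : lc (fun k => l (Sum.inr k)) (fun i => (b' i : V)) ∈ W (pA (y n)) :=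
        h.le n (hlcT _)
      have hC := (mem_W_Vm hW (h.pair n) (Submodule.add_mem _ hA1 hA2)).1 hlc
      have hX0 : (((0 : T n) : T n) : V) - lc (fun k => l (Sum.inr k)) (fun i => (b' i : V)) ∈ X := by
        rw [hXmem]
        refine ⟨fun k => l (Sum.inl k), ?_, ?_⟩
        · intro k hk
          by_contra hne2
          exact hk (hl (Sum.inl k) (by simpa using hne2))
        · have e : (((0 : T n) : T n) : V) - lc (fun k => l (Sum.inr k)) (fun i => (b' i : V)) -
              lc (fun k => l (Sum.inl k)) b = - (lc (fun k => l (Sum.inl k)) b +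
              lc (fun k => l (Sum.inr k)) (fun i => (b' i : V))) := by
            rw [Submodule.coe_zero]; abel
          rw [e]
          exact Submodule.neg_mem _ hC
      have hz := (hmk _ 0).1 hX0
      have hz' : ∀ i, l (Sum.inr i) = 0 := by
        have hli := B.linearIndependent
        rw [Fintype.linearIndependent_iff] at hli
        exact hli _ (by rw [← hz]; rfl)
      have hz2 : lc (fun k => l (Sum.inr k)) (fun i => (b' i : V)) = 0 := by
        have : (fun k => l (Sum.inr k)) = 0 := funext hz'
        rw [this, lc_zero_left]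
      rw [hz2, add_zero] at hlc
      have hl1 := hL (y n) (fun k => l (Sum.inl k)) (fun k hk => hl (Sum.inl k) (by simpa using hk)) hlc
      rintro (k | k)
      · exact hl1 k
      · exact hz' k
    · have hz' : ∀ i, l (Sum.inr i) = 0 := fun i => hl (Sum.inr i) (by
        simpa using fun h' => hx h'.symm)
      have hz2 : lc (fun k => l (Sum.inr k)) (fun i => (b' i : V)) = 0 := by
        have : (fun k => l (Sum.inr k)) = 0 := funext hz'
        rw [this, lc_zero_left]
      rw [hz2, add_zero] at hlc
      have hl1 := hL x (fun k => l (Sum.inl k)) (fun k hk => hl (Sum.inl k) (by simpa using hk)) hlc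
      rintro (k | k)
      · exact hl1 k
      · exact hz' k
  · intro i
    refine Fin.lastCases ?_ (fun j => ?_) i
    · exact ⟨Sum.inr ⟨0, hm⟩, rfl⟩
    · obtain ⟨k, hk⟩ := hne j
      exact ⟨Sum.inl k, by simp [hk]⟩
  · intro i w
    refine Fin.lastCases ?_ (fun j => ?_) i
    · constructor
      · intro hw
        have hw' : w ∈ T n := by simpa using hw
        have hr := B.sum_repr (Submodule.Quotient.mk (⟨w, hw'⟩ : T n) : Q)
        have hX1 := (hmk (fun i => B.repr (Submodule.Quotient.mk (⟨w, hw'⟩ : T n) : Q) i) ⟨w, hw'⟩).2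
          hr.symm
        obtain ⟨l, hl, hlw⟩ := (hXmem _).1 hX1
        refine ⟨Sum.elim l (fun i => B.repr (Submodule.Quotient.mk (⟨w, hw'⟩ : T n) : Q) i), ?_, ?_⟩
        · rintro (k | k) hk
          · refine ⟨Fin.le_last _, ?_⟩
            simpa using hl k (by simpa using hk)
          · refine ⟨le_refl _, ?_⟩
            simp
        · rw [lc_elim]
          simp only [Sum.elim_inl, Sum.elim_inr, Fin.val_last]
          have e : w - (lc (fun i => l i) b + lc (fun k => B.repr (Submodule.Quotient.mk
              (⟨w, hw'⟩ : T n) : Q) k) (fun i => (b' i : V))) =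
              w - lc (fun k => B.repr (Submodule.Quotient.mk
              (⟨w, hw'⟩ : T n) : Q) k) (fun i => (b' i : V)) - lc l b := by abel
          rw [e]
          exact hlw
      · rintro ⟨l, hl, hlw⟩
        rw [lc_elim] at hlw
        simp only [Fin.val_last] at hlw
        have h1 : lc (fun k => l (Sum.inl k)) b ∈ T n := by
          apply hXT.le
          rw [hXmem]
          refine ⟨fun k => l (Sum.inl k), fun k hk => ?_, by rw [sub_self]; exact Submodule.zero_mem _⟩
          have := (hl (Sum.inl k) hk).2
          simpa using this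
        have h2 := (h.lt n).le hlw
        have e : w = (w - (lc (fun i => l (Sum.inl i)) b + lc (fun k => l (Sum.inr k))
          (fun i => (b' i : V)))) + lc (fun i => l (Sum.inl i)) b + lc (fun k => l (Sum.inr k))
          (fun i => (b' i : V)) := by abel
        have : w ∈ T n := by
          rw [e]
          exact Submodule.add_mem _ (Submodule.add_mem _ h2 h1) (hlcT _)
        simpa using this
    · have hj := hlast j w
      constructor
      · intro hw
        obtain ⟨l, hl, hlw⟩ := hj.1 (by simpa using hw)
        refine ⟨Sum.elim l 0, ?_, ?_⟩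
        · rintro (k | k) hk
          · have := hl k (by simpa using hk)
            refine ⟨?_, ?_⟩
            · simpa using this.1
            · simpa using this.2
          · exact absurd (by simp) hk
        · rw [lc_elim]
          have e : (fun k => (Sum.elim l (0 : Fin (Module.finrank F Q) → F)) (Sum.inr k)) = 0 := by
            funext k; simp
          rw [e, lc_zero_left, add_zero]
          simpa using hlw
      · rintro ⟨l, hl, hlw⟩
        have hz' : ∀ i, l (Sum.inr i) = 0 := by
          intro i
          by_contra hi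
          have := (hl (Sum.inr i) hi).1
          simp only [Sum.elim_inr] at this
          exact absurd this (by simp [Fin.le_def])
        have hz2 : lc (fun k => l (Sum.inr k)) (fun i => (b' i : V)) = 0 := by
          have : (fun k => l (Sum.inr k)) = 0 := funext hz'
          rw [this, lc_zero_left]
        rw [lc_elim, hz2, add_zero] at hlw
        have : w ∈ T j := by
          rw [hj]
          refine ⟨fun k => l (Sum.inl k), fun k hk => ?_, by simpa using hlw⟩
          have := hl (Sum.inl k) hk
          exact ⟨by simpa using this.1, by simpa using this.2⟩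
        simpa using this

theorem exists_basis {W : Λ → Submodule F V} (hW : LatSpace W) [Finite F] {pA pC : Pt Λ → Λ}
    {y : ℕ → Pt Λ} {T : ℕ → Submodule F V} (h : Items W pA pC y T) (n : ℕ) :
    ∃ (κ : Type) (_ : Fintype κ) (st : κ → Fin n) (b : κ → V), (∀ k, b k ∈ T (st k)) ∧
      LInd W (fun k => y (st k)) b ∧ (∀ i : Fin n, ∃ k, st k = i) ∧
      ∀ (i : Fin n) (w : V), w ∈ T i ↔ ∃ l : κ → F,
        (∀ k, l k ≠ 0 → st k ≤ i ∧ y (st k) = y i) ∧ w - lc l b ∈ W (pC (y i)) := by
  induction n with
  | zero =>
    refine ⟨Empty, inferInstance, fun k => k.elim, fun k => k.elim, fun k => k.elim, ?_, ?_, ?_⟩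
    · intro x l _ _ k
      exact k.elim
    · intro i
      exact i.elim0
    · intro i
      exact i.elim0
  | succ n ih =>
    obtain ⟨κ, hκ, st, b, hb, hL, hne, hlast⟩ := ih
    exact step hW h n κ st b hb hL hne hlast

end TAU
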