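import Pool.Agent.TAU.AlgSub
import Pool.Agent.TAU.Basis

/-! Project TAU, module TAU-SExt: if there is no bound `SBound` then there is an infinite sequence
of definable items. -/

namespace TAU

variable {F Λ V : Type} [Field F] [DistribLattice Λ] [BoundedOrder Λ] [AddCommGroup V]
  [Module F V] {W : Λ → Submodule F V}

private theorem sExt_sup {Z T T' : Submodule F V} (h : ∃ R : Finset V, ∀ x ∈ T, ∃ r ∈ R, x - r ∈ Z)
    (h' : ∃ R : Finset V, ∀ x ∈ T', ∃ r ∈ R, x - r ∈ Z) :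
    ∃ R : Finset V, ∀ x ∈ T ⊔ T', ∃ r ∈ R, x - r ∈ Z := by
  classical
  obtain ⟨R, hR⟩ := h
  obtain ⟨R', hR'⟩ := h'
  refine ⟨(R ×ˢ R').image fun p => p.1 + p.2, fun x hx => ?_⟩
  obtain ⟨t, ht, t', ht', rfl⟩ := Submodule.mem_sup.1 hx
  obtain ⟨r, hr, h1⟩ := hR t ht
  obtain ⟨r', hr', h2⟩ := hR' t' ht'
  refine ⟨r + r', Finset.mem_image.2 ⟨(r, r'), Finset.mem_product.2 ⟨hr, hr'⟩, rfl⟩, ?_⟩
  have h3 : t + t' - (r + r') = (t - r) + (t' - r') := by abel
  rw [h3]
  exact Z.add_mem h1 h2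

private theorem sExt_finsup {Z : Submodule F V} (s : Finset (Pt Λ × Submodule F V))
    (h : ∀ p ∈ s, ∃ R : Finset V, ∀ x ∈ p.2, ∃ r ∈ R, x - r ∈ Z) :
    ∃ R : Finset V, ∀ x ∈ s.sup (fun p => p.2), ∃ r ∈ R, x - r ∈ Z := by
  classical
  induction s using Finset.induction_on with
  | empty =>
    refine ⟨{0}, fun x hx => ⟨0, Finset.mem_singleton_self 0, ?_⟩⟩
    rw [Finset.sup_empty, Submodule.mem_bot] at hx
    rw [hx, sub_zero]
    exact Z.zero_mem
  | insert p s _ ih =>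
    rw [Finset.sup_insert]
    exact sExt_sup (h p (Finset.mem_insert_self p s))
      (ih fun q hq => h q (Finset.mem_insert_of_mem hq))

private theorem sExt_bound [Finite F] {Z : Submodule F V} {T : Submodule F V} {Vy : Submodule F V}
    (hZ : Z ≤ Vy) {R : Finset V} (hR : ∀ x ∈ T, ∃ r ∈ R, x - r ∈ Z) (U : Submodule F V)
    (hU : Finite U) (hle : U ≤ T ⊔ Vy) (h0 : ∀ b ∈ U, b ∈ Vy → b = 0) :
    Module.finrank F U ≤ R.card := by
  have key : ∀ u : U, ∃ r : R, (u : V) - (r : V) ∈ Vy := by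
    rintro ⟨u, hu⟩
    obtain ⟨t, ht, v, hv, huv⟩ := Submodule.mem_sup.1 (hle hu)
    obtain ⟨r, hr, h1⟩ := hR t ht
    refine ⟨⟨r, hr⟩, ?_⟩
    have h2 : u - r = (t - r) + v := by rw [← huv]; abel
    show u - r ∈ Vy
    rw [h2]
    exact Vy.add_mem (hZ h1) hv
  choose f hf using key
  have hinj : Function.Injective f := by
    intro u u' huu
    have h1 := hf u
    have h2 := hf u'
    rw [← huu] at h2
    have h3 : ((u - u' : U) : V) ∈ Vy := by
      have h4 : ((u - u' : U) : V) = ((u : V) - (f u : V)) - ((u' : V) - (f u : V)) := by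
        rw [Submodule.coe_sub]
        abel
      rw [h4]
      exact Vy.sub_mem h1 h2
    have h5 := h0 _ (u - u').2 h3
    have h6 : u - u' = 0 := Subtype.ext h5
    exact sub_eq_zero.1 h6
  have h1 : Nat.card U ≤ R.card := by
    have := Nat.card_le_card_of_injective f hinj
    rwa [Nat.card_eq_fintype_card (α := R), Fintype.card_coe] at this
  have h2 : Nat.card U = Nat.card F ^ Module.finrank F U := Module.natCard_eq_pow_finrank
  have h3 : 1 < Nat.card F := Finite.one_lt_card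
  have h4 := Nat.lt_pow_self h3 (n := Module.finrank F U)
  omega

theorem exists_items (hW : LatSpace W) (𝒟 : DSys V) (hl : 𝒟.Lin W) [Finite F]
    (pA pC : Pt Λ → Λ) (hp : ∀ y : Pt Λ, IsOpen ({y} : Set (Pt Λ)) → Pair y (pA y) (pC y))
    (h : ¬ ∃ D, SBound 𝒟 W D) :
    ∃ (y : ℕ → Pt Λ) (T : ℕ → Submodule F V), Items W pA pC y T ∧
      ∀ i, 𝒟.Def1 (T i : Set V) := by
  classical
  let P : Pt Λ × Submodule F V → Prop := fun p => IsOpen ({p.1} : Set (Pt Λ)) ∧
    𝒟.Def1 (p.2 : Set V) ∧ W (pC p.1) < p.2 ∧ p.2 ≤ W (pA p.1) ∧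
    ∃ R : Finset V, ∀ x ∈ p.2, ∃ r ∈ R, x - r ∈ W (pC p.1)
  let r : Pt Λ × Submodule F V → Pt Λ × Submodule F V → Prop := fun p q => p.1 = q.1 → p.2 < q.2
  have main : ∀ s : Finset (Pt Λ × Submodule F V), (∀ p ∈ s, P p) → ∃ q, P q ∧ ∀ p ∈ s, r p q := by
    intro s hs
    let Ty : Pt Λ → Submodule F V := fun y => W (pC y) ⊔ (s.filter fun p => p.1 = y).sup fun p => p.2
    have hTy1 : ∀ y, W (pC y) ≤ Ty y := fun y => le_sup_left
    have hTy2 : ∀ y, ∀ p ∈ s, p.1 = y → p.2 ≤ Ty y := by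
      intro y p hps hpy
      exact (Finset.le_sup (f := fun p : Pt Λ × Submodule F V => p.2)
        (Finset.mem_filter.2 ⟨hps, hpy⟩)).trans le_sup_right
    have hpC : ∀ y : Pt Λ, IsOpen ({y} : Set (Pt Λ)) → W (pC y) ≤ Vm W y := by
      intro y hy v hv
      exact (mem_Vm hW).2 ⟨pC y, (hp y hy).2.1, hv⟩
    -- the numbers `N y`
    have hN : ∀ y : Pt Λ, ∃ N : ℕ, (y ∉ s.image Prod.fst → N = 0) ∧
        (IsOpen ({y} : Set (Pt Λ)) → ∀ U : Submodule F V, Finite U → U ≤ Ty y ⊔ Vm W y →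
          (∀ b ∈ U, b ∈ Vm W y → b = 0) → Module.finrank F U ≤ N) := by
      intro y
      by_cases hy : y ∈ s.image Prod.fst
      · obtain ⟨R, hR⟩ : ∃ R : Finset V, ∀ x ∈ Ty y, ∃ r ∈ R, x - r ∈ W (pC y) := by
          refine sExt_sup ⟨{0}, fun x hx => ⟨0, Finset.mem_singleton_self 0, by rwa [sub_zero]⟩⟩
            (sExt_finsup _ fun p hp' => ?_)
          obtain ⟨h1, h2⟩ := Finset.mem_filter.1 hp'
          have h3 := (hs p h1).2.2.2.2
          rwa [h2] at h3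
        refine ⟨R.card, fun h => absurd hy h, fun ho U hU hle h0 => ?_⟩
        exact sExt_bound (hpC y ho) hR U hU hle h0
      · refine ⟨0, fun _ => rfl, fun ho U hU hle h0 => ?_⟩
        have h1 : (s.filter fun p => p.1 = y) = ∅ := by
          refine Finset.filter_eq_empty_iff.2 fun p hps hpy => hy ?_
          exact Finset.mem_image.2 ⟨p, hps, hpy⟩
        have h2 : Ty y ≤ Vm W y := by
          show W (pC y) ⊔ (s.filter fun p => p.1 = y).sup (fun p => p.2) ≤ Vm W y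
          rw [h1, Finset.sup_empty, sup_bot_eq]
          exact hpC y ho
        have h3 : U = ⊥ := by
          rw [Submodule.eq_bot_iff]
          intro b hb
          refine h0 b hb ?_
          have h4 := hle hb
          rwa [sup_eq_right.2 h2] at h4
        rw [h3, finrank_bot]
    choose N hN0 hN1 using hN
    have hnb : ¬ SBound 𝒟 W (∑ y ∈ s.image Prod.fst, N y) := fun hb => h ⟨_, hb⟩
    unfold SBound at hnb
    push Not at hnb
    obtain ⟨Y, U, hYU, hlt⟩ := hnb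
    -- the claim
    obtain ⟨y, hyY, b, hbU, hbT⟩ : ∃ y ∈ Y, ∃ b ∈ U y, b ∉ Ty y ⊔ Vm W y := by
      by_contra hcon
      push Not at hcon
      have h1 : ∀ y ∈ Y, Module.finrank F (U y) ≤ N y := by
        intro y hy
        obtain ⟨ho, hfin, hb⟩ := hYU y hy
        exact hN1 y ho (U y) hfin (fun b hb' => hcon y hy b hb') fun b hb' => (hb b hb').2.2
      have h2 := Finset.sum_le_sum h1
      have h3 : ∑ y ∈ Y, N y ≤ ∑ y ∈ s.image Prod.fst, N y := by
        refine Finset.sum_le_sum_of_ne_zero fun y _ hne => ?_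
        by_contra hy
        exact hne (hN0 y hy)
      omega
    obtain ⟨ho, hfin, hUb⟩ := hYU y hyY
    obtain ⟨hbK, ⟨A1, hA1, hAlg⟩, _⟩ := hUb b hbU
    have hpair := hp y ho
    obtain ⟨b1, hb1A, hbb1, _⟩ := exists_rep hW hpair hbK
    obtain ⟨E, hE, hbE⟩ := (mem_Vm hW).1 hbb1
    have hAE : ¬ y.mem (A1 ⊔ E) := by
      rw [Pt.mem_sup]
      rintro (h1 | h1)
      · exact hA1 h1
      · exact hE h1
    have hb1alg : AlgMem 𝒟 W (pC y) b1 := by
      have h1 : AlgMem 𝒟 W (A1 ⊔ E) b1 := by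
        have h2 := AlgMem.sub hW 𝒟 hl (AlgMem.mono hW 𝒟 hl (le_sup_left : A1 ≤ A1 ⊔ E) hAlg)
          (AlgMem.mono hW 𝒟 hl (le_sup_right : E ≤ A1 ⊔ E) (AlgMem.of_mem hW 𝒟 hl hbE))
        rwa [sub_sub_cancel] at h2
      exact AlgMem.mono hW 𝒟 hl (hpair.le_of_notMem hAE)
        (AlgMem.inf hW 𝒟 hl (AlgMem.of_mem hW 𝒟 hl hb1A) h1)
    have hb1T : b1 ∉ Ty y := by
      intro h1
      apply hbT
      have h2 : b = b1 + (b - b1) := by abel
      rw [h2]
      exact Submodule.add_mem_sup h1 hbb1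
    -- representatives of the old subspaces
    have hrep : ∀ p : Pt Λ × Submodule F V, ∃ R : Finset V, (p ∈ s → p.1 = y →
        (∀ x ∈ R, x ∈ p.2) ∧ ∀ x ∈ p.2, ∃ r ∈ R, x - r ∈ W (pC y)) := by
      intro p
      by_cases h1 : p ∈ s ∧ p.1 = y
      · obtain ⟨h2, h3⟩ := h1
        obtain ⟨_, _, hlt', _, R, hR⟩ := hs p h2
        rw [h3] at hR hlt'
        refine ⟨R.filter (fun x => x ∈ p.2), fun _ _ => ⟨fun x hx => (Finset.mem_filter.1 hx).2, ?_⟩⟩
        intro x hx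
        obtain ⟨r, hr, h4⟩ := hR x hx
        refine ⟨r, Finset.mem_filter.2 ⟨hr, ?_⟩, h4⟩
        have h5 : r = x - (x - r) := by abel
        rw [h5]
        exact p.2.sub_mem hx (hlt'.le h4)
      · exact ⟨∅, fun h2 h3 => absurd ⟨h2, h3⟩ h1⟩
    choose Rf hRf using hrep
    obtain ⟨T', hT'def, hT'C, hT'A, hT'B, hT'fin⟩ := exists_def_subspace_le hW 𝒟 hl hpair.2.2.1
      (insert b1 ((s.filter fun p => p.1 = y).biUnion Rf))
      (by
        intro x hx
        rcases Finset.mem_insert.1 hx with rfl | hx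
        · exact hb1alg
        · obtain ⟨p, hp1, hp2⟩ := Finset.mem_biUnion.1 hx
          obtain ⟨hp3, hp4⟩ := Finset.mem_filter.1 hp1
          obtain ⟨_, hd, hlt', _, hR⟩ := hs p hp3
          rw [hp4] at hR hlt'
          exact algMem_of_mem_def 𝒟 hd hlt'.le hR ((hRf p hp3 hp4).1 x hp2))
      (by
        intro x hx
        rcases Finset.mem_insert.1 hx with rfl | hx
        · exact hb1A
        · obtain ⟨p, hp1, hp2⟩ := Finset.mem_biUnion.1 hx
          obtain ⟨hp3, hp4⟩ := Finset.mem_filter.1 hp1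
          obtain ⟨_, _, _, hle, _⟩ := hs p hp3
          rw [hp4] at hle
          exact hle ((hRf p hp3 hp4).1 x hp2))
    have hb1T' : b1 ∈ T' := hT'B b1 (Finset.mem_insert_self _ _)
    refine ⟨(y, T'), ⟨ho, hT'def, ?_, hT'A, hT'fin⟩, ?_⟩
    · exact lt_of_le_of_ne hT'C fun h1 => hb1T (hTy1 y (by rw [h1]; exact hb1T'))
    · intro p hps hpy
      have hpy' : p.1 = y := hpy
      refine lt_of_le_of_ne ?_ fun h1 => hb1T (hTy2 y p hps hpy' (by rw [h1]; exact hb1T'))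
      intro x hx
      obtain ⟨r, hr, h1⟩ := (hRf p hps hpy').2 x hx
      have h2 : r ∈ T' := hT'B r (Finset.mem_insert_of_mem
        (Finset.mem_biUnion.2 ⟨p, Finset.mem_filter.2 ⟨hps, hpy'⟩, hr⟩))
      have h3 : x = r + (x - r) := by abel
      show x ∈ T'
      rw [h3]
      exact T'.add_mem h2 (hT'C h1)
  obtain ⟨f, hf1, hf2⟩ := exists_seq_of_forall_finset_exists P r main
  refine ⟨fun i => (f i).1, fun i => (f i).2, ⟨fun i => hp _ (hf1 i).1, fun i => (hf1 i).2.2.1,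
    fun i => (hf1 i).2.2.2.1, fun i => (hf1 i).2.2.2.2, fun i j hij h1 => hf2 i j hij h1⟩,
    fun i => (hf1 i).2.1⟩

end TAU
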