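import Pool.Agent.TAU.RkD

/-! Project TAU, module TAU-Trc: in a stable theory the traces on `Q = Sol Φ M` of the sets
definable over `c` are definable over `Q`, hence Boolean combinations of cosets.

PROOF of `trace_tame`.  Let `s` be `(trSys Φ c).Def`, `s ⊆ κ → Q`, by the formula `φ` in the
variables `α ⊕ κ` (`α` finite).  Put `R = {(x, v) | φ.Realize (Sum.elim x (coe ∘ v))}`, a mixed
definable relation, `Rr x y := (x, y) ∈ R`.  By stability (`StableTh`, applied to `φ` relabelled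
along `α ≃ Fin k`, `κ ≃ Fin l`) there is `n` such that `Rr` has no ladder of length `n` (a ladder
of `Rr` gives one in `M`), so by `no_rank` there is `N` with `¬ Rk Rr N univ`.
For `k : ℕ`, signs `ε : Fin k → Bool` and parameters `e : Fin k → κ → Q` let
`P k ε e = {x : α → M | ∀ i, (Rr x (e i) ↔ ε i = true)}`.  Let `r` be the least number such that
for some `k, ε, e` with `c ∈ P k ε e` we have `¬ Rk Rr r (P k ε e)` (it exists: `k = 0`, `r = N`;
`Nat.find`).  `r ≠ 0` as `c ∈ P k ε e` gives `Rk Rr 0`.  Write `r = n' + 1` and fix `k, ε, e`.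
For `d : κ → Q`: `d ∈ s ↔ Rk Rr n' (P k ε e ∩ {x | Rr x d})`.
 If `Rr c d` then `c` is in `P k ε e ∩ {x | Rr x d}`, which is some `P (k+1) ε' e'`, so by
 minimality of `r` it has rank at least `n'`.  If `¬ Rr c d` then similarly
 `P k ε e \ {x | Rr x d}` has rank at least `n'`; if `P k ε e ∩ {x | Rr x d}` also had, then
 `P k ε e` would have rank at least `n' + 1`, contradiction.
The family `S = {(x, u) | x ∈ P k ε (first block of u) ∧ Rr x (last block of u)}` indexed by
`u : (Fin k × κ) ⊕ κ → Q` is mixed definable (`MDef.fin_all`, `comap`, `inter`, `compl`; `k, ε`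
fixed), so by `rk_def` and `bool_of_mdef` the set
`ρ = {u | Rk Rr n' {x | (x, u) ∈ S}}` is in `BoolComb (basics W ((Fin k × κ) ⊕ κ))`.  Finally
`s` is the preimage of `ρ` under `d ↦ Sum.elim (fun p => e p.1 p.2) d`, and the preimage of a basic
condition `lc ν u ∈ W A` is `lc ν1 e' + lc ν2 d ∈ W A` (`lc_elim`), a coset condition with
`r = - lc ν1 e'`.  Use `BoolComb.preimage`. -/

namespace TAU

open FirstOrder FirstOrder.Language

variable {L : FirstOrder.Language.{0, 0}} {M : Type} [L.Structure M] (Φ : L.Formula (Fin 1))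
  {F Λ : Type} [Field F] [DistribLattice Λ] [BoundedOrder Λ] [AddCommGroup (Sol Φ M)]
  [Module F (Sol Φ M)]

/-- the members of the tree through the parameters `e` with signs `ε` -/
private def PP {X Y : Type} (R : Set (X × Y)) {k : ℕ} (ε : Fin k → Bool) (e : Fin k → Y) : Set X :=
  {x | ∀ i, (x, e i) ∈ R ↔ ε i = true}

private theorem PP_true {X Y : Type} (R : Set (X × Y)) {k : ℕ} (ε : Fin k → Bool) (e : Fin k → Y)
    (d : Y) :
    PP R (Fin.cons true ε : Fin (k + 1) → Bool) (Fin.cons d e : Fin (k + 1) → Y)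
      = PP R ε e ∩ {x | (x, d) ∈ R} := by
  ext x
  constructor
  · intro h
    refine ⟨fun i => ?_, ?_⟩
    · have h1 := h i.succ
      rw [Fin.cons_succ, Fin.cons_succ] at h1
      exact h1
    · have h1 := h 0
      rw [Fin.cons_zero, Fin.cons_zero] at h1
      exact h1.2 rfl
  · rintro ⟨h1, h2⟩ i
    refine Fin.cases ?_ (fun j => ?_) i
    · rw [Fin.cons_zero, Fin.cons_zero]
      exact ⟨fun _ => rfl, fun _ => h2⟩
    · rw [Fin.cons_succ, Fin.cons_succ]
      exact h1 j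

private theorem PP_false {X Y : Type} (R : Set (X × Y)) {k : ℕ} (ε : Fin k → Bool) (e : Fin k → Y)
    (d : Y) :
    PP R (Fin.cons false ε : Fin (k + 1) → Bool) (Fin.cons d e : Fin (k + 1) → Y)
      = PP R ε e \ {x | (x, d) ∈ R} := by
  ext x
  constructor
  · intro h
    refine ⟨fun i => ?_, ?_⟩
    · have h1 := h i.succ
      rw [Fin.cons_succ, Fin.cons_succ] at h1
      exact h1
    · have h1 := h 0
      rw [Fin.cons_zero, Fin.cons_zero] at h1
      intro h2
      exact absurd (h1.1 h2) (by decide)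
  · rintro ⟨h1, h2⟩ i
    refine Fin.cases ?_ (fun j => ?_) i
    · rw [Fin.cons_zero, Fin.cons_zero]
      exact ⟨fun h3 => absurd h3 h2, fun h3 => absurd h3 (by decide)⟩
    · rw [Fin.cons_succ, Fin.cons_succ]
      exact h1 j

/-- the rank criterion for one element -/
private theorem crit {X Y : Type} (R : Set (X × Y)) (N : ℕ)
    (hN : ¬ Rk (fun x y => (x, y) ∈ R) N Set.univ) (c : X) :
    ∃ (n : ℕ) (k : ℕ) (ε : Fin k → Bool) (e : Fin k → Y),
      ∀ d : Y, (c, d) ∈ R ↔ Rk (fun x y => (x, y) ∈ R) n (PP R ε e ∩ {x | (x, d) ∈ R}) := by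
  classical
  have hex : ∃ r : ℕ, ∃ (k : ℕ) (ε : Fin k → Bool) (e : Fin k → Y), c ∈ PP R ε e ∧
      ¬ Rk (fun x y => (x, y) ∈ R) r (PP R ε e) := by
    refine ⟨N, 0, Fin.elim0, Fin.elim0, fun i => i.elim0, ?_⟩
    intro h
    exact hN (Rk.mono _ N (Set.subset_univ _) h)
  obtain ⟨k, ε, e, hc, hrk⟩ := Nat.find_spec hex
  have hmin : ∀ m < Nat.find hex, ∀ (k : ℕ) (ε : Fin k → Bool) (e : Fin k → Y), c ∈ PP R ε e →
      Rk (fun x y => (x, y) ∈ R) m (PP R ε e) := by
    intro m hm k ε e hc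
    by_contra hcon
    exact Nat.find_min hex hm ⟨k, ε, e, hc, hcon⟩
  rcases hr : Nat.find hex with _ | n
  · rw [hr] at hrk
    exact absurd (show (PP R ε e).Nonempty from ⟨c, hc⟩) hrk
  · rw [hr] at hrk hmin
    refine ⟨n, k, ε, e, fun d => ⟨fun hd => ?_, fun hd => ?_⟩⟩
    · rw [← PP_true]
      refine hmin n (Nat.lt_succ_self n) _ _ _ ?_
      rw [PP_true]
      exact ⟨hc, hd⟩
    · by_contra hcon
      refine hrk ⟨d, hd, ?_⟩
      have h1 := hmin n (Nat.lt_succ_self n) _ (Fin.cons false ε : Fin (k + 1) → Bool)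
        (Fin.cons d e : Fin (k + 1) → Y) (by rw [PP_false]; exact ⟨hc, hcon⟩)
      rw [PP_false] at h1
      exact h1

omit [AddCommGroup (Sol Φ M)] in
/-- stability transfers to relations between tuples of `M` and tuples of `Sol Φ M` -/
private theorem no_ladder (hst : StableTh L M) {α κ : Type} [Finite α] [Finite κ]
    (φ : L.Formula (α ⊕ κ)) :
    ∃ n, ¬ Ladder (fun (x : α → M) (v : κ → Sol Φ M) =>
      φ.Realize (Sum.elim x fun i => (v i : M))) n := by
  obtain ⟨k, ⟨e1⟩⟩ := Finite.exists_equiv_fin α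
  obtain ⟨l, ⟨e2⟩⟩ := Finite.exists_equiv_fin κ
  obtain ⟨n, hn⟩ := hst k l (φ.relabel (Sum.map e1 e2))
  refine ⟨n, ?_⟩
  rintro ⟨a, b, hab⟩
  refine hn ⟨fun i => a i ∘ e1.symm, fun j => (fun i => (b j i : M)) ∘ e2.symm, fun i j => ?_⟩
  rw [← hab i j]
  show (φ.relabel (Sum.map e1 e2)).Realize (Sum.elim (a i ∘ e1.symm) ((fun i => (b j i : M)) ∘ e2.symm))
    ↔ φ.Realize (Sum.elim (a i) fun i => (b j i : M))
  rw [Formula.realize_relabel]
  have h1 : (Sum.elim (a i ∘ e1.symm) ((fun i => (b j i : M)) ∘ e2.symm)) ∘ Sum.map e1 e2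
      = Sum.elim (a i) fun i => (b j i : M) := by
    funext z
    rcases z with z | z
    · show a i (e1.symm (e1 z)) = a i z
      rw [Equiv.symm_apply_apply]
    · show (b j (e2.symm (e2 z)) : M) = b j z
      rw [Equiv.symm_apply_apply]
  rw [h1]

theorem trace_tame (hst : StableTh L M) {W : Λ → Submodule F (Sol Φ M)} (hd : HDef Φ W)
    {α : Type} [Finite α] (c : α → M) : (trSys Φ c).Tame W := by
  intro κ _ s hs
  obtain ⟨φ, hφ⟩ := (trSys_def_iff Φ c s).1 hs
  set R : Set ((α → M) × (κ → Sol Φ M)) := {p | φ.Realize (Sum.elim p.1 fun i => (p.2 i : M))}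
    with hRdef
  have hR : MDef (L := L) R := ⟨φ, fun x v => Iff.rfl⟩
  obtain ⟨n0, hn0⟩ := no_ladder Φ hst φ
  obtain ⟨N, hN⟩ := no_rank (fun (x : α → M) (v : κ → Sol Φ M) => (x, v) ∈ R) n0 hn0
  obtain ⟨n, k, ε, e, hcr⟩ := crit R N hN c
  set S : Set ((α → M) × ((Fin k × κ) ⊕ κ → Sol Φ M)) :=
    {p | ∀ i, (p.1, fun a => p.2 (Sum.inl (i, a))) ∈ R ↔ ε i = true} ∩
      {p | (p.1, fun a => p.2 (Sum.inr a)) ∈ R} with hSdef
  have hS : MDef (L := L) S := by
    refine MDef.inter ?_ ?_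
    · refine MDef.fin_all (fun i : Fin k => {p : (α → M) × ((Fin k × κ) ⊕ κ → Sol Φ M) |
        (p.1, fun a => p.2 (Sum.inl (i, a))) ∈ R ↔ ε i = true}) (fun i => ?_)
      have h1 : MDef (L := L) {p : (α → M) × ((Fin k × κ) ⊕ κ → Sol Φ M) |
          (p.1, fun a => p.2 (Sum.inl (i, a))) ∈ R} :=
        MDef.comap id (fun a => Sum.inl (i, a)) hR
      cases hε : ε i with
      | true =>
        have h2 : {p : (α → M) × ((Fin k × κ) ⊕ κ → Sol Φ M) |
            (p.1, fun a => p.2 (Sum.inl (i, a))) ∈ R ↔ true = true} =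
            {p : (α → M) × ((Fin k × κ) ⊕ κ → Sol Φ M) |
            (p.1, fun a => p.2 (Sum.inl (i, a))) ∈ R} := by
          ext p
          exact ⟨fun h => h.2 rfl, fun h => ⟨fun _ => rfl, fun _ => h⟩⟩
        rw [h2]
        exact h1
      | false =>
        have h2 : {p : (α → M) × ((Fin k × κ) ⊕ κ → Sol Φ M) |
            (p.1, fun a => p.2 (Sum.inl (i, a))) ∈ R ↔ false = true} =
            {p : (α → M) × ((Fin k × κ) ⊕ κ → Sol Φ M) |
            (p.1, fun a => p.2 (Sum.inl (i, a))) ∈ R}ᶜ := by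
          ext p
          exact ⟨fun h h3 => absurd (h.1 h3) (by decide),
            fun h => ⟨fun h3 => absurd h3 h, fun h3 => absurd h3 (by decide)⟩⟩
        rw [h2]
        exact h1.compl
    · exact MDef.comap id (fun a => Sum.inr a) hR
  have hrho := bool_of_mdef Φ hd (rk_def Φ R hR n S hS) (fun x => x.elim)
  have hsf : s = (fun d : κ → Sol Φ M =>
      (Sum.elim (fun p : Fin k × κ => e p.1 p.2) d : (Fin k × κ) ⊕ κ → Sol Φ M)) ⁻¹'
      {v | ((fun x : Empty => x.elim : Empty → M), v) ∈ {p : (Empty → M) × ((Fin k × κ) ⊕ κ → Sol Φ M) |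
      Rk (fun (x : α → M) (y : κ → Sol Φ M) => (x, y) ∈ R) n {x | (x, p.2) ∈ S}}} := by
    ext d
    rw [hφ d]
    exact hcr d
  rw [hsf]
  refine BoolComb.preimage _ ?_ hrho
  rintro t ⟨ν, A, rfl⟩
  refine BoolComb.basic _ ⟨fun a => ν (Sum.inr a), A,
    -(lc (fun p => ν (Sum.inl p)) (fun p : Fin k × κ => e p.1 p.2)), ?_⟩
  ext d
  show lc ν (Sum.elim (fun p : Fin k × κ => e p.1 p.2) d) ∈ W A ↔
    lc (fun a => ν (Sum.inr a)) d - -(lc (fun p => ν (Sum.inl p)) (fun p : Fin k × κ => e p.1 p.2)) ∈ W A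
  rw [lc_elim, sub_neg_eq_add, add_comm]

end TAU
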