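import Pool.Agent.TAU.Core
import Pool.Agent.TAU.SExt
import Pool.Agent.TAU.PatFew
import Pool.Agent.TAU.BadFin
import Pool.Agent.TAU.LimB
import Pool.Agent.TAU.Atom
import Pool.Agent.TAU.Trc

/-! Project TAU, module TAU-Main: the positive theorem.

PROOF.  If `Λ` has `⊤ = ⊥` then `Sol Φ M` has one element (`W ⊤ = ⊤`, `W ⊥ = ⊥`) and everything is
trivial (`k = 0`, `ψ = ⊤`).  Otherwise `⊥ < ⊤`, `Sol Φ M` is infinite (`index`), so `M` is
infinite.
`Atom1 W`: `atom1_of_atomic` from `hatom` for `n = 1` (`Fin 1 → Sol Φ M` versus `Sol Φ M`: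
`v = fun _ => b`; a formula at `fun i => (v i : M)` with `v : Fin 1 → _` equal to `fun _ => v 0`).
`{x | ¬ x.Good}` is finite: `bad_fin`.  No `BadSeq`: `anti_few`.  So `SpecFin Λ` by `specFin`.
`𝒟 = trSys Φ c`: `Lin` by `trSys_lin`, `Tame` by `trace_tame`.  `∃ D, SBound 𝒟 W D`: otherwise
choose `pA`, `pC` by `isOpen_iff_pair`, and `exists_items`, `items_few` contradict `hfew`.
`core` gives `k, a`.  Translate `(𝒟.adj a).Isolated d` for `ι = Fin l`: the isolating set is
`{v | Sum.elim a v ∈ t}` with `t` defined by a formula `φ` in the variables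
`Fin m ⊕ (Fin k ⊕ Fin l)` evaluated at `Sum.elim c (coe ∘ Sum.elim a v)`; relabel to
`(Fin m ⊕ Fin k) ⊕ Fin l` (`Equiv.sumAssoc`). -/

namespace TAU

open FirstOrder FirstOrder.Language

private theorem mn_elim {V M : Type} {m k l : ℕ} (f : V → M) (c : Fin m → M) (a : Fin k → V)
    (v : Fin l → V) :
    (Sum.elim (Sum.elim c fun i => f (a i)) fun i => f (v i)) ∘
        (Equiv.sumAssoc (Fin m) (Fin k) (Fin l)).symm =
      Sum.elim c fun i => f (Sum.elim a v i) := by
  funext i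
  rcases i with i | i | i <;> rfl

private theorem mn_elim' {V M : Type} {m k l : ℕ} (f : V → M) (c : Fin m → M) (a : Fin k → V)
    (v : Fin l → V) :
    (Sum.elim c fun i => f (Sum.elim a v i)) ∘ (Equiv.sumAssoc (Fin m) (Fin k) (Fin l)) =
      Sum.elim (Sum.elim c fun i => f (a i)) fun i => f (v i) := by
  funext i
  rcases i with (i | i) | i <;> rfl

theorem main (L : FirstOrder.Language.{0, 0}) (hL : L.card ≤ Cardinal.aleph0) (M : Type)
    [L.Structure M] [Countable M] (hst : StableTh L M)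
    (hfew : numModels L (L.completeTheory M) < Cardinal.continuum) (Φ : L.Formula (Fin 1))
    (F Λ : Type) [Field F] [Finite F] [DistribLattice Λ] [BoundedOrder Λ]
    [AddCommGroup (Sol Φ M)] [Module F (Sol Φ M)] (W : Λ → Submodule F (Sol Φ M))
    (hW : LatSpace W)
    (hdef : ∀ (n : ℕ) (s : Set (Fin n → Sol Φ M)),
      (∃ φ : L.Formula (Fin n), ∀ v : Fin n → Sol Φ M, v ∈ s ↔ φ.Realize fun i => (v i : M)) ↔
        BoolComb (basics W (Fin n)) s)
    (hatom : ∀ (n : ℕ) (v : Fin n → Sol Φ M), ∃ ψ : L.Formula (Fin n),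
      ψ.Realize (fun i => (v i : M)) ∧
        ∀ w : Fin n → Sol Φ M, ψ.Realize (fun i => (w i : M)) → ∀ θ : L.Formula (Fin n),
          θ.Realize (fun i => (v i : M)) → θ.Realize (fun i => (w i : M)))
    (m : ℕ) (c : Fin m → M) :
    ∃ (k : ℕ) (a : Fin k → Sol Φ M), ∀ (l : ℕ) (d : Fin l → Sol Φ M),
      ∃ ψ : L.Formula ((Fin m ⊕ Fin k) ⊕ Fin l),
        ψ.Realize (Sum.elim (Sum.elim c fun i => (a i : M)) fun i => (d i : M)) ∧
          ∀ y : Fin l → Sol Φ M,
            ψ.Realize (Sum.elim (Sum.elim c fun i => (a i : M)) fun i => (y i : M)) →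
              ∀ θ : L.Formula ((Fin m ⊕ Fin k) ⊕ Fin l),
                θ.Realize (Sum.elim (Sum.elim c fun i => (a i : M)) fun i => (d i : M)) →
                  θ.Realize (Sum.elim (Sum.elim c fun i => (a i : M)) fun i => (y i : M)) := by
  classical
  have hd : HDef Φ W := hdef
  by_cases htb : (⊥ : Λ) = ⊤
  · -- trivial case
    have h1 : (⊥ : Submodule F (Sol Φ M)) = ⊤ := by rw [← hW.bot, ← hW.top, htb]
    have h2 : ∀ x y : Sol Φ M, x = y := by
      have h3 : ∀ x : Sol Φ M, x = 0 := fun x => by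
        have h4 : x ∈ (⊤ : Submodule F (Sol Φ M)) := Submodule.mem_top
        rw [← h1] at h4
        exact (Submodule.mem_bot F).1 h4
      intro x y
      rw [h3 x, h3 y]
    refine ⟨0, Fin.elim0, fun l d => ⟨⊤, Formula.realize_top.2 trivial, fun y _ θ hθ => ?_⟩⟩
    have h3 : y = d := funext fun i => h2 _ _
    rw [h3]
    exact hθ
  · have hlt : (⊥ : Λ) < ⊤ := lt_of_le_of_ne bot_le htb
    have hinf : Infinite (Sol Φ M) := by
      have h1 := hW.index ⊥ ⊤ hlt
      rw [hW.bot, hW.top] at h1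
      have h2 : (⊥ : AddSubgroup (Sol Φ M)).relIndex (⊤ : AddSubgroup (Sol Φ M)) = 0 := h1
      rw [AddSubgroup.relIndex_bot_left] at h2
      rcases Nat.card_eq_zero.1 h2 with h3 | h3
      · exact (h3.false (⟨0, AddSubgroup.mem_top _⟩ : (⊤ : AddSubgroup (Sol Φ M)))).elim
      · exact Infinite.of_injective (Subtype.val : (⊤ : AddSubgroup (Sol Φ M)) → Sol Φ M)
          Subtype.val_injective
    have : Infinite M := Infinite.of_injective (Subtype.val : Sol Φ M → M) Subtype.val_injective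
    have hA : Atom1 W := atom1_of_atomic Φ hW hd fun b => by
      obtain ⟨ψ, h1, h2⟩ := hatom 1 fun _ => b
      exact ⟨ψ, h1, fun w hw θ hθ => h2 (fun _ => w) hw θ hθ⟩
    have hbad := bad_fin Φ hL hW hA hd hfew
    have hS : SpecFin Λ := specFin hbad fun x z h => absurd (anti_few Φ hL hW hd h) (not_le.2 hfew)
    have hl : (trSys Φ c).Lin W := trSys_lin Φ hd c
    have ht : (trSys Φ c).Tame W := trace_tame Φ hst hd c
    have hD : ∃ D, SBound (trSys Φ c) W D := by
      by_contra hD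
      have h1 : ∀ y : Pt Λ, ∃ A C, IsOpen ({y} : Set (Pt Λ)) → Pair y A C := by
        intro y
        by_cases hy : IsOpen ({y} : Set (Pt Λ))
        · obtain ⟨A, C, h⟩ := isOpen_iff_pair.1 hy
          exact ⟨A, C, fun _ => h⟩
        · exact ⟨⊤, ⊤, fun h => absurd h hy⟩
      choose pA pC hp using h1
      obtain ⟨y, T, h2, h3⟩ := exists_items hW (trSys Φ c) hl pA pC hp hD
      exact absurd (items_few Φ hL hW hd c h2 h3) (not_le.2 hfew)
    obtain ⟨D, hD⟩ := hD
    obtain ⟨k, a, hcore⟩ := core hW (trSys Φ c) hl ht hS hA hD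
    refine ⟨k, a, fun l d => ?_⟩
    obtain ⟨s, ⟨t, ht1, hst1⟩, hds, hiso⟩ := hcore (Fin l) d
    obtain ⟨φ, hφ⟩ := (trSys_def_iff Φ c t).1 ht1
    have hψ : ∀ v : Fin l → Sol Φ M,
        (φ.relabel (Equiv.sumAssoc (Fin m) (Fin k) (Fin l)).symm).Realize
          (Sum.elim (Sum.elim c fun i => (a i : M)) fun i => (v i : M)) ↔ v ∈ s := by
      intro v
      rw [Formula.realize_relabel, mn_elim (Subtype.val : Sol Φ M → M), ← hφ, hst1]
      rfl
    refine ⟨φ.relabel (Equiv.sumAssoc (Fin m) (Fin k) (Fin l)).symm, (hψ d).2 hds,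
      fun y hy θ hθ => ?_⟩
    have h1 : ∀ v : Fin l → Sol Φ M,
        (θ.relabel (Equiv.sumAssoc (Fin m) (Fin k) (Fin l))).Realize
          (Sum.elim c fun i => ((Sum.elim a v i : Sol Φ M) : M)) ↔
        θ.Realize (Sum.elim (Sum.elim c fun i => (a i : M)) fun i => (v i : M)) := by
      intro v
      rw [Formula.realize_relabel, mn_elim' (Subtype.val : Sol Φ M → M)]
    have h2 : ((trSys Φ c).adj a).Def {v : Fin l → Sol Φ M |
        θ.Realize (Sum.elim (Sum.elim c fun i => (a i : M)) fun i => (v i : M))} := by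
      refine ⟨{u | (θ.relabel (Equiv.sumAssoc (Fin m) (Fin k) (Fin l))).Realize
        (Sum.elim c fun i => (u i : M))}, (trSys_def_iff Φ c _).2 ⟨_, fun v => Iff.rfl⟩, ?_⟩
      ext v
      exact (h1 v).symm
    exact hiso y ((hψ y).1 hy) _ h2 hθ

end TAU
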