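import Pool.Agent.TAU.NEX

/-! Project TAU, module TAU-NEA: the elements of the sort `V` of the example have isolated types.

PROOF.  Let `b ∈ WH F Lam.zero`, i.e. `b.2 = 0`.  If `b = 0`: `A = ⊥`, `T = ∅` (`A ≤ B` always,
`B < ⊥` never).  Let `b ≠ 0`.  Let `D = {none} ∪ {some (i, n) | all values of b at the cells (i', n')
with i' ≤ i, n' ≤ n are 0}`.  `D` is down-closed.  By `large_rows` there is `K` such that `b` is
not zero at `(i, 0)` for `i ≥ K`; in particular some row does not vanish; let `k` be the least row
which does not vanish (`k ≤ K`), `b` nonzero at `(k, n0)`.  The rows `< k` are contained in `D`.  A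
cell `(i, n) ∈ D` with `k ≤ i` has `i < K` and `n < n0`, so there are finitely many.  So `D` is
nice (second kind, `k`).  `A = Lam.mk D`.  `b` vanishes on `D`.  If `b ∈ WH F B` then `B.set ⊆ D`:
`B.set ≠ univ` by `evl_inj`, so `B.set` is down-closed and `b` vanishes on it.
A corner is a cell `p` with `some p ∉ D` such that `D ∪ {some p}` is down-closed.  There are only
finitely many corners `(i, n)`: `i ≤ K`, since for `i > K` the cell `(K, 0) ∉ D`, so
`(i - 1, 0) ∉ D` and `(i - 1, n) ∉ D`, but `(i - 1, n) ≤ (i, n)` would have to be in `D`; and for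
given `i` the number `n` is the least `n` with `(i, n) ∉ D`.  For a corner `p`, `D ∪ {some p}` is
nice (same `k`).  `T` = the finset of these elements of `Lam`; they are `< A`.  Let `B < A`:
`D ⊊ B.set`; there is a cell in `B.set \ D`; take a minimal one `p` (product order, well-founded).
All cells `q ≤ p`, `q ≠ p` are in `B.set` (down-closed or `univ`), hence in `D` by minimality; so
`p` is a corner, and `D ∪ {some p} ⊆ B.set`, i.e. `B ≤ Lam.mk (D ∪ {some p})`. -/

namespace TAU

section
variable {F : Type} [Field F]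

/-- the largest down-closed set of cells on which `b` vanishes, with the extra point -/
private def DD (b : HH F) : Set Om :=
  {ω | ∀ i n, ω = some (i, n) → ∀ i' n', i' ≤ i → n' ≤ n → ∀ e, evl b (some (i', n')) e = 0}

private theorem none_mem (b : HH F) : none ∈ DD b := by
  intro i n h
  exact absurd h (by simp)

private theorem some_mem {b : HH F} {i n : ℕ} :
    some (i, n) ∈ DD b ↔ ∀ i' n', i' ≤ i → n' ≤ n → ∀ e, evl b (some (i', n')) e = 0 := by
  constructor
  · intro h
    exact h i n rfl
  · intro h i1 n1 h1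
    rw [Option.some.injEq, Prod.mk.injEq] at h1
    obtain ⟨rfl, rfl⟩ := h1
    exact h

private theorem down (b : HH F) : DownC (DD b) := by
  intro i n i' n' h hi hn
  rw [some_mem] at h ⊢
  intro i1 n1 h1 h2
  exact h i1 n1 (h1.trans hi) (h2.trans hn)

end

theorem example_atom {F : Type} [Field F] {b : HH F} (hb : b ∈ WH F Lam.zero) :
    ∃ A : Lam, (b ∈ WH F A ∧ ∀ B, b ∈ WH F B → A ≤ B) ∧
      ∃ T : Finset Lam, (∀ C ∈ T, C < A) ∧ ∀ B, B < A → ∃ C ∈ T, B ≤ C := by
  classical
  have hbn : ∀ e, evl b none e = 0 := fun e => hb none (Set.mem_singleton _) e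
  by_cases h0 : b = 0
  · refine ⟨⊥, ⟨?_, fun B _ => bot_le⟩, ∅, fun C hC => absurd hC (Finset.notMem_empty C), ?_⟩
    · rw [h0]
      exact (WH F ⊥).zero_mem
    · intro B hB
      exact absurd hB not_lt_bot
  · have hb2 : b.2 = 0 := by
      ext e
      exact hbn e
    obtain ⟨K, hK⟩ := large_rows hb2 h0
    have hex : ∃ k, ∃ n e, evl b (some (k, n)) e ≠ 0 := by
      obtain ⟨e, he⟩ := hK K le_rfl
      exact ⟨K, 0, e, he⟩
    obtain ⟨n0, e0, hne⟩ := Nat.find_spec hex
    have hmin : ∀ i < Nat.find hex, ∀ n e, evl b (some (i, n)) e = 0 := by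
      intro i hi n e
      by_contra hcon
      exact Nat.find_min hex hi ⟨n, e, hcon⟩
    generalize Nat.find hex = k at hne hmin
    have hrows : ∀ i n, i < k → some (i, n) ∈ DD b := by
      intro i n hi
      rw [some_mem]
      intro i' n' h1 _ e
      exact hmin i' (lt_of_le_of_lt h1 hi) n' e
    have hfin : {p : ℕ × ℕ | some p ∈ DD b ∧ k ≤ p.1}.Finite := by
      refine ((Set.finite_Iio K).prod (Set.finite_Iio n0)).subset ?_
      rintro ⟨i, n⟩ ⟨h1, h2⟩
      rw [some_mem] at h1
      refine ⟨?_, ?_⟩
      · rw [Set.mem_Iio]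
        by_contra h3
        obtain ⟨e, he⟩ := hK i (not_lt.1 h3)
        exact he (h1 i 0 le_rfl (Nat.zero_le _) e)
      · rw [Set.mem_Iio]
        by_contra h3
        exact hne (h1 k n0 h2 (not_lt.1 h3) e0)
    have hD : Nice (DD b) := Or.inr ⟨down b, Or.inr ⟨none_mem b, k, hrows, hfin⟩⟩
    have hDset : (Lam.mk (DD b) hD).set = DD b := rfl
    -- corners
    have hCfin : {p : ℕ × ℕ | some p ∉ DD b ∧ DownC (insert (some p) (DD b))}.Finite := by
      refine Set.Finite.of_finite_image (f := Prod.fst) ((Set.finite_Iic K).subset ?_) ?_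
      · rintro _ ⟨⟨i, n⟩, ⟨_, h2⟩, rfl⟩
        rw [Set.mem_Iic]
        by_contra h3
        have h4 : some (i - 1, n) ∈ insert (some (i, n)) (DD b) :=
          h2 i n (i - 1) n (Set.mem_insert _ _) (Nat.sub_le _ _) le_rfl
        rcases h4 with h4 | h4
        · rw [Option.some.injEq, Prod.mk.injEq] at h4
          dsimp only at h3
          omega
        · rw [some_mem] at h4
          obtain ⟨e, he⟩ := hK (i - 1) (by dsimp only at h3; omega)
          exact he (h4 (i - 1) 0 le_rfl (Nat.zero_le _) e)
      · have key : ∀ i n n' : ℕ, n < n' → some (i, n) ∉ DD b → DownC (insert (some (i, n')) (DD b)) → False := by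
          intro i n n' hnn h1 h2
          rcases h2 i n' i n (Set.mem_insert _ _) le_rfl hnn.le with h3 | h3
          · rw [Option.some.injEq, Prod.mk.injEq] at h3
            omega
          · exact h1 h3
        rintro ⟨i, n⟩ ⟨h1, h2⟩ ⟨i', n'⟩ ⟨h1', h2'⟩ hii
        dsimp only at hii
        subst hii
        rcases lt_trichotomy n n' with h | h | h
        · exact (key i n n' h h1 h2').elim
        · rw [h]
        · exact (key i n' n h h1' h2).elim
    have hnice : ∀ p : ℕ × ℕ, DownC (insert (some p) (DD b)) → Nice (insert (some p) (DD b)) := by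
      intro p hp
      refine Or.inr ⟨hp, Or.inr ⟨Set.mem_insert_of_mem _ (none_mem b), k,
        fun i n hi => Set.mem_insert_of_mem _ (hrows i n hi), ?_⟩⟩
      refine (hfin.insert p).subset ?_
      rintro q ⟨h1, h2⟩
      rcases h1 with h1 | h1
      · rw [Option.some.injEq] at h1
        exact Or.inl h1
      · exact Or.inr ⟨h1, h2⟩
    set g : ℕ × ℕ → Lam := fun p => if h : Nice (insert (some p) (DD b)) then Lam.mk _ h
      else Lam.mk (DD b) hD with hg
    have hgset : ∀ p, DownC (insert (some p) (DD b)) → (g p).set = insert (some p) (DD b) := by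
      intro p hp
      rw [hg]
      dsimp only
      rw [dif_pos (hnice p hp)]
      rfl
    refine ⟨Lam.mk (DD b) hD, ⟨?_, ?_⟩, hCfin.toFinset.image g, ?_, ?_⟩
    · intro ω hω e
      rcases ω with _ | ⟨i, n⟩
      · exact hbn e
      · exact some_mem.1 hω i n le_rfl le_rfl e
    · intro B hB
      rw [Lam.le_iff]
      rcases B.nice with h1 | ⟨h1, _⟩
      · exfalso
        apply h0
        apply evl_inj
        intro ω e
        exact hB ω (by rw [h1]; trivial) e
      · intro ω hω
        rcases ω with _ | ⟨i, n⟩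
        · exact none_mem b
        · refine some_mem.2 ?_
          intro i' n' h2 h3 e
          exact hB _ (h1 i n i' n' hω h2 h3) e
    · intro C hC
      rw [Finset.mem_image] at hC
      obtain ⟨p, hp, rfl⟩ := hC
      rw [Set.Finite.mem_toFinset] at hp
      rw [lt_iff_le_not_ge, Lam.le_iff, Lam.le_iff, hgset p hp.2]
      refine ⟨Set.subset_insert _ _, fun h1 => hp.1 (h1 (Set.mem_insert _ _))⟩
    · intro B hB
      rw [lt_iff_le_not_ge, Lam.le_iff, Lam.le_iff, hDset] at hB
      obtain ⟨hB1, hB2⟩ := hB
      have hBdown : DownC B.set := by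
        rcases B.nice with h1 | ⟨h1, _⟩
        · rw [h1]
          intro i n i' n' _ _ _
          trivial
        · exact h1
      have hne2 : ∃ s, ∃ q : ℕ × ℕ, q.1 + q.2 = s ∧ some q ∈ B.set ∧ some q ∉ DD b := by
        rw [Set.not_subset] at hB2
        obtain ⟨ω, h1, h2⟩ := hB2
        rcases ω with _ | q
        · exact absurd (none_mem b) h2
        · exact ⟨_, q, rfl, h1, h2⟩
      obtain ⟨⟨i, n⟩, hps, hpB, hpD⟩ := Nat.find_spec hne2
      have hpmin : ∀ i' n', i' ≤ i → n' ≤ n → (i', n') ≠ (i, n) → some (i', n') ∈ DD b := by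
        intro i' n' h1 h2 h3
        by_contra h4
        have h5 : i' + n' < Nat.find hne2 := by
          rw [← hps]
          dsimp only
          rcases Nat.lt_or_ge i' i with h6 | h6
          · omega
          · rcases Nat.lt_or_ge n' n with h7 | h7
            · omega
            · exfalso
              apply h3
              rw [le_antisymm h1 h6, le_antisymm h2 h7]
        exact Nat.find_min hne2 h5 ⟨(i', n'), rfl, hBdown i n i' n' hpB h1 h2, h4⟩
      have hcorner : DownC (insert (some (i, n)) (DD b)) := by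
        intro i1 n1 i' n' h1 h2 h3
        rcases h1 with h1 | h1
        · rw [Option.some.injEq, Prod.mk.injEq] at h1
          obtain ⟨rfl, rfl⟩ := h1
          by_cases h4 : (i', n') = (i1, n1)
          · rw [h4]
            exact Set.mem_insert _ _
          · exact Set.mem_insert_of_mem _ (hpmin i' n' h2 h3 h4)
        · exact Set.mem_insert_of_mem _ (down b i1 n1 i' n' h1 h2 h3)
      refine ⟨g (i, n), Finset.mem_image.2 ⟨(i, n), hCfin.mem_toFinset.2 ⟨hpD, hcorner⟩, rfl⟩, ?_⟩
      rw [Lam.le_iff, hgset _ hcorner]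
      exact Set.insert_subset hpB hB1

end TAU
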