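import Pool.Agent.TAU.NED

/-! Project TAU, module TAU-NEF: the lattice `Lam` has only countably many filters.

(Recall that `A ≤ B` in `Lam` means `B.set ⊆ A.set`.)  For `k : ℕ` let `Rk k` be the nice set
`{none} ∪ {some (i, n) | i < k}`.  For a filter `𝔉` let `D = {p : ℕ × ℕ | ∃ A ∈ 𝔉, some p ∈ A.set}`,
`K = {k | Rk k ∈ 𝔉}`, `u = (⊥ ∈ 𝔉)`.
CLAIM: `𝔉` is determined by `(D, K, u)`.  Let `A : Lam`.
 If `A.set = univ`: `A = ⊥`, `A ∈ 𝔉 ↔ u`.
 If `A.set` is finite and `none ∉ A.set`: `A ∈ 𝔉` iff all cells of `A` are in `D`: choose for each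
 cell `p` of `A` an `A_p ∈ 𝔉` containing it; the infimum of the `A_p` (union of the sets) is in `𝔉`
 and is `≤ A`.
 If `A` is of the second kind with `k`: `A ∈ 𝔉` iff `k ∈ K` and all cells of `A` are in `D`: (→)
 `A ≤ Rk k`; (←) take the infimum of `Rk k` and of the `A_p` for the finitely many cells `p` of `A`
 in the rows `≥ k`.
`D` is a lower set of `ℕ × ℕ` (if `some p ∈ A.set` and `q ≤ p` then `some q ∈ A.set`, also for
`A.set = univ`), `K` is a lower set of `ℕ` (`Rk k ≤ Rk k'` for `k' ≤ k`).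
`ℕ × ℕ` has only countably many lower sets (`lowerSet_countable`): the complement of a lower set is
determined by the set of its minimal elements, which is finite (`ℕ × ℕ` is a well partial order:
Dickson's lemma, `Pi.isPWO` / `Set.isPWO`, `Set.IsPWO`; an antichain of a well-quasi-order is
finite), and there are countably many finite sets; or: a lower set is described by the
nonincreasing function row `i` ↦ length in `ℕ∞`, which is eventually constant.  Lower sets of `ℕ`: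
similarly (`univ` or `{k | k < n}`).
So the filters inject into a countable set.
`lam_countable`: `A ↦ {B | A ≤ B}` is injective into the filters. -/

namespace TAU

private theorem nf_min (D : Set (ℕ × ℕ)) (n : ℕ) : ∀ q : ℕ × ℕ, q.1 + q.2 = n → q ∉ D →
    ∃ p, (p ∉ D ∧ ∀ q ≤ p, q ∉ D → q = p) ∧ p ≤ q := by
  induction n using Nat.strong_induction_on with
  | _ n ih =>
    intro q hn hq
    by_cases h : ∀ q' ≤ q, q' ∉ D → q' = q
    · exact ⟨q, ⟨hq, h⟩, le_rfl⟩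
    · push Not at h
      obtain ⟨q', h1, h2, h3⟩ := h
      have h4 : q'.1 + q'.2 < n := by
        have h5 : q'.1 ≤ q.1 := h1.1
        have h6 : q'.2 ≤ q.2 := h1.2
        rcases Nat.lt_or_ge (q'.1 + q'.2) n with h7 | h7
        · exact h7
        · exact absurd (Prod.ext (by omega) (by omega)) h3
      obtain ⟨p, hp, hp'⟩ := ih _ h4 q' rfl h2
      exact ⟨p, hp, hp'.trans h1⟩

theorem lowerSet_countable : {D : Set (ℕ × ℕ) | IsLowerSet D}.Countable := by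
  refine Set.Countable.mono (s₂ := (fun S : Set (ℕ × ℕ) => {q | ¬ ∃ p ∈ S, p ≤ q}) ''
    {S : Set (ℕ × ℕ) | S.Finite}) ?_ (Set.Countable.image Set.Countable.ofPred_finite _)
  intro D hD
  refine ⟨{p | p ∉ D ∧ ∀ q ≤ p, q ∉ D → q = p}, ?_, ?_⟩
  · have h1 : IsAntichain (· ≤ ·) {p : ℕ × ℕ | p ∉ D ∧ ∀ q ≤ p, q ∉ D → q = p} := by
      intro p hp q hq hne hle
      exact hne (hq.2 p hle hp.1)
    exact WellQuasiOrderedLE.finite_of_isAntichain h1
  · ext q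
    show (¬ ∃ p ∈ {p : ℕ × ℕ | p ∉ D ∧ ∀ q ≤ p, q ∉ D → q = p}, p ≤ q) ↔ q ∈ D
    constructor
    · intro h
      by_contra hq
      obtain ⟨p, hp, hpq⟩ := nf_min D _ q rfl hq
      exact h ⟨p, hp, hpq⟩
    · rintro hq ⟨p, hp, hpq⟩
      exact hp.1 (hD hpq hq)

private theorem nf_nat : {K : Set ℕ | IsLowerSet K}.Countable := by
  refine Set.MapsTo.countable_of_injOn (f := fun K : Set ℕ => {p : ℕ × ℕ | p.1 ∈ K})
    (t := {D : Set (ℕ × ℕ) | IsLowerSet D}) ?_ ?_ lowerSet_countable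
  · intro K hK p q hqp hp
    exact hK hqp.1 hp
  · intro K _ K' _ h
    ext k
    have h1 : ((k, 0) : ℕ × ℕ) ∈ {p : ℕ × ℕ | p.1 ∈ K} ↔ ((k, 0) : ℕ × ℕ) ∈ {p : ℕ × ℕ | p.1 ∈ K'} := by
      have h2 : {p : ℕ × ℕ | p.1 ∈ K} = {p : ℕ × ℕ | p.1 ∈ K'} := h
      rw [h2]
    exact h1

/-- the point `none` and the first `k` rows -/
private def nfR (k : ℕ) : Set Om := {ω | ω = none ∨ ∃ i n, i < k ∧ ω = some (i, n)}

private theorem nf_mem {k i n : ℕ} : (some (i, n) : Om) ∈ nfR k ↔ i < k := by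
  constructor
  · rintro (h | ⟨i', n', h, h'⟩)
    · exact absurd h (by simp)
    · have h2 := Option.some.inj h'
      rw [Prod.mk.injEq] at h2
      rw [h2.1]
      exact h
  · intro h
    exact Or.inr ⟨i, n, h, rfl⟩

private theorem nf_nice (k : ℕ) : Nice (nfR k) := by
  refine Or.inr ⟨?_, Or.inr ⟨Or.inl rfl, k, fun i n h => nf_mem.2 h, ?_⟩⟩
  · intro i n i' n' h h1 _
    rw [nf_mem] at h ⊢
    omega
  · have h : {p : ℕ × ℕ | (some p : Om) ∈ nfR k ∧ k ≤ p.1} = ∅ := by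
      ext ⟨i, n⟩
      simp only [Set.mem_ofPred_eq, Set.mem_empty_iff_false, iff_false]
      rintro ⟨h1, h2⟩
      rw [nf_mem] at h1
      omega
    rw [h]
    exact Set.finite_empty

private theorem nf_fin {𝔉 : Set Lam} (h𝔉 : IsFil 𝔉) {S : Set (ℕ × ℕ)} (hS : S.Finite)
    (h : ∀ p ∈ S, ∃ A ∈ 𝔉, (some p : Om) ∈ A.set) :
    ∃ B ∈ 𝔉, ∀ p ∈ S, (some p : Om) ∈ B.set := by
  induction S, hS using Set.Finite.induction_on with
  | empty => exact ⟨⊤, h𝔉.top, fun p hp => absurd hp (Set.notMem_empty p)⟩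
  | insert _ _ ih =>
    obtain ⟨B, hB, hB'⟩ := ih fun p hp => h p (Set.mem_insert_of_mem _ hp)
    obtain ⟨A, hA, hA'⟩ := h _ (Set.mem_insert _ _)
    refine ⟨A ⊓ B, h𝔉.inf _ _ hA hB, fun p hp => ?_⟩
    rw [Lam.set_inf]
    rcases Set.mem_insert_iff.1 hp with rfl | hp
    · exact Or.inl hA'
    · exact Or.inr (hB' p hp)

private theorem nf_le {𝔉 𝔉' : Set Lam} (h𝔉' : IsFil 𝔉') (h𝔉 : IsFil 𝔉)
    (hD : {p : ℕ × ℕ | ∃ A ∈ 𝔉, (some p : Om) ∈ A.set} =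
      {p : ℕ × ℕ | ∃ A ∈ 𝔉', (some p : Om) ∈ A.set})
    (hK : {k : ℕ | Lam.mk (nfR k) (nf_nice k) ∈ 𝔉} = {k : ℕ | Lam.mk (nfR k) (nf_nice k) ∈ 𝔉'})
    (hu : ((⊥ : Lam) ∈ 𝔉) = ((⊥ : Lam) ∈ 𝔉')) {A : Lam} (hA : A ∈ 𝔉) : A ∈ 𝔉' := by
  have hcell : ∀ p : ℕ × ℕ, (some p : Om) ∈ A.set → ∃ B ∈ 𝔉', (some p : Om) ∈ B.set := by
    intro p hp
    have h1 : p ∈ {p : ℕ × ℕ | ∃ A ∈ 𝔉, (some p : Om) ∈ A.set} := ⟨A, hA, hp⟩
    rw [hD] at h1
    exact h1
  rcases A.nice with h | ⟨_, ⟨h1, h2⟩ | ⟨h1, k, h2, h3⟩⟩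
  · have h1 : A ≤ ⊥ := Lam.le_iff.2 (by rw [h]; exact Set.subset_univ _)
    have h2 : A = ⊥ := le_antisymm h1 bot_le
    rw [h2] at hA ⊢
    rw [← hu]
    exact hA
  · have h3 : ({p : ℕ × ℕ | (some p : Om) ∈ A.set}).Finite :=
      Set.Finite.preimage (Option.some_injective _).injOn h2
    obtain ⟨B, hB, hB'⟩ := nf_fin h𝔉' h3 hcell
    refine h𝔉'.up B A hB (Lam.le_iff.2 fun ω hω => ?_)
    rcases ω with _ | p
    · exact absurd hω h1
    · exact hB' p hω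
  · obtain ⟨B, hB, hB'⟩ := nf_fin h𝔉' h3 fun p hp => hcell p hp.1
    have h4 : Lam.mk (nfR k) (nf_nice k) ∈ 𝔉 := by
      refine h𝔉.up A _ hA (Lam.le_iff.2 ?_)
      rintro ω (rfl | ⟨i, n, hi, rfl⟩)
      · exact h1
      · exact h2 i n hi
    have h5 : k ∈ {k : ℕ | Lam.mk (nfR k) (nf_nice k) ∈ 𝔉} := h4
    rw [hK] at h5
    refine h𝔉'.up (Lam.mk (nfR k) (nf_nice k) ⊓ B) A (h𝔉'.inf _ _ h5 hB) (Lam.le_iff.2 fun ω hω => ?_)
    rw [Lam.set_inf]
    rcases ω with _ | ⟨i, n⟩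
    · exact Or.inl (Or.inl rfl)
    · rcases Nat.lt_or_ge i k with h6 | h6
      · exact Or.inl (nf_mem.2 h6)
      · exact Or.inr (hB' (i, n) ⟨hω, h6⟩)

theorem fil_countable : {𝔉 : Set Lam | IsFil 𝔉}.Countable := by
  refine Set.MapsTo.countable_of_injOn
    (f := fun 𝔉 : Set Lam => (({p : ℕ × ℕ | ∃ A ∈ 𝔉, (some p : Om) ∈ A.set},
      ({k : ℕ | Lam.mk (nfR k) (nf_nice k) ∈ 𝔉}, ((⊥ : Lam) ∈ 𝔉))) :
      Set (ℕ × ℕ) × Set ℕ × Prop))
    (t := {D : Set (ℕ × ℕ) | IsLowerSet D} ×ˢ {K : Set ℕ | IsLowerSet K} ×ˢ (Set.univ : Set Prop))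
    ?_ ?_ (lowerSet_countable.prod (nf_nat.prod Set.countable_univ))
  · intro 𝔉 h𝔉
    refine ⟨?_, ?_, trivial⟩
    · rintro ⟨i, n⟩ ⟨i', n'⟩ hqp ⟨A, hA, hA'⟩
      refine ⟨A, hA, ?_⟩
      rcases A.nice with h | ⟨h, _⟩
      · rw [h]
        exact Set.mem_univ _
      · exact h i n i' n' hA' hqp.1 hqp.2
    · intro k k' hk hkF
      refine IsFil.up h𝔉 _ _ hkF (Lam.le_iff.2 ?_)
      rintro ω (rfl | ⟨i, n, hi, rfl⟩)
      · exact Or.inl rfl
      · exact nf_mem.2 (hi.trans_le hk)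
  · intro 𝔉 h𝔉 𝔉' h𝔉' h
    have h1 := congrArg Prod.fst h
    have h2 := congrArg (fun x => x.2.1) h
    have h3 := congrArg (fun x => x.2.2) h
    ext A
    exact ⟨fun hA => nf_le h𝔉' h𝔉 h1 h2 h3 hA, fun hA => nf_le h𝔉 h𝔉' h1.symm h2.symm h3.symm hA⟩

theorem lam_countable : Countable Lam := by
  have : Countable {𝔉 : Set Lam | IsFil 𝔉} := fil_countable.to_subtype
  refine Function.Injective.countable
    (f := fun A : Lam => (⟨{B | A ≤ B}, ⟨show A ≤ ⊤ from le_top, fun X Y (h : A ≤ X) h' => show A ≤ Y from le_trans h h',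
      fun X Y h h' => show A ≤ X ⊓ Y from le_inf h h'⟩⟩ : {𝔉 : Set Lam | IsFil 𝔉})) ?_
  intro A B h
  have h1 : {C : Lam | A ≤ C} = {C : Lam | B ≤ C} := congrArg Subtype.val h
  have h2 : B ∈ {C : Lam | A ≤ C} := by
    rw [h1]
    exact le_refl B
  have h3 : A ∈ {C : Lam | B ≤ C} := by
    rw [← h1]
    exact le_refl A
  exact le_antisymm h2 h3

end TAU
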