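import Pool.Agent.TAU.NEX

/-! Project TAU, module TAU-NEN: in the example the sort `V` is not atomic over `c` and any finite
tuple of `V`.

`cc = (0, single 0 1)`.  `V = WH F Lam.zero = {h | h.2 = 0}` (for `h` in it `sq h = h.1`).
PROOF of `example_nonisolated`.  Let `a : Fin k → V`.  Choose `K` larger than all rows occurring in
the supports of the `(a i).1`.  Put `b = (r, 0)` with `r (i, 0, 0) = 1` for `i ≤ K` and `0` otherwise,
so `sq b = sq cc` on the rows `≤ K` (`sq cc (i, n, e) = 1` if `(n, e) = (0, 0)`, else `0`), and the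
values of `b` and `cc` at the cells of the rows `≤ K` agree (`evl_eq_of_sq`).
Let `𝓑` be a finset of `Lam`.  For each `B ∈ 𝓑` which is not `univ` the cells of `B` in rows which
are not among the full rows are finite in number; let `N ≥ K` bound the rows of these cells and the
numbers `k_B`, and let `n' > 0` be larger than all columns `n` of all cells `(i, n)` in the finite
parts (all cells of a finite `B`; the cells with row `≥ k_B` of a `B` of the second kind).
By `realize_rows` there is `δ` with `δ.2 = 0`, value `Pi.single 0 1` at the cell `(K, n')` and `0` at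
the other cells of the rows `≤ N`.  Put `b' = b + δ`.
(s) `sq δ = 0` on the rows `< K` (`sq_zero_of_rows`), `sq δ (K, 0, e) = 0` (value at `(K, 0)` is `0`
as `n' ≠ 0`, and `code_zero`).
Let `l, s, t` be given, `x = t • b + s • cc + lc l a`, `x' = t • b' + s • cc + lc l a = x + t • δ`,
`B ∈ 𝓑`.  If `t = 0` they are equal.  Let `t ≠ 0`.
(i) `s = 0` and the rows `≤ K` of `x` (or of `x'`) vanish: impossible, since then
`sq x (K, 0, 0) = 0` (`sq_zero_of_rows` with `k = K + 1`), but `sq x (K, 0, 0) = t * 1 + 0 = t`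
(`sq (lc l a) (K, 0, 0) = 0` as `(a i).1` has no support in row `K`, `(a i).2 = 0`), and
`sq x' (K, 0, 0) = t + t * 0` by (s).
(ii) `B.set = univ`: `x ∉ WH F B`, `x' ∉ WH F B`: for `s ≠ 0` the value at `none` is
`s • single 0 1 ≠ 0`; for `s = 0` by (i).
(iii) `B.set` finite without `none`: `δ` vanishes on `B` (rows `≤ N`, and `(K, n') ∉ B`), so the
values of `x`, `x'` agree on `B`.
(iv) `B` of the second kind with `k_B`: if `s ≠ 0` both are not in `WH F B` (value at `none`).  If
`s = 0` and `k_B ≤ K`: `δ` vanishes on `B`: on the rows `< k_B ≤ K`, and on the finite part.  If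
`s = 0` and `K < k_B`: the rows `≤ K` are contained in `B`, so neither is in `WH F B` by (i).
Finally let `B` be the nice set `{some (i, n) | i ≤ K, n ≤ n'}`: `b - cc` vanishes on it,
`b' - cc` does not vanish at `(K, n')`. -/

namespace TAU

variable {F : Type} [Field F]

/-- The element `c` of the example. -/
noncomputable def cc : HH F := (0, Finsupp.single 0 1)

private theorem evl_sub' (h h' : HH F) (ω : Om) (e : ℕ) :
    evl (h - h') ω e = evl h ω e - evl h' ω e := by
  have h1 := evl_add (h - h') h' ω e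
  rw [sub_add_cancel] at h1
  rw [h1]
  ring

private theorem sq_lc_zero {k : ℕ} (l : Fin k → F) (a : Fin k → HH F) (p : ℕ × ℕ × ℕ)
    (h : ∀ i, sq (a i) p = 0) : sq (lc l a) p = 0 := by
  unfold lc
  refine Finset.sum_induction _ (fun h => sq h p = 0) ?_ ?_ ?_
  · intro x y hx hy
    rw [sq_add, hx, hy, add_zero]
  · simp [sq]
  · intro i _
    rw [sq_smul, h i, mul_zero]

private theorem mem_zero {h : HH F} : h ∈ WH F Lam.zero ↔ h.2 = 0 := by
  rw [mem_WH]
  constructor
  · intro hh
    ext e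
    exact hh none rfl e
  · intro hh ω hω e
    have h1 : ω = none := hω
    subst h1
    show h.2 e = 0
    rw [hh]
    rfl

private theorem nice_bound {B : Set Om} (hB : Nice B) (K : ℕ) : ∃ M : ℕ,
    (none ∈ B ∧ ∀ i ≤ K, ∀ n, some (i, n) ∈ B) ∨
    (∀ i n, some (i, n) ∈ B → i < K ∨ (i ≤ M ∧ n ≤ M)) := by
  rcases hB with rfl | ⟨hd, ⟨hn, hf⟩ | ⟨hn, k, hk, hf⟩⟩
  · exact ⟨0, Or.inl ⟨trivial, fun _ _ _ => trivial⟩⟩
  · have hf' : {p : ℕ × ℕ | some p ∈ B}.Finite := hf.preimage (Option.some_injective _).injOn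
    obtain ⟨M, hM⟩ := hf'.bddAbove
    refine ⟨max M.1 M.2, Or.inr fun i n hin => Or.inr ?_⟩
    have h1 : (i, n) ≤ M := hM hin
    exact ⟨h1.1.trans (le_max_left _ _), h1.2.trans (le_max_right _ _)⟩
  · by_cases hkK : K < k
    · exact ⟨0, Or.inl ⟨hn, fun i hi n => hk i n (by omega)⟩⟩
    · obtain ⟨M, hM⟩ := hf.bddAbove
      refine ⟨max M.1 M.2, Or.inr fun i n hin => ?_⟩
      by_cases hi : i < k
      · left
        omega
      · right
        have h1 : (i, n) ≤ M := hM ⟨hin, not_lt.1 hi⟩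
        exact ⟨h1.1.trans (le_max_left _ _), h1.2.trans (le_max_right _ _)⟩

theorem example_nonisolated {k : ℕ} (a : Fin k → HH F) (ha : ∀ i, a i ∈ WH F Lam.zero) :
    ∃ b ∈ WH F Lam.zero, ∀ 𝓑 : Finset Lam, ∃ b' ∈ WH F Lam.zero,
      (∀ (l : Fin k → F) (s t : F), ∀ B ∈ 𝓑,
        (t • b + s • cc + lc l a ∈ WH F B ↔ t • b' + s • cc + lc l a ∈ WH F B)) ∧
      ∃ B : Lam, b - cc ∈ WH F B ∧ b' - cc ∉ WH F B := by
  classical
  have ha2 : ∀ i, (a i).2 = 0 := fun i => mem_zero.1 (ha i)
  obtain ⟨K, hK⟩ : ∃ K : ℕ, ∀ i, ∀ p : ℕ × ℕ × ℕ, K ≤ p.1 → (a i).1 p = 0 := by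
    refine ⟨(Finset.univ.sup fun i => (a i).1.support.sup fun p => p.1) + 1, fun i p hp => ?_⟩
    by_contra hne
    have h1 : p.1 ≤ (a i).1.support.sup fun p => p.1 :=
      Finset.le_sup (f := fun p : ℕ × ℕ × ℕ => p.1) (Finsupp.mem_support_iff.2 hne)
    have h2 : ((a i).1.support.sup fun p => p.1) ≤
        Finset.univ.sup fun i => (a i).1.support.sup fun p => p.1 :=
      Finset.le_sup (f := fun i => (a i).1.support.sup fun p => p.1) (Finset.mem_univ i)
    omega
  have hsa : ∀ i, ∀ p : ℕ × ℕ × ℕ, K ≤ p.1 → sq (a i) p = 0 := by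
    intro i p hp
    simp [sq, hK i p hp, ha2 i]
  have hlc2 : ∀ l : Fin k → F, (lc l a).2 = 0 := by
    intro l
    refine mem_zero.1 ?_
    unfold lc
    exact Submodule.sum_mem _ fun i _ => Submodule.smul_mem _ _ (ha i)
  obtain ⟨b, hb2, hbsq⟩ : ∃ b : HH F, b.2 = 0 ∧ ∀ i n e, i ≤ K →
      sq b (i, n, e) = if (n, e) = (0, 0) then 1 else 0 := by
    refine ⟨(∑ i ∈ Finset.range (K + 1), Finsupp.single (i, 0, 0) 1, 0), rfl,
      fun i n e hi => ?_⟩
    simp only [sq, Finsupp.coe_zero, Pi.zero_apply, zero_mul, add_zero,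
      Finsupp.finsetSum_apply, Finsupp.single_apply, Prod.mk.injEq]
    by_cases h : n = 0 ∧ e = 0
    · obtain ⟨rfl, rfl⟩ := h
      rw [if_pos ⟨rfl, rfl⟩, Finset.sum_eq_single i]
      · simp
      · intro j _ hji
        simp [hji]
      · intro hni
        exact absurd (Finset.mem_range.2 (by omega)) hni
    · rw [if_neg h]
      refine Finset.sum_eq_zero fun j _ => ?_
      rw [if_neg]
      rintro ⟨-, h1, h2⟩
      exact h ⟨h1.symm, h2.symm⟩
  have hcsq : ∀ p, sq (cc : HH F) p = if p.2 = (0, 0) then 1 else 0 := by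
    intro p
    simp [sq, cc]
  have hbc : ∀ i n e, i ≤ K → evl b (some (i, n)) e = evl (cc : HH F) (some (i, n)) e :=
    fun i n e hi => evl_eq_of_sq (fun i n e hi => by rw [hbsq i n e hi, hcsq]) hi n e
  refine ⟨b, mem_zero.2 hb2, fun 𝓑 => ?_⟩
  choose M hM using fun B : Lam => nice_bound B.nice K
  obtain ⟨M0, hM0⟩ : ∃ M0 : ℕ, ∀ B ∈ 𝓑, M B ≤ M0 :=
    ⟨𝓑.sup M, fun B hB => Finset.le_sup (f := M) hB⟩
  obtain ⟨δ, hδ2, hδ⟩ := realize_rows (F := F) (max M0 K)
    (fun i n e => if (i, n, e) = (K, M0 + 1, 0) then 1 else 0) (by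
      intro i _
      refine Set.Finite.subset (Set.finite_singleton (M0 + 1, 0)) ?_
      rintro ⟨n, e⟩ hne
      simp only [Set.mem_ofPred_eq, Prod.mk.injEq, ne_eq, ite_eq_right_iff, one_ne_zero,
        imp_false, not_not] at hne
      rw [Set.mem_singleton_iff, hne.2.1, hne.2.2])
  have hδ0 : ∀ i n e, i ≤ max M0 K → (i, n) ≠ (K, M0 + 1) → evl δ (some (i, n)) e = 0 := by
    intro i n e hi hne
    rw [hδ i hi n e, if_neg]
    intro h
    simp only [Prod.mk.injEq] at h
    exact hne (Prod.ext h.1 h.2.1)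
  have hδrow : ∀ i n e, i < K → evl δ (some (i, n)) e = 0 := by
    intro i n e hi
    refine hδ0 i n e (hi.le.trans (le_max_right _ _)) ?_
    intro h
    exact hi.ne (congrArg Prod.fst h)
  have hsδ : sq δ (K, 0, 0) = 0 := by
    have h1 : evl δ (some (K, 0)) 0 = 0 := by
      refine hδ0 K 0 0 (le_max_right _ _) ?_
      intro h
      have h2 : (0 : ℕ) = M0 + 1 := congrArg Prod.snd h
      omega
    have h2 : code δ K 0 = 0 := code_zero hδrow 0
    have h3 : evl δ (some (K, 0)) 0 = sq δ (K, 0, 0) + code δ K 0 := by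
      simp [evl]
    rw [h3, h2, add_zero] at h1
    exact h1
  refine ⟨b + δ, ?_, ?_, ?_⟩
  · rw [mem_zero, Prod.snd_add, hb2, hδ2, add_zero]
  · intro l s t B hB
    have hx' : t • (b + δ) + s • cc + lc l a = (t • b + s • cc + lc l a) + t • δ := by
      rw [smul_add]
      abel
    rcases hM B with ⟨hnone, hrows⟩ | hcells
    · by_cases ht : t = 0
      · rw [ht, zero_smul, zero_smul]
      · have hbK : sq b (K, 0, 0) = 1 := by
          rw [hbsq K 0 0 le_rfl, if_pos rfl]
        have hcore : ∀ x : HH F, x.2 = s • Finsupp.single 0 1 →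
            (s = 0 → sq x (K, 0, 0) = t) → x ∉ WH F B := by
          intro x hx2 hxsq hx
          rw [mem_WH] at hx
          have h1 : x.2 0 = 0 := hx none hnone 0
          have hs : s = 0 := by
            rw [hx2] at h1
            simpa using h1
          have h2 : sq x (K, 0, 0) = 0 :=
            sq_zero_of_rows (k := K + 1)
              (fun i n e hi => hx _ (hrows i (Nat.lt_succ_iff.1 hi) n) e) (Nat.lt_succ_self K) 0 0
          rw [hxsq hs] at h2
          exact ht h2
        have hsx : s = 0 → sq (t • b + s • cc + lc l a) (K, 0, 0) = t := by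
          intro hs
          rw [sq_add, sq_add, sq_smul, sq_smul, sq_lc_zero l a _ (fun i => hsa i _ le_rfl), hbK,
            hs]
          ring
        have hx2 : (t • b + s • cc + lc l a).2 = s • Finsupp.single 0 1 := by
          rw [Prod.snd_add, Prod.snd_add, Prod.smul_snd, Prod.smul_snd, hb2, hlc2 l, smul_zero,
            zero_add, add_zero]
          rfl
        refine iff_of_false (hcore _ hx2 hsx) (hcore _ ?_ ?_)
        · rw [hx', Prod.snd_add, hx2, Prod.smul_snd, hδ2, smul_zero, add_zero]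
        · intro hs
          rw [hx', sq_add, hsx hs, sq_smul, hsδ, mul_zero, add_zero]
    · have hδB : δ ∈ WH F B := by
        rw [mem_WH]
        rintro (_ | ⟨i, n⟩) hω e
        · show δ.2 e = 0
          rw [hδ2]
          rfl
        · rcases hcells i n hω with h1 | ⟨h1, h2⟩
          · exact hδrow i n e h1
          · have h3 := hM0 B hB
            refine hδ0 i n e ((h1.trans h3).trans (le_max_left _ _)) ?_
            intro h
            have h4 : n = M0 + 1 := congrArg Prod.snd h
            omega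
      rw [hx']
      exact (Submodule.add_mem_iff_left _ (Submodule.smul_mem _ t hδB)).symm
  · have hnice : Nice {ω : Om | ∃ i n, ω = some (i, n) ∧ i ≤ K ∧ n ≤ M0 + 1} := by
      refine Or.inr ⟨?_, Or.inl ⟨?_, ?_⟩⟩
      · rintro i n i' n' ⟨i1, n1, h1, h2, h3⟩ hi hn
        have h4 := Option.some.inj h1
        rw [Prod.mk.injEq] at h4
        exact ⟨i', n', rfl, by omega, by omega⟩
      · rintro ⟨i, n, h, -⟩
        exact absurd h (by simp)
      · refine Set.Finite.subset (((Set.finite_Iic K).prod (Set.finite_Iic (M0 + 1))).image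
          (some : ℕ × ℕ → Om)) ?_
        rintro ω ⟨i, n, h, hi, hn⟩
        exact ⟨(i, n), ⟨hi, hn⟩, h.symm⟩
    refine ⟨Lam.mk _ hnice, ?_, ?_⟩
    · rw [mem_WH]
      rintro ω ⟨i, n, rfl, hi, -⟩ e
      rw [evl_sub', hbc i n e hi, sub_self]
    · intro h
      rw [mem_WH] at h
      have h1 := h (some (K, M0 + 1)) ⟨K, M0 + 1, rfl, le_rfl, le_rfl⟩ 0
      rw [evl_sub', evl_add, hbc K (M0 + 1) 0 le_rfl, hδ K (le_max_right _ _) (M0 + 1) 0,
        if_pos rfl, add_sub_cancel_left] at h1
      exact one_ne_zero h1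

end TAU
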