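import Pool.Agent.TAU.NEX

/-! Project TAU, module TAU-NES: the example is a lattice space.

`bot`: `evl_inj`.  `top`: no condition.  `inf`: clear.
`sup`: `(A ⊔ B).set = A.set ∩ B.set`.  Let `h` vanish on `A.set ∩ B.set`; we need `h = h1 + h2` with
`h1` vanishing on `A.set`, `h2` on `B.set`.  If `A.set = univ` then `A ⊔ B = B`, `h1 = 0`; same for
`B`.  Otherwise at least one of the following cases (up to exchanging `A` and `B`) holds.
 Both finite without `none`: let `N` bound the rows of the cells of `A ∪ B`; by `realize_rows` there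
 is `h1` with `h1.2 = 0` whose value at a cell of a row `≤ N` is the value of `h` if the cell is in
 `B`, and `0` otherwise.  `h1` vanishes on `A` (a cell of `A` is outside of `B`, value `0`, or in
 `A ∩ B`, where `h` vanishes), and `h2 = h - h1` vanishes on `B`.
 `A` finite without `none`, `B` of the second kind: choose `h2` (not `h1`): `h2.2 = 0`, value of
 `h` at the (finitely many) cells of `A`, `0` at the other cells of the rows `≤ N`, where `N` bounds
 the rows of the cells of `A` and the rows `< k` and of the finite part of `B`.  Then `h2` vanishes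
 on `B` (at `none` as `h2.2 = 0`), and `h1 = h - h2` vanishes on `A`.
 Both of the second kind: `none ∈ A ∩ B`, so `h.2 = 0`.  `N` bounds all rows occurring (`< k`'s and
 finite parts).  `h1`: `h1.2 = 0`, at the cells of `B` in rows `≤ N` the value of `h`, `0` at the
 other cells of the rows `≤ N`; finite support for each row by `row_fin`.
`index`: let `A < B` in `Lam`, i.e. `B.set ⊊ A.set`; show that `WH A` has infinite index in `WH B`.
Choose `ω ∈ A.set`, `ω ∉ B.set`.  It suffices to find `x_0, x_1, .. ∈ WH B` whose values at `ω` are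
pairwise different: then `x_m - x_n ∉ WH A` (e.g. by `relIndex` nonzero → finitely many classes
→ two of the `x_m` in the same class).  If `ω = some (i, n)`: `B.set` is not `univ`; by
`realize_rows` with `N` at least `i` and bounding the rows of `B` (as above) there is `x_m` with
`x_m.2 = 0`, value `Pi.single m 1` at the cell `(i, n)` and `0` at the other cells of the rows
`≤ N`; it vanishes on `B`.  If `ω = none`: `B.set` is finite, without `none`; take `x_m` with
`x_m.2 = single (m+1) 1` and first component `0`: its `sq` is `0` (as `h.2 0 = 0`), so all cells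
vanish, and the value at `none` is `single (m+1) 1`. -/

namespace TAU

private theorem rows_bd {A : Set Om} (hA : Nice A) (hne : A ≠ Set.univ) :
    ∃ N, ∀ i n, some (i, n) ∈ A → i ≤ N := by
  rcases hA with h | ⟨-, ⟨-, hf⟩ | ⟨-, k, -, hf⟩⟩
  · exact absurd h hne
  · have h1 : {p : ℕ × ℕ | some p ∈ A}.Finite :=
      hf.preimage (f := fun p : ℕ × ℕ => (some p : Om)) (Option.some_injective _).injOn
    obtain ⟨N, hN⟩ := (h1.image Prod.fst).bddAbove
    exact ⟨N, fun i n hin => hN ⟨(i, n), hin, rfl⟩⟩
  · obtain ⟨N, hN⟩ := (hf.image Prod.fst).bddAbove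
    refine ⟨max k N, fun i n hin => ?_⟩
    by_cases hk : k ≤ i
    · exact (hN ⟨(i, n), ⟨hin, hk⟩, rfl⟩).trans (le_max_right _ _)
    · exact (not_le.1 hk).le.trans (le_max_left _ _)

variable {F : Type} [Field F]

private theorem evl_neg (h : HH F) (ω : Om) (e : ℕ) : evl (-h) ω e = - evl h ω e := by
  have h1 := evl_smul (-1 : F) h ω e
  rw [neg_one_mul] at h1
  have h2 : (-1 : F) • h = -h := neg_one_smul F h
  rwa [h2] at h1

private theorem WH_mono {A B : Lam} (h : B.set ⊆ A.set) : WH F A ≤ WH F B :=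
  fun _ hx ω hω e => hx ω (h hω) e

private theorem split_aux {A B : Lam} (hA : A.set ≠ Set.univ) (hB : B.set ≠ Set.univ)
    (hn : (none : Om) ∈ B.set → (none : Om) ∈ A.set) {h : HH F} (hh : h ∈ WH F (A ⊔ B)) :
    ∃ h1 ∈ WH F A, ∃ h2 ∈ WH F B, h1 + h2 = h := by
  classical
  obtain ⟨NA, hNA⟩ := rows_bd A.nice hA
  obtain ⟨NB, hNB⟩ := rows_bd B.nice hB
  obtain ⟨h1, h12, h1v⟩ := realize_rows (F := F) (max NA NB)
    (fun i n e => if (some (i, n) : Om) ∈ B.set then evl h (some (i, n)) e else 0) (by
      intro i _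
      refine (row_fin h i).subset ?_
      intro p hp
      show evl h (some (i, p.1)) p.2 ≠ 0
      intro h0
      apply hp
      show (if (some (i, p.1) : Om) ∈ B.set then evl h (some (i, p.1)) p.2 else 0) = 0
      rw [h0]
      split_ifs <;> rfl)
  have hA1 : h1 ∈ WH F A := by
    rintro (_ | ⟨i, n⟩) hω e
    · show h1.2 e = 0
      rw [h12]
      rfl
    · rw [h1v i ((hNA i n hω).trans (le_max_left _ _))]
      by_cases hb : (some (i, n) : Om) ∈ B.set
      · rw [if_pos hb]
        refine hh (some (i, n)) ?_ e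
        rw [Lam.set_sup]
        exact ⟨hω, hb⟩
      · rw [if_neg hb]
  refine ⟨h1, hA1, h - h1, ?_, add_sub_cancel _ _⟩
  rintro (_ | ⟨i, n⟩) hω e
  · rw [sub_eq_add_neg, evl_add, evl_neg, hA1 none (hn hω) e, neg_zero, add_zero]
    refine hh none ?_ e
    rw [Lam.set_sup]
    exact ⟨hn hω, hω⟩
  · rw [sub_eq_add_neg, evl_add, evl_neg, h1v i ((hNB i n hω).trans (le_max_right _ _)),
      if_pos hω, add_neg_cancel]

private theorem split_all (A B : Lam) {h : HH F} (hh : h ∈ WH F (A ⊔ B)) :
    ∃ h1 ∈ WH F A, ∃ h2 ∈ WH F B, h1 + h2 = h := by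
  by_cases hA : A.set = Set.univ
  · refine ⟨0, Submodule.zero_mem _, h, ?_, zero_add _⟩
    intro ω hω e
    refine hh ω ?_ e
    rw [Lam.set_sup, hA]
    exact ⟨Set.mem_univ _, hω⟩
  · by_cases hB : B.set = Set.univ
    · refine ⟨h, ?_, 0, Submodule.zero_mem _, add_zero _⟩
      intro ω hω e
      refine hh ω ?_ e
      rw [Lam.set_sup, hB]
      exact ⟨hω, Set.mem_univ _⟩
    · by_cases hn : (none : Om) ∈ B.set → (none : Om) ∈ A.set
      · exact split_aux hA hB hn hh
      · rw [Classical.not_imp] at hn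
        obtain ⟨h1, hh1, h2, hh2, he⟩ := split_aux (A := B) (B := A) hB hA (fun h => absurd h hn.2)
          (by rwa [sup_comm] at hh)
        exact ⟨h2, hh2, h1, hh1, by rw [add_comm, he]⟩

private theorem index_aux {A B : Lam} (hAB : A < B) :
    ∃ x : ℕ → HH F, (∀ m, x m ∈ WH F B) ∧ ∃ ω ∈ A.set, ∃ c : ℕ → ℕ, ∀ m n,
      evl (x m) ω (c n) = if m = n then 1 else 0 := by
  classical
  have h1 : B.set ⊆ A.set := Lam.le_iff.1 hAB.le
  have h2 : ¬ A.set ⊆ B.set := fun h => absurd (Lam.le_iff.2 h) (not_le_of_gt hAB)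
  obtain ⟨ω, hωA, hωB⟩ := Set.not_subset.1 h2
  have hBu : B.set ≠ Set.univ := fun h => hωB (h ▸ Set.mem_univ _)
  rcases ω with _ | ⟨i0, n0⟩
  · refine ⟨fun m => ((0 : ℕ × ℕ × ℕ →₀ F), Finsupp.single (m + 1) 1), ?_, none, hωA,
      fun n => n + 1, ?_⟩
    · rintro m (_ | ⟨i, n⟩) hω e
      · exact absurd hω hωB
      · have h3 : ∀ p, sq (((0 : ℕ × ℕ × ℕ →₀ F), Finsupp.single (m + 1) 1) : HH F) p = 0 := by
          intro p
          show (0 : ℕ × ℕ × ℕ →₀ F) p + (Finsupp.single (m + 1) (1 : F)) 0 *
            (if p.2 = (0, 0) then 1 else 0) = 0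
          rw [Finsupp.single_eq_of_ne (by omega)]
          simp
        show sq _ (i, n, e) + (if n = 0 then code _ i e else 0) = 0
        rw [h3, zero_add]
        unfold code
        rw [h3]
        simp
    · intro m n
      show (Finsupp.single (m + 1) (1 : F)) (n + 1) = if m = n then 1 else 0
      rw [Finsupp.single_apply]
      simp
  · obtain ⟨N, hN⟩ := rows_bd B.nice hBu
    have hx : ∀ m : ℕ, ∃ h : HH F, h.2 = 0 ∧ ∀ i ≤ max N i0, ∀ n e,
        evl h (some (i, n)) e = if i = i0 ∧ n = n0 ∧ e = m then 1 else 0 := by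
      intro m
      refine realize_rows (F := F) (max N i0) (fun i n e =>
        if i = i0 ∧ n = n0 ∧ e = m then 1 else 0) ?_
      intro i _
      refine (Set.finite_singleton (n0, m)).subset ?_
      intro p hp
      have h3 : (if i = i0 ∧ p.1 = n0 ∧ p.2 = m then (1 : F) else 0) ≠ 0 := hp
      by_contra h4
      apply h3
      rw [if_neg]
      rintro ⟨-, h5, h6⟩
      exact h4 (Prod.ext h5 h6)
    choose x hx2 hxv using hx
    refine ⟨x, ?_, some (i0, n0), hωA, fun n => n, ?_⟩
    · rintro m (_ | ⟨i, n⟩) hω e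
      · show (x m).2 e = 0
        rw [hx2]
        rfl
      · rw [hxv m i ((hN i n hω).trans (le_max_left _ _)), if_neg]
        rintro ⟨rfl, rfl, -⟩
        exact hωB hω
    · intro m n
      rw [hxv m i0 (le_max_right _ _)]
      by_cases h : m = n
      · rw [if_pos h, if_pos ⟨rfl, rfl, h.symm⟩]
      · rw [if_neg h, if_neg fun h' => h h'.2.2.symm]

theorem example_lat (F : Type) [Field F] : LatSpace (WH F) := by
  refine ⟨?_, ?_, ?_, ?_, ?_⟩
  · rw [eq_bot_iff]
    intro h hh
    rw [Submodule.mem_bot]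
    refine evl_inj fun ω e => hh ω ?_ e
    rw [Lam.set_bot]
    exact Set.mem_univ _
  · rw [eq_top_iff]
    intro h _ ω hω
    rw [Lam.set_top] at hω
    exact absurd hω (Set.notMem_empty _)
  · intro A B
    ext h
    rw [Submodule.mem_inf, mem_WH, mem_WH, mem_WH, Lam.set_inf]
    constructor
    · intro hh
      exact ⟨fun ω hω => hh ω (Or.inl hω), fun ω hω => hh ω (Or.inr hω)⟩
    · rintro ⟨h1, h2⟩ ω (hω | hω)
      · exact h1 ω hω
      · exact h2 ω hω
  · intro A B
    apply le_antisymm
    · intro h hh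
      obtain ⟨h1, hh1, h2, hh2, rfl⟩ := split_all A B hh
      exact Submodule.add_mem_sup hh1 hh2
    · refine sup_le (WH_mono ?_) (WH_mono ?_)
      · rw [Lam.set_sup]
        exact Set.inter_subset_left
      · rw [Lam.set_sup]
        exact Set.inter_subset_right
  · intro A B hAB
    obtain ⟨x, hx, ω, hω, c, hc⟩ := index_aux (F := F) hAB
    unfold AddSubgroup.relIndex
    rw [AddSubgroup.index_eq_zero_iff_infinite]
    refine Infinite.of_injective (fun m : ℕ => (QuotientAddGroup.mk
      (⟨x m, hx m⟩ : (WH F B).toAddSubgroup) : (WH F B).toAddSubgroup ⧸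
        (WH F A).toAddSubgroup.addSubgroupOf (WH F B).toAddSubgroup)) ?_
    intro m n hmn
    have h1 := QuotientAddGroup.eq.1 hmn
    rw [AddSubgroup.mem_addSubgroupOf] at h1
    have h2 : -(x m) + x n ∈ WH F A := h1
    have h3 := h2 ω hω (c m)
    rw [evl_add, evl_neg, hc, hc, if_pos rfl] at h3
    by_contra hne
    rw [if_neg (fun h => hne h.symm)] at h3
    simp at h3

end TAU
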