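import Pool.Agent.TAU.Defs

/-! Project TAU, module TAU-NStA: Boolean combinations of rectangular relations have no long
ladders.

A relation `E` is rectangular if `E x y`, `E x y'`, `E x' y'` imply `E x' y`; then there are labels with
`E x y ↔ f x = g y`.  For labels `R i`, `C j` of a long sequence there is a long subsequence on which the truth value
of `R i = C j` (`i ≠ j`) is constant (each of `R`, `C` is constant or injective on a long subsequence); this is applied to
finitely many relations. -/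

namespace TAU

private theorem const_or_inj {L : Type} (R : ℕ → L) (M : ℕ) (I : Finset ℕ) (hI : M * M ≤ I.card) :
    ∃ J ⊆ I, M ≤ J.card ∧ ((∃ c, ∀ i ∈ J, R i = c) ∨ Set.InjOn R (J : Set ℕ)) := by
  classical
  rcases Nat.eq_zero_or_pos M with hM | hM
  · exact ⟨∅, Finset.empty_subset _, by omega, Or.inr (by simp)⟩
  by_cases h : M ≤ (I.image R).card
  · obtain ⟨J, hJ1, hJ2, hJ3⟩ : ∃ J ⊆ I, J.image R = I.image R ∧ Set.InjOn R (J : Set ℕ) := by
      obtain ⟨u, hu1, hu2⟩ := Set.SurjOn.exists_bijOn_subset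
        (show Set.SurjOn R (I : Set ℕ) ((I.image R : Finset L) : Set L) from by
          intro y hy
          rw [Finset.mem_coe, Finset.mem_image] at hy
          obtain ⟨x, hx, rfl⟩ := hy
          exact ⟨x, hx, rfl⟩)
      have hfin : u.Finite := I.finite_toSet.subset hu1
      refine ⟨hfin.toFinset, ?_, ?_, ?_⟩
      · intro x hx
        exact hu1 (hfin.mem_toFinset.1 hx)
      · ext y
        rw [Finset.mem_image]
        constructor
        · rintro ⟨x, hx, rfl⟩
          exact hu2.mapsTo (hfin.mem_toFinset.1 hx)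
        · intro hy
          obtain ⟨x, hx, rfl⟩ := hu2.surjOn hy
          exact ⟨x, hfin.mem_toFinset.2 hx, rfl⟩
      · rw [Set.Finite.coe_toFinset]
        exact hu2.injOn
    refine ⟨J, hJ1, ?_, Or.inr hJ3⟩
    rw [← Finset.card_image_of_injOn hJ3, hJ2]
    exact h
  · rw [not_le] at h
    have hne : (I.image R).Nonempty := by
      rw [Finset.image_nonempty, ← Finset.card_pos]
      have : 0 < M * M := Nat.mul_pos hM hM
      omega
    obtain ⟨c, -, hc⟩ := Finset.exists_le_card_fiber_of_mul_le_card_of_maps_to (s := I) (t := I.image R)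
      (f := R) (n := M) (fun i hi => Finset.mem_image_of_mem R hi) hne
      ((Nat.mul_le_mul_right M h.le).trans hI)
    exact ⟨_, Finset.filter_subset _ _, hc, Or.inl ⟨c, fun i hi => (Finset.mem_filter.1 hi).2⟩⟩

private theorem greedy {L : Type} (R C : ℕ → L) (m : ℕ) : ∀ J : Finset ℕ, 3 * m ≤ J.card →
    Set.InjOn R (J : Set ℕ) → Set.InjOn C (J : Set ℕ) →
    ∃ J' ⊆ J, m ≤ J'.card ∧ ∀ i ∈ J', ∀ j ∈ J', i ≠ j → R i ≠ C j := by
  classical
  induction m with
  | zero => exact fun J _ _ _ => ⟨∅, Finset.empty_subset _, Nat.zero_le _, by simp⟩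
  | succ m ih =>
    intro J hJ hR hC
    obtain ⟨i0, hi0⟩ : J.Nonempty := Finset.card_pos.1 (by omega)
    set J1 := J.filter fun j => j ≠ i0 ∧ R i0 ≠ C j ∧ R j ≠ C i0 with hJ1
    have hsub : J1 ⊆ J := Finset.filter_subset _ _
    have hcard : J.card ≤ J1.card + 3 := by
      have h1 : J ⊆ J1 ∪ ({i0} ∪ (J.filter (fun j => R i0 = C j) ∪ J.filter (fun j => R j = C i0))) := by
        intro j hj
        simp only [hJ1, Finset.mem_union, Finset.mem_filter, Finset.mem_singleton]
        tauto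
      have h2 : (J.filter (fun j => R i0 = C j)).card ≤ 1 := by
        rw [Finset.card_le_one]
        intro a ha b hb
        rw [Finset.mem_filter] at ha hb
        exact hC ha.1 hb.1 (ha.2.symm.trans hb.2)
      have h3 : (J.filter (fun j => R j = C i0)).card ≤ 1 := by
        rw [Finset.card_le_one]
        intro a ha b hb
        rw [Finset.mem_filter] at ha hb
        exact hR ha.1 hb.1 (ha.2.trans hb.2.symm)
      have h4 := Finset.card_le_card h1
      have h5 := Finset.card_union_le J1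
        ({i0} ∪ (J.filter (fun j => R i0 = C j) ∪ J.filter (fun j => R j = C i0)))
      have h6 := Finset.card_union_le {i0} (J.filter (fun j => R i0 = C j) ∪ J.filter (fun j => R j = C i0))
      have h7 := Finset.card_union_le (J.filter (fun j => R i0 = C j)) (J.filter (fun j => R j = C i0))
      rw [Finset.card_singleton] at h6
      omega
    obtain ⟨J', hJ'1, hJ'2, hJ'3⟩ := ih J1 (by omega) (hR.mono hsub) (hC.mono hsub)
    have hni : i0 ∉ J' := by
      intro h
      have := hJ'1 h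
      rw [hJ1, Finset.mem_filter] at this
      exact this.2.1 rfl
    refine ⟨insert i0 J', Finset.insert_subset hi0 (hJ'1.trans hsub), ?_, ?_⟩
    · rw [Finset.card_insert_of_notMem hni]
      omega
    · intro i hi j hj hij
      rw [Finset.mem_insert] at hi hj
      rcases hi with rfl | hi <;> rcases hj with rfl | hj
      · exact absurd rfl hij
      · have := hJ'1 hj
        rw [hJ1, Finset.mem_filter] at this
        exact this.2.2.1
      · have := hJ'1 hi
        rw [hJ1, Finset.mem_filter] at this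
        exact this.2.2.2
      · exact hJ'3 i hi j hj hij

/-- the truth value of `R i = C j` is constant for `i ≠ j` in `J` -/
private def Hom {L : Type} (R C : ℕ → L) (J : Finset ℕ) : Prop :=
  (∀ i ∈ J, ∀ j ∈ J, i ≠ j → R i = C j) ∨ (∀ i ∈ J, ∀ j ∈ J, i ≠ j → R i ≠ C j)

private theorem Hom.mono {L : Type} {R C : ℕ → L} {J J' : Finset ℕ} (h : Hom R C J) (hJ : J' ⊆ J) :
    Hom R C J' := by
  rcases h with h | h
  · exact Or.inl fun i hi j hj => h i (hJ hi) j (hJ hj)
  · exact Or.inr fun i hi j hj => h i (hJ hi) j (hJ hj)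

private theorem one {L : Type} (R C : ℕ → L) (m : ℕ) (I : Finset ℕ)
    (hI : ((3 * m + 1) * (3 * m + 1)) * ((3 * m + 1) * (3 * m + 1)) ≤ I.card) :
    ∃ J ⊆ I, m ≤ J.card ∧ Hom R C J := by
  classical
  obtain ⟨J1, hJ1, hc1, h1⟩ := const_or_inj R _ I hI
  obtain ⟨J2, hJ2, hc2, h2⟩ := const_or_inj C _ J1 hc1
  have h1' : (∃ c, ∀ i ∈ J2, R i = c) ∨ Set.InjOn R (J2 : Set ℕ) := by
    rcases h1 with ⟨c, h1⟩ | h1
    · exact Or.inl ⟨c, fun i hi => h1 i (hJ2 hi)⟩
    · exact Or.inr (h1.mono hJ2)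
  have hrem : ∀ (P : ℕ → Prop), (J2.filter P).card ≤ 1 → m ≤ (J2.filter fun j => ¬ P j).card := by
    intro P hP
    have := Finset.card_filter_add_card_filter_not (s := J2) P
    omega
  rcases h1' with ⟨c, h1⟩ | h1 <;> rcases h2 with ⟨d, h2⟩ | h2
  · refine ⟨J2, hJ2.trans hJ1, by omega, ?_⟩
    by_cases hcd : c = d
    · exact Or.inl fun i hi j hj _ => by rw [h1 i hi, h2 j hj, hcd]
    · exact Or.inr fun i hi j hj _ => by rw [h1 i hi, h2 j hj]; exact hcd
  · refine ⟨J2.filter fun j => ¬ C j = c, (Finset.filter_subset _ _).trans (hJ2.trans hJ1),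
      hrem _ ?_, Or.inr fun i hi j hj _ => ?_⟩
    · rw [Finset.card_le_one]
      intro a ha b hb
      rw [Finset.mem_filter] at ha hb
      exact h2 ha.1 hb.1 (ha.2.trans hb.2.symm)
    · rw [Finset.mem_filter] at hi hj
      rw [h1 i hi.1]
      exact fun h => hj.2 h.symm
  · refine ⟨J2.filter fun j => ¬ R j = d, (Finset.filter_subset _ _).trans (hJ2.trans hJ1),
      hrem _ ?_, Or.inr fun i hi j hj _ => ?_⟩
    · rw [Finset.card_le_one]
      intro a ha b hb
      rw [Finset.mem_filter] at ha hb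
      exact h1 ha.1 hb.1 (ha.2.trans hb.2.symm)
    · rw [Finset.mem_filter] at hi hj
      rw [h2 j hj.1]
      exact hi.2
  · obtain ⟨J', hJ'1, hJ'2, hJ'3⟩ := greedy R C m J2 (by omega) h1 h2
    exact ⟨J', hJ'1.trans (hJ2.trans hJ1), hJ'2, Or.inr hJ'3⟩

private theorem many (k : ℕ) : ∀ m : ℕ, ∃ N : ℕ, ∀ (L : Type) (R C : Fin k → ℕ → L) (I : Finset ℕ),
    N ≤ I.card → ∃ J ⊆ I, m ≤ J.card ∧ ∀ r, Hom (R r) (C r) J := by
  induction k with
  | zero => exact fun m => ⟨m, fun L R C I hI => ⟨I, subset_rfl, hI, fun r => r.elim0⟩⟩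
  | succ k ih =>
    intro m
    obtain ⟨N, hN⟩ := ih (((3 * m + 1) * (3 * m + 1)) * ((3 * m + 1) * (3 * m + 1)))
    refine ⟨N, fun L R C I hI => ?_⟩
    obtain ⟨J, hJ1, hJ2, hJ3⟩ := hN L (fun r => R r.castSucc) (fun r => C r.castSucc) I hI
    obtain ⟨J', hJ'1, hJ'2, hJ'3⟩ := one (R (Fin.last k)) (C (Fin.last k)) m J hJ2
    refine ⟨J', hJ'1.trans hJ1, hJ'2, fun r => ?_⟩
    refine Fin.lastCases ?_ (fun r => ?_) r
    · exact hJ'3
    · exact (hJ3 r).mono hJ'1

private theorem labels {X Y : Type} (E : X → Y → Prop)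
    (hE : ∀ x x' y y', E x y → E x y' → E x' y' → E x' y) :
    ∃ (f : X → Option (Set Y)) (g : Y → Option (Set Y)), ∀ x y, E x y ↔ f x = g y := by
  classical
  refine ⟨fun x => some {y | E x y}, fun y => if (∃ x, E x y) then some {y' | ∃ x, E x y ∧ E x y'} else none,
    fun x y => ?_⟩
  by_cases h : ∃ x, E x y
  · simp only [h, if_true, Option.some.injEq]
    constructor
    · intro hxy
      ext y'
      constructor
      · exact fun h' => ⟨x, hxy, h'⟩
      · rintro ⟨x', h1, h2⟩
        exact hE x' x y' y h2 h1 hxy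
    · intro h'
      obtain ⟨x', hx'⟩ := h
      have h1 : y ∈ {y' | ∃ x, E x y ∧ E x y'} := ⟨x', hx', hx'⟩
      rw [← h'] at h1
      exact h1
  · simp only [h, if_false, reduceCtorEq, iff_false]
    exact fun hxy => h ⟨x, hxy⟩

theorem boolean_ladder (k : ℕ) : ∃ N, ∀ (X Y : Type) (E : Fin k → X → Y → Prop),
    (∀ r x x' y y', E r x y → E r x y' → E r x' y' → E r x' y) → ∀ R : X → Y → Prop,
      (∀ x y x' y', (∀ r, E r x y ↔ E r x' y') → (R x y ↔ R x' y')) → ¬ Ladder R N := by
  obtain ⟨N, hN⟩ := many k 2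
  refine ⟨N, fun X Y E hE R hR hlad => ?_⟩
  obtain ⟨a, b, hab⟩ := hlad
  choose f g hfg using fun r => labels (E r) (hE r)
  obtain ⟨J, hJ1, hJ2, hJ3⟩ := hN (Option (Set Y)) (fun r n => if h : n < N then f r (a ⟨n, h⟩) else none)
    (fun r n => if h : n < N then g r (b ⟨n, h⟩) else none) (Finset.range N) (by rw [Finset.card_range])
  obtain ⟨i, hi, j, hj, hij⟩ := Finset.one_lt_card.1 (show 1 < J.card by omega)
  have key : ∀ i ∈ J, ∀ j ∈ J, i < j → False := by
    intro i hi j hj hij
    have hi' : i < N := Finset.mem_range.1 (hJ1 hi)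
    have hj' : j < N := Finset.mem_range.1 (hJ1 hj)
    have h1 : ∀ r, E r (a ⟨i, hi'⟩) (b ⟨j, hj'⟩) ↔ E r (a ⟨j, hj'⟩) (b ⟨i, hi'⟩) := by
      intro r
      rw [hfg, hfg]
      rcases hJ3 r with h | h
      · have e1 := h i hi j hj hij.ne
        have e2 := h j hj i hi hij.ne'
        simp only [hi', hj', dif_pos] at e1 e2
        exact ⟨fun _ => e2, fun _ => e1⟩
      · have e1 := h i hi j hj hij.ne
        have e2 := h j hj i hi hij.ne'
        simp only [hi', hj', dif_pos] at e1 e2
        exact ⟨fun h => absurd h e1, fun h => absurd h e2⟩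
    have h2 := hR _ _ _ _ h1
    rw [hab, hab] at h2
    have h3 := h2.1 (Fin.mk_le_mk.2 hij.le)
    exact absurd (Fin.mk_le_mk.1 h3) (not_le.2 hij)
  rcases lt_or_gt_of_ne hij with h | h
  · exact key i hi j hj h
  · exact key j hj i hi h

end TAU
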