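import Pool.Agent.TAU.NL
import Pool.Agent.TAU.NStA

/-! Project TAU, module TAU-NSt: the theory of a lattice space is stable.

Let `φ` be a formula in the variables `Fin k ⊕ Fin l`, equivalent to `χ` in `H` by `lat_qe`.  Its truth at
`Sum.elim x y` depends only on finitely many basic conditions `lc μ_r (Sum.elim x y) ∈ W A_r`, i.e. (`lc_elim`)
`f_r x + g_r y ∈ W A_r` with additive `f_r, g_r`.  Such a relation is rectangular:
`f x' + g y = (f x' + g y') - (f x + g y') + (f x + g y)`.  Apply `boolean_ladder`. -/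

namespace TAU

open FirstOrder FirstOrder.Language

private theorem bf_list {F Λ H ι : Type} [Field F] [AddCommGroup H] [Module F H] [Fintype ι]
    (W : Λ → Submodule F H) (χ : BF F Λ ι) : ∃ L : List ((ι → F) × Λ), ∀ v w : ι → H,
      (∀ a ∈ L, (lc a.1 v ∈ W a.2 ↔ lc a.1 w ∈ W a.2)) → (χ.Real W v ↔ χ.Real W w) := by
  induction χ with
  | basic μ A => exact ⟨[(μ, A)], fun v w h => h _ (List.mem_singleton.2 rfl)⟩
  | neg χ ih =>
    obtain ⟨L, hL⟩ := ih
    exact ⟨L, fun v w h => not_congr (hL v w h)⟩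
  | and χ ψ ih ih' =>
    obtain ⟨L, hL⟩ := ih
    obtain ⟨L', hL'⟩ := ih'
    exact ⟨L ++ L', fun v w h => and_congr (hL v w fun a ha => h a (List.mem_append_left _ ha))
      (hL' v w fun a ha => h a (List.mem_append_right _ ha))⟩

theorem lat_stable {F Λ H : Type} [Field F] [DistribLattice Λ] [BoundedOrder Λ]
    [AddCommGroup H] [Module F H] {W : Λ → Submodule F H} (hW : LatSpace W) :
    @StableTh (latLang F Λ) H (latStr W) := by
  intro k l φ
  obtain ⟨χ, hχ⟩ := lat_qe φ
  obtain ⟨L, hL⟩ := bf_list W χ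
  obtain ⟨N, hN⟩ := boolean_ladder L.length
  refine ⟨N, hN (Fin k → H) (Fin l → H)
    (fun r x y => lc (L.get r).1 (Sum.elim x y) ∈ W (L.get r).2) ?_ _ ?_⟩
  · intro r x x' y y' h1 h2 h3
    have e1 := lc_elim (L.get r).1 x y
    have e2 := lc_elim (L.get r).1 x y'
    have e3 := lc_elim (L.get r).1 x' y'
    have e4 := lc_elim (L.get r).1 x' y
    show lc (L.get r).1 (Sum.elim x' y) ∈ W (L.get r).2
    have e5 : lc (L.get r).1 (Sum.elim x' y) = lc (L.get r).1 (Sum.elim x' y') -
        lc (L.get r).1 (Sum.elim x y') + lc (L.get r).1 (Sum.elim x y) := by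
      rw [e1, e2, e3, e4]
      abel
    rw [e5]
    exact (W _).add_mem ((W _).sub_mem h3 h2) h1
  · intro x y x' y' h
    show @Formula.Realize (latLang F Λ) H (latStr W) _ φ (Sum.elim x y) ↔
      @Formula.Realize (latLang F Λ) H (latStr W) _ φ (Sum.elim x' y')
    rw [hχ H W hW, hχ H W hW]
    refine hL _ _ fun a ha => ?_
    obtain ⟨r, hr⟩ := List.mem_iff_get.1 ha
    rw [← hr]
    exact h r

end TAU
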