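import Pool.Agent.TAU.Hd

/-! Project TAU, module TAU-NTup: if all elements have isolated types then all tuples have.

PROOF.  Let `v : Fin n → Sol Φ M`.  For each of the finitely many `μ : Fin n → F` let `A μ`, `T μ`
be given by `Atom1` for `lc μ v`.  Let `χ` be the conjunction over `μ` of `lc μ x ∈ W (A μ)` and
`lc μ x ∉ W C`, `C ∈ T μ`, and `ψ` an equivalent formula (`hdef_iff`: the set is a Boolean
combination of basic conditions).  `ψ` holds at `v`: `lc μ v ∈ W C` would give `A μ ≤ C < A μ`.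
If `w` satisfies `ψ` then for all `μ, B`: `lc μ w ∈ W B ↔ A μ ≤ B ↔ lc μ v ∈ W B`: if not
`A μ ≤ B` then `A μ ⊓ B < A μ`, so `A μ ⊓ B ≤ C` for some `C ∈ T μ`, and `lc μ w ∈ W B` would give
`lc μ w ∈ W C`.  By `hdef_iff` every formula is equivalent on `Sol Φ M` to a Boolean combination
of basic conditions, so `w` and `v` satisfy the same formulas (`BoolComb.finite`). -/

namespace TAU

open FirstOrder FirstOrder.Language

private theorem bc_forall {X : Type} {𝒢 : Set (Set X)} (h : 𝒢.Nonempty) {ι : Type}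
    (t : Finset ι) (f : ι → Set X) (hf : ∀ i, BoolComb 𝒢 (f i)) :
    BoolComb 𝒢 {x | ∀ i ∈ t, x ∈ f i} := by
  classical
  induction t using Finset.induction_on with
  | empty =>
    have e : {x : X | ∀ i ∈ (∅ : Finset ι), x ∈ f i} = Set.univ := by
      ext x
      simp
    rw [e]
    exact BoolComb.univ h
  | insert a t _ ih =>
    have e : {x : X | ∀ i ∈ insert a t, x ∈ f i} = f a ∩ {x | ∀ i ∈ t, x ∈ f i} := by
      ext x
      simp
    rw [e]
    exact BoolComb.inter _ _ (hf a) ih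

private theorem real_congr {F Λ V ι : Type} [Field F] [AddCommGroup V] [Module F V] [Fintype ι]
    {W : Λ → Submodule F V} {v w : ι → V} (h : ∀ (μ : ι → F) (B : Λ), lc μ w ∈ W B ↔ lc μ v ∈ W B)
    (χ : BF F Λ ι) : χ.Real W w ↔ χ.Real W v := by
  induction χ with
  | basic μ A => exact h μ A
  | neg χ ih => simp only [BF.Real, ih]
  | and χ ψ ih ih' => simp only [BF.Real, ih, ih']

variable {L : FirstOrder.Language.{0, 0}} {M : Type} [L.Structure M] (Φ : L.Formula (Fin 1))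
  {F Λ : Type} [Field F] [DistribLattice Λ] [BoundedOrder Λ] [AddCommGroup (Sol Φ M)]
  [Module F (Sol Φ M)]

theorem atomic_of_atom1 [Finite F] {W : Λ → Submodule F (Sol Φ M)} (hW : LatSpace W)
    (hd : HDef Φ W) (hA : Atom1 W) (n : ℕ) (v : Fin n → Sol Φ M) :
    ∃ ψ : L.Formula (Fin n), ψ.Realize (fun i => (v i : M)) ∧
      ∀ w : Fin n → Sol Φ M, ψ.Realize (fun i => (w i : M)) → ∀ θ : L.Formula (Fin n),
        θ.Realize (fun i => (v i : M)) → θ.Realize (fun i => (w i : M)) := by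
  classical
  have : Fintype F := Fintype.ofFinite F
  choose A hA1 T hT using fun μ : Fin n → F => hA (lc μ v)
  have hne : (basics W (Fin n)).Nonempty := ⟨_, 0, ⊤, rfl⟩
  have hs : BoolComb (basics W (Fin n)) {x : Fin n → Sol Φ M | ∀ μ ∈ (Finset.univ : Finset (Fin n → F)),
      x ∈ {x : Fin n → Sol Φ M | lc μ x ∈ W (A μ)} ∩
        {x | ∀ C ∈ T μ, x ∈ {x : Fin n → Sol Φ M | lc μ x ∈ W C}ᶜ}} := by
    refine bc_forall hne _ _ fun μ => BoolComb.inter _ _ (BoolComb.basic _ ⟨μ, A μ, rfl⟩) ?_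
    exact bc_forall hne _ _ fun C => BoolComb.compl _ (BoolComb.basic _ ⟨μ, C, rfl⟩)
  obtain ⟨ψ, hψ⟩ := (hd n _).2 hs
  refine ⟨ψ, (hψ v).1 fun μ _ => ⟨(hA1 μ).1, fun C hC h => ?_⟩, fun w hw θ hθ => ?_⟩
  · exact absurd ((hA1 μ).2 C h) (not_le_of_gt ((hT μ).1 C hC))
  · have hw' := (hψ w).2 hw
    have key : ∀ (μ : Fin n → F) (B : Λ), lc μ w ∈ W B ↔ lc μ v ∈ W B := by
      intro μ B
      obtain ⟨h1, h2⟩ := hw' μ (Finset.mem_univ μ)
      constructor
      · intro h
        by_contra h3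
        have h4 : ¬ A μ ≤ B := fun h4 => h3 (hW.mono h4 (hA1 μ).1)
        have h5 : A μ ⊓ B < A μ := lt_of_le_of_ne inf_le_left fun h5 => h4 (inf_eq_left.1 h5)
        obtain ⟨C, hC, hC'⟩ := (hT μ).2 _ h5
        exact h2 C hC (hW.mono hC' (hW.mem_inf.2 ⟨h1, h⟩))
      · intro h
        exact hW.mono ((hA1 μ).2 B h) h1
    obtain ⟨χ, hχ⟩ := hdef_bf Φ hd θ
    rw [hχ] at hθ ⊢
    exact (real_congr key χ).2 hθ

end TAU
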