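import Pool.Agent.TAU.NL
import Pool.Agent.TAU.Hd

/-! Project TAU, module TAU-NV: a member `W A0` of a lattice space as a definable subset.

`latPhi A0` is the formula `R_{(1), A0}(x)`; its solution set is `W A0` (`lc (fun _ => 1)
(fun _ => x) = x`).  The solution set gets the structure of an `F`-space by transport from the
submodule `W A0` (`Equiv.addCommGroup`, `Equiv.module` along the equivalence of the two
subtypes).  The index lattice is `Set.Iic A0` (bounded distributive: give the instances) and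
`W0 B = {x | (x : H) ∈ W B}`.
`LatSpace W0`: `⊤ = A0`; `sup`: `x = a + b` with `a ∈ W B`, `b ∈ W B'`, both in `W A0`; `index`:
`relIndex` is preserved (comap along an injective map whose image `W A0` contains both).
`HDef`: let `s` be the trace of the set defined by `φ : Formula (Fin n)`; by `lat_qe` it is given
by a `BF`, and for `v` in `Sol`, `lc μ v ∈ W B ↔ lc μ v ∈ W (B ⊓ A0)`, so it is a Boolean
combination of basic conditions for `W0` (induction on the `BF`).  Conversely by induction on the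
Boolean combination: `lc μ v ∈ W0 B` is defined by the relation symbol `(μ, B)` (`lat_formula`). -/

namespace TAU

open FirstOrder FirstOrder.Language

/-- The formula defining `W A0`. -/
def latPhi {F Λ : Type} [Field F] (A0 : Λ) : (latLang F Λ).Formula (Fin 1) :=
  (latRel (F := F) (n := 1) (fun _ => 1) A0).formula fun i => Term.var i

instance iicDistrib {Λ : Type} [DistribLattice Λ] (A0 : Λ) : DistribLattice (Set.Iic A0) :=
  { (inferInstance : Lattice (Set.Iic A0)) with
    le_sup_inf := fun _ _ _ => le_sup_inf (α := Λ) }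

private theorem nv_transport {F H : Type} [Field F] [AddCommGroup H] [Module F H]
    (U : Submodule F H) (X : Set H) (hX : X = (U : Set H)) :
    ∃ (_ : AddCommGroup X) (_ : Module F X),
      (∀ x y : X, ((x + y : X) : H) = x + y) ∧ ∀ (a : F) (x : X), ((a • x : X) : H) = a • (x : H) := by
  subst hX
  exact ⟨inferInstanceAs (AddCommGroup U), inferInstanceAs (Module F U), fun _ _ => rfl,
    fun _ _ => rfl⟩

private theorem nv_latSpace {F Λ H : Type} [Field F] [DistribLattice Λ] [BoundedOrder Λ]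
    [AddCommGroup H] [Module F H] {W : Λ → Submodule F H} (hW : LatSpace W) (A0 : Λ)
    {X : Type} [AddCommGroup X] [Module F X] (f : X →ₗ[F] H) (hf : Function.Injective f)
    (hr : ∀ h : H, h ∈ W A0 ↔ ∃ x, f x = h) :
    LatSpace fun B : Set.Iic A0 => (W B.1).comap f := by
  have hmem : ∀ (B : Set.Iic A0) (x : X), x ∈ (W B.1).comap f ↔ f x ∈ W B.1 := fun B x => Iff.rfl
  refine ⟨?_, ?_, fun A B => ?_, fun A B => ?_, fun A B hAB => ?_⟩
  · ext x
    have h0 : ((⊥ : Set.Iic A0) : Λ) = ⊥ := rfl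
    rw [hmem, h0, hW.mem_bot, Submodule.mem_bot]
    exact ⟨fun h => hf (by rw [h, map_zero]), fun h => by rw [h, map_zero]⟩
  · ext x
    have h0 : ((⊤ : Set.Iic A0) : Λ) = A0 := rfl
    rw [hmem, h0]
    exact ⟨fun _ => Submodule.mem_top, fun _ => (hr _).2 ⟨x, rfl⟩⟩
  · ext x
    have h0 : ((A ⊓ B : Set.Iic A0) : Λ) = A.1 ⊓ B.1 := rfl
    rw [hmem, h0, hW.mem_inf]
    rfl
  · ext x
    have h0 : ((A ⊔ B : Set.Iic A0) : Λ) = A.1 ⊔ B.1 := rfl
    rw [hmem, h0, Submodule.mem_sup]
    constructor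
    · intro h
      obtain ⟨a, ha, b, hb, hab⟩ := hW.exists_add h
      obtain ⟨y, hy⟩ := (hr a).1 (hW.mono A.2 ha)
      obtain ⟨z, hz⟩ := (hr b).1 (hW.mono B.2 hb)
      refine ⟨y, (hmem A y).2 (by rw [hy]; exact ha), z, (hmem B z).2 (by rw [hz]; exact hb), ?_⟩
      apply hf
      rw [map_add, hy, hz, hab]
    · rintro ⟨y, hy, z, hz, rfl⟩
      rw [map_add]
      exact (W _).add_mem (hW.mono le_sup_left hy) (hW.mono le_sup_right hz)
  · have h1 := hW.index A.1 B.1 hAB
    have h2 : (((W B.1).comap f).toAddSubgroup).map f.toAddMonoidHom = (W B.1).toAddSubgroup := by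
      ext h
      rw [AddSubgroup.mem_map]
      constructor
      · rintro ⟨x, hx, rfl⟩
        exact hx
      · intro hh
        obtain ⟨x, hx⟩ := (hr h).1 (hW.mono B.2 hh)
        refine ⟨x, ?_, hx⟩
        show f x ∈ W B.1
        rw [hx]
        exact hh
    have h3 : ((W A.1).comap f).toAddSubgroup = (W A.1).toAddSubgroup.comap f.toAddMonoidHom := rfl
    show ((W A.1).comap f).toAddSubgroup.relIndex ((W B.1).comap f).toAddSubgroup = 0
    rw [h3, AddSubgroup.relIndex_comap, h2]
    exact h1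

private theorem nv_lc {F H X ι : Type} [Field F] [AddCommGroup H] [Module F H] [AddCommGroup X]
    [Module F X] [Fintype ι] (f : X →ₗ[F] H) (μ : ι → F) (v : ι → X) :
    f (lc μ v) = lc μ fun i => f (v i) := by
  unfold lc
  rw [map_sum]
  exact Finset.sum_congr rfl fun i _ => by rw [map_smul]

private theorem nv_bool {F Λ H : Type} [Field F] [DistribLattice Λ] [BoundedOrder Λ]
    [AddCommGroup H] [Module F H] {W : Λ → Submodule F H} (hW : LatSpace W) (A0 : Λ)
    {X : Type} [AddCommGroup X] [Module F X] (f : X →ₗ[F] H)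
    (hr : ∀ x, f x ∈ W A0) {ι : Type} [Fintype ι] (χ : BF F Λ ι) :
    BoolComb (basics (fun B : Set.Iic A0 => (W B.1).comap f) ι)
      {v : ι → X | χ.Real W fun i => f (v i)} := by
  induction χ with
  | basic μ A =>
    refine BoolComb.basic _ ⟨μ, ⟨A ⊓ A0, inf_le_right⟩, ?_⟩
    ext v
    show lc μ (fun i => f (v i)) ∈ W A ↔ f (lc μ v) ∈ W (A ⊓ A0)
    rw [nv_lc, hW.mem_inf]
    refine ⟨fun h => ⟨h, ?_⟩, fun h => h.1⟩
    rw [← nv_lc]
    exact hr _
  | neg χ ih => exact BoolComb.compl _ ih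
  | and χ ψ ih1 ih2 => exact BoolComb.inter _ _ ih1 ih2

theorem lat_sort {F Λ H : Type} [Field F] [DistribLattice Λ] [BoundedOrder Λ]
    [AddCommGroup H] [Module F H] {W : Λ → Submodule F H} (hW : LatSpace W) (A0 : Λ) :
    letI := latStr W
    (∀ x : H, x ∈ Sol (latPhi (F := F) A0) H ↔ x ∈ W A0) ∧
    ∃ (_ : AddCommGroup (Sol (latPhi (F := F) A0) H))
      (_ : Module F (Sol (latPhi (F := F) A0) H))
      (W0 : Set.Iic A0 → Submodule F (Sol (latPhi (F := F) A0) H)),
      LatSpace W0 ∧ HDef (latPhi A0) W0 ∧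
      (∀ (B : Set.Iic A0) (x : Sol (latPhi (F := F) A0) H), x ∈ W0 B ↔ (x : H) ∈ W B) ∧
      (∀ x y : Sol (latPhi (F := F) A0) H, ((x + y : Sol (latPhi (F := F) A0) H) : H) = x + y) ∧
      ∀ (a : F) (x : Sol (latPhi (F := F) A0) H),
        ((a • x : Sol (latPhi (F := F) A0) H) : H) = a • (x : H) := by
  let iS : (latLang F Λ).Structure H := latStr W
  have hsol : ∀ x : H, x ∈ Sol (latPhi (F := F) A0) H ↔ x ∈ W A0 := by
    intro x
    have h1 : x ∈ Sol (latPhi (F := F) A0) H ↔ lc (fun _ : Fin 1 => (1 : F)) (fun _ => x) ∈ W A0 := by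
      show (latPhi (F := F) A0).Realize (fun _ => x) ↔ _
      unfold latPhi
      rw [Formula.realize_rel]
      rfl
    rw [h1]
    unfold lc
    rw [Fin.sum_univ_one, one_smul]
  refine ⟨hsol, ?_⟩
  obtain ⟨i1, i2, hadd, hsmul⟩ := nv_transport (W A0) (Sol (latPhi (F := F) A0) H) (Set.ext hsol)
  let f : Sol (latPhi (F := F) A0) H →ₗ[F] H :=
    { toFun := fun x => x.1
      map_add' := hadd
      map_smul' := hsmul }
  have hf : Function.Injective f := fun x y h => Subtype.ext h
  have hr : ∀ h : H, h ∈ W A0 ↔ ∃ x, f x = h := fun h =>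
    ⟨fun hh => ⟨⟨h, (hsol h).2 hh⟩, rfl⟩, by rintro ⟨x, rfl⟩; exact (hsol _).1 x.2⟩
  refine ⟨i1, i2, fun B => (W B.1).comap f, nv_latSpace hW A0 f hf hr, ?_,
    fun B x => Iff.rfl, hadd, hsmul⟩
  intro n s
  constructor
  · rintro ⟨φ, hφ⟩
    obtain ⟨χ, hχ⟩ := lat_qe φ
    have h1 : s = {v | χ.Real W fun i => f (v i)} := by
      ext v
      rw [hφ v]
      exact hχ H W hW fun i => (v i : H)
    rw [h1]
    exact nv_bool hW A0 f (fun x => (hr _).2 ⟨x, rfl⟩) χ
  · intro h
    induction h with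
    | basic s hs =>
      obtain ⟨μ, B, rfl⟩ := hs
      obtain ⟨φ, hφ⟩ := lat_formula (BF.basic μ B.1)
      refine ⟨φ, fun v => ?_⟩
      rw [hφ H]
      show f (lc μ v) ∈ W B.1 ↔ lc μ (fun i => f (v i)) ∈ W B.1
      rw [nv_lc]
    | compl s _ ih =>
      obtain ⟨φ, hφ⟩ := ih
      exact ⟨φ.not, fun v => by
        rw [Formula.realize_not]
        exact not_congr (hφ v)⟩
    | inter s t _ _ ih1 ih2 =>
      obtain ⟨φ, hφ⟩ := ih1
      obtain ⟨ψ, hψ⟩ := ih2
      exact ⟨φ ⊓ ψ, fun v => by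
        rw [Formula.realize_inf]
        exact and_congr (hφ v) (hψ v)⟩

end TAU
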