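import Pool.Agent.TAU.NSm
import Pool.Agent.TAU.NSt
import Pool.Agent.TAU.NTup
import Pool.Agent.TAU.NV
import Pool.Agent.TAU.NEF
import Pool.Agent.TAU.NES
import Pool.Agent.TAU.NEA
import Pool.Agent.TAU.NEN

/-! Project TAU, module TAU-NMain: the negative theorem.

`L = latLang F Lam`, `M = HH F` with the structure `latStr (WH F)`, `Φ = latPhi Lam.zero`,
`Λ = Set.Iic Lam.zero`, the space and `W0` from `lat_sort`.  Atomicity: `nm_atom`, from
`example_atom`.  Non-isolation: by `lat_qe` and `nm_fin` the truth of a formula depends only on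
finitely many members of `Lam`, and on these the elements `b`, `b'` of `example_nonisolated` behave
in the same way (`nm_lc`). -/

namespace TAU

open FirstOrder FirstOrder.Language

private theorem nm_fin {F ι : Type} [Field F] [Fintype ι] (χ : BF F Lam ι) :
    ∃ 𝓑 : Finset Lam, ∀ v v' : ι → HH F,
      (∀ μ : ι → F, ∀ B ∈ 𝓑, (lc μ v ∈ WH F B ↔ lc μ v' ∈ WH F B)) →
        (χ.Real (WH F) v ↔ χ.Real (WH F) v') := by
  classical
  induction χ with
  | basic μ A => exact ⟨{A}, fun v v' h => h μ A (Finset.mem_singleton_self A)⟩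
  | neg χ ih =>
    obtain ⟨𝓑, h⟩ := ih
    exact ⟨𝓑, fun v v' hv => not_congr (h v v' hv)⟩
  | and χ ψ ih ih' =>
    obtain ⟨𝓑, h⟩ := ih
    obtain ⟨𝓑', h'⟩ := ih'
    exact ⟨𝓑 ∪ 𝓑', fun v v' hv => and_congr
      (h v v' fun μ B hB => hv μ B (Finset.mem_union_left _ hB))
      (h' v v' fun μ B hB => hv μ B (Finset.mem_union_right _ hB))⟩

private theorem nm_lc {F H : Type} [Field F] [AddCommGroup H] [Module F H] {k : ℕ}
    (μ : (Fin 1 ⊕ Fin k) ⊕ Fin 1 → F) (c : H) (a : Fin k → H) (b : H) :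
    lc μ (Sum.elim (Sum.elim (fun _ => c) a) fun _ => b) =
      μ (Sum.inr 0) • b + μ (Sum.inl (Sum.inl 0)) • c + lc (fun i => μ (Sum.inl (Sum.inr i))) a := by
  have h1 : ∀ (ν : Fin 1 → F) (x : H), lc ν (fun _ => x) = ν 0 • x := by
    intro ν x
    unfold lc
    rw [Fin.sum_univ_one]
  rw [lc_elim, lc_elim, h1, h1]
  abel

private theorem nm_atom {F : Type} [Field F] {X : Type} [AddCommGroup X] [Module F X]
    (f : X → HH F) (hf : ∀ x, f x ∈ WH F Lam.zero) (W0 : Set.Iic Lam.zero → Submodule F X)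
    (hW0 : ∀ (B : Set.Iic Lam.zero) (x : X), x ∈ W0 B ↔ f x ∈ WH F B) : Atom1 W0 := by
  classical
  intro x
  obtain ⟨A, ⟨h1, h2⟩, T, h3, h4⟩ := example_atom (hf x)
  have hA : A ≤ Lam.zero := h2 _ (hf x)
  refine ⟨⟨A, hA⟩, ⟨(hW0 _ x).2 h1, fun B hB => h2 B ((hW0 B x).1 hB)⟩,
    T.attach.image fun C => ⟨C.1, (h3 C.1 C.2).le.trans hA⟩, ?_, ?_⟩
  · intro C hC
    obtain ⟨⟨D, hD⟩, -, rfl⟩ := Finset.mem_image.1 hC
    exact h3 D hD
  · intro B hB
    obtain ⟨C, hC, hBC⟩ := h4 B.1 hB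
    exact ⟨⟨C, (h3 C hC).le.trans hA⟩,
      Finset.mem_image.2 ⟨⟨C, hC⟩, Finset.mem_attach _ _, rfl⟩, hBC⟩

theorem negMain (F : Type) [Field F] [Finite F] :
    ∃ (L : FirstOrder.Language.{0, 0}) (M : Type) (_ : L.Structure M) (Φ : L.Formula (Fin 1))
      (Λ : Type) (_ : DistribLattice Λ) (_ : BoundedOrder Λ) (_ : AddCommGroup (Sol Φ M))
      (_ : Module F (Sol Φ M)) (W : Λ → Submodule F (Sol Φ M)),
      L.card ≤ Cardinal.aleph0 ∧ Countable M ∧ StableTh L M ∧
      (∀ n : ℕ, Countable ((L.completeTheory M).CompleteType (Fin n))) ∧ LatSpace W ∧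
      (∀ (n : ℕ) (s : Set (Fin n → Sol Φ M)),
        (∃ φ : L.Formula (Fin n), ∀ v : Fin n → Sol Φ M,
          v ∈ s ↔ φ.Realize fun i => (v i : M)) ↔ BoolComb (basics W (Fin n)) s) ∧
      (∀ (n : ℕ) (v : Fin n → Sol Φ M), ∃ ψ : L.Formula (Fin n),
        ψ.Realize (fun i => (v i : M)) ∧
          ∀ w : Fin n → Sol Φ M, ψ.Realize (fun i => (w i : M)) → ∀ θ : L.Formula (Fin n),
            θ.Realize (fun i => (v i : M)) → θ.Realize (fun i => (w i : M))) ∧
      ∃ c : Fin 1 → M, ∀ (k : ℕ) (a : Fin k → Sol Φ M), ∃ d : Fin 1 → Sol Φ M,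
        ∀ ψ : L.Formula ((Fin 1 ⊕ Fin k) ⊕ Fin 1),
          ψ.Realize (Sum.elim (Sum.elim c fun i => (a i : M)) fun i => (d i : M)) →
            ∃ y : Fin 1 → Sol Φ M,
              ψ.Realize (Sum.elim (Sum.elim c fun i => (a i : M)) fun i => (y i : M)) ∧
              ∃ θ : L.Formula ((Fin 1 ⊕ Fin k) ⊕ Fin 1),
                θ.Realize (Sum.elim (Sum.elim c fun i => (a i : M)) fun i => (d i : M)) ∧
                ¬ θ.Realize (Sum.elim (Sum.elim c fun i => (a i : M)) fun i => (y i : M)) := by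
  classical
  let _ : (latLang F Lam).Structure (HH F) := latStr (WH F)
  have hL : LatSpace (WH F) := example_lat F
  have hcL : Countable Lam := lam_countable
  obtain ⟨hmem, iG, iM, W0, hW0, hD, hW0m, -, -⟩ := lat_sort hL Lam.zero
  have hA : Atom1 W0 := nm_atom (X := Sol (latPhi (F := F) Lam.zero) (HH F))
    (fun x => (x : HH F)) (fun x => (hmem _).1 x.2) W0 hW0m
  refine ⟨latLang F Lam, HH F, latStr (WH F), latPhi Lam.zero, Set.Iic Lam.zero, inferInstance,
    inferInstance, iG, iM, W0, latLang_card F Lam, ?_, lat_stable hL, lat_small hL fil_countable,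
    hW0, hD, atomic_of_atom1 _ hW0 hD hA, fun _ => cc, fun k a => ?_⟩
  · have hF : Countable F := Finite.to_countable
    infer_instance
  · obtain ⟨b, hb, hbb⟩ := example_nonisolated (fun i => (a i : HH F))
      (fun i => (hmem _).1 (a i).2)
    refine ⟨fun _ => ⟨b, (hmem b).2 hb⟩, fun ψ hψ => ?_⟩
    obtain ⟨χ, hχ⟩ := lat_qe ψ
    obtain ⟨𝓑, h𝓑⟩ := nm_fin χ
    obtain ⟨b', hb', h1, B, h2, h3⟩ := hbb 𝓑
    refine ⟨fun _ => ⟨b', (hmem b').2 hb'⟩, ?_,
      (latRel (F := F) (n := 2) ![1, -1] B).formula fun i =>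
        Term.var ((![Sum.inr 0, Sum.inl (Sum.inl 0)] : Fin 2 → (Fin 1 ⊕ Fin k) ⊕ Fin 1) i),
      ?_, ?_⟩
    · refine (hχ (HH F) (WH F) hL _).2 ((h𝓑 _ _ ?_).1 ((hχ (HH F) (WH F) hL _).1 hψ))
      intro μ B hB
      have e1 := nm_lc μ (cc : HH F) (fun i => (a i : HH F)) b
      have e2 := nm_lc μ (cc : HH F) (fun i => (a i : HH F)) b'
      show lc μ (Sum.elim (Sum.elim (fun _ => cc) fun i => (a i : HH F)) fun _ => b) ∈ WH F B ↔
        lc μ (Sum.elim (Sum.elim (fun _ => cc) fun i => (a i : HH F)) fun _ => b') ∈ WH F B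
      rw [e1, e2]
      exact h1 _ _ _ B hB
    · rw [Formula.realize_rel]
      show lc ![1, -1] _ ∈ WH F B
      have e : b - cc = lc (![1, -1] : Fin 2 → F) ![b, cc] := by
        unfold lc
        rw [Fin.sum_univ_two]
        simp [sub_eq_add_neg]
      rw [e] at h2
      have e2 : (fun i : Fin 2 => (Term.var ((![Sum.inr 0, Sum.inl (Sum.inl 0)] :
          Fin 2 → (Fin 1 ⊕ Fin k) ⊕ Fin 1) i) : (latLang F Lam).Term _).realize
          (Sum.elim (Sum.elim (fun _ => cc) fun i => (a i : HH F)) fun _ => b)) = ![b, cc] := by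
        funext i
        fin_cases i <;> rfl
      rw [← e2] at h2
      exact h2
    · rw [Formula.realize_rel]
      show ¬ lc ![1, -1] _ ∈ WH F B
      have e : b' - cc = lc (![1, -1] : Fin 2 → F) ![b', cc] := by
        unfold lc
        rw [Fin.sum_univ_two]
        simp [sub_eq_add_neg]
      rw [e] at h3
      have e2 : (fun i : Fin 2 => (Term.var ((![Sum.inr 0, Sum.inl (Sum.inl 0)] :
          Fin 2 → (Fin 1 ⊕ Fin k) ⊕ Fin 1) i) : (latLang F Lam).Term _).realize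
          (Sum.elim (Sum.elim (fun _ => cc) fun i => (a i : HH F)) fun _ => b')) = ![b', cc] := by
        funext i
        fin_cases i <;> rfl
      rw [← e2] at h3
      exact h3

end TAU
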