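import Pool.Agent.TAU.DsB

/-! Project TAU, module TAU-AlgB: algebraic cosets of the `W A` form a family of subspaces.

`AlgMem 𝒟 W A b`: there is a definable `s ∋ b`, closed under `+ W A`, contained in finitely many
cosets of `W A`.
* `of_mem`: `s = W A`, `T = {0}`.
* `add`: `s'' = {y | ∃ x ∈ s, ∃ x' ∈ s', y = x + x'}`; it is definable (`DSys.ex` over the two
  variables, `lin1`; the graph of addition is the basic condition `y - x - x' ∈ W ⊥`); finite set of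
  representatives `T + T'`.
* `smul`: `a = 0`: use `of_mem` for `0`.  `a ≠ 0`: `{y | a⁻¹ • y ∈ s}` (`lin1` with `μ = a⁻¹`).
* `mono`: `A ≤ B`: `s' = {y | ∃ x ∈ s, y - x ∈ W B}`, same `T`.
* `inf`: `s ∩ s'` is closed under `W (A ⊓ B)`; representatives: for `t ∈ T`, `t' ∈ T'` choose one
  element of `(t + W A) ∩ (t' + W B)` if there is any; two elements of this set differ by an
  element of `W A ⊓ W B = W (A ⊓ B)`.
* `alg_fil`: `{A | AlgMem 𝒟 W A b}` is a filter. -/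

namespace TAU

variable {F Λ V : Type} [Field F] [DistribLattice Λ] [BoundedOrder Λ] [AddCommGroup V]
  [Module F V] {W : Λ → Submodule F V} (hW : LatSpace W) (𝒟 : DSys V) (hl : 𝒟.Lin W)
include hW hl

private theorem def1_ex_sub {s t : Set V} (hs : 𝒟.Def1 s) (ht : 𝒟.Def1 t) :
    𝒟.Def1 {y | ∃ x ∈ s, y - x ∈ t} := by
  have h1 : 𝒟.Def {u : Unit ⊕ Unit → V | u (Sum.inr ()) ∈ s} :=
    𝒟.comap (fun _ : Unit => (Sum.inr () : Unit ⊕ Unit)) hs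
  have h2 : 𝒟.Def {u : Unit ⊕ Unit → V |
      lc (Sum.elim (fun _ : Unit => (1 : F)) (fun _ : Unit => (-1 : F))) u ∈ t} :=
    DSys.lin1 hW 𝒟 hl ht _
  have h3 := 𝒟.ex (𝒟.inter h1 h2)
  have hlc : ∀ v w : Unit → V, lc (Sum.elim (fun _ : Unit => (1 : F)) (fun _ : Unit => (-1 : F)))
      (Sum.elim v w) = v () - w () := by
    intro v w
    unfold lc
    rw [Fintype.sum_sum_type]
    simp [sub_eq_add_neg]
  have e : {v : Unit → V | v () ∈ {y | ∃ x ∈ s, y - x ∈ t}} = {v : Unit → V | ∃ w : Unit → V,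
      Sum.elim v w ∈ {u : Unit ⊕ Unit → V | u (Sum.inr ()) ∈ s} ∩ {u : Unit ⊕ Unit → V |
      lc (Sum.elim (fun _ : Unit => (1 : F)) (fun _ : Unit => (-1 : F))) u ∈ t}} := by
    ext v
    constructor
    · rintro ⟨x, hx, hxt⟩
      refine ⟨fun _ => x, hx, ?_⟩
      show lc (Sum.elim (fun _ : Unit => (1 : F)) (fun _ : Unit => (-1 : F)))
        (Sum.elim v fun _ => x) ∈ t
      rw [hlc]
      exact hxt
    · rintro ⟨w, hw1, hw2⟩
      have h4 : lc (Sum.elim (fun _ : Unit => (1 : F)) (fun _ : Unit => (-1 : F)))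
        (Sum.elim v w) ∈ t := hw2
      rw [hlc] at h4
      exact ⟨w (), hw1, h4⟩
  unfold DSys.Def1
  rw [e]
  exact h3

theorem AlgMem.of_mem {A : Λ} {b : V} (h : b ∈ W A) : AlgMem 𝒟 W A b := by
  refine ⟨(W A : Set V), DSys.def1_W 𝒟 hl A, h, fun x hx w hw => (W A).add_mem hx hw, {0}, ?_⟩
  intro x hx
  refine ⟨0, Finset.mem_singleton_self 0, ?_⟩
  rw [sub_zero]
  exact hx

theorem AlgMem.add {A : Λ} {b b' : V} (h : AlgMem 𝒟 W A b) (h' : AlgMem 𝒟 W A b') :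
    AlgMem 𝒟 W A (b + b') := by
  classical
  obtain ⟨s, hs, hb, hc, T, hT⟩ := h
  obtain ⟨s', hs', hb', hc', T', hT'⟩ := h'
  refine ⟨{y | ∃ x ∈ s, y - x ∈ s'}, def1_ex_sub hW 𝒟 hl hs hs', ⟨b, hb, ?_⟩, ?_,
    (T ×ˢ T').image (fun p => p.1 + p.2), ?_⟩
  · rw [add_sub_cancel_left]
    exact hb'
  · rintro y ⟨x, hx, hy⟩ w hw
    refine ⟨x, hx, ?_⟩
    have e : y + w - x = y - x + w := by abel
    rw [e]
    exact hc' _ hy w hw
  · rintro y ⟨x, hx, hy⟩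
    obtain ⟨t, ht, h1⟩ := hT x hx
    obtain ⟨t', ht', h2⟩ := hT' _ hy
    refine ⟨t + t', Finset.mem_image.2 ⟨(t, t'), Finset.mem_product.2 ⟨ht, ht'⟩, rfl⟩, ?_⟩
    have e : y - (t + t') = (y - x - t') + (x - t) := by abel
    rw [e]
    exact (W A).add_mem h2 h1

theorem AlgMem.smul {A : Λ} (a : F) {b : V} (h : AlgMem 𝒟 W A b) :
    AlgMem 𝒟 W A (a • b) := by
  classical
  by_cases ha : a = 0
  · rw [ha, zero_smul]
    exact AlgMem.of_mem hW 𝒟 hl (W A).zero_mem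
  obtain ⟨s, hs, hb, hc, T, hT⟩ := h
  refine ⟨{y | a⁻¹ • y ∈ s}, ?_, ?_, ?_, T.image (fun t => a • t), ?_⟩
  · have h1 := DSys.lin1 hW 𝒟 hl hs (fun _ : Unit => a⁻¹)
    have e : {v : Unit → V | v () ∈ {y | a⁻¹ • y ∈ s}} =
        {v : Unit → V | lc (fun _ : Unit => a⁻¹) v ∈ s} := by
      ext v
      show a⁻¹ • v () ∈ s ↔ lc (fun _ : Unit => a⁻¹) v ∈ s
      have e1 : lc (fun _ : Unit => a⁻¹) v = a⁻¹ • v () := by
        unfold lc
        rw [Fintype.sum_unique]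
      rw [e1]
    unfold DSys.Def1
    rw [e]
    exact h1
  · show a⁻¹ • a • b ∈ s
    rw [inv_smul_smul₀ ha]
    exact hb
  · intro y hy w hw
    show a⁻¹ • (y + w) ∈ s
    rw [smul_add]
    exact hc _ hy _ ((W A).smul_mem _ hw)
  · intro y hy
    obtain ⟨t, ht, h1⟩ := hT _ hy
    refine ⟨a • t, Finset.mem_image.2 ⟨t, ht, rfl⟩, ?_⟩
    have e : y - a • t = a • (a⁻¹ • y - t) := by
      rw [smul_sub, smul_inv_smul₀ ha]
    rw [e]
    exact (W A).smul_mem _ h1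

theorem AlgMem.sub {A : Λ} {b b' : V} (h : AlgMem 𝒟 W A b) (h' : AlgMem 𝒟 W A b') :
    AlgMem 𝒟 W A (b - b') := by
  have h1 := AlgMem.add hW 𝒟 hl h (AlgMem.smul hW 𝒟 hl (-1 : F) h')
  rwa [neg_one_smul, ← sub_eq_add_neg] at h1

theorem AlgMem.mono {A B : Λ} (hAB : A ≤ B) {b : V} (h : AlgMem 𝒟 W A b) :
    AlgMem 𝒟 W B b := by
  obtain ⟨s, hs, hb, hc, T, hT⟩ := h
  refine ⟨{y | ∃ x ∈ s, y - x ∈ (W B : Set V)},
    def1_ex_sub hW 𝒟 hl hs (DSys.def1_W 𝒟 hl B), ⟨b, hb, ?_⟩, ?_, T, ?_⟩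
  · rw [sub_self]
    exact (W B).zero_mem
  · rintro y ⟨x, hx, hy⟩ w hw
    refine ⟨x, hx, ?_⟩
    have e : y + w - x = y - x + w := by abel
    rw [e]
    exact (W B).add_mem hy hw
  · rintro y ⟨x, hx, hy⟩
    obtain ⟨t, ht, h1⟩ := hT x hx
    refine ⟨t, ht, ?_⟩
    have e : y - t = (y - x) + (x - t) := by abel
    rw [e]
    exact (W B).add_mem hy (hW.mono hAB h1)

theorem AlgMem.inf {A B : Λ} {b : V} (h : AlgMem 𝒟 W A b) (h' : AlgMem 𝒟 W B b) :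
    AlgMem 𝒟 W (A ⊓ B) b := by
  classical
  obtain ⟨s, hs, hb, hc, T, hT⟩ := h
  obtain ⟨s', hs', hb', hc', T', hT'⟩ := h'
  have hch : ∀ p : V × V, ∃ z : V, (∃ x : V, x - p.1 ∈ W A ∧ x - p.2 ∈ W B) →
      z - p.1 ∈ W A ∧ z - p.2 ∈ W B := by
    intro p
    by_cases hp : ∃ x : V, x - p.1 ∈ W A ∧ x - p.2 ∈ W B
    · obtain ⟨x, hx⟩ := hp
      exact ⟨x, fun _ => hx⟩
    · exact ⟨0, fun hp' => absurd hp' hp⟩
  choose f hf using hch
  refine ⟨s ∩ s', DSys.def1_inter 𝒟 hs hs', ⟨hb, hb'⟩, ?_, (T ×ˢ T').image f, ?_⟩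
  · rintro x ⟨hx, hx'⟩ w hw
    have hw' := (hW.mem_inf).1 hw
    exact ⟨hc x hx w hw'.1, hc' x hx' w hw'.2⟩
  · rintro x ⟨hx, hx'⟩
    obtain ⟨t, ht, h1⟩ := hT x hx
    obtain ⟨t', ht', h2⟩ := hT' x hx'
    have h3 := hf (t, t') ⟨x, h1, h2⟩
    refine ⟨f (t, t'), Finset.mem_image.2 ⟨(t, t'), Finset.mem_product.2 ⟨ht, ht'⟩, rfl⟩, ?_⟩
    rw [hW.mem_inf]
    constructor
    · have e : x - f (t, t') = (x - t) - (f (t, t') - t) := by abel
      rw [e]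
      exact (W A).sub_mem h1 h3.1
    · have e : x - f (t, t') = (x - t') - (f (t, t') - t') := by abel
      rw [e]
      exact (W B).sub_mem h2 h3.2

theorem alg_fil (b : V) : IsFil {A | AlgMem 𝒟 W A b} where
  top := AlgMem.of_mem hW 𝒟 hl (hW.mem_top b)
  up := fun _ _ h hAB => AlgMem.mono hW 𝒟 hl hAB h
  inf := fun _ _ h h' => AlgMem.inf hW 𝒟 hl h h'

/-- The algebraic elements over `A`, as a subspace. -/
def algS (A : Λ) : Submodule F V where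
  carrier := {b | AlgMem 𝒟 W A b}
  add_mem' := fun h h' => AlgMem.add hW 𝒟 hl h h'
  zero_mem' := AlgMem.of_mem hW 𝒟 hl (W A).zero_mem
  smul_mem' := fun a _ h => AlgMem.smul hW 𝒟 hl a h

end TAU
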