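import Pool.Agent.TAU.DimB

/-! Project TAU, module TAU-AlgDef: `algS A` is finite modulo `W A` and definable.

`exists_reps` (pure linear algebra): let `P ≤ V` be a subspace, `Z ≤ V` another one, and suppose
that every finite subspace `B ≤ P` with `B ⊓ Z = 0` has `finrank ≤ D`.  Then there is a finset
`R ⊆ P` such that every `b ∈ P` has `r ∈ R` with `b - r ∈ Z`.  PROOF: take such a `B` of largest
`finrank`; if `b ∈ P` is not in `B + Z` then `B ⊔ span {b}` is a larger one (it is finite: a finitely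
generated module over a finite field); `R` = the elements of `B`.

`alg_reps`: `P = algS A`, `Z = W A`, `dim_bound`.

`alg_def1`: for `r ∈ R` let `s_r` be a definable set witnessing `AlgMem 𝒟 W A r`.  All elements of
`s_r` are algebraic (same witness).  So `{b | AlgMem 𝒟 W A b}` is the union of the `s_r`, `r ∈ R`:
if `b - r ∈ W A` then `b ∈ s_r`.  A finite union of definable sets is definable (`R` is not empty,
as `0` has a representative; or use `def1_W` for a starting point). -/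

namespace TAU

private theorem ext_aux {F V : Type} [Field F] [AddCommGroup V] [Module F V] [Finite F]
    (P Z B : Submodule F V) (hf : Finite B) (hBP : B ≤ P) (h0 : ∀ b ∈ B, b ∈ Z → b = 0)
    {b : V} (hb : b ∈ P) (hn : ∀ r ∈ B, b - r ∉ Z) :
    ∃ B' : Submodule F V, Finite B' ∧ B' ≤ P ∧ (∀ b ∈ B', b ∈ Z → b = 0) ∧
      Module.finrank F B < Module.finrank F B' := by
  have hmf : Module.Finite F B := Module.Finite.of_finite
  have hmf' : Module.Finite F (B ⊔ Submodule.span F {b} : Submodule F V) := inferInstance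
  refine ⟨B ⊔ Submodule.span F {b}, Module.finite_of_finite F,
    sup_le hBP ((Submodule.span_singleton_le_iff_mem _ _).2 hb), ?_, ?_⟩
  · intro x hx hxZ
    obtain ⟨y, hy, z, hz, rfl⟩ := Submodule.mem_sup.1 hx
    obtain ⟨c, rfl⟩ := Submodule.mem_span_singleton.1 hz
    by_cases hc : c = 0
    · subst hc
      rw [zero_smul, add_zero] at hxZ ⊢
      exact h0 y hy hxZ
    · exfalso
      apply hn (-(c⁻¹ • y)) (B.neg_mem (B.smul_mem _ hy))
      have h1 : b - -(c⁻¹ • y) = c⁻¹ • (y + c • b) := by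
        rw [smul_add, smul_smul, inv_mul_cancel₀ hc, one_smul]
        abel
      rw [h1]
      exact Z.smul_mem _ hxZ
  · apply Submodule.finrank_lt_finrank_of_lt
    refine lt_of_le_of_ne le_sup_left ?_
    intro he
    have h1 : b ∈ B := by
      rw [he]
      exact le_sup_right (a := B) (Submodule.mem_span_singleton_self b)
    exact hn b h1 (by rw [sub_self]; exact Z.zero_mem)

theorem exists_reps {F V : Type} [Field F] [AddCommGroup V] [Module F V] [Finite F]
    (P Z : Submodule F V) (D : ℕ)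
    (h : ∀ B : Submodule F V, Finite B → B ≤ P → (∀ b ∈ B, b ∈ Z → b = 0) →
      Module.finrank F B ≤ D) :
    ∃ R : Finset V, (∀ r ∈ R, r ∈ P) ∧ ∀ b ∈ P, ∃ r ∈ R, b - r ∈ Z := by
  classical
  have key : ∀ n : ℕ, ∀ B : Submodule F V, Finite B → B ≤ P → (∀ b ∈ B, b ∈ Z → b = 0) →
      D - Module.finrank F B ≤ n →
      ∃ R : Finset V, (∀ r ∈ R, r ∈ P) ∧ ∀ b ∈ P, ∃ r ∈ R, b - r ∈ Z := by
    intro n
    induction n with
    | zero =>
      intro B hf hBP h0 hn
      by_cases hc : ∀ b ∈ P, ∃ r ∈ B, b - r ∈ Z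
      · have := Fintype.ofFinite B
        refine ⟨Finset.univ.map ⟨Subtype.val, Subtype.val_injective⟩ (α := B), ?_, ?_⟩
        · intro r hr
          obtain ⟨x, _, rfl⟩ := Finset.mem_map.1 hr
          exact hBP x.2
        · intro b hb
          obtain ⟨r, hr, hr'⟩ := hc b hb
          exact ⟨r, Finset.mem_map.2 ⟨⟨r, hr⟩, Finset.mem_univ _, rfl⟩, hr'⟩
      · push Not at hc
        obtain ⟨b, hb, hb'⟩ := hc
        obtain ⟨B', hf', hBP', h0', hlt⟩ := ext_aux P Z B hf hBP h0 hb hb'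
        have := h B' hf' hBP' h0'
        omega
    | succ n ih =>
      intro B hf hBP h0 hn
      by_cases hc : ∀ b ∈ P, ∃ r ∈ B, b - r ∈ Z
      · have := Fintype.ofFinite B
        refine ⟨Finset.univ.map ⟨Subtype.val, Subtype.val_injective⟩ (α := B), ?_, ?_⟩
        · intro r hr
          obtain ⟨x, _, rfl⟩ := Finset.mem_map.1 hr
          exact hBP x.2
        · intro b hb
          obtain ⟨r, hr, hr'⟩ := hc b hb
          exact ⟨r, Finset.mem_map.2 ⟨⟨r, hr⟩, Finset.mem_univ _, rfl⟩, hr'⟩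
      · push Not at hc
        obtain ⟨b, hb, hb'⟩ := hc
        obtain ⟨B', hf', hBP', h0', hlt⟩ := ext_aux P Z B hf hBP h0 hb hb'
        have := h B' hf' hBP' h0'
        exact ih B' hf' hBP' h0' (by omega)
  refine key (D - Module.finrank F (⊥ : Submodule F V)) ⊥ inferInstance bot_le ?_ le_rfl
  intro b hb _
  exact (Submodule.mem_bot F).1 hb

variable {F Λ V : Type} [Field F] [DistribLattice Λ] [BoundedOrder Λ] [AddCommGroup V]
  [Module F V] {W : Λ → Submodule F V}

theorem alg_def1 (hW : LatSpace W) (𝒟 : DSys V) (hl : 𝒟.Lin W) [Finite F] (hS : SpecFin Λ)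
    (hA : Atom1 W) {D : ℕ} (hD : SBound 𝒟 W D) (A : Λ) :
    𝒟.Def1 {b | AlgMem 𝒟 W A b} := by
  obtain ⟨R, hRP, hR⟩ := exists_reps (algS hW 𝒟 hl A) (W A) D
    (fun B hf hB h0 => dim_bound hW 𝒟 hS hA hD A B hf hB h0)
  have hRa : ∀ r : {r // r ∈ R}, AlgMem 𝒟 W A r.1 := fun r => hRP r.1 r.2
  choose s hs1 hs2 hs3 hs4 using hRa
  have h1 := 𝒟.fin_ex (ι := Unit) (𝒟.ne_of_lin hl) (fun r : {r // r ∈ R} =>
    {v : Unit → V | v () ∈ s r}) hs1
  have h2 : {v : Unit → V | v () ∈ {b | AlgMem 𝒟 W A b}} =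
      {v | ∃ r : {r // r ∈ R}, v ∈ {v : Unit → V | v () ∈ s r}} := by
    ext v
    constructor
    · intro hv
      have hv' : AlgMem 𝒟 W A (v ()) := hv
      obtain ⟨r, hr, hr'⟩ := hR (v ()) hv'
      refine ⟨⟨r, hr⟩, ?_⟩
      have h3 := hs3 ⟨r, hr⟩ r (hs2 ⟨r, hr⟩) (v () - r) hr'
      rw [add_sub_cancel] at h3
      exact h3
    · rintro ⟨r, hr⟩
      exact ⟨s r, hs1 r, hr, hs3 r, hs4 r⟩
  show 𝒟.Def {v : Unit → V | v () ∈ {b | AlgMem 𝒟 W A b}}
  rw [h2]
  exact h1

end TAU
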