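import Pool.Agent.TAU.AlgB

/-! Project TAU, module TAU-AlgSub: finitely many algebraic elements lie in a definable subspace
which is finite modulo `W C`.

PROOF.  Induction on the finset `B`.  Empty: `T = W C`.  Step: let `T0` be a definable subspace
containing `W C` and `B`, finite modulo `W C`, and let `s ∋ b` be a definable set, closed under
`+ W C`, contained in finitely many cosets of `W C`.  We need a definable subspace containing `T0`
and `s`.  For `n : ℕ` let `X n` be the set of the `y` for which there are `t ∈ T0`,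
`x_1, .., x_n ∈ s` and scalars `a_1, .., a_n` with `y = t + ∑ a_i x_i`; it is definable: finite
union over `a : Fin n → F` (`F` finite, `DSys.fin_ex`) of projections (`DSys.ex` over `Fin n ⊕ Unit`
or similar, `lin1`, `fin_all`).  Let `N` be the cardinality of a finite set `R` of representatives
of `s` modulo `W C`.  CLAIM: the subspace `T1` spanned by `T0` and `s` equals `X N` (also when
`N = 0`, `s` empty is impossible).  `X N ⊆ T1` is clear.  Conversely an element of `T1` is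
`t + ∑ a_x x` (finite sum over elements of `s`); collect the `x` in the same class modulo `W C`:
`x = r + w` with a chosen representative `r ∈ s` of the class and `w ∈ W C ⊆ T0`; so it is
`t' + ∑_r a_r r` with at most `N` chosen representatives `r ∈ s` (if some classes do not occur in
`s` use fewer; pad with coefficient `0` and `x_i = b ∈ s`).  So `T1` is definable, and it is finite
modulo `W C`: representatives `t_j + ∑_r a_r r`.  `T1 ≤ algS`: from the definition (`T1` itself is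
a definable set closed under `+ W C` and finite modulo `W C`).
Alternative: avoid the closure argument by taking `T1` as the `Submodule.span` and showing that
its carrier is the set `X N`.
`le_A`: if `C ≤ A` and `B ⊆ W A` intersect with `W A`. -/

namespace TAU

variable {F Λ V : Type} [Field F] [DistribLattice Λ] [BoundedOrder Λ] [AddCommGroup V]
  [Module F V] {W : Λ → Submodule F V} (hW : LatSpace W) (𝒟 : DSys V) (hl : 𝒟.Lin W)
include hW hl

/-- one step: the sums `x + a x'` -/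
private def asb (Y : Set V) : Set V := {y | ∃ a : F, ∃ x', x' ∈ Y ∧ y - a • x' ∈ Y}

private theorem asb_def [Finite F] {Y : Set V} (hY : 𝒟.Def1 Y) : 𝒟.Def1 (asb (F := F) Y) := by
  have h1 : ∀ a : F, 𝒟.Def {v : Unit → V | ∃ w : Unit → V, Sum.elim v w ∈
      {u : Unit ⊕ Unit → V | lc (Sum.elim (fun _ => (0 : F)) fun _ => (1 : F)) u ∈ Y} ∩
        {u : Unit ⊕ Unit → V | lc (Sum.elim (fun _ => (1 : F)) fun _ => -a) u ∈ Y}} := fun a =>
    𝒟.ex (𝒟.inter (DSys.lin1 hW 𝒟 hl hY _) (DSys.lin1 hW 𝒟 hl hY _))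
  have h2 := DSys.fin_ex 𝒟 (ι := Unit) ⟨_, h1 0⟩ _ h1
  have h3 : ∀ (μ : Unit ⊕ Unit → F) (v w : Unit → V), lc μ (Sum.elim v w) =
      μ (Sum.inl ()) • v () + μ (Sum.inr ()) • w () := by
    intro μ v w
    unfold lc
    rw [Fintype.sum_sum_type, Fintype.sum_unique, Fintype.sum_unique]
    rfl
  have e : {v : Unit → V | v () ∈ asb (F := F) Y} = {v : Unit → V | ∃ a : F, v ∈
      {v : Unit → V | ∃ w : Unit → V, Sum.elim v w ∈
      {u : Unit ⊕ Unit → V | lc (Sum.elim (fun _ => (0 : F)) fun _ => (1 : F)) u ∈ Y} ∩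
        {u : Unit ⊕ Unit → V | lc (Sum.elim (fun _ => (1 : F)) fun _ => -a) u ∈ Y}}} := by
    ext v
    constructor
    · rintro ⟨a, x', hx', hy⟩
      refine ⟨a, fun _ => x', ?_, ?_⟩
      · show lc _ (Sum.elim v fun _ => x') ∈ Y
        rw [h3]
        show (0 : F) • v () + (1 : F) • x' ∈ Y
        rw [zero_smul, zero_add, one_smul]
        exact hx'
      · show lc _ (Sum.elim v fun _ => x') ∈ Y
        rw [h3]
        show (1 : F) • v () + -a • x' ∈ Y
        rw [one_smul, neg_smul, ← sub_eq_add_neg]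
        exact hy
    · rintro ⟨a, w, hw1, hw2⟩
      refine ⟨a, w (), ?_, ?_⟩
      · have h4 : lc (Sum.elim (fun _ => (0 : F)) fun _ => (1 : F)) (Sum.elim v w) ∈ Y := hw1
        rw [h3] at h4
        have h5 : (0 : F) • v () + (1 : F) • w () ∈ Y := h4
        rwa [zero_smul, zero_add, one_smul] at h5
      · have h4 : lc (Sum.elim (fun _ => (1 : F)) fun _ => -a) (Sum.elim v w) ∈ Y := hw2
        rw [h3] at h4
        have h5 : (1 : F) • v () + -a • w () ∈ Y := h4
        rwa [one_smul, neg_smul, ← sub_eq_add_neg] at h5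
  show 𝒟.Def {v : Unit → V | v () ∈ asb (F := F) Y}
  rw [e]
  exact h2

omit hW in
/-- the set which generates the subspace -/
private theorem asb_start (C : Λ) (B : Finset V) (hB : ∀ b ∈ B, AlgMem 𝒟 W C b) :
    ∃ X : Set V, 𝒟.Def1 X ∧ (W C : Set V) ⊆ X ∧ (∀ b ∈ B, b ∈ X) ∧
      (∀ x ∈ X, ∀ w ∈ W C, x + w ∈ X) ∧ ∃ T : Finset V, ∀ x ∈ X, ∃ t ∈ T, x - t ∈ W C := by
  classical
  induction B using Finset.induction_on with
  | empty =>
    refine ⟨(W C : Set V), DSys.def1_W 𝒟 hl C, fun x hx => hx,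
      fun b hb => absurd hb (Finset.notMem_empty b), fun x hx w hw => (W C).add_mem hx hw,
      {0}, fun x hx => ⟨0, Finset.mem_singleton_self _, ?_⟩⟩
    rw [sub_zero]
    exact hx
  | insert b B _ ih =>
    obtain ⟨X, hX, hC, hBX, hcl, T, hT⟩ := ih fun b' hb' => hB b' (Finset.mem_insert_of_mem hb')
    obtain ⟨s, hs, hbs, hscl, T', hT'⟩ := hB b (Finset.mem_insert_self b B)
    refine ⟨X ∪ s, DSys.def1_union 𝒟 hX hs, hC.trans Set.subset_union_left, ?_, ?_, T ∪ T', ?_⟩
    · intro b' hb'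
      rcases Finset.mem_insert.1 hb' with rfl | h
      · exact Or.inr hbs
      · exact Or.inl (hBX b' h)
    · rintro x (hx | hx) w hw
      · exact Or.inl (hcl x hx w hw)
      · exact Or.inr (hscl x hx w hw)
    · rintro x (hx | hx)
      · obtain ⟨t, ht, h⟩ := hT x hx
        exact ⟨t, Finset.mem_union_left _ ht, h⟩
      · obtain ⟨t, ht, h⟩ := hT' x hx
        exact ⟨t, Finset.mem_union_right _ ht, h⟩

theorem exists_def_subspace [Finite F] (C : Λ) (B : Finset V) (hB : ∀ b ∈ B, AlgMem 𝒟 W C b) :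
    ∃ T : Submodule F V, 𝒟.Def1 (T : Set V) ∧ W C ≤ T ∧ (∀ b ∈ B, b ∈ T) ∧
      ∃ R : Finset V, ∀ x ∈ T, ∃ r ∈ R, x - r ∈ W C := by
  classical
  obtain ⟨X, hX, hC, hBX, hcl, T, hT⟩ := asb_start 𝒟 hl C B hB
  have hfin : Finite (Submodule.span F (T : Set V)) := Module.finite_of_finite F
  have hfin2 : (Submodule.span F (T : Set V) : Set V).Finite := Set.toFinite _
  let R : Finset V := hfin2.toFinset
  let U : Submodule F V := Submodule.span F (T : Set V) ⊔ W C
  have hU : ∀ x ∈ U, ∃ r ∈ R, x - r ∈ W C := by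
    intro x hx
    obtain ⟨r, hr, w, hw, rfl⟩ := Submodule.mem_sup.1 hx
    refine ⟨r, hfin2.mem_toFinset.2 hr, ?_⟩
    rw [add_sub_cancel_left]
    exact hw
  have hXU : X ⊆ U := by
    intro x hx
    obtain ⟨t, ht, h⟩ := hT x hx
    refine Submodule.mem_sup.2 ⟨t, Submodule.subset_span ht, x - t, h, ?_⟩
    abel
  let N : Set V → ℕ := fun Y => (R.filter fun r => ∃ y ∈ Y, y - r ∈ W C).card
  have hN : ∀ Y, N Y ≤ R.card := fun Y => Finset.card_filter_le _ _
  obtain ⟨Y, ⟨hY1, hY2, hY3, hY4⟩, hmin⟩ := WellFounded.has_min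
    (measure fun Y : Set V => R.card - N Y).wf
    {Y : Set V | 𝒟.Def1 Y ∧ X ⊆ Y ∧ Y ⊆ U ∧ ∀ x ∈ Y, ∀ w ∈ W C, x + w ∈ Y}
    ⟨X, hX, fun x hx => hx, hXU, hcl⟩
  have hsub : Y ⊆ asb (F := F) Y := by
    intro y hy
    refine ⟨0, y, hy, ?_⟩
    rw [zero_smul, sub_zero]
    exact hy
  have hP : 𝒟.Def1 (asb (F := F) Y) ∧ X ⊆ asb (F := F) Y ∧ asb (F := F) Y ⊆ U ∧
      ∀ x ∈ asb (F := F) Y, ∀ w ∈ W C, x + w ∈ asb (F := F) Y := by
    refine ⟨asb_def hW 𝒟 hl hY1, hY2.trans hsub, ?_, ?_⟩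
    · rintro y ⟨a, x', hx', hy⟩
      have h1 : y - a • x' + a • x' ∈ U := U.add_mem (hY3 hy) (U.smul_mem a (hY3 hx'))
      rwa [sub_add_cancel] at h1
    · rintro y ⟨a, x', hx', hy⟩ w hw
      refine ⟨a, x', hx', ?_⟩
      have h1 : y + w - a • x' = y - a • x' + w := by abel
      rw [h1]
      exact hY4 _ hy w hw
  have hle : N (asb (F := F) Y) ≤ N Y := by
    have h1 : ¬ (R.card - N (asb (F := F) Y) < R.card - N Y) := hmin _ hP
    have h2 := hN (asb (F := F) Y)
    omega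
  have heq : (R.filter fun r => ∃ y ∈ Y, y - r ∈ W C) =
      R.filter fun r => ∃ y ∈ asb (F := F) Y, y - r ∈ W C := by
    refine Finset.eq_of_subset_of_card_le ?_ hle
    intro r hr
    rw [Finset.mem_filter] at hr ⊢
    obtain ⟨h1, y, hy, h2⟩ := hr
    exact ⟨h1, y, hsub hy, h2⟩
  have hback : asb (F := F) Y ⊆ Y := by
    intro y hy
    obtain ⟨r, hr, h1⟩ := hU y (hP.2.2.1 hy)
    have h2 : r ∈ R.filter fun r => ∃ y ∈ asb (F := F) Y, y - r ∈ W C :=
      Finset.mem_filter.2 ⟨hr, y, hy, h1⟩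
    rw [← heq, Finset.mem_filter] at h2
    obtain ⟨_, y', hy', h3⟩ := h2
    have h4 := hY4 y' hy' (y - r - (y' - r)) ((W C).sub_mem h1 h3)
    have h5 : y' + (y - r - (y' - r)) = y := by abel
    rwa [h5] at h4
  have h0 : (0 : V) ∈ Y := hY2 (hC (W C).zero_mem)
  let Y' : Submodule F V :=
    { carrier := Y
      zero_mem' := h0
      add_mem' := by
        intro x y hx hy
        refine hback ⟨1, y, hy, ?_⟩
        rw [one_smul, add_sub_cancel_right]
        exact hx
      smul_mem' := by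
        intro a x hx
        refine hback ⟨a, x, hx, ?_⟩
        rw [sub_self]
        exact h0 }
  exact ⟨Y', hY1, fun x hx => hY2 (hC hx), fun b hb => hY2 (hBX b hb), R, fun x hx => hU x (hY3 hx)⟩

theorem exists_def_subspace_le [Finite F] {A C : Λ} (hCA : C ≤ A) (B : Finset V)
    (hB : ∀ b ∈ B, AlgMem 𝒟 W C b) (hBA : ∀ b ∈ B, b ∈ W A) :
    ∃ T : Submodule F V, 𝒟.Def1 (T : Set V) ∧ W C ≤ T ∧ T ≤ W A ∧ (∀ b ∈ B, b ∈ T) ∧
      ∃ R : Finset V, ∀ x ∈ T, ∃ r ∈ R, x - r ∈ W C := by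
  obtain ⟨T, hT, hC, hBT, R, hR⟩ := exists_def_subspace hW 𝒟 hl C B hB
  refine ⟨T ⊓ W A, ?_, le_inf hC (hW.mono hCA), inf_le_right, fun b hb => ⟨hBT b hb, hBA b hb⟩,
    R, fun x hx => hR x hx.1⟩
  exact DSys.def1_inter 𝒟 hT (DSys.def1_W 𝒟 hl A)

omit hW hl in
/-- The elements of such a subspace are algebraic. -/
theorem algMem_of_mem_def {C : Λ} {T : Submodule F V} (hT : 𝒟.Def1 (T : Set V)) (hC : W C ≤ T)
    (hR : ∃ R : Finset V, ∀ x ∈ T, ∃ r ∈ R, x - r ∈ W C) {b : V} (hb : b ∈ T) :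
    AlgMem 𝒟 W C b :=
  ⟨(T : Set V), hT, hb, fun _ hx _ hw => T.add_mem hx (hC hw), hR⟩

end TAU
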