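import Pool.Agent.TAU.Hd
import Pool.Agent.TAU.CntT
import Pool.Agent.TAU.Neu
import Pool.Agent.TAU.Good

/-! Project TAU, module TAU-Anti: an antichain converging to a point not below its members gives
continuum many types.

Data (`BadSeq x z`): `¬ x ≤ z i`; `¬ z i ≤ z j` for `i ≠ j`; for each `B ∈ x` all but finitely many
`z i` contain `B`.

`badSeq_sep`: for `S : Set ℕ`, `j ∉ S` there is `D` with `D ∈ z i` for all `i ∈ S` and `D ∉ z j`.
PROOF.  Choose `B ∈ x`, `B ∉ z j`.  For the finitely many `i ∈ S` with `B ∉ z i` (they are `≠ j`)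
choose `D_i ∈ z i`, `D_i ∉ z j`.  `D = B ⊔ sup D_i`; it is not in `z j` since `z j` is prime.

`anti_few`: PROOF.  For `A : Λ` let `φ A : L.Formula (Fin 1)` be a formula with
`(φ A).Realize (fun _ => v) ↔ v ∈ W A` for `v : Sol Φ M` (`hdef_formula` for `basic 1 A`), and let
`ψ A = φ A ⊓ Φ`.  For `S : Set ℕ` let `Fl S = {A | ∀ i ∈ S, (z i).mem A}` (a filter) and
`p S = {ψ A | A ∈ Fl S} ∪ {(ψ A).not | A ∉ Fl S}`.  Apply `not_few_types` with `κ = Fin 1`.
`hfin`: for a finite part let `A0` be the infimum of the finitely many `A ∈ Fl S` which occur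
(choose for each member a representing `A`), `A0 ∈ Fl S`, and `T` the finite set of the
`C ∉ Fl S` which occur; `¬ A0 ≤ C` for `C ∈ T`.  By `avoid0` there is `w ∈ W A0`, `w ∉ W C` for
`C ∈ T`; `v = fun _ => (w : M)`.  `hne`: `S ≠ S'`: say `j ∈ S'`, `j ∉ S` (or conversely).  By
`badSeq_sep` there is `D ∈ Fl S`, `D ∉ z j`, so `D ∉ Fl S'`: `ψ D ∈ p S` and `(ψ D).not ∈ p S'`.
(For `S` empty `Fl S` is everything, fine.) -/

namespace TAU

open FirstOrder FirstOrder.Language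

section
variable {Λ : Type} [DistribLattice Λ] [BoundedOrder Λ]

/-- A sequence of pairwise incomparable prime filters converging to `x`, none of them above
`x`. -/
structure BadSeq (x : Pt Λ) (z : ℕ → Pt Λ) : Prop where
  notLe : ∀ i, ¬ x ≤ z i
  anti : ∀ i j, i ≠ j → ¬ z i ≤ z j
  conv : ∀ B, x.mem B → {i | ¬ (z i).mem B}.Finite

theorem badSeq_sep {x : Pt Λ} {z : ℕ → Pt Λ} (h : BadSeq x z) (S : Set ℕ) {j : ℕ} (hj : j ∉ S) :
    ∃ D, (∀ i ∈ S, (z i).mem D) ∧ ¬ (z j).mem D := by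
  classical
  have h1 : ∃ B, x.mem B ∧ ¬ (z j).mem B := by
    by_contra h2
    push Not at h2
    exact h.notLe j h2
  obtain ⟨B, hB, hBj⟩ := h1
  have h2 : ∀ i, ∃ D, i ∈ S → (z i).mem D ∧ ¬ (z j).mem D := by
    intro i
    by_cases hi : i ∈ S
    · have h3 : i ≠ j := fun h4 => hj (h4 ▸ hi)
      have h4 : ¬ ∀ A, (z i).mem A → (z j).mem A := h.anti i j h3
      push Not at h4
      obtain ⟨D, h5, h6⟩ := h4
      exact ⟨D, fun _ => ⟨h5, h6⟩⟩
    · exact ⟨B, fun h3 => absurd h3 hi⟩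
  choose D hD using h2
  have hmem : ∀ (y : Pt Λ) (A C : Λ), y.mem (A ⊔ C) ↔ y.mem A ∨ y.mem C := by
    intro y A C
    unfold Pt.mem
    rw [y.2.2.2.2, Bool.or_eq_true]
  have hsup : ∀ (y : Pt Λ) (s : Finset ℕ), y.mem (s.sup D) ↔ ∃ i ∈ s, y.mem (D i) := by
    intro y s
    induction s using Finset.induction with
    | empty =>
      simp only [Finset.sup_empty, Finset.notMem_empty, false_and, exists_false, iff_false]
      unfold Pt.mem
      rw [y.2.2.1]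
      exact Bool.false_ne_true
    | insert a s ha ih =>
      rw [Finset.sup_insert, hmem, ih]
      simp only [Finset.mem_insert, exists_eq_or_imp]
  refine ⟨B ⊔ ((h.conv B hB).toFinset.filter fun i => i ∈ S).sup D, fun i hi => ?_, ?_⟩
  · rw [hmem, hsup]
    by_cases h3 : (z i).mem B
    · exact Or.inl h3
    · refine Or.inr ⟨i, ?_, (hD i hi).1⟩
      rw [Finset.mem_filter, Set.Finite.mem_toFinset]
      exact ⟨h3, hi⟩
  · rw [hmem, hsup]
    rintro (h3 | ⟨i, hi, h3⟩)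
    · exact hBj h3
    · exact (hD i (Finset.mem_filter.1 hi).2).2 h3

end

variable {L : FirstOrder.Language.{0, 0}} {M : Type} [L.Structure M] (Φ : L.Formula (Fin 1))
  {F Λ : Type} [Field F] [DistribLattice Λ] [BoundedOrder Λ] [AddCommGroup (Sol Φ M)]
  [Module F (Sol Φ M)]

theorem anti_few (hL : L.card ≤ Cardinal.aleph0) [Infinite M] {W : Λ → Submodule F (Sol Φ M)}
    (hW : LatSpace W) (hd : HDef Φ W) {x : Pt Λ} {z : ℕ → Pt Λ} (h : BadSeq x z) :
    Cardinal.continuum ≤ numModels L (L.completeTheory M) := by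
  classical
  have h1 : ∀ A : Λ, ∃ φ : L.Formula (Fin 1), ∀ v : Sol Φ M,
      φ.Realize (fun _ => (v : M)) ↔ v ∈ W A := by
    intro A
    obtain ⟨φ, hφ⟩ := hdef_formula Φ hd (BF.basic (fun _ : Fin 1 => (1 : F)) A)
    refine ⟨φ, fun v => ?_⟩
    have h2 := hφ fun _ => v
    rw [h2]
    show lc (fun _ : Fin 1 => (1 : F)) (fun _ => v) ∈ W A ↔ v ∈ W A
    unfold lc
    rw [Fin.sum_univ_one, one_smul]
  choose φ hφ using h1
  have hψ : ∀ (A : Λ) (v : Sol Φ M), (φ A ⊓ Φ).Realize (fun _ => (v : M)) ↔ v ∈ W A := by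
    intro A v
    rw [Formula.realize_inf, hφ]
    exact and_iff_left v.2
  refine not_few_types hL M (Fin 1) (fun S => {f | ∃ A, (∀ i ∈ S, (z i).mem A) ∧ f = φ A ⊓ Φ} ∪
    {f | ∃ A, (¬ ∀ i ∈ S, (z i).mem A) ∧ f = (φ A ⊓ Φ).not}) (fun S Δ hΔ => ?_) (fun S S' hS => ?_)
  · have h2 : ∀ f : L.Formula (Fin 1), ∃ A : Λ, f ∈ Δ →
        ((∀ i ∈ S, (z i).mem A) ∧ f = φ A ⊓ Φ) ∨
          ((¬ ∀ i ∈ S, (z i).mem A) ∧ f = (φ A ⊓ Φ).not) := by
      intro f
      by_cases hf : f ∈ Δ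
      · rcases hΔ f hf with ⟨A, h3, h4⟩ | ⟨A, h3, h4⟩
        · exact ⟨A, fun _ => Or.inl ⟨h3, h4⟩⟩
        · exact ⟨A, fun _ => Or.inr ⟨h3, h4⟩⟩
      · exact ⟨⊤, fun h3 => absurd h3 hf⟩
    choose a ha using h2
    have hinf : ∀ (y : Pt Λ) (s : Finset (L.Formula (Fin 1))),
        (∀ f ∈ s, y.mem (a f)) → y.mem (s.inf a) := by
      intro y s
      induction s using Finset.induction with
      | empty =>
        intro _
        rw [Finset.inf_empty]
        exact y.2.1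
      | insert b s hb ih =>
        intro h3
        rw [Finset.inf_insert]
        unfold Pt.mem
        rw [y.2.2.2.1, Bool.and_eq_true]
        exact ⟨h3 b (Finset.mem_insert_self _ _),
          ih fun f hf => h3 f (Finset.mem_insert_of_mem hf)⟩
    have hup : ∀ (y : Pt Λ) (A C : Λ), A ≤ C → y.mem A → y.mem C := by
      intro y A C hAC hA
      have h3 := y.2.2.2.1 A C
      rw [inf_eq_left.2 hAC] at h3
      unfold Pt.mem at hA ⊢
      rw [hA] at h3
      cases h4 : y.1 C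
      · rw [h4] at h3
        exact absurd h3.symm (by simp)
      · rfl
    have hmono : ∀ A C : Λ, A ≤ C → W A ≤ W C := by
      intro A C hAC
      have h3 := hW.inf A C
      rw [inf_eq_left.2 hAC] at h3
      exact inf_eq_left.1 h3.symm
    obtain ⟨w, hw, hw'⟩ := avoid0 hW ((Δ.filter fun f => ∀ i ∈ S, (z i).mem (a f)).inf a)
      ((Δ.filter fun f => ¬ ∀ i ∈ S, (z i).mem (a f)).image a) (fun C hC hle => by
        obtain ⟨f, hf, rfl⟩ := Finset.mem_image.1 hC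
        refine (Finset.mem_filter.1 hf).2 fun i hi => hup _ _ _ hle (hinf _ _ fun g hg => ?_)
        exact (Finset.mem_filter.1 hg).2 i hi)
    refine ⟨fun _ => (w : M), fun f hf => ?_⟩
    rcases ha f hf with ⟨h3, h4⟩ | ⟨h3, h4⟩
    · rw [h4, hψ]
      refine hmono _ _ ?_ hw
      exact Finset.inf_le (Finset.mem_filter.2 ⟨hf, h3⟩)
    · rw [h4, Formula.realize_not, hψ]
      exact hw' _ (Finset.mem_image.2 ⟨f, Finset.mem_filter.2 ⟨hf, h3⟩, rfl⟩)
  · have h3 : (∃ j, j ∈ S' ∧ j ∉ S) ∨ ∃ j, j ∈ S ∧ j ∉ S' := by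
      by_contra h4
      push Not at h4
      exact hS (Set.ext fun j => ⟨fun h5 => h4.2 j h5, fun h5 => h4.1 j h5⟩)
    rcases h3 with ⟨j, hj, hj'⟩ | ⟨j, hj, hj'⟩
    · obtain ⟨D, h4, h5⟩ := badSeq_sep h S hj'
      exact ⟨φ D ⊓ Φ, Or.inl ⟨Or.inl ⟨D, h4, rfl⟩, Or.inr ⟨D, fun h6 => h5 (h6 j hj), rfl⟩⟩⟩
    · obtain ⟨D, h4, h5⟩ := badSeq_sep h S' hj'
      exact ⟨φ D ⊓ Φ, Or.inr ⟨Or.inl ⟨D, h4, rfl⟩, Or.inr ⟨D, fun h6 => h5 (h6 j hj), rfl⟩⟩⟩

end TAU
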