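import Pool.Agent.TAU.Defs

/-! Project TAU, module TAU-Bas: basic lemmas on lattice spaces, prime filters, linear
combinations, Boolean combinations.  All routine.

* `LatSpace.le_iff`: if `W A ≤ W B` and not `A ≤ B` then `A ⊓ B < A`, `W (A ⊓ B) = W A`, whose
  relative index in itself is `1`, against `index`.
* `mem_Vm`: the union of the `W A`, `A ∉ x`, is directed (`A ⊔ B ∉ x` since `x` is prime) and not
  empty (`⊥ ∉ x`): use `Submodule.mem_iSup_of_directed` or show that the union is a submodule.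
* `BoolComb.finite`: induction on the Boolean combination.
* `boolComb_iff_bf`: induction in both directions. -/

namespace TAU

section
variable {Λ : Type} [DistribLattice Λ] [BoundedOrder Λ]

theorem Pt.mem_top (x : Pt Λ) : x.mem ⊤ := x.2.1

theorem Pt.not_mem_bot (x : Pt Λ) : ¬ x.mem ⊥ := by
  unfold Pt.mem
  rw [x.2.2.1]
  exact Bool.false_ne_true

theorem Pt.mem_inf (x : Pt Λ) {A B : Λ} : x.mem (A ⊓ B) ↔ x.mem A ∧ x.mem B := by
  unfold Pt.mem
  rw [x.2.2.2.1 A B, Bool.and_eq_true]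

theorem Pt.mem_sup (x : Pt Λ) {A B : Λ} : x.mem (A ⊔ B) ↔ x.mem A ∨ x.mem B := by
  unfold Pt.mem
  rw [x.2.2.2.2 A B, Bool.or_eq_true]

theorem Pt.mem_of_le (x : Pt Λ) {A B : Λ} (h : x.mem A) (hAB : A ≤ B) : x.mem B := by
  rw [← inf_eq_left.2 hAB, x.mem_inf] at h
  exact h.2

theorem Pt.mem_finset_inf (x : Pt Λ) {I : Type} (s : Finset I) (f : I → Λ) :
    x.mem (s.inf f) ↔ ∀ i ∈ s, x.mem (f i) := by
  classical
  induction s using Finset.induction_on with
  | empty =>
    rw [Finset.inf_empty]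
    exact ⟨fun _ i hi => absurd hi (Finset.notMem_empty i), fun _ => x.mem_top⟩
  | insert a s _ ih => rw [Finset.inf_insert, x.mem_inf, ih, Finset.forall_mem_insert]

theorem Pt.mem_finset_sup (x : Pt Λ) {I : Type} (s : Finset I) (f : I → Λ) :
    x.mem (s.sup f) ↔ ∃ i ∈ s, x.mem (f i) := by
  classical
  induction s using Finset.induction_on with
  | empty =>
    rw [Finset.sup_empty]
    exact ⟨fun h => absurd h x.not_mem_bot,
      fun ⟨i, hi, _⟩ => absurd hi (Finset.notMem_empty i)⟩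
  | insert a s _ ih => rw [Finset.sup_insert, x.mem_sup, ih, Finset.exists_mem_insert]

variable {F V : Type} [Field F] [AddCommGroup V] [Module F V] {W : Λ → Submodule F V}

theorem LatSpace.mono (hW : LatSpace W) {A B : Λ} (h : A ≤ B) : W A ≤ W B := by
  rw [← inf_eq_left.2 h, hW.inf]
  exact inf_le_right

theorem LatSpace.le_iff (hW : LatSpace W) {A B : Λ} : W A ≤ W B ↔ A ≤ B := by
  refine ⟨fun h => ?_, hW.mono⟩
  by_contra hn
  have h1 : A ⊓ B < A := inf_lt_left.2 hn
  have h2 : W (A ⊓ B) = W A := by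
    rw [hW.inf, inf_eq_left.2 h]
  have h3 := hW.index _ _ h1
  rw [h2, AddSubgroup.relIndex_self] at h3
  exact one_ne_zero h3

theorem LatSpace.mem_inf (hW : LatSpace W) {A B : Λ} {v : V} :
    v ∈ W (A ⊓ B) ↔ v ∈ W A ∧ v ∈ W B := by
  rw [hW.inf, Submodule.mem_inf]

theorem LatSpace.exists_add (hW : LatSpace W) {A B : Λ} {v : V} (h : v ∈ W (A ⊔ B)) :
    ∃ a ∈ W A, ∃ b ∈ W B, a + b = v := by
  rw [hW.sup, Submodule.mem_sup] at h
  exact h

private theorem ls_mem_top (hW : LatSpace W) (v : V) : v ∈ W ⊤ := by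
  rw [hW.top]
  exact Submodule.mem_top

theorem LatSpace.mem_finset_inf (hW : LatSpace W) {I : Type} (s : Finset I) (f : I → Λ) {v : V} :
    v ∈ W (s.inf f) ↔ ∀ i ∈ s, v ∈ W (f i) := by
  classical
  induction s using Finset.induction_on with
  | empty =>
    rw [Finset.inf_empty]
    exact ⟨fun _ i hi => absurd hi (Finset.notMem_empty i), fun _ => ls_mem_top hW v⟩
  | insert a s _ ih => rw [Finset.inf_insert, hW.mem_inf, ih, Finset.forall_mem_insert]

theorem LatSpace.mem_bot (hW : LatSpace W) {v : V} : v ∈ W ⊥ ↔ v = 0 := by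
  rw [hW.bot, Submodule.mem_bot]

theorem LatSpace.mem_top (hW : LatSpace W) (v : V) : v ∈ W ⊤ := ls_mem_top hW v

theorem mem_Vm (hW : LatSpace W) {x : Pt Λ} {b : V} :
    b ∈ Vm W x ↔ ∃ A, ¬ x.mem A ∧ b ∈ W A := by
  have hne : Nonempty {A : Λ // ¬ x.mem A} := ⟨⟨⊥, x.not_mem_bot⟩⟩
  have hd : Directed (· ≤ ·) (fun A : {A : Λ // ¬ x.mem A} => W A.1) := by
    rintro ⟨A, hA⟩ ⟨B, hB⟩
    refine ⟨⟨A ⊔ B, ?_⟩, hW.mono le_sup_left, hW.mono le_sup_right⟩
    rw [x.mem_sup]
    exact fun h => h.elim hA hB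
  unfold Vm
  rw [Submodule.mem_iSup_of_directed _ hd]
  constructor
  · rintro ⟨⟨A, hA⟩, hb⟩
    exact ⟨A, hA, hb⟩
  · rintro ⟨A, hA, hb⟩
    exact ⟨⟨A, hA⟩, hb⟩

end

section
variable {F V : Type} [Field F] [AddCommGroup V] [Module F V] {ι κ : Type} [Fintype ι]
  [Fintype κ]

theorem lc_add (μ : ι → F) (v w : ι → V) : lc μ (v + w) = lc μ v + lc μ w := by
  unfold lc
  rw [← Finset.sum_add_distrib]
  exact Finset.sum_congr rfl fun i _ => by rw [Pi.add_apply, smul_add]

theorem lc_sub (μ : ι → F) (v w : ι → V) : lc μ (v - w) = lc μ v - lc μ w := by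
  unfold lc
  rw [← Finset.sum_sub_distrib]
  exact Finset.sum_congr rfl fun i _ => by rw [Pi.sub_apply, smul_sub]

theorem lc_smul (a : F) (μ : ι → F) (v : ι → V) : lc μ (a • v) = a • lc μ v := by
  unfold lc
  rw [Finset.smul_sum]
  exact Finset.sum_congr rfl fun i _ => by rw [Pi.smul_apply, smul_comm]

theorem lc_zero (μ : ι → F) : lc μ (0 : ι → V) = 0 := by
  unfold lc
  exact Finset.sum_eq_zero fun i _ => by rw [Pi.zero_apply, smul_zero]

theorem lc_add_left (μ ν : ι → F) (v : ι → V) : lc (μ + ν) v = lc μ v + lc ν v := by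
  unfold lc
  rw [← Finset.sum_add_distrib]
  exact Finset.sum_congr rfl fun i _ => by rw [Pi.add_apply, add_smul]

theorem lc_sub_left (μ ν : ι → F) (v : ι → V) : lc (μ - ν) v = lc μ v - lc ν v := by
  unfold lc
  rw [← Finset.sum_sub_distrib]
  exact Finset.sum_congr rfl fun i _ => by rw [Pi.sub_apply, sub_smul]

theorem lc_smul_left (a : F) (μ : ι → F) (v : ι → V) : lc (a • μ) v = a • lc μ v := by
  unfold lc
  rw [Finset.smul_sum]
  exact Finset.sum_congr rfl fun i _ => by rw [Pi.smul_apply, smul_eq_mul, mul_smul]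

theorem lc_zero_left (v : ι → V) : lc (0 : ι → F) v = 0 := by
  unfold lc
  exact Finset.sum_eq_zero fun i _ => by rw [Pi.zero_apply, zero_smul]

theorem lc_elim (ν : ι ⊕ κ → F) (v : ι → V) (w : κ → V) :
    lc ν (Sum.elim v w) = lc (fun i => ν (Sum.inl i)) v + lc (fun k => ν (Sum.inr k)) w := by
  unfold lc
  rw [Fintype.sum_sum_type]
  rfl

theorem lc_option (ν : Option ι → F) (y : V) (v : ι → V) :
    lc ν (fun o => o.elim y v) = ν none • y + lc (fun i => ν (some i)) v := by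
  unfold lc
  rw [Fintype.sum_option]
  rfl

theorem lc_single [DecidableEq ι] (i : ι) (a : F) (v : ι → V) :
    lc (Pi.single i a) v = a • v i := by
  unfold lc
  rw [Finset.sum_eq_single i]
  · rw [Pi.single_eq_same]
  · intro j _ hj
    rw [Pi.single_eq_of_ne hj, zero_smul]
  · intro h
    exact absurd (Finset.mem_univ i) h

/-- Composition of linear combinations. -/
theorem lc_comp (μ : κ → F) (ν : κ → ι → F) (v : ι → V) :
    lc μ (fun k => lc (ν k) v) = lc (fun i => ∑ k, μ k * ν k i) v := by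
  unfold lc
  simp only [Finset.smul_sum, Finset.sum_smul, mul_smul]
  exact Finset.sum_comm

/-- Reindexing. -/
theorem lc_reindex (g : ι → κ) (μ : ι → F) :
    ∃ ν : κ → F, ∀ (V : Type) [AddCommGroup V] [Module F V] (v : κ → V),
      lc ν v = lc μ (fun i => v (g i)) := by
  classical
  refine ⟨fun k => ∑ i with g i = k, μ i, fun V _ _ v => ?_⟩
  unfold lc
  rw [← Finset.sum_fiberwise (Finset.univ : Finset ι) g]
  refine Finset.sum_congr rfl fun k _ => ?_
  rw [Finset.sum_smul]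
  refine Finset.sum_congr rfl fun i hi => ?_
  rw [Finset.mem_filter] at hi
  show μ i • v k = μ i • v (g i)
  rw [hi.2]

end

section
variable {X Y : Type} {𝒢 : Set (Set X)} {ℋ : Set (Set Y)}

theorem BoolComb.union {s t : Set X} (hs : BoolComb 𝒢 s) (ht : BoolComb 𝒢 t) :
    BoolComb 𝒢 (s ∪ t) := by
  have h := BoolComb.compl _ (BoolComb.inter _ _ (BoolComb.compl _ hs) (BoolComb.compl _ ht))
  rwa [Set.compl_inter, compl_compl, compl_compl] at h

theorem BoolComb.univ (h : 𝒢.Nonempty) : BoolComb 𝒢 Set.univ := by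
  obtain ⟨s, hs⟩ := h
  have h1 := BoolComb.union (BoolComb.basic s hs) (BoolComb.compl _ (BoolComb.basic s hs))
  rwa [Set.union_compl_self] at h1

theorem BoolComb.empty (h : 𝒢.Nonempty) : BoolComb 𝒢 ∅ := by
  have h1 := BoolComb.compl _ (BoolComb.univ h)
  rwa [Set.compl_univ] at h1

theorem BoolComb.preimage (f : Y → X) (h : ∀ s ∈ 𝒢, BoolComb ℋ (f ⁻¹' s)) {s : Set X}
    (hs : BoolComb 𝒢 s) : BoolComb ℋ (f ⁻¹' s) := by
  induction hs with
  | basic s hs => exact h s hs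
  | compl s _ ih => exact BoolComb.compl _ ih
  | inter s t _ _ ih1 ih2 => exact BoolComb.inter _ _ ih1 ih2

theorem BoolComb.finite {s : Set X} (hs : BoolComb 𝒢 s) :
    ∃ 𝒢' : Finset (Set X), (∀ t ∈ 𝒢', t ∈ 𝒢) ∧
      ∀ x y, (∀ t ∈ 𝒢', x ∈ t ↔ y ∈ t) → (x ∈ s ↔ y ∈ s) := by
  classical
  induction hs with
  | basic s hs =>
    refine ⟨{s}, fun t ht => ?_, fun x y h => h s (Finset.mem_singleton_self s)⟩
    rw [Finset.mem_singleton.1 ht]
    exact hs
  | compl s _ ih =>
    obtain ⟨G, h1, h2⟩ := ih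
    exact ⟨G, h1, fun x y h => not_congr (h2 x y h)⟩
  | inter s t _ _ ih1 ih2 =>
    obtain ⟨G, h1, h2⟩ := ih1
    obtain ⟨H, h3, h4⟩ := ih2
    refine ⟨G ∪ H, fun t ht => ?_, fun x y h => ?_⟩
    · rcases Finset.mem_union.1 ht with ht | ht
      · exact h1 t ht
      · exact h3 t ht
    · exact and_congr (h2 x y fun t ht => h t (Finset.mem_union_left _ ht))
        (h4 x y fun t ht => h t (Finset.mem_union_right _ ht))

end

section
variable {F Λ V : Type} [Field F] [AddCommGroup V] [Module F V] {ι κ : Type} [Fintype ι]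
  [Fintype κ]

private theorem bf_boolComb {W : Λ → Submodule F V} (χ : BF F Λ ι) :
    BoolComb (basics W ι) {v | χ.Real W v} := by
  induction χ with
  | basic μ A => exact BoolComb.basic _ ⟨μ, A, rfl⟩
  | neg χ ih => exact BoolComb.compl _ ih
  | and χ ψ ih1 ih2 => exact BoolComb.inter _ _ ih1 ih2

theorem boolComb_iff_bf {W : Λ → Submodule F V} {s : Set (ι → V)} :
    BoolComb (basics W ι) s ↔ ∃ χ : BF F Λ ι, ∀ v, v ∈ s ↔ χ.Real W v := by
  constructor
  · intro h
    induction h with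
    | basic s hs =>
      obtain ⟨μ, A, rfl⟩ := hs
      exact ⟨.basic μ A, fun v => Iff.rfl⟩
    | compl s _ ih =>
      obtain ⟨χ, h⟩ := ih
      exact ⟨.neg χ, fun v => not_congr (h v)⟩
    | inter s t _ _ ih1 ih2 =>
      obtain ⟨χ, h1⟩ := ih1
      obtain ⟨ψ, h2⟩ := ih2
      exact ⟨.and χ ψ, fun v => and_congr (h1 v) (h2 v)⟩
  · rintro ⟨χ, h⟩
    have e : s = {v | χ.Real W v} := Set.ext h
    rw [e]
    exact bf_boolComb χ

theorem BF.comap (g : ι → κ) (χ : BF F Λ ι) :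
    ∃ χ' : BF F Λ κ, ∀ (V : Type) [AddCommGroup V] [Module F V] (W : Λ → Submodule F V)
      (v : κ → V), χ'.Real W v ↔ χ.Real W (fun i => v (g i)) := by
  induction χ with
  | basic μ A =>
    obtain ⟨ν, hν⟩ := lc_reindex g μ
    refine ⟨.basic ν A, fun V _ _ W v => ?_⟩
    show lc ν v ∈ W A ↔ lc μ (fun i => v (g i)) ∈ W A
    rw [hν V v]
  | neg χ ih =>
    obtain ⟨χ', h⟩ := ih
    exact ⟨.neg χ', fun V _ _ W v => not_congr (h V W v)⟩
  | and χ ψ ih1 ih2 =>
    obtain ⟨χ', h1⟩ := ih1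
    obtain ⟨ψ', h2⟩ := ih2
    exact ⟨.and χ' ψ', fun V _ _ W v => and_congr (h1 V W v) (h2 V W v)⟩

end

end TAU
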