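import Pool.Agent.TAU.Good

/-! Project TAU, module TAU-MinIso: if `A` has a finite set `T` of dominating proper parts then the
minimal points of `hat A` are isolated: `{x} = hat A \ hat (D ⊔ E)`, where `D ≤ A` separates `x` from the other
minimal points of `hat A` and `E` is the supremum of the members of `T` which are not in `x`. -/

namespace TAU

variable {Λ : Type} [DistribLattice Λ] [BoundedOrder Λ]

private theorem mi_sep {x y : Pt Λ} (h : ¬ y ≤ x) : ∃ D, y.mem D ∧ ¬ x.mem D := by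
  by_contra h1
  push Not at h1
  exact h h1

theorem min_isolated (hS : SpecFin Λ) (A : Λ) (T : Finset Λ) (hT : ∀ C ∈ T, C < A)
    (hd : ∀ B, B < A → ∃ C ∈ T, B ≤ C) {x : Pt Λ} (hx : x ∈ Mn (hat A)) :
    IsOpen ({x} : Set (Pt Λ)) := by
  classical
  have hfin := hS.min_fin (hat A) (isClopen_hat A).1 (isUpperSet_hat A)
  have hex : ∀ y : Pt Λ, ∃ D : Λ, y ∈ Mn (hat A) → y ≠ x → y.mem D ∧ ¬ x.mem D := by
    intro y
    by_cases hy : y ∈ Mn (hat A) ∧ y ≠ x
    · have h1 : ¬ y ≤ x := fun h2 => hy.2 (hx.2 y hy.1.1 h2)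
      obtain ⟨D, h2, h3⟩ := mi_sep h1
      exact ⟨D, fun _ _ => ⟨h2, h3⟩⟩
    · exact ⟨⊥, fun h1 h2 => absurd ⟨h1, h2⟩ hy⟩
  choose D0 hD0 using hex
  set D : Λ := (hfin.toFinset.erase x).sup fun y => D0 y ⊓ A with hD
  have hxD : ¬ x.mem D := by
    rw [hD, Pt.mem_finset_sup]
    rintro ⟨y, hy, h1⟩
    rw [Finset.mem_erase, Set.Finite.mem_toFinset] at hy
    exact (hD0 y hy.2 hy.1).2 (x.mem_inf.1 h1).1
  have hyD : ∀ y ∈ Mn (hat A), y ≠ x → y.mem D := by
    intro y hy hyx
    rw [hD, Pt.mem_finset_sup]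
    refine ⟨y, ?_, y.mem_inf.2 ⟨(hD0 y hy hyx).1, hy.1⟩⟩
    rw [Finset.mem_erase, Set.Finite.mem_toFinset]
    exact ⟨hyx, hy⟩
  have hDA : D ≤ A := Finset.sup_le fun y _ => inf_le_right
  set E : Λ := (T.filter fun C => ¬ x.mem C).sup id with hE
  have hxE : ¬ x.mem E := by
    rw [hE, Pt.mem_finset_sup]
    rintro ⟨C, hC, h1⟩
    exact (Finset.mem_filter.1 hC).2 h1
  have key : ({x} : Set (Pt Λ)) = hat A \ hat (D ⊔ E) := by
    ext z
    rw [Set.mem_singleton_iff, Set.mem_sdiff]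
    constructor
    · rintro rfl
      refine ⟨hx.1, fun h1 => ?_⟩
      rcases z.mem_sup.1 h1 with h2 | h2
      · exact hxD h2
      · exact hxE h2
    · rintro ⟨hzA, hzDE⟩
      by_contra hzx
      have hzD : ¬ z.mem D := fun h1 => hzDE (z.mem_sup.2 (Or.inl h1))
      have hzE : ¬ z.mem E := fun h1 => hzDE (z.mem_sup.2 (Or.inr h1))
      obtain ⟨m, hm, hmz⟩ := exists_min (isClopen_hat A).1 hzA
      by_cases hmx : m = x
      · subst hmx
        have h1 : ¬ z ≤ m := fun h2 => hzx (le_antisymm h2 hmz)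
        obtain ⟨B, hzB, hmB⟩ := mi_sep h1
        have hB' : B ⊓ A ⊔ D < A := by
          refine lt_of_le_of_ne (sup_le inf_le_right hDA) fun h2 => ?_
          have h3 : m.mem (B ⊓ A ⊔ D) := by rw [h2]; exact hx.1
          rcases m.mem_sup.1 h3 with h4 | h4
          · exact hmB (m.mem_inf.1 h4).1
          · exact hxD h4
        obtain ⟨C, hC, hBC⟩ := hd _ hB'
        have hzC : z.mem C := z.mem_of_le (z.mem_sup.2 (Or.inl (z.mem_inf.2 ⟨hzB, hzA⟩))) hBC
        have hmC : ¬ m.mem C := by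
          intro h2
          have h3 : hat A ⊆ hat C := by
            intro w hw
            obtain ⟨m', hm', hmw⟩ := exists_min (isClopen_hat A).1 hw
            by_cases h4 : m' = m
            · subst h4
              exact hmw C h2
            · exact hmw C (m'.mem_of_le (m'.mem_sup.2 (Or.inr (hyD m' hm' h4))) hBC)
          exact absurd (hat_subset_iff.1 h3) (not_le_of_gt (hT C hC))
        apply hzE
        rw [hE, Pt.mem_finset_sup]
        exact ⟨C, Finset.mem_filter.2 ⟨hC, hmC⟩, hzC⟩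
      · exact hzD (hmz D (hyD m hm hmx))
  rw [key]
  exact (isClopen_hat A).2.sdiff (isClopen_hat _).1

end TAU
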