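import Pool.Agent.TAU.AlgB
import Pool.Agent.TAU.MinIso

/-! Project TAU, module TAU-IsoN: the negative part of the isolation argument.

`Z` is the closed upper set of the filter of the `A` over which `b` is algebraic; `𝓒` consists of one `C_m ∉ m` with
`Z \ {m} ⊆ hat C_m` for every isolated minimal point `m` of `Z`. -/

namespace TAU

variable {F Λ V : Type} [Field F] [DistribLattice Λ] [BoundedOrder Λ] [AddCommGroup V]
  [Module F V] {W : Λ → Submodule F V}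

private theorem in_C {Z : Set (Pt Λ)} (hc : IsClosed Z) (hu : IsUpperSet Z) (m : Pt Λ) :
    ∃ C, m ∈ Mn Z ∧ IsOpen ({m} : Set (Pt Λ)) → (∀ z ∈ Z, z ≠ m → z.mem C) ∧ ¬ m.mem C := by
  by_cases h : m ∈ Mn Z ∧ IsOpen ({m} : Set (Pt Λ))
  · have h1 : IsClosed (Z \ {m}) := by
      rw [Set.sdiff_eq]
      exact hc.inter h.2.isClosed_compl
    have h2 : IsUpperSet (Z \ {m}) := by
      rintro z z' hzz ⟨hz, hz'⟩
      refine ⟨hu hzz hz, fun he => hz' ?_⟩
      have he' : z' = m := he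
      rw [he'] at hzz
      exact h.1.2 z hz hzz
    obtain ⟨C, hC1, hC2⟩ := exists_hat_of_notMem h1 h2 (x := m) (fun hm => hm.2 rfl)
    exact ⟨C, fun _ => ⟨fun z hz hzm => hC1 ⟨hz, hzm⟩, hC2⟩⟩
  · exact ⟨⊥, fun h' => absurd h' h⟩

theorem iso_neg (hW : LatSpace W) (𝒟 : DSys V) (hl : 𝒟.Lin W) (hS : SpecFin Λ) (hA : Atom1 W)
    (b : V) :
    ∃ 𝓒 : Finset Λ, (∀ C ∈ 𝓒, ¬ AlgMem 𝒟 W C b) ∧
      ∀ b' : V, (∀ C ∈ 𝓒, ¬ AlgMem 𝒟 W C b') → (∀ A, AlgMem 𝒟 W A b → b' - b ∈ W A) →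
        ∀ A, AlgMem 𝒟 W A b' → b' - b ∈ W A := by
  classical
  have hc := isClosed_Zf {A | AlgMem 𝒟 W A b}
  have hu := isUpperSet_Zf {A | AlgMem 𝒟 W A b}
  have hfin := hS.min_fin _ hc hu
  choose C hC using fun m => in_C hc hu m
  refine ⟨(hfin.toFinset.filter (fun m => IsOpen ({m} : Set (Pt Λ)))).image C, ?_, ?_⟩
  · intro E hE hal
    obtain ⟨m, hm, rfl⟩ := Finset.mem_image.1 hE
    obtain ⟨hm1, hm2⟩ := Finset.mem_filter.1 hm
    rw [Set.Finite.mem_toFinset] at hm1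
    exact (hC m ⟨hm1, hm2⟩).2 (hm1.1 _ hal)
  · intro b' hb' hδ A hAb'
    have hsub : ∀ A0, AlgMem 𝒟 W A0 b → AlgMem 𝒟 W A0 b' := by
      intro A0 h
      have h1 := AlgMem.add hW 𝒟 hl h (AlgMem.of_mem hW 𝒟 hl (hδ A0 h))
      rwa [add_sub_cancel] at h1
    obtain ⟨G, ⟨hG1, hG2⟩, T, hT1, hT2⟩ := hA (b' - b)
    have hGZ : hat G ⊆ Zf {A | AlgMem 𝒟 W A b} := fun x hx A0 h0 =>
      x.mem_of_le hx (hG2 A0 (hδ A0 h0))
    have claim : ∀ m ∈ Mn (Zf {A | AlgMem 𝒟 W A b}), m ∈ Zf {A | AlgMem 𝒟 W A b'} := by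
      intro m hm
      by_contra hn
      have hex : ∃ A', AlgMem 𝒟 W A' b' ∧ ¬ m.mem A' := by
        by_contra h
        push Not at h
        exact hn fun A' h' => h A' h'
      obtain ⟨A', hA', hmA'⟩ := hex
      by_cases ho : IsOpen ({m} : Set (Pt Λ))
      · refine hb' (C m) (Finset.mem_image_of_mem C (Finset.mem_filter.2
          ⟨hfin.mem_toFinset.2 hm, ho⟩)) ?_
        have h1 : Zf {A | AlgMem 𝒟 W A b'} ⊆ hat (C m) := by
          intro z hz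
          refine (hC m ⟨hm, ho⟩).1 z (fun A0 h0 => hz A0 (hsub A0 h0)) fun he => ?_
          rw [he] at hz
          exact hn hz
        exact (mem_iff_Zf_subset (alg_fil hW 𝒟 hl b')).2 h1
      · have hmG : ¬ m.mem G := fun h => ho (min_isolated hS G T hT1 hT2
          ⟨h, fun z hz hzm => hm.2 z (hGZ hz) hzm⟩)
        have h1 : AlgMem 𝒟 W (A' ⊔ G) b := by
          have h2 := AlgMem.sub hW 𝒟 hl (AlgMem.mono hW 𝒟 hl (le_sup_left (b := G)) hA')
            (AlgMem.of_mem hW 𝒟 hl (hW.mono (le_sup_right (a := A')) hG1))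
          rwa [sub_sub_cancel] at h2
        rcases m.mem_sup.1 (hm.1 _ h1) with h2 | h2
        · exact hmA' h2
        · exact hmG h2
    have hZ : Zf {A | AlgMem 𝒟 W A b} ⊆ Zf {A | AlgMem 𝒟 W A b'} := by
      intro x hx
      obtain ⟨m, hm, hmx⟩ := exists_min hc hx
      exact isUpperSet_Zf _ hmx (claim m hm)
    have h1 : hat G ⊆ hat A := fun x hx => hZ (hGZ hx) A hAb'
    exact hW.mono (hat_subset_iff.1 h1) hG1

end TAU
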