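import Pool.Agent.TAU.LimA
import Pool.Agent.TAU.AlgB

/-! Project TAU, module TAU-IsoP: the positive part of the isolation argument.

Data: for every point `x` a clopen neighbourhood `N x` as in `SpecFin.nbhd`, and
`Lo N x = {z ∈ N x | z ≤ x, z ≠ x}`.  The tuple `a` contains representatives: if `x` is not
isolated and `Lo N x` is infinite then every `b` which is algebraic near `x` along `Lo N x` is
congruent to some `a i` modulo `Vm W x`.

PROOF of `iso_pos`.  Let `b : V`, `𝔉 = {A | AlgMem 𝒟 W A b}` (a filter, `alg_fil`), `Z = Zf 𝔉`, a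
closed upper set.  Let `X0` be the finite set of the non-isolated points `x ∈ Z` which are not
in the interior of `Z` (`SpecFin.lim_fin`).
For `x ∈ X0`: every `z ∈ N x` with `x ≤ z` is in `Z`.  If the set `N x \ Z` were finite then it would
be a finite set of isolated points (`x ∈ Z`), hence closed, and `N x \ (N x \ Z)` would be
an open neighbourhood of `x` contained in `Z`: contradiction.  So `N x \ Z` is infinite, it is
contained in `Lo N x`, and `Lo N x` is infinite.  If some `z ∈ Lo N x` were in `Z`: `z` is principal,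
so `{w | z ≤ w} = hat A` is open (`princ_hat`), contains `x`, and is contained in `Z`:
contradiction.  So for every `z ∈ Lo N x`, `z ∉ Z = Zf 𝔉`, i.e. there is `A ∈ 𝔉`, `A ∉ z`.  By `ha`
there is `i` with `b - a i ∈ Vm W x`, so `b - a i ∈ W (A_x)` with `A_x ∉ x`, `i = i_x`.
Let `J` be the finset of the pairs `(i_x, A_x)`, `x ∈ X0`.  Let
`O = interior Z ∪ ⋃ x ∈ X0, (N x ∩ (hat A_x)ᶜ)`, an open set.  `Z ⊆ O`: a point of `Z` is isolated (then
in the interior of `Z`), or in the interior of `Z`, or in `X0` (and `x ∈ N x`, `x ∉ hat A_x`).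
By `exists_hat_subset` there is `A0 ∈ 𝔉` with `hat A0 ⊆ O`.
Let `b'` satisfy `b' - a i ∈ W A'` for `(i, A') ∈ J` and `b' - b ∈ W A0`, and let `A ∈ 𝔉`.  Put
`δ = b' - b`.  `δ ∈ W A_x` for `x ∈ X0` (`δ = (b' - a i) - (b - a i)`).  So `δ ∈ W E` with
`E = A0 ⊓ inf A_x`.  Claim `E ≤ A`: let `z ∈ hat E`; `z ∈ hat A0 ⊆ O`; `z` is not in
`(hat A_x)ᶜ`, as `A_x ∈ z`; so `z ∈ interior Z ⊆ Z` and `A ∈ z`.  Hence `δ ∈ W E ≤ W A`. -/

namespace TAU

/-- The points of `N x` strictly below `x`. -/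
def Lo {Λ : Type} [DistribLattice Λ] [BoundedOrder Λ] (N : Pt Λ → Set (Pt Λ)) (x : Pt Λ) :
    Set (Pt Λ) := {z | z ∈ N x ∧ z ≤ x ∧ z ≠ x}

variable {F Λ V : Type} [Field F] [DistribLattice Λ] [BoundedOrder Λ] [AddCommGroup V]
  [Module F V] {W : Λ → Submodule F V}

theorem iso_pos (hW : LatSpace W) (𝒟 : DSys V) (hl : 𝒟.Lin W) (hS : SpecFin Λ)
    (N : Pt Λ → Set (Pt Λ)) (hN : ∀ x, IsClopen (N x) ∧ x ∈ N x ∧ ∀ z ∈ N x, z ≠ x →
      IsOpen ({z} : Set (Pt Λ)) ∧ ((z ≤ x ∧ z.Princ) ∨ x ≤ z))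
    {k : ℕ} (a : Fin k → V)
    (ha : ∀ x : Pt Λ, ¬ IsOpen ({x} : Set (Pt Λ)) → (Lo N x).Infinite → ∀ b : V,
      (∀ z ∈ Lo N x, ∃ A, ¬ z.mem A ∧ AlgMem 𝒟 W A b) → ∃ i, b - a i ∈ Vm W x)
    (b : V) :
    ∃ (A0 : Λ) (J : Finset (Fin k × Λ)), AlgMem 𝒟 W A0 b ∧ (∀ j ∈ J, b - a j.1 ∈ W j.2) ∧
      ∀ b' : V, (∀ j ∈ J, b' - a j.1 ∈ W j.2) → b' - b ∈ W A0 →
        ∀ A, AlgMem 𝒟 W A b → b' - b ∈ W A := by
  classical
  have hF : IsFil {A | AlgMem 𝒟 W A b} := alg_fil hW 𝒟 hl b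
  generalize h𝔉 : {A | AlgMem 𝒟 W A b} = 𝔉 at hF
  have hmemF : ∀ A, A ∈ 𝔉 ↔ AlgMem 𝒟 W A b := fun A => by rw [← h𝔉]; rfl
  let X0 : Set (Pt Λ) := {x | ¬ IsOpen ({x} : Set (Pt Λ)) ∧ x ∈ Zf 𝔉 ∧ x ∉ interior (Zf 𝔉)}
  have hX0 : X0.Finite := hS.lim_fin.subset fun x hx => hx.1
  have hfin : Fintype X0 := hX0.fintype
  have key : ∀ x : X0, ∃ (i : Fin k) (A : Λ), ¬ x.1.mem A ∧ b - a i ∈ W A := by
    rintro ⟨x, hxo, hxZ, hxi⟩
    obtain ⟨hNc, hNx, hNz⟩ := hN x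
    have h1 : (N x \ Zf 𝔉).Infinite := by
      intro hf
      apply hxi
      refine mem_interior.2 ⟨N x \ (N x \ Zf 𝔉), ?_, hNc.2.sdiff hf.isClosed, hNx, fun h => h.2 hxZ⟩
      rintro z ⟨hz1, hz2⟩
      by_contra hz3
      exact hz2 ⟨hz1, hz3⟩
    have h2 : (Lo N x).Infinite := by
      refine h1.mono ?_
      rintro z ⟨hz1, hz2⟩
      have hne : z ≠ x := fun h => hz2 (h ▸ hxZ)
      refine ⟨hz1, ?_, hne⟩
      rcases (hNz z hz1 hne).2 with h | h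
      · exact h.1
      · exact absurd (isUpperSet_Zf 𝔉 h hxZ) hz2
    obtain ⟨i, hi⟩ := ha x hxo h2 b (by
      rintro z ⟨hz1, hz2, hz3⟩
      have hnZ : z ∉ Zf 𝔉 := by
        intro hzZ
        have hP : z.Princ := by
          rcases (hNz z hz1 hz3).2 with h | h
          · exact h.2
          · exact absurd (le_antisymm hz2 h) hz3
        obtain ⟨A, hA, hA'⟩ := princ_hat hP
        apply hxi
        refine mem_interior.2 ⟨hat A, fun w hw => isUpperSet_Zf 𝔉 ((hA' w).1 hw) hzZ,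
          (isClopen_hat A).2, hz2 A hA⟩
      by_contra hcon
      push Not at hcon
      apply hnZ
      intro A hA
      by_contra hzA
      exact hcon A hzA ((hmemF A).1 hA))
    obtain ⟨A, hA, hA'⟩ := (mem_Vm hW).1 hi
    exact ⟨i, A, hA, hA'⟩
  choose ix Ax hAx hbx using key
  let O : Set (Pt Λ) := interior (Zf 𝔉) ∪ ⋃ x : X0, N x.1 ∩ (hat (Ax x))ᶜ
  have hO : IsOpen O := isOpen_interior.union (isOpen_iUnion fun x =>
    (hN x.1).1.2.inter (isClopen_hat (Ax x)).1.isOpen_compl)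
  have hZO : Zf 𝔉 ⊆ O := by
    intro z hz
    by_cases h1 : z ∈ interior (Zf 𝔉)
    · exact Or.inl h1
    · have h2 : ¬ IsOpen ({z} : Set (Pt Λ)) := by
        intro h3
        apply h1
        exact mem_interior.2 ⟨{z}, Set.singleton_subset_iff.2 hz, h3, rfl⟩
      refine Or.inr (Set.mem_iUnion.2 ⟨⟨z, h2, hz, h1⟩, (hN z).2.1, ?_⟩)
      exact hAx ⟨z, h2, hz, h1⟩
  obtain ⟨A0, hA0, hA0O⟩ := exists_hat_subset hF hO hZO
  refine ⟨A0, Finset.univ.image fun x : X0 => (ix x, Ax x), (hmemF A0).1 hA0, ?_, ?_⟩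
  · intro j hj
    obtain ⟨x, _, rfl⟩ := Finset.mem_image.1 hj
    exact hbx x
  · intro b' hb' hδ A hA
    have hE : b' - b ∈ W (A0 ⊓ Finset.univ.inf Ax) := by
      rw [hW.mem_inf, hW.mem_finset_inf]
      refine ⟨hδ, fun x _ => ?_⟩
      have h1 := hb' (ix x, Ax x) (Finset.mem_image.2 ⟨x, Finset.mem_univ x, rfl⟩)
      have h2 := Submodule.sub_mem _ h1 (hbx x)
      rwa [sub_sub_sub_cancel_right] at h2
    refine hW.mono ?_ hE
    rw [← hat_subset_iff]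
    intro z hz
    have hz' : z.mem (A0 ⊓ Finset.univ.inf Ax) := hz
    rw [Pt.mem_inf, Pt.mem_finset_inf] at hz'
    rcases hA0O hz'.1 with h1 | h1
    · exact interior_subset h1 A ((hmemF A).2 hA)
    · obtain ⟨x, _, hx2⟩ := Set.mem_iUnion.1 h1
      exact absurd (hz'.2 x (Finset.mem_univ x)) hx2

end TAU
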