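import Pool.Agent.TAU.LemA
import Pool.Agent.TAU.AlgB

/-! Project TAU, module TAU-LemT: two tuples with the same algebraic cosets have the same type.

PROOF of `type_eq`.  Let `s` be definable, `d ∈ s`; show `d' ∈ s`.  By `Tame` and
`BoolComb.finite` there are finitely many basic cosets `lc μ_j v - r_j ∈ W A_j` (`j` in a finite
index type `J`) which determine membership in `s`.  Let `G_j ≤ ι → V` be the additive subgroup
`{v | lc μ_j v ∈ W A_j}`; if the basic coset is nonempty it is `v_j + G_j` for some `v_j`; if it is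
empty drop it.  Let `𝒮` be the set of all finite intersections of the `G_j` (image of the powerset
of `J` under `T ↦ ⨅ j ∈ T, G_j`), `Df = 𝒟.Def`.  `CovSys`: `inf`, `top` clear; `cov`: the set
`{y | ∃ h : Fin N → ι → V, ∀ w ∈ D, w - y ∈ G → ∃ i, w - h i ∈ H i}` is definable: quantify over
`Fin N × ι → V` and `ι → V` (`DSys.ex`, `DSys.all`), membership of `w - y` in `G`, an intersection
of finitely many `G_j`, is a conjunction of basic conditions (`lc μ_j (w - y)`, reindexed,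
`lc_elim`), `DSys.fin_all`, `fin_ex`.
Apply `abs_type`.  `h1`: let `G = ⨅ j ∈ T, G_j` and `AlgC 𝒟.Def G d` with witness `E` and finite
set `R`.  For `j ∈ T`: `AlgMem 𝒟 W (A_j) (lc μ_j d)`: take
`s' = {x | ∃ y ∈ E, x - lc μ_j y ∈ W A_j}`; it is definable, contains `lc μ_j d`, is closed under
`+ W A_j` and is covered by the cosets of the `lc μ_j r`, `r ∈ R` (`y - r ∈ G ≤ G_j`).  So by `h1'`
`lc μ_j d' - lc μ_j d ∈ W A_j`, that is `d' - d ∈ G_j` (`lc_sub`).  Same for `h2`. -/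

namespace TAU

section
variable {F Λ V : Type} [Field F] [AddCommGroup V] [Module F V]

/-- the subgroup of a basic condition -/
private def gs (W : Λ → Submodule F V) {ι : Type} [Fintype ι] (μ : ι → F) (A : Λ) :
    AddSubgroup (ι → V) where
  carrier := {v | lc μ v ∈ W A}
  add_mem' := by
    intro a b ha hb
    show lc μ (a + b) ∈ W A
    rw [lc_add]
    exact (W A).add_mem ha hb
  zero_mem' := by
    show lc μ (0 : ι → V) ∈ W A
    rw [lc_zero]
    exact (W A).zero_mem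
  neg_mem' := by
    intro a ha
    show lc μ (-a) ∈ W A
    have h1 : lc μ (-a) = lc μ (0 : ι → V) - lc μ a := by
      rw [← lc_sub, zero_sub]
    rw [h1, lc_zero, zero_sub]
    exact (W A).neg_mem ha

private theorem mem_gs {W : Λ → Submodule F V} {ι : Type} [Fintype ι] {μ : ι → F} {A : Λ}
    {v : ι → V} : v ∈ gs W μ A ↔ lc μ v ∈ W A := Iff.rfl

private theorem mem_inf_gs {W : Λ → Submodule F V} {ι J : Type} [Fintype ι] {μ : J → ι → F}
    {A : J → Λ} (T : Finset J) {v : ι → V} :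
    v ∈ (⨅ j ∈ T, gs W (μ j) (A j)) ↔ ∀ j ∈ T, lc (μ j) v ∈ W (A j) := by
  simp only [AddSubgroup.mem_iInf, mem_gs]

end

variable {F Λ V : Type} [Field F] [DistribLattice Λ] [BoundedOrder Λ] [AddCommGroup V]
  [Module F V] {W : Λ → Submodule F V} (hW : LatSpace W) (𝒟 : DSys V) (hl : 𝒟.Lin W)

include hl in
private theorem def_sub {ι κ J : Type} [Fintype ι] [Fintype κ] [Finite J] (μ : J → ι → F)
    (A : J → Λ) (T : Finset J) (a b : ι → κ) :
    𝒟.Def {u : κ → V | ((fun i => u (a i)) - fun i => u (b i)) ∈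
      (⨅ j ∈ T, gs W (μ j) (A j))} := by
  classical
  have h1 : ∀ j : J, 𝒟.Def {u : κ → V | lc (μ j) ((fun i => u (a i)) - fun i => u (b i)) ∈
      W (A j)} := by
    intro j
    obtain ⟨ν, hν⟩ := lc_reindex a (μ j)
    obtain ⟨ν', hν'⟩ := lc_reindex b (μ j)
    have h2 := hl (ν - ν') (A j)
    have h3 : {u : κ → V | lc (ν - ν') u ∈ W (A j)} =
        {u : κ → V | lc (μ j) ((fun i => u (a i)) - fun i => u (b i)) ∈ W (A j)} := by
      ext u
      simp only [Set.mem_ofPred_eq]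
      rw [lc_sub_left, lc_sub, hν V u, hν' V u]
    rwa [h3] at h2
  have hne := 𝒟.ne_of_lin hl (ι := κ)
  have h4 := 𝒟.fin_all hne (fun j : J => if j ∈ T then
      {u : κ → V | lc (μ j) ((fun i => u (a i)) - fun i => u (b i)) ∈ W (A j)} else Set.univ)
      (by
        intro j
        by_cases hj : j ∈ T
        · rw [if_pos hj]
          exact h1 j
        · rw [if_neg hj]
          exact 𝒟.univ hne)
  have h5 : {u : κ → V | ∀ j, u ∈ (if j ∈ T then
      {u : κ → V | lc (μ j) ((fun i => u (a i)) - fun i => u (b i)) ∈ W (A j)} else Set.univ)} =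
      {u : κ → V | ((fun i => u (a i)) - fun i => u (b i)) ∈ (⨅ j ∈ T, gs W (μ j) (A j))} := by
    ext u
    simp only [Set.mem_ofPred_eq, mem_inf_gs]
    constructor
    · intro h j hj
      have := h j
      rw [if_pos hj] at this
      exact this
    · intro h j
      by_cases hj : j ∈ T
      · rw [if_pos hj]
        exact h j hj
      · rw [if_neg hj]
        exact Set.mem_univ u
  rwa [h5] at h4

include hl in
private theorem def_cov {ι J : Type} [Fintype ι] [Finite J] (μ : J → ι → F)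
    (A : J → Λ) (D : Set (ι → V)) (hD : 𝒟.Def D) (T : Finset J) (N : ℕ)
    (TT : Fin N → Finset J) :
    𝒟.Def {y : ι → V | ∃ h : Fin N → ι → V, ∀ w ∈ D,
      w - y ∈ (⨅ j ∈ T, gs W (μ j) (A j)) → ∃ i, w - h i ∈ (⨅ j ∈ TT i, gs W (μ j) (A j))} := by
  have hne := 𝒟.ne_of_lin hl (ι := (ι ⊕ (Fin N × ι)) ⊕ ι)
  have h1 : 𝒟.Def {u : (ι ⊕ (Fin N × ι)) ⊕ ι → V | (fun i => u (Sum.inr i)) ∈ D} :=
    𝒟.comap (fun i : ι => (Sum.inr i : (ι ⊕ (Fin N × ι)) ⊕ ι)) hD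
  have h2 := def_sub (W := W) 𝒟 hl μ A T (fun i : ι => (Sum.inr i : (ι ⊕ (Fin N × ι)) ⊕ ι))
    (fun i : ι => (Sum.inl (Sum.inl i) : (ι ⊕ (Fin N × ι)) ⊕ ι))
  have h3 := 𝒟.fin_ex hne _ (fun n : Fin N => def_sub (W := W) 𝒟 hl μ A (TT n)
    (fun i : ι => (Sum.inr i : (ι ⊕ (Fin N × ι)) ⊕ ι))
    (fun i : ι => (Sum.inl (Sum.inr (n, i)) : (ι ⊕ (Fin N × ι)) ⊕ ι)))
  have h4 := 𝒟.union (𝒟.compl (𝒟.inter h1 h2)) h3
  have h5 := 𝒟.ex (𝒟.all h4)
  have h6 : ∀ {S S' : Set (ι → V)}, S = S' → 𝒟.Def S → 𝒟.Def S' := by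
    rintro S _ rfl h
    exact h
  refine h6 ?_ h5
  ext y
  simp only [Set.mem_ofPred_eq, Set.mem_union, Set.mem_compl_iff, Set.mem_inter_iff]
  constructor
  · rintro ⟨h', hh⟩
    refine ⟨fun n i => h' (n, i), fun w hw hwy => ?_⟩
    rcases hh w with h | h
    · exact absurd ⟨hw, hwy⟩ h
    · exact h
  · rintro ⟨h, hh⟩
    refine ⟨fun p => h p.1 p.2, fun w => ?_⟩
    by_cases hc : w ∈ D ∧ w - y ∈ (⨅ j ∈ T, gs W (μ j) (A j))
    · exact Or.inr (hh w hc.1 hc.2)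
    · exact Or.inl hc

omit [DistribLattice Λ] [BoundedOrder Λ] in
include hl in
private theorem alg_of_algC {ι J : Type} [Fintype ι] (μ : J → ι → F)
    (A : J → Λ) (T : Finset J) (d : ι → V)
    (hd : AlgC (fun s : Set (ι → V) => 𝒟.Def s) (⨅ j ∈ T, gs W (μ j) (A j)) d) (j : J)
    (hj : j ∈ T) : AlgMem 𝒟 W (A j) (lc (μ j) d) := by
  classical
  obtain ⟨E, hE, hdE, -, R, hR⟩ := hd
  refine ⟨{x | ∃ y ∈ E, x - lc (μ j) y ∈ W (A j)}, ?_, ⟨d, hdE, ?_⟩, ?_, R.image (lc (μ j)), ?_⟩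
  · have h1 : 𝒟.Def {u : Unit ⊕ ι → V | (fun i => u (Sum.inr i)) ∈ E} :=
      𝒟.comap (fun i : ι => (Sum.inr i : Unit ⊕ ι)) hE
    have h2 := hl (Sum.elim (fun _ : Unit => (1 : F)) (fun i => - μ j i)) (A j)
    have h3 := 𝒟.ex (𝒟.inter h1 h2)
    have h6 : ∀ {S S' : Set (Unit → V)}, S = S' → 𝒟.Def S → 𝒟.Def S' := by
      rintro S _ rfl h
      exact h
    refine h6 ?_ h3
    ext v
    simp only [Set.mem_ofPred_eq, Set.mem_inter_iff]
    refine exists_congr fun y => and_congr Iff.rfl ?_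
    have h7 : lc (Sum.elim (fun _ : Unit => (1 : F)) (fun i => - μ j i)) (Sum.elim v y) =
        v () - lc (μ j) y := by
      rw [lc_elim]
      unfold lc
      simp [sub_eq_add_neg]
    rw [h7]
  · rw [sub_self]
    exact (W (A j)).zero_mem
  · rintro x ⟨y, hy, hxy⟩ w hw
    refine ⟨y, hy, ?_⟩
    have h1 : x + w - lc (μ j) y = (x - lc (μ j) y) + w := by abel
    rw [h1]
    exact (W (A j)).add_mem hxy hw
  · rintro x ⟨y, hy, hxy⟩
    obtain ⟨t, ht, hyt⟩ := hR y hy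
    refine ⟨lc (μ j) t, Finset.mem_image_of_mem _ ht, ?_⟩
    have h1 : lc (μ j) (y - t) ∈ W (A j) := (mem_inf_gs T).1 hyt j hj
    rw [lc_sub] at h1
    have h2 : x - lc (μ j) t = (x - lc (μ j) y) + (lc (μ j) y - lc (μ j) t) := by abel
    rw [h2]
    exact (W (A j)).add_mem hxy h1

include hW hl

theorem type_eq (ht : 𝒟.Tame W) {ι : Type} [Fintype ι] (d d' : ι → V)
    (h1 : ∀ (μ : ι → F) (A : Λ), AlgMem 𝒟 W A (lc μ d) → lc μ d' - lc μ d ∈ W A)
    (h2 : ∀ (μ : ι → F) (A : Λ), AlgMem 𝒟 W A (lc μ d') → lc μ d' - lc μ d ∈ W A)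
    {s : Set (ι → V)} (hs : 𝒟.Def s) (hd : d ∈ s) : d' ∈ s := by
  classical
  obtain ⟨𝒢, h𝒢, hfin⟩ := (ht s hs).finite
  have hc : ∀ t : {t // t ∈ 𝒢}, ∃ (μ : ι → F) (A : Λ) (r : V),
      (t : Set (ι → V)) = {v | lc μ v - r ∈ W A} := fun t => h𝒢 t.1 t.2
  choose μ A r he using hc
  obtain ⟨G, hG⟩ : ∃ G : Finset {t // t ∈ 𝒢} → AddSubgroup (ι → V),
      ∀ T, G T = ⨅ j ∈ T, gs W (μ j) (A j) := ⟨_, fun _ => rfl⟩
  let 𝒮 : Finset (AddSubgroup (ι → V)) := Finset.univ.image G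
  have hmem : ∀ H, H ∈ 𝒮 ↔ ∃ T, G T = H := by
    intro H
    simp [𝒮]
  have hS : CovSys (fun s : Set (ι → V) => 𝒟.Def s) 𝒮 := by
    refine ⟨fun D hD => 𝒟.compl hD, fun D E hD hE => 𝒟.inter hD hE, ?_, ?_, ?_⟩
    · intro H hH K hK
      obtain ⟨T, rfl⟩ := (hmem H).1 hH
      obtain ⟨T', rfl⟩ := (hmem K).1 hK
      refine (hmem _).2 ⟨T ∪ T', ?_⟩
      ext v
      rw [AddSubgroup.mem_inf, hG, hG, hG, mem_inf_gs, mem_inf_gs, mem_inf_gs]
      constructor
      · intro h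
        exact ⟨fun j hj => h j (Finset.mem_union_left _ hj),
          fun j hj => h j (Finset.mem_union_right _ hj)⟩
      · rintro ⟨h, h'⟩ j hj
        rcases Finset.mem_union.1 hj with hj | hj
        · exact h j hj
        · exact h' j hj
    · refine (hmem _).2 ⟨∅, ?_⟩
      ext v
      rw [hG, mem_inf_gs]
      simp
    · intro D hD K hK N H hH
      obtain ⟨T, rfl⟩ := (hmem K).1 hK
      have hT : ∀ i, ∃ T, G T = H i := fun i => (hmem _).1 (hH i)
      choose TT hTT using hT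
      have hHH : H = fun i => ⨅ j ∈ TT i, gs W (μ j) (A j) := by
        funext i
        rw [← hTT i, hG]
      subst hHH
      rw [hG]
      exact def_cov 𝒟 hl μ A D hD T N TT
  obtain ⟨pt, hpt⟩ : ∃ pt : {t // t ∈ 𝒢} → (ι → V), ∀ j : {t // t ∈ 𝒢},
      (j.1 : Set (ι → V)).Nonempty → pt j ∈ (j.1 : Set (ι → V)) := by
    refine ⟨fun j => if h : (j.1 : Set (ι → V)).Nonempty then h.some else 0, fun j hj => ?_⟩
    simp only [dif_pos hj]
    exact hj.some_mem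
  have hiff : ∀ j : {t // t ∈ 𝒢}, (j.1 : Set (ι → V)).Nonempty → ∀ v, v ∈ (j.1 : Set (ι → V)) ↔
      v - pt j ∈ G {j} := by
    intro j hj v
    have h3 := hpt j hj
    rw [he j] at h3
    rw [he j]
    simp only [Set.mem_ofPred_eq] at h3 ⊢
    rw [hG, mem_inf_gs]
    simp only [Finset.mem_singleton, forall_eq]
    rw [lc_sub]
    constructor
    · intro h4
      have h5 := (W (A j)).sub_mem h4 h3
      have h6 : lc (μ j) v - r j - (lc (μ j) (pt j) - r j) = lc (μ j) v - lc (μ j) (pt j) := by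
        abel
      rwa [h6] at h5
    · intro h4
      have h5 := (W (A j)).add_mem h4 h3
      have h6 : lc (μ j) v - lc (μ j) (pt j) + (lc (μ j) (pt j) - r j) = lc (μ j) v - r j := by
        abel
      rwa [h6] at h5
  obtain ⟨𝒞, hC1, hC2⟩ : ∃ 𝒞 : Finset (AddSubgroup (ι → V) × (ι → V)),
      (∀ C ∈ 𝒞, ∃ j : {t // t ∈ 𝒢}, C = (G {j}, pt j)) ∧
      ∀ j : {t // t ∈ 𝒢}, (j.1 : Set (ι → V)).Nonempty → (G {j}, pt j) ∈ 𝒞 := by
    refine ⟨Finset.univ.image fun j => (G {j}, pt j), fun C hC => ?_, fun j _ => ?_⟩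
    · obtain ⟨j, -, hj⟩ := Finset.mem_image.1 hC
      exact ⟨j, hj.symm⟩
    · exact Finset.mem_image.2 ⟨j, Finset.mem_univ _, rfl⟩
  have h𝒞 : ∀ C ∈ 𝒞, C.1 ∈ 𝒮 := by
    intro C hC
    obtain ⟨j, rfl⟩ := hC1 C hC
    exact (hmem _).2 ⟨_, rfl⟩
  have hBC : ∀ x y : ι → V, (∀ C ∈ 𝒞, (x - C.2 ∈ C.1 ↔ y - C.2 ∈ C.1)) → (x ∈ s ↔ y ∈ s) := by
    intro x y hxy
    refine hfin x y fun t ht' => ?_
    by_cases hne : (t : Set (ι → V)).Nonempty
    · have h3 := hxy _ (hC2 ⟨t, ht'⟩ hne)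
      have h4 := hiff ⟨t, ht'⟩ hne x
      have h5 := hiff ⟨t, ht'⟩ hne y
      exact h4.trans (h3.trans h5.symm)
    · rw [Set.not_nonempty_iff_eq_empty] at hne
      rw [hne]
      exact Iff.rfl
  refine abs_type hS s hs 𝒞 h𝒞 hBC d d' ?_ ?_ hd
  · intro K hK hal
    obtain ⟨T, rfl⟩ := (hmem K).1 hK
    rw [hG] at hal ⊢
    refine (mem_inf_gs T).2 fun j hj => ?_
    rw [lc_sub]
    exact h1 (μ j) (A j) (alg_of_algC 𝒟 hl μ A T d hal j hj)
  · intro K hK hal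
    obtain ⟨T, rfl⟩ := (hmem K).1 hK
    rw [hG] at hal ⊢
    refine (mem_inf_gs T).2 fun j hj => ?_
    rw [lc_sub]
    exact h2 (μ j) (A j) (alg_of_algC 𝒟 hl μ A T d' hal j hj)

end TAU
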