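import Pool.Agent.TAU.DsB

/-! Project TAU, module TAU-Rem: removing algebraic parameters from an isolating set.

Data: `J` finite; for `j : J` an element `g j : V` whose coset `g j + W (A j)` lies in a definable
`E j` which is closed under `+ W (A j)` and contained in finitely many cosets; `ψ` a definable
subset of `(J ⊕ ι) → V`, invariant under `∏ W (A j)` in the coordinates `J`; `Sum.elim g d ∈ ψ`, and
every `y` with `Sum.elim g y ∈ ψ` has the type of `d`.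
The proof takes a definable invariant set `Θ` of parameters `g` with the least number of classes; it
is contained in every definable invariant set which contains `g`. -/

namespace TAU

variable {F Λ V : Type} [Field F] [DistribLattice Λ] [BoundedOrder Λ] [AddCommGroup V]
  [Module F V] {W : Λ → Submodule F V}

theorem remove_params (hW : LatSpace W) (𝒟 : DSys V) (hl : 𝒟.Lin W) {J ι : Type} [Fintype J]
    [Fintype ι] (A : J → Λ) (g : J → V) (E : J → Set V) (hE : ∀ j, 𝒟.Def1 (E j))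
    (hg : ∀ j, g j ∈ E j) (hEi : ∀ j, ∀ x ∈ E j, ∀ w ∈ W (A j), x + w ∈ E j)
    (hEf : ∀ j, ∃ T : Finset V, ∀ x ∈ E j, ∃ t ∈ T, x - t ∈ W (A j))
    (ψ : Set (J ⊕ ι → V)) (hψ : 𝒟.Def ψ)
    (hψi : ∀ (h u : J → V) (y : ι → V), (∀ j, u j ∈ W (A j)) → Sum.elim h y ∈ ψ →
      Sum.elim (h + u) y ∈ ψ)
    (d : ι → V) (hd : Sum.elim g d ∈ ψ)
    (hiso : ∀ y : ι → V, Sum.elim g y ∈ ψ → ∀ t : Set (ι → V), 𝒟.Def t → d ∈ t → y ∈ t) :
    𝒟.Isolated d := by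
  classical
  have hne : ∃ t : Set (J → V), 𝒟.Def t := DSys.ne_of_lin 𝒟 hl
  let P : Submodule F (J → V) := Submodule.pi Set.univ (fun j => W (A j))
  have hP : ∀ u : J → V, u ∈ P ↔ ∀ j, u j ∈ W (A j) := by
    intro u
    rw [Submodule.mem_pi]
    exact ⟨fun h j => h j (Set.mem_univ j), fun h j _ => h j⟩
  let Good : Set (J → V) → Prop := fun Θ => 𝒟.Def Θ ∧ g ∈ Θ ∧ (∀ h ∈ Θ, ∀ j, h j ∈ E j) ∧
    ∀ h ∈ Θ, ∀ u : J → V, (∀ j, u j ∈ W (A j)) → h + u ∈ Θ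
  let Θ0 : Set (J → V) := {h | ∀ j, h ∈ {h : J → V | h j ∈ E j}}
  have hΘ0 : Good Θ0 := by
    refine ⟨?_, hg, fun h hh j => hh j, fun h hh u hu j => hEi j (h j) (hh j) (u j) (hu j)⟩
    refine DSys.fin_all 𝒟 hne _ fun j => ?_
    exact 𝒟.comap (fun _ : Unit => j) (hE j)
  have hfin0 : (P.mkQ '' Θ0).Finite := by
    choose T hT using hEf
    refine Set.Finite.subset ((Fintype.piFinset T).finite_toSet.image P.mkQ) ?_
    rintro _ ⟨h, hh, rfl⟩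
    choose t ht1 ht2 using fun j => hT j (h j) (hh j)
    refine ⟨t, Finset.mem_coe.2 (Fintype.mem_piFinset.2 ht1), ?_⟩
    rw [← sub_eq_zero, ← map_sub, Submodule.mkQ_apply, Submodule.Quotient.mk_eq_zero, hP]
    intro j
    have h3 := (W (A j)).neg_mem (ht2 j)
    rwa [neg_sub] at h3
  have hmin : ∃ Θ, Good Θ ∧ ∀ Θ', Good Θ' → (P.mkQ '' Θ).ncard ≤ (P.mkQ '' Θ').ncard := by
    let N : Set ℕ := {n | ∃ Θ, Good Θ ∧ (P.mkQ '' Θ).ncard = n}
    have hN : N.Nonempty := ⟨_, Θ0, hΘ0, rfl⟩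
    obtain ⟨Θ, h1, h2⟩ := Nat.sInf_mem hN
    refine ⟨Θ, h1, fun Θ' h' => ?_⟩
    rw [h2]
    exact Nat.sInf_le ⟨Θ', h', rfl⟩
  obtain ⟨Θ, hΘ, hΘm⟩ := hmin
  obtain ⟨hΘ1, hΘ2, hΘ3, hΘ4⟩ := hΘ
  have hkey : ∀ Θ' : Set (J → V), 𝒟.Def Θ' → g ∈ Θ' →
      (∀ h ∈ Θ', ∀ u : J → V, (∀ j, u j ∈ W (A j)) → h + u ∈ Θ') → Θ ⊆ Θ' := by
    intro Θ' hd' hg' hi' h hh
    have hG : Good (Θ ∩ Θ') := ⟨𝒟.inter hΘ1 hd', ⟨hΘ2, hg'⟩, fun h hh j => hΘ3 h hh.1 j,
      fun h hh u hu => ⟨hΘ4 h hh.1 u hu, hi' h hh.2 u hu⟩⟩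
    have hf : (P.mkQ '' Θ).Finite := hfin0.subset (Set.image_mono fun h hh j => hΘ3 h hh j)
    have he : P.mkQ '' (Θ ∩ Θ') = P.mkQ '' Θ :=
      Set.eq_of_subset_of_ncard_le (Set.image_mono Set.inter_subset_left) (hΘm _ hG) hf
    have h1 : P.mkQ h ∈ P.mkQ '' (Θ ∩ Θ') := by
      rw [he]
      exact ⟨h, hh, rfl⟩
    obtain ⟨h', hh', he'⟩ := h1
    have h2 : h - h' ∈ P := by
      rw [← Submodule.Quotient.mk_eq_zero, ← Submodule.mkQ_apply, map_sub, he', sub_self]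
    have h3 := hi' h' hh'.2 (h - h') ((hP _).1 h2)
    rwa [add_sub_cancel] at h3
  have hswap : ∀ (h : J → V) (y : ι → V),
      (fun i => Sum.elim y h (Sum.swap i)) = (Sum.elim h y : J ⊕ ι → V) := by
    intro h y
    funext i
    rcases i with i | i <;> rfl
  refine ⟨{y : ι → V | ∃ h : J → V, Sum.elim y h ∈
    ({v : ι ⊕ J → V | (fun i => v (Sum.swap i)) ∈ ψ} ∩
      {v : ι ⊕ J → V | (fun j => v (Sum.inr j)) ∈ Θ} : Set (ι ⊕ J → V))}, ?_, ?_, ?_⟩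
  · exact 𝒟.ex (𝒟.inter (𝒟.comap (Sum.swap : J ⊕ ι → ι ⊕ J) hψ)
      (𝒟.comap (Sum.inr : J → ι ⊕ J) hΘ1))
  · refine ⟨g, ?_, hΘ2⟩
    show (fun i => Sum.elim d g (Sum.swap i)) ∈ ψ
    rw [hswap]
    exact hd
  · rintro y ⟨h, hy, hh⟩ t ht hdt
    have hy' : Sum.elim h y ∈ ψ := by
      rw [← hswap]
      exact hy
    have hh' : h ∈ Θ := hh
    have hΘ' : 𝒟.Def {h' : J → V | ∀ y' : ι → V, Sum.elim h' y' ∈
        (ψᶜ ∪ {v : J ⊕ ι → V | (fun i => v (Sum.inr i)) ∈ t} : Set (J ⊕ ι → V))} :=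
      DSys.all 𝒟 (DSys.union 𝒟 (𝒟.compl hψ) (𝒟.comap (Sum.inr : ι → J ⊕ ι) ht))
    have h4 := hkey _ hΘ' (by
      intro y'
      by_cases h5 : Sum.elim g y' ∈ ψ
      · exact Or.inr (hiso y' h5 t ht hdt)
      · exact Or.inl h5) (by
      intro h' hh' u hu y'
      by_cases h5 : Sum.elim (h' + u) y' ∈ ψ
      · right
        have h6 := hψi (h' + u) (-u) y' (fun j => (W (A j)).neg_mem (hu j)) h5
        rw [add_neg_cancel_right] at h6
        rcases hh' y' with h7 | h7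
        · exact absurd h6 h7
        · exact h7
      · exact Or.inl h5)
    rcases h4 hh' y with h7 | h7
    · exact absurd hy' h7
    · exact h7

end TAU
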