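import Pool.Agent.TAU.QDim
import Pool.Agent.TAU.IsoP
import Pool.Agent.TAU.IsoN
import Pool.Agent.TAU.Rem
import Pool.Agent.TAU.LemT

/-! Project TAU, module TAU-Core: the combinatorial core: `V` is atomic over finitely many
parameters.

`iso_one`: for the tuple `a` (as in `iso_pos`) and every `b : V` there are `A0` with
`AlgMem 𝒟 W A0 b` and a set `s ∋ b` definable over `a` such that all `b' ∈ s` with `b' - b ∈ W A0`
satisfy `b' - b ∈ W A` for all `A` over which `b` or `b'` is algebraic.  PROOF: `A0, J` from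
`iso_pos`, `𝓒` from `iso_neg`,
`s = {b' | (∀ j ∈ J, b' - a j.1 ∈ W j.2) ∧ ∀ C ∈ 𝓒, ¬ AlgMem 𝒟 W C b'}`; definable over `a`
(`adj_lin` is not needed: `b' - a i ∈ W A` is `lc ν (Sum.elim a b') ∈ W A`; `alg_def1`,
`adj_param`, `fin_all` over the elements of `J` and of `𝓒`).

`exists_params`: a finite tuple `a` with the property `ha` of `iso_pos`: choose `N` by
`SpecFin.nbhd`; for each of the finitely many non-isolated `x` with `Lo N x` infinite take `R x`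
from `q_fin` (with `Lx = Lo N x`), and enumerate the union of the `R x` by `Fin k`.

`core`: let `a` be as in `exists_params`; let `d : ι → V`, `ι` a fintype.  Put `𝒟' = 𝒟.adj a`
(`Lin` by `adj_lin`), `J = (Fin k ⊕ ι → F)` (finite, `Fintype.ofFinite`), and for `ν : J` let
`g ν = lc ν (Sum.elim a d)`, `A0 ν`, `s ν` from `iso_one` for `b = g ν`, `E ν` and its finite set of
representatives from `AlgMem 𝒟 W (A0 ν) (g ν)` (`adj_param` makes `E ν` definable over `a`).  Let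
`ψ = {u : J ⊕ ι → V | ∀ ν, lc ν (Sum.elim a (u ∘ inr)) - u (inl ν) ∈ W (A0 ν) ∧
 lc ν (Sum.elim a (u ∘ inr)) ∈ s ν}`.
It is definable over `a` (`lc_elim`: `lc ν (Sum.elim a y) = lc ν1 a + lc ν2 y`; a set
`{u | lc ν1 a + lc (..) u ∈ s}` with `s` definable over `a` is definable over `a`: write the
definition of `adj`), invariant under `∏ W (A0 ν)` in the coordinates `J`, and
`Sum.elim g d ∈ ψ` (the differences are `0`).  Let `Sum.elim g y ∈ ψ`; show that `y` has the type of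
`d` over `a`: let `t` be definable over `a` with `d ∈ t`: `t = {v | Sum.elim a v ∈ t0}`, `t0`
definable.  By `type_eq` for the tuples `Sum.elim a d`, `Sum.elim a y` (index type `Fin k ⊕ ι`) it
suffices that for `ν : J` and `A`: if `g ν` or `lc ν (Sum.elim a y)` is algebraic over `A` then
`lc ν (Sum.elim a y) - g ν ∈ W A`: this is the property of `s ν`, `A0 ν`.
Apply `remove_params` to `𝒟'`. -/

namespace TAU

variable {F Λ V : Type} [Field F] [DistribLattice Λ] [BoundedOrder Λ] [AddCommGroup V]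
  [Module F V] {W : Λ → Submodule F V}

private theorem core_diff (𝒟 : DSys V) (hl : 𝒟.Lin W) {k : ℕ} (a : Fin k → V)
    (i : Fin k) (A : Λ) : (𝒟.adj a).Def1 {b | b - a i ∈ W A} := by
  classical
  refine ⟨_, hl (Sum.elim (Pi.single i (-1)) (fun _ : Unit => (1 : F))) A, ?_⟩
  ext v
  have h1 : lc (Sum.elim (Pi.single i (-1)) (fun _ : Unit => (1 : F))) (Sum.elim a v) =
      v () - a i := by
    rw [lc_elim]
    simp only [Sum.elim_inl, Sum.elim_inr]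
    rw [lc_single]
    simp [lc]
    abel
  show v () - a i ∈ W A ↔ lc _ (Sum.elim a v) ∈ W A
  rw [h1]

private theorem iso_one (hW : LatSpace W) (𝒟 : DSys V) (hl : 𝒟.Lin W) [Finite F]
    (hS : SpecFin Λ) (hA : Atom1 W) {D : ℕ} (hD : SBound 𝒟 W D)
    (N : Pt Λ → Set (Pt Λ)) (hN : ∀ x, IsClopen (N x) ∧ x ∈ N x ∧ ∀ z ∈ N x, z ≠ x →
      IsOpen ({z} : Set (Pt Λ)) ∧ ((z ≤ x ∧ z.Princ) ∨ x ≤ z))
    {k : ℕ} (a : Fin k → V)
    (ha : ∀ x : Pt Λ, ¬ IsOpen ({x} : Set (Pt Λ)) → (Lo N x).Infinite → ∀ b : V,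
      (∀ z ∈ Lo N x, ∃ A, ¬ z.mem A ∧ AlgMem 𝒟 W A b) → ∃ i, b - a i ∈ Vm W x)
    (b : V) :
    ∃ (A0 : Λ) (s : Set V), AlgMem 𝒟 W A0 b ∧ b ∈ s ∧ (𝒟.adj a).Def1 s ∧
      (∀ b' ∈ s, b' - b ∈ W A0 → ∀ A, AlgMem 𝒟 W A b → b' - b ∈ W A) ∧
      ∀ b' ∈ s, b' - b ∈ W A0 → ∀ A, AlgMem 𝒟 W A b' → b' - b ∈ W A := by
  obtain ⟨A0, J, h0, hJ, hpos⟩ := iso_pos hW 𝒟 hl hS N hN a ha b
  obtain ⟨𝓒, hC, hneg⟩ := iso_neg hW 𝒟 hl hS hA b
  have hl' : (𝒟.adj a).Lin W := DSys.adj_lin 𝒟 hl a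
  refine ⟨A0, {b' | (∀ j ∈ J, b' - a j.1 ∈ W j.2) ∧ ∀ C ∈ 𝓒, ¬ AlgMem 𝒟 W C b'}, h0,
    ⟨hJ, hC⟩, ?_, fun b' hb' h1 => hpos b' hb'.1 h1,
    fun b' hb' h1 => hneg b' hb'.2 (hpos b' hb'.1 h1)⟩
  have h1 : (𝒟.adj a).Def {v : Unit → V | ∀ j : J, v ∈ {v : Unit → V | v () - a j.1.1 ∈ W j.1.2}} :=
    DSys.fin_all (𝒟.adj a) (DSys.ne_of_lin (𝒟.adj a) hl') _ fun j => core_diff 𝒟 hl a j.1.1 j.1.2
  have h2 : (𝒟.adj a).Def {v : Unit → V | ∀ C : 𝓒, v ∈ {v : Unit → V | ¬ AlgMem 𝒟 W C.1 (v ())}} :=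
    DSys.fin_all (𝒟.adj a) (DSys.ne_of_lin (𝒟.adj a) hl') _ fun C =>
      (𝒟.adj a).compl (DSys.adj_param 𝒟 a (alg_def1 hW 𝒟 hl hS hA hD C.1))
  have h3 := (𝒟.adj a).inter h1 h2
  have h4 : ({v : Unit → V | ∀ j : J, v ∈ {v : Unit → V | v () - a j.1.1 ∈ W j.1.2}} ∩
      {v : Unit → V | ∀ C : 𝓒, v ∈ {v : Unit → V | ¬ AlgMem 𝒟 W C.1 (v ())}}) =
      {v : Unit → V | v () ∈ {b' | (∀ j ∈ J, b' - a j.1 ∈ W j.2) ∧
        ∀ C ∈ 𝓒, ¬ AlgMem 𝒟 W C b'}} := by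
    ext v
    constructor
    · rintro ⟨h5, h6⟩
      exact ⟨fun j hj => h5 ⟨j, hj⟩, fun C hC => h6 ⟨C, hC⟩⟩
    · rintro ⟨h5, h6⟩
      exact ⟨fun j => h5 j.1 j.2, fun C => h6 C.1 C.2⟩
  rw [h4] at h3
  exact h3

private theorem exists_params (hW : LatSpace W) (𝒟 : DSys V) (hl : 𝒟.Lin W) [Finite F]
    (hS : SpecFin Λ) (hA : Atom1 W) {D : ℕ} (hD : SBound 𝒟 W D)
    (N : Pt Λ → Set (Pt Λ)) (hN : ∀ x, IsClopen (N x) ∧ x ∈ N x ∧ ∀ z ∈ N x, z ≠ x →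
      IsOpen ({z} : Set (Pt Λ)) ∧ ((z ≤ x ∧ z.Princ) ∨ x ≤ z)) :
    ∃ (k : ℕ) (a : Fin k → V), ∀ x : Pt Λ, ¬ IsOpen ({x} : Set (Pt Λ)) → (Lo N x).Infinite →
      ∀ b : V, (∀ z ∈ Lo N x, ∃ A, ¬ z.mem A ∧ AlgMem 𝒟 W A b) → ∃ i, b - a i ∈ Vm W x := by
  classical
  have h1 : ∀ x : Pt Λ, ∃ R : Finset V, (Lo N x).Infinite → ∀ b : V,
      (∀ z ∈ Lo N x, ∃ A, ¬ z.mem A ∧ AlgMem 𝒟 W A b) → ∃ r ∈ R, b - r ∈ Vm W x := by
    intro x
    by_cases h : (Lo N x).Infinite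
    · obtain ⟨R, hR⟩ := q_fin hW 𝒟 hl hS hA hD x (N x) (hN x).1 (hN x).2.1
        (fun z hz hzx => ((hN x).2.2 z hz hzx).1) (Lo N x) (fun z hz => ⟨hz.1, hz.2.2⟩) h
      exact ⟨R, fun _ => hR⟩
    · exact ⟨∅, fun h' => absurd h' h⟩
  choose R hR using h1
  set S : Finset V := hS.lim_fin.toFinset.biUnion R with hSdef
  refine ⟨S.card, fun i => (S.equivFin.symm i : V), fun x hx hi b hb => ?_⟩
  obtain ⟨r, hr, hbr⟩ := hR x hi b hb
  have hrS : r ∈ S := by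
    rw [hSdef, Finset.mem_biUnion]
    exact ⟨x, by rw [Set.Finite.mem_toFinset]; exact hx, hr⟩
  refine ⟨S.equivFin ⟨r, hrS⟩, ?_⟩
  show b - ((S.equivFin.symm (S.equivFin ⟨r, hrS⟩) : S) : V) ∈ Vm W x
  rw [Equiv.symm_apply_apply]
  exact hbr

theorem core (hW : LatSpace W) (𝒟 : DSys V) (hl : 𝒟.Lin W) (ht : 𝒟.Tame W) [Finite F]
    (hS : SpecFin Λ) (hA : Atom1 W) {D : ℕ} (hD : SBound 𝒟 W D) :
    ∃ (k : ℕ) (a : Fin k → V), ∀ (ι : Type) [Fintype ι] (d : ι → V),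
      (𝒟.adj a).Isolated d := by
  classical
  choose N hN using hS.nbhd
  obtain ⟨k, a, ha⟩ := exists_params hW 𝒟 hl hS hA hD N hN
  refine ⟨k, a, ?_⟩
  intro ι _ d
  have hl' : (𝒟.adj a).Lin W := DSys.adj_lin 𝒟 hl a
  choose A0 s hAlg hbs hsd hpos hneg using iso_one hW 𝒟 hl hS hA hD N hN a ha
  let _ : Fintype (Fin k ⊕ ι → F) := Fintype.ofFinite _
  set g : (Fin k ⊕ ι → F) → V := fun ν => lc ν (Sum.elim a d) with hg
  choose E hEd hEg hEi hEf using fun ν : Fin k ⊕ ι → F => hAlg (g ν)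
  set ψ : Set ((Fin k ⊕ ι → F) ⊕ ι → V) := {u | ∀ ν : Fin k ⊕ ι → F,
    lc ν (Sum.elim a (fun i => u (Sum.inr i))) - u (Sum.inl ν) ∈ W (A0 (g ν)) ∧
      lc ν (Sum.elim a (fun i => u (Sum.inr i))) ∈ s (g ν)} with hψ
  have hP : ∀ ν : Fin k ⊕ ι → F, (𝒟.adj a).Def {u : (Fin k ⊕ ι → F) ⊕ ι → V |
      lc ν (Sum.elim a (fun i => u (Sum.inr i))) - u (Sum.inl ν) ∈ W (A0 (g ν))} := by
    intro ν
    refine ⟨_, hl (Sum.elim (fun i => ν (Sum.inl i))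
      (Sum.elim (Pi.single ν (-1)) (fun i => ν (Sum.inr i)))) (A0 (g ν)), ?_⟩
    ext u
    have hu : u = Sum.elim (fun j => u (Sum.inl j)) (fun i => u (Sum.inr i)) := by
      funext j
      rcases j with j | j <;> rfl
    have h1 : lc (Sum.elim (fun i => ν (Sum.inl i))
        (Sum.elim (Pi.single ν (-1)) (fun i => ν (Sum.inr i)))) (Sum.elim a u) =
        lc ν (Sum.elim a (fun i => u (Sum.inr i))) - u (Sum.inl ν) := by
      rw [lc_elim, lc_elim]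
      simp only [Sum.elim_inl, Sum.elim_inr]
      nth_rewrite 1 [hu]
      rw [lc_elim]
      simp only [Sum.elim_inl, Sum.elim_inr]
      rw [lc_single]
      simp only [neg_smul, one_smul]
      abel
    show lc ν (Sum.elim a (fun i => u (Sum.inr i))) - u (Sum.inl ν) ∈ W (A0 (g ν)) ↔
      lc _ (Sum.elim a u) ∈ W (A0 (g ν))
    rw [h1]
  have hQ : ∀ ν : Fin k ⊕ ι → F, (𝒟.adj a).Def {u : (Fin k ⊕ ι → F) ⊕ ι → V |
      lc ν (Sum.elim a (fun i => u (Sum.inr i))) ∈ s (g ν)} := by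
    intro ν
    obtain ⟨t, htd, hts⟩ := hsd (g ν)
    refine ⟨_, DSys.lin hW 𝒟 hl htd (Sum.elim (fun i => Pi.single (Sum.inl i) 1)
      (fun _ => Sum.elim (fun i => ν (Sum.inl i)) (Sum.elim 0 (fun i => ν (Sum.inr i))))), ?_⟩
    ext u
    have hu : u = Sum.elim (fun j => u (Sum.inl j)) (fun i => u (Sum.inr i)) := by
      funext j
      rcases j with j | j <;> rfl
    have h1 : (fun i : Fin k ⊕ Unit => lc ((Sum.elim
        (fun i => (Pi.single (Sum.inl i) 1 : Fin k ⊕ ((Fin k ⊕ ι → F) ⊕ ι) → F))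
        (fun _ => Sum.elim (fun i => ν (Sum.inl i)) (Sum.elim 0 (fun i => ν (Sum.inr i)))) :
          Fin k ⊕ Unit → Fin k ⊕ ((Fin k ⊕ ι → F) ⊕ ι) → F) i) (Sum.elim a u)) =
        Sum.elim a (fun _ : Unit => lc ν (Sum.elim a (fun i => u (Sum.inr i)))) := by
      funext i
      rcases i with i | i
      · simp only [Sum.elim_inl]
        rw [lc_single]
        simp
      · simp only [Sum.elim_inr]
        rw [lc_elim, lc_elim]
        simp only [Sum.elim_inl, Sum.elim_inr]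
        nth_rewrite 1 [hu]
        rw [lc_elim]
        simp only [Sum.elim_inl, Sum.elim_inr]
        have h2 : (fun i : Fin k ⊕ ι → F => (0 : (Fin k ⊕ ι → F) → F) i) = 0 := rfl
        rw [h2, lc_zero_left, zero_add]
    have h2 := Set.ext_iff.1 hts (fun _ => lc ν (Sum.elim a (fun i => u (Sum.inr i))))
    show lc ν (Sum.elim a (fun i => u (Sum.inr i))) ∈ s (g ν) ↔ _ ∈ t
    rw [h1]
    exact h2
  have hψd : (𝒟.adj a).Def ψ :=
    DSys.fin_all (𝒟.adj a) (DSys.ne_of_lin (𝒟.adj a) hl') _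
      fun ν => (𝒟.adj a).inter (hP ν) (hQ ν)
  refine remove_params hW (𝒟.adj a) hl' (fun ν => A0 (g ν)) g E
    (fun ν => DSys.adj_param 𝒟 a (hEd ν)) hEg hEi hEf ψ hψd ?_ d ?_ ?_
  · intro h u y hu hy ν
    obtain ⟨h1, h2⟩ := hy ν
    refine ⟨?_, h2⟩
    have h3 := (W (A0 (g ν))).sub_mem h1 (hu ν)
    have h4 : lc ν (Sum.elim a (fun i => Sum.elim (h + u) y (Sum.inr i))) -
        Sum.elim (h + u) y (Sum.inl ν) =
        lc ν (Sum.elim a (fun i => Sum.elim h y (Sum.inr i))) - Sum.elim h y (Sum.inl ν) - u ν := by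
      show lc ν (Sum.elim a y) - (h ν + u ν) = lc ν (Sum.elim a y) - h ν - u ν
      abel
    rw [h4]
    exact h3
  · intro ν
    refine ⟨?_, hbs (g ν)⟩
    show g ν - g ν ∈ W (A0 (g ν))
    rw [sub_self]
    exact (W (A0 (g ν))).zero_mem
  · rintro y hy t ⟨t0, ht0, rfl⟩ hd
    refine type_eq hW 𝒟 hl ht (Sum.elim a d) (Sum.elim a y) ?_ ?_ ht0 hd
    · intro μ A hAm
      exact hpos (g μ) _ (hy μ).2 (hy μ).1 A hAm
    · intro μ A hAm
      exact hneg (g μ) _ (hy μ).2 (hy μ).1 A hAm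

end TAU
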