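import Pool.Agent.TAU.Defs

/-! Project TAU, module TAU-Cov: algebraic cosets in an abstract setting.

`Y` is an abelian group, `𝒮` a finite set of subgroups closed under intersection, `Df` a family of
subsets of `Y` closed under complement and intersection and under the operation in `CovSys.cov`.
`AlgC Df G d`: there is `E` in `Df` with `d ∈ E`, `E` closed under `+ G` and contained in finitely
many cosets of `G`.

`cov_main` is the induction on the number of members of a down-closed family: for a maximal member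
`G1` the set of the `y` such that `D ∩ (y + G1)` is not covered by one coset of each of the
`j.1 ⊓ G1`, `¬ G1 ≤ j.1`, is in finitely many cosets of `G1`; the rest of `D` is covered by cosets
of the other members. -/

namespace TAU

variable {Y : Type} [AddCommGroup Y]

/-- The closure properties of the definable sets which are needed. -/
structure CovSys (Df : Set Y → Prop) (𝒮 : Finset (AddSubgroup Y)) : Prop where
  compl : ∀ D, Df D → Df Dᶜ
  inter : ∀ D E, Df D → Df E → Df (D ∩ E)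
  inf : ∀ G ∈ 𝒮, ∀ H ∈ 𝒮, G ⊓ H ∈ 𝒮
  top : ⊤ ∈ 𝒮
  cov : ∀ D, Df D → ∀ G ∈ 𝒮, ∀ (N : ℕ) (H : Fin N → AddSubgroup Y), (∀ i, H i ∈ 𝒮) →
    Df {y | ∃ h : Fin N → Y, ∀ w ∈ D, w - y ∈ G → ∃ i, w - h i ∈ H i}

/-- The coset `d + G` is algebraic. -/
def AlgC (Df : Set Y → Prop) (G : AddSubgroup Y) (d : Y) : Prop :=
  ∃ E : Set Y, Df E ∧ d ∈ E ∧ (∀ x ∈ E, ∀ g ∈ G, x + g ∈ E) ∧
    ∃ T : Finset Y, ∀ x ∈ E, ∃ t ∈ T, x - t ∈ G

/-- the points `y` for which `D ∩ (y + G1)` is covered by one coset of each of the `j.1 ⊓ G1`, `j ∈ J'` -/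
private def covSet (D : Set Y) (G1 : AddSubgroup Y) (J' : Finset (AddSubgroup Y × Y)) : Set Y :=
  {y | ∃ h : AddSubgroup Y × Y → Y, ∀ w ∈ D, w - y ∈ G1 → ∃ j ∈ J', w - h j ∈ j.1 ⊓ G1}

private theorem covSet_df {Df : Set Y → Prop} {𝒮 : Finset (AddSubgroup Y)} (hS : CovSys Df 𝒮) {D : Set Y}
    (hD : Df D) {G1 : AddSubgroup Y} (hG1 : G1 ∈ 𝒮) (J' : Finset (AddSubgroup Y × Y)) (hJ' : ∀ j ∈ J', j.1 ∈ 𝒮) :
    Df (covSet D G1 J') := by
  classical
  have h1 := hS.cov D hD G1 hG1 J'.card (fun i => ((J'.equivFin.symm i : J') : AddSubgroup Y × Y).1 ⊓ G1)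
    (fun i => hS.inf _ (hJ' _ (J'.equivFin.symm i).2) _ hG1)
  have h2 : covSet D G1 J' = {y | ∃ h : Fin J'.card → Y, ∀ w ∈ D, w - y ∈ G1 → ∃ i,
      w - h i ∈ ((J'.equivFin.symm i : J') : AddSubgroup Y × Y).1 ⊓ G1} := by
    ext y
    constructor
    · rintro ⟨h, hh⟩
      refine ⟨fun i => h (J'.equivFin.symm i), fun w hw hwy => ?_⟩
      obtain ⟨j, hj, hj2⟩ := hh w hw hwy
      refine ⟨J'.equivFin ⟨j, hj⟩, ?_⟩
      show w - h ((J'.equivFin.symm (J'.equivFin ⟨j, hj⟩) : J') : AddSubgroup Y × Y) ∈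
        ((J'.equivFin.symm (J'.equivFin ⟨j, hj⟩) : J') : AddSubgroup Y × Y).1 ⊓ G1
      rw [Equiv.symm_apply_apply]
      exact hj2
    · rintro ⟨h, hh⟩
      refine ⟨fun j => if hj : j ∈ J' then h (J'.equivFin ⟨j, hj⟩) else 0, fun w hw hwy => ?_⟩
      obtain ⟨i, hi⟩ := hh w hw hwy
      refine ⟨(J'.equivFin.symm i : J'), (J'.equivFin.symm i).2, ?_⟩
      have h3 : (if hj : ((J'.equivFin.symm i : J') : AddSubgroup Y × Y) ∈ J' then
          h (J'.equivFin ⟨((J'.equivFin.symm i : J') : AddSubgroup Y × Y), hj⟩) else 0) = h i := by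
        rw [dif_pos (J'.equivFin.symm i).2]
        congr 1
        exact Equiv.apply_symm_apply _ _
      show w - (if hj : ((J'.equivFin.symm i : J') : AddSubgroup Y × Y) ∈ J' then
          h (J'.equivFin ⟨((J'.equivFin.symm i : J') : AddSubgroup Y × Y), hj⟩) else 0) ∈ _
      rw [h3]
      exact hi
  rw [h2]
  exact h1

private theorem covSet_add {D : Set Y} {G1 : AddSubgroup Y} {J' : Finset (AddSubgroup Y × Y)} {x g : Y}
    (hg : g ∈ G1) : x + g ∈ covSet D G1 J' ↔ x ∈ covSet D G1 J' := by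
  have h1 : ∀ w : Y, w - (x + g) ∈ G1 ↔ w - x ∈ G1 := by
    intro w
    have e : w - (x + g) = (w - x) - g := by abel
    rw [e]
    constructor
    · intro h
      have h2 := G1.add_mem h hg
      rwa [sub_add_cancel] at h2
    · intro h
      exact G1.sub_mem h hg
  constructor
  · rintro ⟨h, hh⟩
    exact ⟨h, fun w hw hwy => hh w hw ((h1 w).2 hwy)⟩
  · rintro ⟨h, hh⟩
    exact ⟨h, fun w hw hwy => hh w hw ((h1 w).1 hwy)⟩

private theorem cov_main {Df : Set Y → Prop} {𝒮 : Finset (AddSubgroup Y)} (hS : CovSys Df 𝒮) (n : ℕ) :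
    ∀ 𝒯 : Finset (AddSubgroup Y), 𝒯.card = n → 𝒯 ⊆ 𝒮 → (∀ G ∈ 𝒮, ∀ H ∈ 𝒯, G ≤ H → G ∈ 𝒯) →
      ∀ D : Set Y, Df D → ∀ J : Finset (AddSubgroup Y × Y), (∀ j ∈ J, j.1 ∈ 𝒯) →
        (∀ w ∈ D, ∃ j ∈ J, w - j.2 ∈ j.1) → ∀ d ∈ D, ∃ G ∈ 𝒯, AlgC Df G d := by
  classical
  induction n with
  | zero =>
    intro 𝒯 h0 _ _ D _ J hJ hc d hd
    rw [Finset.card_eq_zero] at h0
    obtain ⟨j, hj, _⟩ := hc d hd
    have := hJ j hj
    rw [h0] at this
    exact absurd this (Finset.notMem_empty _)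
  | succ n ih =>
    intro 𝒯 hcard h𝒮 hdown D hD J hJ hc d hd
    have hne : 𝒯.Nonempty := Finset.card_pos.1 (by omega)
    obtain ⟨G1, hG1⟩ := 𝒯.exists_maximal hne
    have hG1T : G1 ∈ 𝒯 := hG1.1
    have hmax : ∀ H ∈ 𝒯, G1 ≤ H → H = G1 := fun H hH h => le_antisymm (hG1.2 hH h) h
    set J' := J.filter (fun j => ¬ G1 ≤ j.1) with hJ'
    have hJ'𝒮 : ∀ j ∈ J', j.1 ∈ 𝒮 := fun j hj => h𝒮 (hJ j (Finset.mem_filter.1 hj).1)
    have hA := covSet_df hS hD (h𝒮 hG1T) J' hJ'𝒮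
    -- the complement of `covSet` is in finitely many cosets
    have hfin : ∀ y, y ∉ covSet D G1 J' → ∃ j ∈ J, j.1 = G1 ∧ y - j.2 ∈ G1 := by
      intro y hy
      by_contra hcon
      push Not at hcon
      apply hy
      refine ⟨fun j => if hj : ∃ w, w - y ∈ G1 ∧ w - j.2 ∈ j.1 then hj.choose else 0, fun w hw hwy => ?_⟩
      obtain ⟨j, hj, hj2⟩ := hc w hw
      have hnle : ¬ G1 ≤ j.1 := by
        intro hle
        have h1 := hmax j.1 (hJ j hj) hle
        apply hcon j hj h1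
        rw [h1] at hj2
        have h2 := G1.sub_mem hj2 hwy
        have e : w - j.2 - (w - y) = y - j.2 := by abel
        rwa [e] at h2
      refine ⟨j, Finset.mem_filter.2 ⟨hj, hnle⟩, ?_⟩
      have hex : ∃ w, w - y ∈ G1 ∧ w - j.2 ∈ j.1 := ⟨w, hwy, hj2⟩
      have h3 : (if hj : ∃ w, w - y ∈ G1 ∧ w - j.2 ∈ j.1 then hj.choose else 0) = hex.choose := dif_pos hex
      show w - (if hj : ∃ w, w - y ∈ G1 ∧ w - j.2 ∈ j.1 then hj.choose else 0) ∈ j.1 ⊓ G1
      rw [h3]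
      obtain ⟨h4, h5⟩ := hex.choose_spec
      refine AddSubgroup.mem_inf.2 ⟨?_, ?_⟩
      · have h6 := j.1.sub_mem hj2 h5
        have e : w - j.2 - (hex.choose - j.2) = w - hex.choose := by abel
        rwa [e] at h6
      · have h6 := G1.sub_mem hwy h4
        have e : w - y - (hex.choose - y) = w - hex.choose := by abel
        rwa [e] at h6
    by_cases hdE : d ∈ covSet D G1 J'
    · -- induction
      have hD' : Df (D ∩ covSet D G1 J') := hS.inter _ _ hD hA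
      have hch : ∀ y : Y, ∃ h : AddSubgroup Y × Y → Y, y ∈ covSet D G1 J' →
          ∀ w ∈ D, w - y ∈ G1 → ∃ j ∈ J', w - h j ∈ j.1 ⊓ G1 := by
        intro y
        by_cases hy : y ∈ covSet D G1 J'
        · obtain ⟨h, hh⟩ := hy
          exact ⟨h, fun _ => hh⟩
        · exact ⟨fun _ => 0, fun h => absurd h hy⟩
      choose hh hhs using hch
      have hT'card : (𝒯.erase G1).card = n := by
        rw [Finset.card_erase_of_mem hG1T, hcard]
        rfl
      have hres := ih (𝒯.erase G1) hT'card ((Finset.erase_subset _ _).trans h𝒮) (by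
          intro G hG H hH hGH
          have hH' := Finset.mem_erase.1 hH
          refine Finset.mem_erase.2 ⟨?_, hdown G hG H hH'.2 hGH⟩
          intro h
          rw [h] at hGH
          exact hH'.1 (hmax H hH'.2 hGH)) (D ∩ covSet D G1 J') hD'
        (J.filter (fun j => j.1 ≠ G1) ∪ (J ×ˢ J').image (fun q => (q.2.1 ⊓ G1, hh q.1.2 q.2))) (by
          intro j hj
          rcases Finset.mem_union.1 hj with h | h
          · have h1 := Finset.mem_filter.1 h
            exact Finset.mem_erase.2 ⟨h1.2, hJ j h1.1⟩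
          · obtain ⟨q, hq, rfl⟩ := Finset.mem_image.1 h
            have hq2 := (Finset.mem_product.1 hq).2
            have hq3 := Finset.mem_filter.1 hq2
            refine Finset.mem_erase.2 ⟨?_, ?_⟩
            · intro h1
              apply hq3.2
              have h2 : q.2.1 ⊓ G1 = G1 := h1
              exact inf_eq_right.1 h2
            · exact hdown _ (hS.inf _ (hJ'𝒮 _ hq2) _ (h𝒮 hG1T)) G1 hG1T inf_le_right) (by
          rintro w ⟨hw, hwE⟩
          obtain ⟨j, hj, hj2⟩ := hc w hw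
          by_cases hjG : j.1 = G1
          · have hjE : j.2 ∈ covSet D G1 J' := by
              rw [hjG] at hj2
              have e : w = j.2 + (w - j.2) := by abel
              rw [e] at hwE
              exact (covSet_add hj2).1 hwE
            obtain ⟨j', hj', hj3⟩ := hhs j.2 hjE w hw (by rw [hjG] at hj2; exact hj2)
            refine ⟨(j'.1 ⊓ G1, hh j.2 j'), Finset.mem_union_right _ ?_, hj3⟩
            exact Finset.mem_image.2 ⟨(j, j'), Finset.mem_product.2 ⟨hj, hj'⟩, rfl⟩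
          · exact ⟨j, Finset.mem_union_left _ (Finset.mem_filter.2 ⟨hj, hjG⟩), hj2⟩) d ⟨hd, hdE⟩
      obtain ⟨G, hG, hGd⟩ := hres
      exact ⟨G, (Finset.mem_erase.1 hG).2, hGd⟩
    · refine ⟨G1, hG1T, (covSet D G1 J')ᶜ, hS.compl _ hA, hdE, ?_, ?_⟩
      · intro x hx g hg h
        exact hx ((covSet_add hg).1 h)
      · refine ⟨(J.filter (fun j => j.1 = G1)).image Prod.snd, fun x hx => ?_⟩
        obtain ⟨j, hj, hj1, hj2⟩ := hfin x hx
        exact ⟨j.2, Finset.mem_image.2 ⟨j, Finset.mem_filter.2 ⟨hj, hj1⟩, rfl⟩, hj2⟩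

theorem cov_claim {Df : Set Y → Prop} {𝒮 : Finset (AddSubgroup Y)} (hS : CovSys Df 𝒮)
    (𝒯 : Finset (AddSubgroup Y)) (hT : 𝒯 ⊆ 𝒮) (D : Set Y) (hD : Df D)
    (J : Finset (AddSubgroup Y × Y)) (hJ : ∀ j ∈ J, j.1 ∈ 𝒯)
    (hc : ∀ w ∈ D, ∃ j ∈ J, w - j.2 ∈ j.1) :
    ∀ d ∈ D, ∃ G ∈ 𝒮, (∃ H ∈ 𝒯, G ≤ H) ∧ AlgC Df G d := by
  classical
  intro d hd
  obtain ⟨G, hG, hGd⟩ := cov_main hS _ (𝒮.filter (fun G => ∃ H ∈ 𝒯, G ≤ H)) rfl (Finset.filter_subset _ _)
    (by
      intro G hG H hH hGH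
      obtain ⟨_, K, hK, hHK⟩ := Finset.mem_filter.1 hH
      exact Finset.mem_filter.2 ⟨hG, K, hK, hGH.trans hHK⟩) D hD J
    (fun j hj => Finset.mem_filter.2 ⟨hT (hJ j hj), j.1, hJ j hj, le_rfl⟩) hc d hd
  obtain ⟨h1, h2⟩ := Finset.mem_filter.1 hG
  exact ⟨G, h1, h2, hGd⟩

end TAU
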