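import Pool.Agent.TAU.Bas

/-! Project TAU, module TAU-Crt: Chinese remainder theorem in a lattice space (distributivity).

Induction on the finset: a solution `v` for the members of `s` is corrected by an element of
`W (s.inf A)`, using `(s.inf A) ⊔ A i0 = s.inf (fun i => A i ⊔ A i0)`. -/

namespace TAU

variable {F Λ V : Type} [Field F] [DistribLattice Λ] [BoundedOrder Λ] [AddCommGroup V]
  [Module F V] {W : Λ → Submodule F V}

theorem crt (hW : LatSpace W) {I : Type} (s : Finset I) (g : I → V) (A : I → Λ)
    (h : ∀ i ∈ s, ∀ j ∈ s, g i - g j ∈ W (A i ⊔ A j)) : ∃ v, ∀ i ∈ s, v - g i ∈ W (A i) := by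
  classical
  induction s using Finset.induction_on with
  | empty => exact ⟨0, fun i hi => absurd hi (Finset.notMem_empty i)⟩
  | insert i0 s hi0 ih =>
    obtain ⟨v, hv⟩ := ih (fun i hi j hj =>
      h i (Finset.mem_insert_of_mem hi) j (Finset.mem_insert_of_mem hj))
    have hclaim : v - g i0 ∈ W (s.inf A ⊔ A i0) := by
      rw [Finset.inf_sup_distrib_right, hW.mem_finset_inf]
      intro i hi
      have h1 : v - g i ∈ W (A i ⊔ A i0) := hW.mono le_sup_left (hv i hi)
      have h2 := h i (Finset.mem_insert_of_mem hi) i0 (Finset.mem_insert_self i0 s)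
      have h3 := Submodule.add_mem _ h1 h2
      rwa [sub_add_sub_cancel] at h3
    obtain ⟨a, ha, b, hb, hab⟩ := hW.exists_add hclaim
    refine ⟨v - a, fun i hi => ?_⟩
    rcases Finset.mem_insert.mp hi with rfl | hi
    · have h4 : v - a - g i = b := by
        rw [sub_right_comm, ← hab, add_sub_cancel_left]
      rw [h4]
      exact hb
    · have h5 : a ∈ W (A i) := (hW.mem_finset_inf s A).mp ha i hi
      have h6 := Submodule.sub_mem _ (hv i hi) h5
      rwa [sub_right_comm] at h6

end TAU
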