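import Mathlib

/-! Project TAU (MP_c7a31e_lc, the tau-stability conjecture, stable T and atomic Q): definitions.

Part 1: the definitions used in the statements of the hand-ins.
Part 2: working definitions. -/

namespace TAU

open FirstOrder FirstOrder.Language

/-! ### Part 1 -/

/-- Isomorphism of the models of `T` with universe `ℕ`. -/
def isoSetoid (L : FirstOrder.Language.{0, 0}) (T : L.Theory) :
    Setoid {S : L.Structure ℕ // @Theory.Model L ℕ S T} where
  r S S' := Nonempty (@FirstOrder.Language.Equiv L ℕ ℕ S.1 S'.1)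
  iseqv :=
    { refl := fun S => ⟨@FirstOrder.Language.Equiv.refl L ℕ S.1⟩
      symm := fun {S S'} h => h.elim fun f => ⟨@FirstOrder.Language.Equiv.symm L ℕ ℕ S.1 S'.1 f⟩
      trans := fun {S S' S''} h h' => h.elim fun f => h'.elim fun g =>
        ⟨@FirstOrder.Language.Equiv.comp L ℕ ℕ S.1 S'.1 ℕ S''.1 g f⟩ }

/-- `I(T, ℵ₀)`: the number of models of `T` with universe `ℕ` up to isomorphism (for a theory
all of whose models are infinite, the number of its countable models). -/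
noncomputable def numModels (L : FirstOrder.Language.{0, 0}) (T : L.Theory) : Cardinal :=
  Cardinal.mk (Quotient (isoSetoid L T))

/-- The relation `R` has a ladder of length `n`. -/
def Ladder {X Y : Type} (R : X → Y → Prop) (n : ℕ) : Prop :=
  ∃ (a : Fin n → X) (b : Fin n → Y), ∀ i j, R (a i) (b j) ↔ i ≤ j

/-- `Th(M)` is stable: no formula `φ(x; y)` has ladders of every finite length in `M`. -/
def StableTh (L : FirstOrder.Language.{0, 0}) (M : Type) [L.Structure M] : Prop :=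
  ∀ (k l : ℕ) (φ : L.Formula (Fin k ⊕ Fin l)), ∃ n,
    ¬ Ladder (fun (x : Fin k → M) (y : Fin l → M) => φ.Realize (Sum.elim x y)) n

/-- A distributive lattice of subspaces: `W` is a lattice embedding of `Λ` into the subspaces of
`V` which respects the bounds, and `W A` has infinite index in `W B` for `A < B`. -/
structure LatSpace {F Λ V : Type} [Field F] [DistribLattice Λ] [BoundedOrder Λ]
    [AddCommGroup V] [Module F V] (W : Λ → Submodule F V) : Prop where
  bot : W ⊥ = ⊥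
  top : W ⊤ = ⊤
  inf : ∀ A B, W (A ⊓ B) = W A ⊓ W B
  sup : ∀ A B, W (A ⊔ B) = W A ⊔ W B
  index : ∀ A B, A < B → (W A).toAddSubgroup.relIndex (W B).toAddSubgroup = 0

/-- The Boolean combinations of the members of a family of sets. -/
inductive BoolComb {X : Type} (𝒢 : Set (Set X)) : Set X → Prop
  | basic (s : Set X) : s ∈ 𝒢 → BoolComb 𝒢 s
  | compl (s : Set X) : BoolComb 𝒢 s → BoolComb 𝒢 sᶜ
  | inter (s t : Set X) : BoolComb 𝒢 s → BoolComb 𝒢 t → BoolComb 𝒢 (s ∩ t)

section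
variable {F Λ V : Type} [Field F] [AddCommGroup V] [Module F V]

/-- The linear combination of `v` with coefficients `μ`. -/
def lc {ι : Type} [Fintype ι] (μ : ι → F) (v : ι → V) : V := ∑ i, μ i • v i

/-- The basic conditions `∑ i, μ i • v i ∈ W A`. -/
def basics (W : Λ → Submodule F V) (ι : Type) [Fintype ι] : Set (Set (ι → V)) :=
  {s | ∃ (μ : ι → F) (A : Λ), s = {v | lc μ v ∈ W A}}

end

/-- The set of solutions in `M` of a formula in one variable. -/
def Sol {L : FirstOrder.Language.{0, 0}} (Φ : L.Formula (Fin 1)) (M : Type) [L.Structure M] : Set M :=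
  {x | Φ.Realize (fun _ => x)}

/-! ### Part 2 -/

section
variable {F Λ V : Type} [Field F] [AddCommGroup V] [Module F V]

/-- The basic cosets `∑ i, μ i • v i ∈ r + W A`. -/
def cosets (W : Λ → Submodule F V) (ι : Type) [Fintype ι] : Set (Set (ι → V)) :=
  {s | ∃ (μ : ι → F) (A : Λ) (r : V), s = {v | lc μ v - r ∈ W A}}

/-- Syntax for the Boolean combinations of basic conditions. -/
inductive BF (F Λ ι : Type) : Type
  | basic (μ : ι → F) (A : Λ) : BF F Λ ι
  | neg : BF F Λ ι → BF F Λ ι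
  | and : BF F Λ ι → BF F Λ ι → BF F Λ ι

/-- Truth of a `BF` in `V`. -/
def BF.Real {ι : Type} [Fintype ι] (W : Λ → Submodule F V) : BF F Λ ι → (ι → V) → Prop
  | .basic μ A, v => lc μ v ∈ W A
  | .neg χ, v => ¬ BF.Real W χ v
  | .and χ ψ, v => BF.Real W χ v ∧ BF.Real W ψ v

end

/-- A system of definable subsets of the finite powers of `V`. -/
structure DSys (V : Type) where
  Def : ∀ {ι : Type} [Finite ι], Set (ι → V) → Prop
  compl : ∀ {ι : Type} [Finite ι] {s : Set (ι → V)}, Def s → Def sᶜ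
  inter : ∀ {ι : Type} [Finite ι] {s t : Set (ι → V)}, Def s → Def t → Def (s ∩ t)
  comap : ∀ {ι κ : Type} [Finite ι] [Finite κ] (f : ι → κ) {s : Set (ι → V)}, Def s →
    Def {v : κ → V | (fun i => v (f i)) ∈ s}
  ex : ∀ {ι κ : Type} [Finite ι] [Finite κ] {s : Set (ι ⊕ κ → V)}, Def s →
    Def {v : ι → V | ∃ w : κ → V, Sum.elim v w ∈ s}

/-- Definable sets in one variable. -/
def DSys.Def1 {V : Type} (𝒟 : DSys V) (s : Set V) : Prop :=
  𝒟.Def {v : Unit → V | v () ∈ s}

/-- The system with the parameters `a`. -/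
def DSys.adj {V κ : Type} [Finite κ] (𝒟 : DSys V) (a : κ → V) : DSys V where
  Def {ι} _ s := ∃ t : Set (κ ⊕ ι → V), 𝒟.Def t ∧ s = {v | Sum.elim a v ∈ t}
  compl := by
    rintro ι _ s ⟨t, ht, rfl⟩
    exact ⟨tᶜ, 𝒟.compl ht, rfl⟩
  inter := by
    rintro ι _ s s' ⟨t, ht, rfl⟩ ⟨t', ht', rfl⟩
    exact ⟨t ∩ t', 𝒟.inter ht ht', rfl⟩
  comap := by
    rintro ι ι' _ _ f s ⟨t, ht, rfl⟩
    refine ⟨_, 𝒟.comap (Sum.map id f) ht, ?_⟩
    ext v
    have : (Sum.elim a fun i => v (f i)) = fun i => Sum.elim a v (Sum.map id f i) := by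
      funext i; rcases i with i | i <;> rfl
    simp only [Set.mem_ofPred_eq, this]
  ex := by
    rintro ι ι' _ _ s ⟨t, ht, rfl⟩
    refine ⟨_, 𝒟.ex (𝒟.comap (Equiv.sumAssoc κ ι ι').symm ht), ?_⟩
    ext v
    simp only [Set.mem_ofPred_eq]
    refine exists_congr fun w => ?_
    have : (Sum.elim a (Sum.elim v w)) =
        fun i => Sum.elim (Sum.elim a v) w ((Equiv.sumAssoc κ ι ι').symm i) := by
      funext i; rcases i with i | i | i <;> rfl
    rw [this]

/-- The basic relations are definable. -/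
def DSys.Lin {F Λ V : Type} [Field F] [AddCommGroup V] [Module F V] (𝒟 : DSys V)
    (W : Λ → Submodule F V) : Prop :=
  ∀ {ι : Type} [Fintype ι] (μ : ι → F) (A : Λ), 𝒟.Def {v : ι → V | lc μ v ∈ W A}

/-- Every definable set is a Boolean combination of cosets. -/
def DSys.Tame {F Λ V : Type} [Field F] [AddCommGroup V] [Module F V] (𝒟 : DSys V)
    (W : Λ → Submodule F V) : Prop :=
  ∀ {ι : Type} [Fintype ι] (s : Set (ι → V)), 𝒟.Def s → BoolComb (cosets W ι) s

/-- The definable set `s` isolates the type of `d`. -/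
def DSys.Isolated {V : Type} (𝒟 : DSys V) {ι : Type} [Finite ι] (d : ι → V) : Prop :=
  ∃ s : Set (ι → V), 𝒟.Def s ∧ d ∈ s ∧ ∀ y ∈ s, ∀ t : Set (ι → V), 𝒟.Def t → d ∈ t → y ∈ t

/-- Mixed definable relations between tuples of `M` and tuples of `Q`. -/
def MDef {L : FirstOrder.Language.{0, 0}} {M : Type} [L.Structure M] {Q : Set M} {α ι : Type}
    (s : Set ((α → M) × (ι → Q))) : Prop :=
  ∃ φ : L.Formula (α ⊕ ι), ∀ (x : α → M) (v : ι → Q),
    (x, v) ∈ s ↔ φ.Realize (Sum.elim x fun i => (v i : M))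

/-! #### The spectrum -/

/-- Prime filters of `Λ`, as points of `Λ → Bool`. -/
def Pt (Λ : Type) [DistribLattice Λ] [BoundedOrder Λ] : Type :=
  {x : Λ → Bool // x ⊤ = true ∧ x ⊥ = false ∧ (∀ A B, x (A ⊓ B) = (x A && x B)) ∧
    ∀ A B, x (A ⊔ B) = (x A || x B)}

section
variable {Λ : Type} [DistribLattice Λ] [BoundedOrder Λ]

instance : TopologicalSpace (Pt Λ) := inferInstanceAs (TopologicalSpace (Subtype _))

/-- `A` belongs to the prime filter `x`. -/
def Pt.mem (x : Pt Λ) (A : Λ) : Prop := x.1 A = true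

instance : PartialOrder (Pt Λ) where
  le x y := ∀ A, x.mem A → y.mem A
  le_refl x A h := h
  le_trans x y z h h' A hA := h' A (h A hA)
  le_antisymm x y h h' := by
    apply Subtype.ext
    funext A
    have e := h A
    have e' := h' A
    unfold Pt.mem at e e'
    cases hx : x.1 A <;> cases hy : y.1 A <;> simp_all

/-- The prime filters which contain `A`. -/
def hat (A : Λ) : Set (Pt Λ) := {x | x.mem A}

/-- `𝔉` is a (possibly improper) filter. -/
structure IsFil (𝔉 : Set Λ) : Prop where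
  top : ⊤ ∈ 𝔉
  up : ∀ A B, A ∈ 𝔉 → A ≤ B → B ∈ 𝔉
  inf : ∀ A B, A ∈ 𝔉 → B ∈ 𝔉 → A ⊓ B ∈ 𝔉

/-- The closed up-set of a filter. -/
def Zf (𝔉 : Set Λ) : Set (Pt Λ) := {x | ∀ A ∈ 𝔉, x.mem A}

/-- Minimal elements of a set of prime filters. -/
def Mn (Z : Set (Pt Λ)) : Set (Pt Λ) := {x | x ∈ Z ∧ ∀ z ∈ Z, z ≤ x → z = x}

/-- `x` is a principal filter. -/
def Pt.Princ (x : Pt Λ) : Prop := ∃ A, x.mem A ∧ ∀ B, x.mem B → A ≤ B

/-- `x` is principal and its generator has a largest proper part: the generic type of `x` is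
isolated. -/
def Pt.Good (x : Pt Λ) : Prop :=
  ∃ A, x.mem A ∧ (∀ B, x.mem B → A ≤ B) ∧ ∃ C, C < A ∧ ∀ B, B < A → B ≤ C

/-- The finiteness properties of the spectrum which follow from the few models hypothesis. -/
structure SpecFin (Λ : Type) [DistribLattice Λ] [BoundedOrder Λ] : Prop where
  lim_fin : {x : Pt Λ | ¬ IsOpen ({x} : Set (Pt Λ))}.Finite
  nbhd : ∀ x : Pt Λ, ∃ N : Set (Pt Λ), IsClopen N ∧ x ∈ N ∧ ∀ z ∈ N, z ≠ x →
    IsOpen ({z} : Set (Pt Λ)) ∧ ((z ≤ x ∧ z.Princ) ∨ x ≤ z)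
  min_fin : ∀ Z : Set (Pt Λ), IsClosed Z → IsUpperSet Z → (Mn Z).Finite

variable {F V : Type} [Field F] [AddCommGroup V] [Module F V]

/-- One-variable form of atomicity: the type of every element is isolated. -/
def Atom1 (W : Λ → Submodule F V) : Prop :=
  ∀ b : V, ∃ A : Λ, (b ∈ W A ∧ ∀ B, b ∈ W B → A ≤ B) ∧
    ∃ T : Finset Λ, (∀ C ∈ T, C < A) ∧ ∀ B, B < A → ∃ C ∈ T, B ≤ C

/-- The union of the `W A`, `A ∉ x`. -/
def Vm (W : Λ → Submodule F V) (x : Pt Λ) : Submodule F V :=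
  ⨆ A : {A : Λ // ¬ x.mem A}, W A.1

/-- `(A, C)` represents the isolated point `y`: `hat A \ hat C = {y}`. -/
def Pair (y : Pt Λ) (A C : Λ) : Prop :=
  y.mem A ∧ ¬ y.mem C ∧ C ≤ A ∧ ∀ z : Pt Λ, z.mem A → ¬ z.mem C → z = y

/-- The family `v`, labelled by the points `pt k`, is linearly independent modulo `Vm W x` for
each label `x`. -/
def LInd {κ : Type} [Fintype κ] (W : Λ → Submodule F V) (pt : κ → Pt Λ) (v : κ → V) : Prop :=
  ∀ (x : Pt Λ) (l : κ → F), (∀ k, pt k ≠ x → l k = 0) → lc l v ∈ Vm W x → ∀ k, l k = 0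

/-- `b` lies in some `W A` such that `x` is minimal in `hat A`. -/
def Kx (W : Λ → Submodule F V) (x : Pt Λ) : Set V :=
  {b | ∃ A, b ∈ W A ∧ x ∈ Mn (hat A)}

/-- The coset `b + W A` is algebraic: it is contained in a definable finite union of cosets of
`W A`. -/
def AlgMem (𝒟 : DSys V) (W : Λ → Submodule F V) (A : Λ) (b : V) : Prop :=
  ∃ s : Set V, 𝒟.Def1 s ∧ b ∈ s ∧ (∀ x ∈ s, ∀ w ∈ W A, x + w ∈ s) ∧
    ∃ T : Finset V, ∀ x ∈ s, ∃ t ∈ T, x - t ∈ W A

/-- The bound on the algebraic part: dimension of independent algebraic elements at isolated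
points. -/
def SBound (𝒟 : DSys V) (W : Λ → Submodule F V) (D : ℕ) : Prop :=
  ∀ (Y : Finset (Pt Λ)) (U : Pt Λ → Submodule F V),
    (∀ y ∈ Y, IsOpen ({y} : Set (Pt Λ)) ∧ Finite (U y) ∧
      ∀ b ∈ U y, b ∈ Kx W y ∧ (∃ A, ¬ y.mem A ∧ AlgMem 𝒟 W A b) ∧ (b ∈ Vm W y → b = 0)) →
    ∑ y ∈ Y, Module.finrank F (U y) ≤ D

end

end TAU
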