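import Pool.Agent.TAU.AlgB
import Pool.Agent.TAU.MinIso

/-! Project TAU, module TAU-DimB: the algebraic part over any `A` has bounded dimension.

Notation: for `b : V` let `A(b)` be the generator given by `Atom1`: `b ∈ W B ↔ A(b) ≤ B`.  The
minimal points of `hat A(b)` are isolated (`min_isolated`) and finite in number
(`SpecFin.min_fin`).  For a finite subspace `B` let `Y(B)` be the finite set of the points `y`
with `y ∈ Mn (hat A(b))` for some `b ∈ B`, `b ≠ 0`, and `A ∉ y`.
CLAIM: for every finite subspace `B` with `AlgMem 𝒟 W A b` and (`b ∈ W A → b = 0`) for `b ∈ B` there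
are a finset `Y ⊆ Y(B)` and `U : Pt Λ → Submodule F V` with the properties in `SBound` and
`finrank B ≤ ∑ y ∈ Y, finrank (U y)`.
PROOF by induction on `finrank B` (or on the cardinality of `B`).  `B = 0`: `Y = ∅`.  Let `B ≠ 0`.
`Y(B)` is not empty: let `b ∈ B`, `b ≠ 0`; if every minimal point of `hat A(b)` contained `A` then
`hat A(b) ⊆ hat A` (`exists_min`), `A(b) ≤ A`, `b ∈ W A`, `b = 0`.  Let `y` be a minimal element of
the finite set `Y(B)`, say `y ∈ Mn (hat A(b0))`.  Let `A1` be the supremum of the `A(b)`, `b ∈ B`, so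
`B ≤ W A1`.  `y ∈ Mn (hat A1)`: `y ∈ hat A(b0) ⊆ hat A1`; let `z ≤ y`, `A1 ∈ z`; then `A(b) ∈ z` for
some `b ∈ B` (prime), `b ≠ 0` (`A(0) = ⊥`), and there is a minimal `z' ≤ z` of `hat A(b)`; `A ∉ z'`
as `z' ≤ y` and `A ∉ y`; so `z' ∈ Y(B)`, `z' ≤ y`, so `z' = y` by minimality of `y`, and `z = y`.
Let `B1 = B ⊓ Vm W y`.  `b0 ∉ Vm W y`: if `b0 ∈ W E`, `E ∉ y` then `A(b0) ≤ E`, but `A(b0) ∈ y`.  So
`B1 < B` and the induction hypothesis gives `Y1 ⊆ Y(B1) ⊆ Y(B)`, `U1`.  `y ∉ Y(B1)`: for `b ∈ B1`,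
`b ∈ W E` with `E ∉ y`, `A(b) ≤ E`, so `y ∉ hat A(b)`.  Let `U0` be a complement of `B1` in `B`
(`exists_isCompl` in `B`, or Mathlib's complement in the interval; `U0 ≤ B`, `U0 ⊓ B1 = ⊥`,
`U0 ⊔ B1 = B`, `finrank B = finrank B1 + finrank U0`).  Take `Y = insert y Y1`, `U` equal to `U0`
at `y` and to `U1` elsewhere.  Conditions at `y`: `{y}` is open by `min_isolated` for `A(b0)`;
`U0` is finite; for `b ∈ U0`: `b ∈ W A1` and `y ∈ Mn (hat A1)` so `b ∈ Kx W y`; `A ∉ y` and
`AlgMem 𝒟 W A b`; if `b ∈ Vm W y` then `b ∈ B1 ⊓ U0`, `b = 0`. -/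

namespace TAU

variable {F Λ V : Type} [Field F] [DistribLattice Λ] [BoundedOrder Λ] [AddCommGroup V]
  [Module F V] {W : Λ → Submodule F V}

theorem dim_bound (hW : LatSpace W) (𝒟 : DSys V) [Finite F] (hS : SpecFin Λ) (hA : Atom1 W)
    {D : ℕ} (hD : SBound 𝒟 W D) (A : Λ) (B : Submodule F V) (hf : Finite B)
    (hB : ∀ b ∈ B, AlgMem 𝒟 W A b) (h0 : ∀ b ∈ B, b ∈ W A → b = 0) :
    Module.finrank F B ≤ D := by
  classical
  choose gen hgen T hT1 hT2 using hA
  have key : ∀ (n : ℕ) (B : Submodule F V), Finite B → Module.finrank F B ≤ n →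
      (∀ b ∈ B, AlgMem 𝒟 W A b) → (∀ b ∈ B, b ∈ W A → b = 0) →
      ∃ (Y : Finset (Pt Λ)) (U : Pt Λ → Submodule F V),
        (∀ y ∈ Y, (∃ b ∈ B, b ≠ 0 ∧ y ∈ Mn (hat (gen b)) ∧ ¬ y.mem A) ∧
          (IsOpen ({y} : Set (Pt Λ)) ∧ Finite (U y) ∧
            ∀ b ∈ U y, b ∈ Kx W y ∧ (∃ A, ¬ y.mem A ∧ AlgMem 𝒟 W A b) ∧
              (b ∈ Vm W y → b = 0))) ∧
        Module.finrank F B ≤ ∑ y ∈ Y, Module.finrank F (U y) := by
    intro n
    induction n with
    | zero =>
      intro B hf hn _ _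
      exact ⟨∅, fun _ => ⊥, by simp, by simpa using hn⟩
    | succ n ih =>
      intro B hf hn hB h0
      have hfin : (B : Set V).Finite := Set.toFinite _
      haveI : Module.Finite F B := Module.Finite.of_finite
      by_cases hbot : B = ⊥
      · subst hbot
        exact ⟨∅, fun _ => ⊥, by simp, by simp⟩
      set YB : Set (Pt Λ) := {y | ∃ b ∈ B, b ≠ 0 ∧ y ∈ Mn (hat (gen b)) ∧ ¬ y.mem A} with hYB
      have hYfin : YB.Finite := by
        refine (hfin.biUnion (t := fun b => Mn (hat (gen b))) ?_).subset ?_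
        · intro b _
          exact hS.min_fin _ (isClopen_hat _).isClosed (isUpperSet_hat _)
        · rintro y ⟨b, hb, _, hy, _⟩
          exact Set.mem_biUnion (show b ∈ (B : Set V) from hb) hy
      have hYne : YB.Nonempty := by
        obtain ⟨b, hb, hb0⟩ := Submodule.exists_mem_ne_zero_of_ne_bot hbot
        by_contra hne
        apply hb0
        apply h0 b hb
        apply hW.mono (A := gen b) _ (hgen b).1
        rw [← hat_subset_iff]
        intro x hx
        obtain ⟨m, hm, hmx⟩ := exists_min (isClopen_hat (gen b)).isClosed hx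
        by_contra hxA
        apply hne
        exact ⟨m, b, hb, hb0, hm, fun h => hxA (hmx A h)⟩
      obtain ⟨y, hy⟩ := hYfin.exists_minimal hYne
      obtain ⟨b0, hb0, hb00, hyM, hyA⟩ := hy.prop
      have hg0 : ∀ z : Pt Λ, ¬ z.mem (gen 0) := by
        intro z hz
        exact z.not_mem_bot (z.mem_of_le hz ((hgen 0).2 ⊥ (W ⊥).zero_mem))
      set A1 : Λ := hfin.toFinset.sup gen with hA1
      have hBA1 : ∀ b ∈ B, b ∈ W A1 := by
        intro b hb
        refine hW.mono ?_ (hgen b).1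
        exact Finset.le_sup (f := gen) (by simpa using hb)
      have hyA1 : y ∈ Mn (hat A1) := by
        refine ⟨?_, ?_⟩
        · show y.mem A1
          rw [hA1, Pt.mem_finset_sup]
          exact ⟨b0, by simpa using hb0, hyM.1⟩
        · intro z hz hzy
          have hz' : z.mem A1 := hz
          rw [hA1, Pt.mem_finset_sup] at hz'
          obtain ⟨b, hb, hzb⟩ := hz'
          have hbB : b ∈ B := by simpa using hb
          have hbne : b ≠ 0 := by
            rintro rfl
            exact hg0 z hzb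
          obtain ⟨m, hm, hmz⟩ := exists_min (isClopen_hat (gen b)).isClosed
            (show z ∈ hat (gen b) from hzb)
          have hmY : m ∈ YB := ⟨b, hbB, hbne, hm, fun h => hyA (hzy A (hmz A h))⟩
          have hmy : m ≤ y := le_trans hmz hzy
          have := hy.le_of_le hmY hmy
          exact le_antisymm hzy (le_trans this hmz)
      have hb0V : b0 ∉ Vm W y := by
        intro h
        obtain ⟨E, hE, hbE⟩ := (mem_Vm hW).1 h
        exact hE (y.mem_of_le hyM.1 ((hgen b0).2 E hbE))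
      have hlt : B ⊓ Vm W y < B := by
        refine lt_of_le_of_ne inf_le_left ?_
        intro h
        apply hb0V
        have : b0 ∈ B ⊓ Vm W y := by rw [h]; exact hb0
        exact this.2
      have hrk : Module.finrank F (B ⊓ Vm W y : Submodule F V) < Module.finrank F B :=
        Submodule.finrank_lt_finrank_of_lt hlt
      have hf1 : Finite (B ⊓ Vm W y : Submodule F V) :=
        (hfin.subset (fun b hb => hb.1)).to_subtype
      obtain ⟨Y1, U1, hY1, hr1⟩ := ih (B ⊓ Vm W y) hf1 (by omega) (fun b hb => hB b hb.1)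
        (fun b hb => h0 b hb.1)
      have hyY1 : y ∉ Y1 := by
        intro h
        obtain ⟨⟨b, hb, _, hyb, _⟩, _⟩ := hY1 y h
        obtain ⟨E, hE, hbE⟩ := (mem_Vm hW).1 hb.2
        exact hE (y.mem_of_le hyb.1 ((hgen b).2 E hbE))
      obtain ⟨C, hC⟩ := exists_isCompl (B ⊓ Vm W y)
      set U0 : Submodule F V := C ⊓ B with hU0
      have hsup : (B ⊓ Vm W y) ⊔ U0 = B := by
        rw [hU0, ← sup_inf_assoc_of_le _ (inf_le_left : B ⊓ Vm W y ≤ B), hC.sup_eq_top,
          top_inf_eq]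
      have hinf : (B ⊓ Vm W y) ⊓ U0 = ⊥ := by
        rw [eq_bot_iff, ← hC.inf_eq_bot]
        exact inf_le_inf le_rfl inf_le_left
      have hfU : Finite U0 := (hfin.subset (fun b hb => hb.2)).to_subtype
      haveI : Module.Finite F U0 := Module.Finite.of_finite
      haveI : Module.Finite F (B ⊓ Vm W y : Submodule F V) := Module.Finite.of_finite
      have hdim := Submodule.finrank_sup_add_finrank_inf_eq (B ⊓ Vm W y) U0
      rw [hsup, hinf, finrank_bot, add_zero] at hdim
      obtain ⟨U, hUy, hUn⟩ : ∃ U : Pt Λ → Submodule F V, U y = U0 ∧ ∀ z, z ≠ y → U z = U1 z :=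
        ⟨fun z => if z = y then U0 else U1 z, if_pos rfl, fun z h => if_neg h⟩
      refine ⟨insert y Y1, U, ?_, ?_⟩
      · intro z hz
        rcases Finset.mem_insert.1 hz with rfl | hz1
        · refine ⟨⟨b0, hb0, hb00, hyM, hyA⟩, ?_⟩
          rw [hUy]
          refine ⟨min_isolated hS (gen b0) (T b0) (hT1 b0) (hT2 b0) hyM, hfU, ?_⟩
          intro b hb
          refine ⟨⟨A1, hBA1 b hb.2, hyA1⟩, ⟨A, hyA, hB b hb.2⟩, ?_⟩
          intro hbV
          have : b ∈ (B ⊓ Vm W z) ⊓ U0 := ⟨⟨hb.2, hbV⟩, hb⟩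
          rw [hinf] at this
          exact (Submodule.mem_bot F).1 this
        · have hne : z ≠ y := by
            rintro rfl
            exact hyY1 hz1
          obtain ⟨⟨b, hb, hbne, hzb, hzA⟩, h2⟩ := hY1 z hz1
          refine ⟨⟨b, hb.1, hbne, hzb, hzA⟩, ?_⟩
          rw [hUn z hne]
          exact h2
      · rw [Finset.sum_insert hyY1, hUy]
        have h3 : ∑ x ∈ Y1, Module.finrank F (U x) = ∑ x ∈ Y1, Module.finrank F (U1 x) := by
          refine Finset.sum_congr rfl ?_
          intro x hx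
          have hne : x ≠ y := by
            rintro rfl
            exact hyY1 hx
          rw [hUn x hne]
        rw [h3, hdim]
        omega
  obtain ⟨Y, U, hY, hr⟩ := key _ B hf le_rfl hB h0
  exact hr.trans (hD Y U fun y hy => (hY y hy).2)

end TAU
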