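import Pool.Agent.TAU.Bas

/-! Project TAU, module TAU-Dnf: disjunctive normal form for `BF`, uniformly in the lattice space.

`dnf`: by induction on `χ` both `χ` and `neg χ` have a normal form (two lists `D`, `D'`); for `and χ ψ`, `D` is the list of
all concatenations `c ++ c'`, `c ∈ D χ`, `c' ∈ D ψ`, and `D'` is `D' χ ++ D' ψ`.
`bf_of_lits`, `bf_or_list`, `bf_and_list`: induction on the list; the empty conjunction needs a true `BF`: `basic 0 A0` for some
`A0 : Λ` (`lc 0 v = 0 ∈ W A0`). -/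

namespace TAU

/-- Literals: `(sign, μ, A)`. -/
abbrev Lit (F Λ ι : Type) := Bool × (ι → F) × Λ

variable {F Λ : Type} [Field F] {ι : Type} [Fintype ι]

/-- Truth of a literal. -/
def Lit.Real {V : Type} [AddCommGroup V] [Module F V] (W : Λ → Submodule F V)
    (l : Lit F Λ ι) (v : ι → V) : Prop :=
  (lc l.2.1 v ∈ W l.2.2 ↔ l.1 = true)

private theorem dnf_aux (χ : BF F Λ ι) :
    (∃ D : List (List (Lit F Λ ι)),
      ∀ (V : Type) [AddCommGroup V] [Module F V] (W : Λ → Submodule F V) (v : ι → V),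
        χ.Real W v ↔ ∃ c ∈ D, ∀ l ∈ c, l.Real W v) ∧
    ∃ D : List (List (Lit F Λ ι)),
      ∀ (V : Type) [AddCommGroup V] [Module F V] (W : Λ → Submodule F V) (v : ι → V),
        ¬ χ.Real W v ↔ ∃ c ∈ D, ∀ l ∈ c, l.Real W v := by
  induction χ with
  | basic μ A =>
    refine ⟨⟨[[(true, μ, A)]], ?_⟩, ⟨[[(false, μ, A)]], ?_⟩⟩
    · intro V _ _ W v
      constructor
      · intro h
        refine ⟨_, List.mem_singleton.2 rfl, fun l hl => ?_⟩
        rw [List.mem_singleton.1 hl]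
        exact ⟨fun _ => rfl, fun _ => h⟩
      · rintro ⟨c, hc, h⟩
        rw [List.mem_singleton.1 hc] at h
        exact (h _ (List.mem_singleton.2 rfl)).2 rfl
    · intro V _ _ W v
      constructor
      · intro h
        refine ⟨_, List.mem_singleton.2 rfl, fun l hl => ?_⟩
        rw [List.mem_singleton.1 hl]
        exact ⟨fun h' => absurd h' h, fun h' => absurd h' Bool.false_ne_true⟩
      · rintro ⟨c, hc, h⟩ h'
        rw [List.mem_singleton.1 hc] at h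
        exact Bool.false_ne_true ((h _ (List.mem_singleton.2 rfl)).1 h')
  | neg χ ih =>
    obtain ⟨⟨D, hD⟩, ⟨D', hD'⟩⟩ := ih
    refine ⟨⟨D', fun V _ _ W v => hD' V W v⟩, ⟨D, fun V _ _ W v => ?_⟩⟩
    rw [← hD V W v]
    exact not_not
  | and χ ψ ih ih' =>
    obtain ⟨⟨D, hD⟩, ⟨D', hD'⟩⟩ := ih
    obtain ⟨⟨E, hE⟩, ⟨E', hE'⟩⟩ := ih'
    refine ⟨⟨D.flatMap fun c => E.map fun c' => c ++ c', fun V _ _ W v => ?_⟩,
      ⟨D' ++ E', fun V _ _ W v => ?_⟩⟩
    · show (χ.Real W v ∧ ψ.Real W v) ↔ _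
      rw [hD V W v, hE V W v]
      constructor
      · rintro ⟨⟨c, hc, h⟩, ⟨c', hc', h'⟩⟩
        refine ⟨c ++ c', List.mem_flatMap.2 ⟨c, hc, List.mem_map.2 ⟨c', hc', rfl⟩⟩, fun l hl => ?_⟩
        rcases List.mem_append.1 hl with hl | hl
        · exact h l hl
        · exact h' l hl
      · rintro ⟨e, he, h⟩
        obtain ⟨c, hc, he⟩ := List.mem_flatMap.1 he
        obtain ⟨c', hc', rfl⟩ := List.mem_map.1 he
        exact ⟨⟨c, hc, fun l hl => h l (List.mem_append_left _ hl)⟩,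
          ⟨c', hc', fun l hl => h l (List.mem_append_right _ hl)⟩⟩
    · show ¬ (χ.Real W v ∧ ψ.Real W v) ↔ _
      rw [not_and_or, hD' V W v, hE' V W v]
      constructor
      · rintro (⟨c, hc, h⟩ | ⟨c, hc, h⟩)
        · exact ⟨c, List.mem_append_left _ hc, h⟩
        · exact ⟨c, List.mem_append_right _ hc, h⟩
      · rintro ⟨c, hc, h⟩
        rcases List.mem_append.1 hc with hc | hc
        · exact Or.inl ⟨c, hc, h⟩
        · exact Or.inr ⟨c, hc, h⟩

theorem dnf (χ : BF F Λ ι) : ∃ D : List (List (Lit F Λ ι)),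
    ∀ (V : Type) [AddCommGroup V] [Module F V] (W : Λ → Submodule F V) (v : ι → V),
      χ.Real W v ↔ ∃ c ∈ D, ∀ l ∈ c, l.Real W v :=
  (dnf_aux χ).1

private theorem true_bf [Nonempty Λ] : ∃ χ : BF F Λ ι,
    ∀ (V : Type) [AddCommGroup V] [Module F V] (W : Λ → Submodule F V) (v : ι → V), χ.Real W v := by
  refine ⟨.basic 0 (Classical.arbitrary Λ), fun V _ _ W v => ?_⟩
  show lc (0 : ι → F) v ∈ W _
  have h : lc (0 : ι → F) v = 0 := by
    unfold lc
    exact Finset.sum_eq_zero fun i _ => zero_smul F (v i)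
  rw [h]
  exact (W _).zero_mem

theorem bf_of_lits [Nonempty Λ] (c : List (Lit F Λ ι)) : ∃ χ : BF F Λ ι,
    ∀ (V : Type) [AddCommGroup V] [Module F V] (W : Λ → Submodule F V) (v : ι → V),
      χ.Real W v ↔ ∀ l ∈ c, l.Real W v := by
  induction c with
  | nil =>
    obtain ⟨χ, hχ⟩ := true_bf (F := F) (Λ := Λ) (ι := ι)
    exact ⟨χ, fun V _ _ W v => ⟨fun _ l hl => absurd hl List.not_mem_nil, fun _ => hχ V W v⟩⟩
  | cons l c ih =>
    obtain ⟨χ, hχ⟩ := ih
    have key : ∃ ψ : BF F Λ ι, ∀ (V : Type) [AddCommGroup V] [Module F V] (W : Λ → Submodule F V)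
        (v : ι → V), ψ.Real W v ↔ l.Real W v := by
      obtain ⟨s, μ, A⟩ := l
      cases s with
      | true =>
        exact ⟨.basic μ A, fun V _ _ W v => ⟨fun h => ⟨fun _ => rfl, fun _ => h⟩, fun h => h.2 rfl⟩⟩
      | false =>
        exact ⟨.neg (.basic μ A), fun V _ _ W v => ⟨fun h => ⟨fun h' => absurd h' h,
          fun h' => absurd h' Bool.false_ne_true⟩, fun h h' => Bool.false_ne_true (h.1 h')⟩⟩
    obtain ⟨ψ, hψ⟩ := key
    refine ⟨.and ψ χ, fun V _ _ W v => ?_⟩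
    show (ψ.Real W v ∧ χ.Real W v) ↔ _
    rw [hψ V W v, hχ V W v, List.forall_mem_cons]

theorem bf_and_list [Nonempty Λ] (D : List (BF F Λ ι)) : ∃ χ : BF F Λ ι,
    ∀ (V : Type) [AddCommGroup V] [Module F V] (W : Λ → Submodule F V) (v : ι → V),
      χ.Real W v ↔ ∀ ψ ∈ D, ψ.Real W v := by
  induction D with
  | nil =>
    obtain ⟨χ, hχ⟩ := true_bf (F := F) (Λ := Λ) (ι := ι)
    exact ⟨χ, fun V _ _ W v => ⟨fun _ l hl => absurd hl List.not_mem_nil, fun _ => hχ V W v⟩⟩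
  | cons ψ D ih =>
    obtain ⟨χ, hχ⟩ := ih
    refine ⟨.and ψ χ, fun V _ _ W v => ?_⟩
    show (ψ.Real W v ∧ χ.Real W v) ↔ _
    rw [hχ V W v, List.forall_mem_cons]

theorem bf_or_list [Nonempty Λ] (D : List (BF F Λ ι)) : ∃ χ : BF F Λ ι,
    ∀ (V : Type) [AddCommGroup V] [Module F V] (W : Λ → Submodule F V) (v : ι → V),
      χ.Real W v ↔ ∃ ψ ∈ D, ψ.Real W v := by
  obtain ⟨χ, hχ⟩ := bf_and_list (D.map BF.neg)
  refine ⟨.neg χ, fun V _ _ W v => ?_⟩
  show ¬ χ.Real W v ↔ _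
  rw [hχ V W v]
  constructor
  · intro h
    by_contra h'
    push Not at h'
    refine h fun ψ hψ => ?_
    obtain ⟨φ, hφ, rfl⟩ := List.mem_map.1 hψ
    exact h' φ hφ
  · rintro ⟨ψ, hψ, h⟩ h'
    exact h' _ (List.mem_map.2 ⟨ψ, hψ, rfl⟩) h

end TAU
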