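import Pool.Agent.TAU.Bas

/-! Project TAU, module TAU-DsB: basic closure lemmas for systems of definable sets.

`all`, `union`, `fin_all`, `fin_ex` by complements and induction; `lin`: the linear combinations are eliminated with
one quantifier and the basic relations `lc (μ i) v - w i ∈ W ⊥`. -/

namespace TAU

section
variable {V : Type} (𝒟 : DSys V) {ι κ : Type} [Finite ι] [Finite κ]

theorem DSys.union {s t : Set (ι → V)} (hs : 𝒟.Def s) (ht : 𝒟.Def t) : 𝒟.Def (s ∪ t) := by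
  have h := 𝒟.compl (𝒟.inter (𝒟.compl hs) (𝒟.compl ht))
  rwa [Set.compl_inter, compl_compl, compl_compl] at h

theorem DSys.all {s : Set (ι ⊕ κ → V)} (hs : 𝒟.Def s) :
    𝒟.Def {v : ι → V | ∀ w : κ → V, Sum.elim v w ∈ s} := by
  have h := 𝒟.compl (𝒟.ex (𝒟.compl hs))
  have e : {v : ι → V | ∀ w : κ → V, Sum.elim v w ∈ s} =
      {v : ι → V | ∃ w : κ → V, Sum.elim v w ∈ sᶜ}ᶜ := by
    ext v
    constructor
    · rintro h1 ⟨w, hw⟩
      exact hw (h1 w)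
    · intro h1 w
      by_contra h2
      exact h1 ⟨w, h2⟩
  rw [e]
  exact h

omit [Finite κ] in
private theorem dsb_univ (hne : ∃ t : Set (ι → V), 𝒟.Def t) : 𝒟.Def (Set.univ : Set (ι → V)) := by
  obtain ⟨t, ht⟩ := hne
  have h := DSys.union 𝒟 ht (𝒟.compl ht)
  rwa [Set.union_compl_self] at h

theorem DSys.fin_all {J : Type} [Finite J] (hne : ∃ t : Set (ι → V), 𝒟.Def t)
    (s : J → Set (ι → V)) (hs : ∀ j, 𝒟.Def (s j)) : 𝒟.Def {v | ∀ j, v ∈ s j} := by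
  classical
  have := Fintype.ofFinite J
  have key : ∀ S : Finset J, 𝒟.Def {v | ∀ j ∈ S, v ∈ s j} := by
    intro S
    induction S using Finset.induction_on with
    | empty =>
      have e : {v : ι → V | ∀ j ∈ (∅ : Finset J), v ∈ s j} = Set.univ := by
        ext v
        simp
      rw [e]
      exact dsb_univ 𝒟 hne
    | insert j S hj ih =>
      have e : {v : ι → V | ∀ i ∈ insert j S, v ∈ s i} = s j ∩ {v | ∀ i ∈ S, v ∈ s i} := by
        ext v
        simp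
      rw [e]
      exact 𝒟.inter (hs j) ih
  have e : {v : ι → V | ∀ j, v ∈ s j} = {v | ∀ j ∈ (Finset.univ : Finset J), v ∈ s j} := by
    ext v
    simp
  rw [e]
  exact key _

theorem DSys.fin_ex {J : Type} [Finite J] (hne : ∃ t : Set (ι → V), 𝒟.Def t)
    (s : J → Set (ι → V)) (hs : ∀ j, 𝒟.Def (s j)) : 𝒟.Def {v | ∃ j, v ∈ s j} := by
  have h := 𝒟.compl (DSys.fin_all 𝒟 hne (fun j => (s j)ᶜ) (fun j => 𝒟.compl (hs j)))
  have e : {v : ι → V | ∃ j, v ∈ s j} = {v | ∀ j, v ∈ (s j)ᶜ}ᶜ := by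
    ext v
    constructor
    · rintro ⟨j, hj⟩ h1
      exact h1 j hj
    · intro h1
      by_contra h2
      exact h1 fun j hj => h2 ⟨j, hj⟩
  rw [e]
  exact h

theorem DSys.univ (hne : ∃ t : Set (ι → V), 𝒟.Def t) : 𝒟.Def (Set.univ : Set (ι → V)) :=
  dsb_univ 𝒟 hne

theorem DSys.adj_param (a : κ → V) {s : Set (ι → V)} (hs : 𝒟.Def s) : (𝒟.adj a).Def s :=
  ⟨_, 𝒟.comap (Sum.inr : ι → κ ⊕ ι) hs, rfl⟩

end

section
variable {F Λ V : Type} [Field F] [DistribLattice Λ] [BoundedOrder Λ] [AddCommGroup V]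
  [Module F V] {W : Λ → Submodule F V} (hW : LatSpace W) (𝒟 : DSys V) (hl : 𝒟.Lin W)
  {ι κ : Type} [Fintype ι] [Fintype κ]
include hl

theorem DSys.ne_of_lin : ∃ t : Set (ι → V), 𝒟.Def t := ⟨_, hl (0 : ι → F) ⊥⟩

omit hl in
theorem DSys.adj_lin (hl : 𝒟.Lin W) (a : κ → V) : (𝒟.adj a).Lin W := by
  intro ι' _ μ A
  refine ⟨_, hl (Sum.elim (0 : κ → F) μ) A, ?_⟩
  ext v
  have e : lc (Sum.elim (0 : κ → F) μ) (Sum.elim a v) = lc μ v := by
    have h0 : (fun i => (Sum.elim (0 : κ → F) μ) (Sum.inl i)) = (0 : κ → F) := rfl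
    have h1 : (fun i => (Sum.elim (0 : κ → F) μ) (Sum.inr i)) = μ := rfl
    rw [lc_elim, h0, h1, lc_zero_left, zero_add]
  show lc μ v ∈ W A ↔ lc (Sum.elim (0 : κ → F) μ) (Sum.elim a v) ∈ W A
  rw [e]

include hW in
theorem DSys.lin {s : Set (ι → V)} (hs : 𝒟.Def s) (μ : ι → κ → F) :
    𝒟.Def {v : κ → V | (fun i => lc (μ i) v) ∈ s} := by
  classical
  have h1 : 𝒟.Def {u : κ ⊕ ι → V | (fun i => u (Sum.inr i)) ∈ s} := 𝒟.comap (Sum.inr : ι → κ ⊕ ι) hs
  have h2 : 𝒟.Def {u : κ ⊕ ι → V | ∀ i : ι, u ∈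
      {u : κ ⊕ ι → V | lc (Sum.elim (μ i) (Pi.single i (-1 : F))) u ∈ W ⊥}} :=
    DSys.fin_all 𝒟 (DSys.ne_of_lin 𝒟 hl) _ fun i => hl _ ⊥
  have h3 := 𝒟.ex (𝒟.inter h1 h2)
  have hlc : ∀ (i : ι) (v : κ → V) (w : ι → V),
      lc (Sum.elim (μ i) (Pi.single i (-1 : F))) (Sum.elim v w) = lc (μ i) v - w i := by
    intro i v w
    have e0 : (fun k => (Sum.elim (μ i) (Pi.single i (-1 : F))) (Sum.inl k)) = μ i := rfl
    have e1 : (fun k => (Sum.elim (μ i) (Pi.single i (-1 : F))) (Sum.inr k)) =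
        Pi.single i (-1 : F) := rfl
    rw [lc_elim, e0, e1, lc_single, neg_one_smul, sub_eq_add_neg]
  have e : {v : κ → V | (fun i => lc (μ i) v) ∈ s} = {v : κ → V | ∃ w : ι → V,
      Sum.elim v w ∈ {u : κ ⊕ ι → V | (fun i => u (Sum.inr i)) ∈ s} ∩
        {u : κ ⊕ ι → V | ∀ i : ι, u ∈
          {u : κ ⊕ ι → V | lc (Sum.elim (μ i) (Pi.single i (-1 : F))) u ∈ W ⊥}}} := by
    ext v
    constructor
    · intro hv
      refine ⟨fun i => lc (μ i) v, hv, fun i => ?_⟩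
      show lc (Sum.elim (μ i) (Pi.single i (-1 : F))) (Sum.elim v fun i => lc (μ i) v) ∈ W ⊥
      rw [hlc, sub_self]
      exact (W ⊥).zero_mem
    · rintro ⟨w, hw1, hw2⟩
      have hw : (fun i => lc (μ i) v) = w := by
        funext i
        have h4 : lc (Sum.elim (μ i) (Pi.single i (-1 : F))) (Sum.elim v w) ∈ W ⊥ := hw2 i
        rw [hlc, hW.mem_bot, sub_eq_zero] at h4
        exact h4
      show (fun i => lc (μ i) v) ∈ s
      rw [hw]
      exact hw1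
  rw [e]
  exact h3

include hW in
/-- A definable set in one variable, evaluated at a linear combination. -/
theorem DSys.lin1 {s : Set V} (hs : 𝒟.Def1 s) (μ : κ → F) :
    𝒟.Def {v : κ → V | lc μ v ∈ s} :=
  DSys.lin hW 𝒟 hl (ι := Unit) hs fun _ => μ

theorem DSys.def1_W (A : Λ) : 𝒟.Def1 (W A : Set V) := by
  have h := hl (ι := Unit) (fun _ => (1 : F)) A
  have e : {v : Unit → V | lc (fun _ : Unit => (1 : F)) v ∈ W A} =
      {v : Unit → V | v () ∈ (W A : Set V)} := by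
    ext v
    show lc (fun _ : Unit => (1 : F)) v ∈ W A ↔ v () ∈ W A
    have e1 : lc (fun _ : Unit => (1 : F)) v = v () := by
      unfold lc
      rw [Fintype.sum_unique, one_smul]
    rw [e1]
  rw [e] at h
  exact h

omit hl in
theorem DSys.def1_inter {s t : Set V} (hs : 𝒟.Def1 s) (ht : 𝒟.Def1 t) :
    𝒟.Def1 (s ∩ t) := 𝒟.inter hs ht

omit hl in
theorem DSys.def1_compl {s : Set V} (hs : 𝒟.Def1 s) : 𝒟.Def1 sᶜ := 𝒟.compl hs

omit hl in
theorem DSys.def1_union {s t : Set V} (hs : 𝒟.Def1 s) (ht : 𝒟.Def1 t) :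
    𝒟.Def1 (s ∪ t) := DSys.union 𝒟 hs ht

end

end TAU
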