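import Pool.Agent.TAU.Neu
import Pool.Agent.TAU.Crt
import Pool.Agent.TAU.Dnf

/-! Project TAU, module TAU-Elim: elimination of one existential quantifier from a conjunction of
literals, uniformly in the lattice space.

PROOF of `elim_conj`.  A literal `(b, ν, A)` over `Option ι` is true at `(y, v)` iff
`ν none • y + lc ν' v ∈ W A ↔ b = true`, where `ν' i = ν (some i)` (`lc_option`).  If `ν none = 0`
it is a literal in `v` alone; keep it outside of the quantifier.  If `ν none = a ≠ 0` it is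
equivalent to (`y - g v ∈ W A ↔ b = true`) with `g v = - a⁻¹ • lc ν' v = lc (- a⁻¹ • ν') v`.  So
split the list `c` in three lists: `c0` (no `y`), positive conditions `y - g_i v ∈ W (A i)`
(`i` in a finite index set / list `P`), negative conditions `y - h_j v ∉ W (B j)` (`j ∈ N`).
Claim (for fixed `v`, `g_i = g_i v`, `h_j = h_j v`): such a `y` exists iff
(1) for all `i, i' ∈ P`: `g_i - g_{i'} ∈ W (A i ⊔ A i')`, and
(2) for all `j ∈ N`: not (`A ≤ B j` and for all `i ∈ P`: `g_i - h_j ∈ W (A i ⊔ B j)`), where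
`A = inf_{i ∈ P} A i` (`⊤` if `P` is empty).
(→) (1): `g_i - g_{i'} = (y - g_{i'}) - (y - g_i)`.  (2): if `A ≤ B j` and `g_i - h_j ∈ W (A i ⊔ B j)`
for all `i`, then `y - h_j = (y - g_i) + (g_i - h_j) ∈ W (A i ⊔ B j)` for all `i ∈ P`, so `y - h_j`
is in `W (inf_i (A i ⊔ B j)) = W (A ⊔ B j) = W (B j)` (distributivity; if `P = ∅` then `A = ⊤ ≤ B j`
and `W (B j) = W ⊤` is everything), contradiction.
(←) By (1) and `crt` there is `v0` with `v0 - g_i ∈ W (A i)` for all `i ∈ P`; the solutions of the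
positive part contain `v0 + W A`.  By `avoid` with `u = v0` and `J = {(B j, h_j)}` it suffices that
`A ≤ B j` implies `v0 - h_j ∉ W (B j)`: otherwise `g_i - h_j = (v0 - h_j) - (v0 - g_i)` is in
`W (A i ⊔ B j)` for all `i`, against (2).
The conditions in (1), (2) are Boolean combinations of basic conditions on `v` (whether
`A ≤ B j` holds does not depend on `V`: decide it classically when `ρ` is constructed; use
`bf_and_list`, `bf_or_list`).  It is convenient to prove the claim first as a lemma about functions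
`g : Fin p → V`, `h : Fin q → V`. -/

namespace TAU

variable {F Λ : Type} [Field F] [DistribLattice Λ] [BoundedOrder Λ]

/-- The criterion for the solvability of a system of coset conditions. -/
theorem solvable_iff {V : Type} [AddCommGroup V] [Module F V] {W : Λ → Submodule F V}
    (hW : LatSpace W) {p q : ℕ} (g : Fin p → V) (A : Fin p → Λ) (h : Fin q → V)
    (B : Fin q → Λ) :
    (∃ y : V, (∀ i, y - g i ∈ W (A i)) ∧ ∀ j, y - h j ∉ W (B j)) ↔
      (∀ i i', g i - g i' ∈ W (A i ⊔ A i')) ∧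
        ∀ j, Finset.univ.inf A ≤ B j → ∃ i, g i - h j ∉ W (A i ⊔ B j) := by
  classical
  constructor
  · rintro ⟨y, hy, hn⟩
    refine ⟨?_, ?_⟩
    · intro i i'
      have h1 : g i - g i' = (y - g i') - (y - g i) := by abel
      rw [h1]
      exact Submodule.sub_mem _ (hW.mono le_sup_right (hy i')) (hW.mono le_sup_left (hy i))
    · intro j hj
      by_contra hcon
      push Not at hcon
      apply hn j
      have h2 : Finset.univ.inf (fun i => A i ⊔ B j) ≤ B j := by
        rw [← Finset.inf_sup_distrib_right]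
        exact sup_le hj le_rfl
      refine hW.mono h2 ((hW.mem_finset_inf _ _).mpr fun i _ => ?_)
      have h3 : y - h j = (y - g i) + (g i - h j) := by abel
      rw [h3]
      exact Submodule.add_mem _ (hW.mono le_sup_left (hy i)) (hcon i)
  · rintro ⟨h1, h2⟩
    obtain ⟨v0, hv0⟩ := crt hW Finset.univ g A (fun i _ j _ => h1 i j)
    obtain ⟨w, hw, hw2⟩ := avoid hW (Finset.univ.inf A) v0
      (Finset.univ.image fun j => (B j, h j)) (by
        intro jj hjj hle hmem
        obtain ⟨j, _, rfl⟩ := Finset.mem_image.mp hjj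
        obtain ⟨i, hi⟩ := h2 j hle
        apply hi
        have h3 : g i - h j = (v0 - h j) - (v0 - g i) := by abel
        rw [h3]
        exact Submodule.sub_mem _ (hW.mono le_sup_right hmem)
          (hW.mono le_sup_left (hv0 i (Finset.mem_univ i))))
    refine ⟨v0 + w, ?_, ?_⟩
    · intro i
      have h3 : v0 + w - g i = (v0 - g i) + w := by abel
      rw [h3]
      exact Submodule.add_mem _ (hv0 i (Finset.mem_univ i))
        (hW.mono (Finset.inf_le (Finset.mem_univ i)) hw)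
    · intro j
      exact hw2 (B j, h j) (Finset.mem_image_of_mem _ (Finset.mem_univ j))

private def IsBF (F Λ ι : Type) [Field F] [Fintype ι]
    (P : ∀ (V : Type) [AddCommGroup V] [Module F V], (Λ → Submodule F V) → (ι → V) → Prop) :
    Prop :=
  ∃ χ : BF F Λ ι, ∀ (V : Type) [AddCommGroup V] [Module F V] (W : Λ → Submodule F V)
    (v : ι → V), χ.Real W v ↔ P V W v

section
variable {ι : Type} [Fintype ι]

omit [DistribLattice Λ] [BoundedOrder Λ] in
private lemma isBF_basic (μ : ι → F) (A : Λ) :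
    IsBF F Λ ι (fun _ _ _ W v => lc μ v ∈ W A) :=
  ⟨.basic μ A, fun _ _ _ _ _ => Iff.rfl⟩

omit [DistribLattice Λ] [BoundedOrder Λ] in
private lemma isBF_not
    {P : ∀ (V : Type) [AddCommGroup V] [Module F V], (Λ → Submodule F V) → (ι → V) → Prop}
    (h : IsBF F Λ ι P) : IsBF F Λ ι (fun V _ _ W v => ¬ P V W v) := by
  obtain ⟨χ, hχ⟩ := h
  exact ⟨.neg χ, fun V _ _ W v => not_congr (hχ V W v)⟩

omit [DistribLattice Λ] [BoundedOrder Λ] in
private lemma isBF_and
    {P Q : ∀ (V : Type) [AddCommGroup V] [Module F V], (Λ → Submodule F V) → (ι → V) → Prop}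
    (h : IsBF F Λ ι P) (h' : IsBF F Λ ι Q) :
    IsBF F Λ ι (fun V _ _ W v => P V W v ∧ Q V W v) := by
  obtain ⟨χ, hχ⟩ := h
  obtain ⟨ψ, hψ⟩ := h'
  exact ⟨.and χ ψ, fun V _ _ W v => and_congr (hχ V W v) (hψ V W v)⟩

private lemma isBF_true :
    IsBF F Λ ι (fun _ _ _ _ _ => True) := by
  refine ⟨.basic 0 ⊥, fun V _ _ W v => ?_⟩
  show lc (0 : ι → F) v ∈ W ⊥ ↔ True
  rw [lc_zero_left]
  exact iff_true_intro (Submodule.zero_mem _)

private lemma isBF_imp (q : Prop)
    {P : ∀ (V : Type) [AddCommGroup V] [Module F V], (Λ → Submodule F V) → (ι → V) → Prop}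
    (h : IsBF F Λ ι P) : IsBF F Λ ι (fun V _ _ W v => q → P V W v) := by
  by_cases hq : q
  · obtain ⟨χ, hχ⟩ := h
    exact ⟨χ, fun V _ _ W v => (hχ V W v).trans ⟨fun h _ => h, fun h => h hq⟩⟩
  · obtain ⟨χ, hχ⟩ := isBF_true (F := F) (Λ := Λ) (ι := ι)
    exact ⟨χ, fun V _ _ W v => (hχ V W v).trans ⟨fun _ h => absurd h hq, fun _ => trivial⟩⟩

private lemma isBF_iff (b : Bool)
    {P : ∀ (V : Type) [AddCommGroup V] [Module F V], (Λ → Submodule F V) → (ι → V) → Prop}
    (h : IsBF F Λ ι P) : IsBF F Λ ι (fun V _ _ W v => (P V W v ↔ b = true)) := by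
  cases b with
  | true =>
    obtain ⟨χ, hχ⟩ := h
    exact ⟨χ, fun V _ _ W v => (hχ V W v).trans ⟨fun h => iff_of_true h rfl, fun h => h.mpr rfl⟩⟩
  | false =>
    obtain ⟨χ, hχ⟩ := isBF_not h
    refine ⟨χ, fun V _ _ W v => (hχ V W v).trans ⟨fun h => iff_of_false h Bool.false_ne_true,
      fun h h' => Bool.false_ne_true (h.mp h')⟩⟩

private lemma isBF_all {n : ℕ}
    {P : Fin n → ∀ (V : Type) [AddCommGroup V] [Module F V], (Λ → Submodule F V) → (ι → V) → Prop}
    (h : ∀ i, IsBF F Λ ι (P i)) : IsBF F Λ ι (fun V _ _ W v => ∀ i, P i V W v) := by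
  choose χ hχ using h
  haveI : Nonempty Λ := ⟨⊥⟩
  obtain ⟨ψ, hψ⟩ := bf_and_list (List.ofFn χ)
  refine ⟨ψ, fun V _ _ W v => (hψ V W v).trans ⟨fun H i => (hχ i V W v).mp (H _ ?_), ?_⟩⟩
  · exact (List.mem_ofFn' χ _).mpr ⟨i, rfl⟩
  · intro H ψ' hψ'
    obtain ⟨i, rfl⟩ := (List.mem_ofFn' χ _).mp hψ'
    exact (hχ i V W v).mpr (H i)

private lemma isBF_ex {n : ℕ}
    {P : Fin n → ∀ (V : Type) [AddCommGroup V] [Module F V], (Λ → Submodule F V) → (ι → V) → Prop}
    (h : ∀ i, IsBF F Λ ι (P i)) : IsBF F Λ ι (fun V _ _ W v => ∃ i, P i V W v) := by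
  choose χ hχ using h
  haveI : Nonempty Λ := ⟨⊥⟩
  obtain ⟨ψ, hψ⟩ := bf_or_list (List.ofFn χ)
  refine ⟨ψ, fun V _ _ W v => (hψ V W v).trans ⟨?_, ?_⟩⟩
  · rintro ⟨ψ', hψ', hr⟩
    obtain ⟨i, rfl⟩ := (List.mem_ofFn' χ _).mp hψ'
    exact ⟨i, (hχ i V W v).mp hr⟩
  · rintro ⟨i, hi⟩
    exact ⟨χ i, (List.mem_ofFn' χ _).mpr ⟨i, rfl⟩, (hχ i V W v).mpr hi⟩

omit [DistribLattice Λ] [BoundedOrder Λ] in
private lemma real_of_ne (l : Lit F Λ (Option ι)) (hl : l.2.1 none ≠ 0)
    (V : Type) [AddCommGroup V] [Module F V] (W : Λ → Submodule F V) (v : ι → V) (y : V) :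
    l.Real W (fun o => o.elim y v) ↔
      (y - lc (fun i => -(l.2.1 none)⁻¹ * l.2.1 (some i)) v ∈ W l.2.2 ↔ l.1 = true) := by
  unfold Lit.Real
  rw [lc_option]
  have h1 : (fun i => -(l.2.1 none)⁻¹ * l.2.1 (some i)) =
      (-(l.2.1 none)⁻¹) • (fun i => l.2.1 (some i)) := by
    funext i
    rfl
  have h2 : l.2.1 none • y + lc (fun i => l.2.1 (some i)) v =
      l.2.1 none • (y - lc (fun i => -(l.2.1 none)⁻¹ * l.2.1 (some i)) v) := by
    rw [h1, lc_smul_left, smul_sub, smul_smul, mul_neg, mul_inv_cancel₀ hl, neg_smul, one_smul,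
      sub_neg_eq_add]
  rw [h2, Submodule.smul_mem_iff _ hl]

omit [DistribLattice Λ] [BoundedOrder Λ] in
private lemma real_of_eq (l : Lit F Λ (Option ι)) (hl : l.2.1 none = 0)
    (V : Type) [AddCommGroup V] [Module F V] (W : Λ → Submodule F V) (v : ι → V) (y : V) :
    l.Real W (fun o => o.elim y v) ↔
      (lc (fun i => l.2.1 (some i)) v ∈ W l.2.2 ↔ l.1 = true) := by
  unfold Lit.Real
  rw [lc_option, hl, zero_smul, zero_add]

end

theorem elim_conj {ι : Type} [Fintype ι] (c : List (Lit F Λ (Option ι))) : ∃ ρ : BF F Λ ι,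
    ∀ (V : Type) [AddCommGroup V] [Module F V] (W : Λ → Submodule F V), LatSpace W →
      ∀ v : ι → V, ρ.Real W v ↔ ∃ y : V, ∀ l ∈ c, l.Real W (fun o => o.elim y v) := by
  classical
  obtain ⟨c1, hc1⟩ : ∃ c1 : List (Lit F Λ (Option ι)),
      ∀ l, l ∈ c1 ↔ l ∈ c ∧ (l.2.1 none ≠ 0 ∧ l.1 = true) :=
    ⟨c.filter (fun l => l.2.1 none ≠ 0 ∧ l.1 = true), fun l => by simp⟩
  obtain ⟨c2, hc2⟩ : ∃ c2 : List (Lit F Λ (Option ι)),
      ∀ l, l ∈ c2 ↔ l ∈ c ∧ (l.2.1 none ≠ 0 ∧ l.1 = false) :=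
    ⟨c.filter (fun l => l.2.1 none ≠ 0 ∧ l.1 = false), fun l => by simp⟩
  let nu : Lit F Λ (Option ι) → ι → F := fun l i => -(l.2.1 none)⁻¹ * l.2.1 (some i)
  have hBF : IsBF F Λ ι (fun V _ _ W v =>
      (∀ i : Fin c.length, (c.get i).2.1 none = 0 →
        (lc (fun i' => (c.get i).2.1 (some i')) v ∈ W (c.get i).2.2 ↔ (c.get i).1 = true)) ∧
      ((∀ i i' : Fin c1.length, lc (nu (c1.get i) - nu (c1.get i')) v ∈
          W ((c1.get i).2.2 ⊔ (c1.get i').2.2)) ∧
        ∀ j : Fin c2.length, Finset.univ.inf (fun i : Fin c1.length => (c1.get i).2.2) ≤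
            (c2.get j).2.2 →
          ∃ i : Fin c1.length, ¬ lc (nu (c1.get i) - nu (c2.get j)) v ∈
            W ((c1.get i).2.2 ⊔ (c2.get j).2.2))) := by
    refine isBF_and (isBF_all fun i => isBF_imp _ (isBF_iff _ (isBF_basic _ _)))
      (isBF_and (isBF_all fun i => isBF_all fun i' => isBF_basic _ _)
        (isBF_all fun j => isBF_imp _ (isBF_ex fun i => isBF_not (isBF_basic _ _))))
  obtain ⟨ρ, hρ⟩ := hBF
  refine ⟨ρ, fun V _ _ W hW v => (hρ V W v).trans ?_⟩
  have hs := solvable_iff hW (fun i : Fin c1.length => lc (nu (c1.get i)) v)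
    (fun i => (c1.get i).2.2) (fun j : Fin c2.length => lc (nu (c2.get j)) v)
    (fun j => (c2.get j).2.2)
  simp only [lc_sub_left]
  rw [← hs]
  constructor
  · rintro ⟨h0, y, hy1, hy2⟩
    refine ⟨y, fun l hl => ?_⟩
    by_cases hz : l.2.1 none = 0
    · rw [real_of_eq l hz]
      obtain ⟨i, rfl⟩ := List.get_of_mem hl
      exact h0 i hz
    · rw [real_of_ne l hz]
      by_cases hb : l.1 = true
      · obtain ⟨i, hi⟩ := List.get_of_mem ((hc1 l).mpr ⟨hl, hz, hb⟩)
        have := hy1 i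
        rw [hi] at this
        exact iff_of_true this hb
      · have hb' : l.1 = false := by simpa using hb
        obtain ⟨j, hj⟩ := List.get_of_mem ((hc2 l).mpr ⟨hl, hz, hb'⟩)
        have := hy2 j
        rw [hj] at this
        exact iff_of_false this hb
  · rintro ⟨y, hy⟩
    refine ⟨fun i hz => ?_, y, fun i => ?_, fun j => ?_⟩
    · exact (real_of_eq _ hz V W v y).mp (hy _ (List.get_mem _ _))
    · obtain ⟨hl, hz, hb⟩ := (hc1 _).mp (List.get_mem c1 i)
      exact ((real_of_ne _ hz V W v y).mp (hy _ hl)).mpr hb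
    · obtain ⟨hl, hz, hb⟩ := (hc2 _).mp (List.get_mem c2 j)
      intro hm
      have := ((real_of_ne _ hz V W v y).mp (hy _ hl)).mp hm
      rw [hb] at this
      exact Bool.false_ne_true this

end TAU
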