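import Pool.Agent.TAU.Neu
import Pool.Agent.TAU.Good

/-! Project TAU, module TAU-Fresh: extending an independent family by fresh elements.

One element (`fr_one`): for a pair `(A, C)` of `y` and finitely many vectors there is `w ∈ W A` such that
no linear combination of the vectors plus `w` lies in `Vm W y` (covering theorem `avoid`).
General: induction on a finite set of new indices. -/

namespace TAU

variable {F Λ V : Type} [Field F] [DistribLattice Λ] [BoundedOrder Λ] [AddCommGroup V]
  [Module F V] {W : Λ → Submodule F V}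

private theorem fr_one (hW : LatSpace W) [Finite F] {ι : Type} [Fintype ι] {y : Pt Λ} {A C : Λ}
    (h : Pair y A C) (v : ι → V) : ∃ w ∈ W A, ∀ l : ι → F, w + lc l v ∉ Vm W y := by
  classical
  have hF : Fintype F := Fintype.ofFinite F
  have hex : ∀ l : ι → F, ∃ g : V, (∃ w ∈ W A, w + lc l v ∈ Vm W y) →
      g ∈ W A ∧ g + lc l v ∈ Vm W y := by
    intro l
    by_cases hl : ∃ w ∈ W A, w + lc l v ∈ Vm W y
    · obtain ⟨w, hw, hw'⟩ := hl
      exact ⟨w, fun _ => ⟨hw, hw'⟩⟩
    · exact ⟨0, fun h' => absurd h' hl⟩
  choose g hg using hex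
  obtain ⟨w, hw, hw'⟩ := avoid hW A 0 (Finset.univ.image fun l : ι → F => (C, g l)) (by
    intro j hj hA
    obtain ⟨l, -, rfl⟩ := Finset.mem_image.1 hj
    exact absurd (y.mem_of_le h.1 hA) h.2.1)
  refine ⟨w, hw, fun l hl => ?_⟩
  obtain ⟨h1, h2⟩ := hg l ⟨w, hw, hl⟩
  have h3 := (Vm W y).sub_mem hl h2
  have e : w + lc l v - (g l + lc l v) = w - g l := by abel
  rw [e, mem_W_Vm hW h ((W A).sub_mem hw h1)] at h3
  have h4 := hw' (C, g l) (Finset.mem_image_of_mem _ (Finset.mem_univ l))
  rw [zero_add] at h4
  exact h4 h3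

omit [DistribLattice Λ] [BoundedOrder Λ] in
private theorem fr_update {ι : Type} [Fintype ι] [DecidableEq ι] (l : ι → F) (v : ι → V) (a : ι) (w : V) :
    lc l (Function.update v a w) = l a • w + lc (Function.update l a 0) v := by
  unfold lc
  rw [← Finset.add_sum_erase _ _ (Finset.mem_univ a),
    ← Finset.add_sum_erase (Finset.univ : Finset ι) (fun i => Function.update l a 0 i • v i)
      (Finset.mem_univ a), Function.update_self, Function.update_self, zero_smul, zero_add]
  congr 1
  refine Finset.sum_congr rfl fun i hi => ?_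
  have hia : i ≠ a := Finset.ne_of_mem_erase hi
  rw [Function.update_of_ne hia, Function.update_of_ne hia]

private theorem fr_ind (hW : LatSpace W) [Finite F] {κ ν : Type} [Fintype κ] [Fintype ν]
    (pt : κ → Pt Λ) (q : ν → Pt Λ) (pA pC : Pt Λ → Λ)
    (hq : ∀ k, Pair (q k) (pA (q k)) (pC (q k))) (b : κ → V) (hi : LInd W pt b) (s : Finset ν) :
    ∃ u : ν → V, (∀ k, u k ∈ W (pA (q k))) ∧ ∀ (x : Pt Λ) (l : κ ⊕ ν → F),
      (∀ k, Sum.elim pt q k ≠ x → l k = 0) → (∀ k, k ∉ s → l (Sum.inr k) = 0) →
      lc l (Sum.elim b u) ∈ Vm W x → ∀ k, l k = 0 := by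
  classical
  induction s using Finset.induction_on with
  | empty =>
    refine ⟨0, fun k => (W _).zero_mem, fun x l h1 h2 h3 => ?_⟩
    have hr : ∀ k, l (Sum.inr k) = 0 := fun k => h2 k (Finset.notMem_empty k)
    have e : lc l (Sum.elim b 0) = lc (fun k => l (Sum.inl k)) b := by
      unfold lc
      rw [Fintype.sum_sum_type]
      have h4 : ∑ k : ν, l (Sum.inr k) • (Sum.elim b 0 : κ ⊕ ν → V) (Sum.inr k) = 0 :=
        Finset.sum_eq_zero fun k _ => by rw [hr k, zero_smul]
      rw [h4, add_zero]
      rfl
    rw [e] at h3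
    have h5 := hi x (fun k => l (Sum.inl k)) (fun k hk => h1 (Sum.inl k) hk) h3
    rintro (k | k)
    · exact h5 k
    · exact hr k
  | insert a s ha ih =>
    obtain ⟨u, hu, hu'⟩ := ih
    obtain ⟨w, hw, hw'⟩ := fr_one hW (hq a) (Sum.elim b u)
    refine ⟨Function.update u a w, fun k => ?_, fun x l h1 h2 h3 => ?_⟩
    · by_cases hk : k = a
      · subst hk
        rw [Function.update_self]
        exact hw
      · rw [Function.update_of_ne hk]
        exact hu k
    · have e : (Sum.elim b (Function.update u a w) : κ ⊕ ν → V) =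
          Function.update (Sum.elim b u) (Sum.inr a) w := by
        funext k
        rcases k with k | k
        · rw [Function.update_of_ne (by simp)]
          rfl
        · by_cases hk : k = a
          · subst hk
            rw [Function.update_self, Sum.elim_inr, Function.update_self]
          · rw [Function.update_of_ne (fun h => hk (Sum.inr.inj h)), Sum.elim_inr, Sum.elim_inr,
              Function.update_of_ne hk]
      rw [e, fr_update] at h3
      by_cases hc : l (Sum.inr a) = 0
      · have e2 : Function.update l (Sum.inr a) 0 = l := by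
          funext k
          by_cases hk : k = Sum.inr a
          · subst hk
            rw [Function.update_self, hc]
          · rw [Function.update_of_ne hk]
        rw [hc, zero_smul, zero_add, e2] at h3
        refine hu' x l h1 (fun k hk => ?_) h3
        by_cases hka : k = a
        · rw [hka]
          exact hc
        · exact h2 k fun h => hk ((Finset.mem_insert.1 h).resolve_left hka)
      · exfalso
        have hx : q a = x := by
          by_contra hne
          exact hc (h1 (Sum.inr a) hne)
        subst hx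
        refine hw' ((l (Sum.inr a))⁻¹ • Function.update l (Sum.inr a) 0) ?_
        have h4 := (Vm W (q a)).smul_mem (l (Sum.inr a))⁻¹ h3
        rw [smul_add, smul_smul, inv_mul_cancel₀ hc, one_smul, ← lc_smul_left] at h4
        exact h4

theorem fresh (hW : LatSpace W) [Finite F] {κ ν : Type} [Fintype κ] [Fintype ν]
    (pt : κ → Pt Λ) (q : ν → Pt Λ) (pA pC : Pt Λ → Λ)
    (hq : ∀ k, Pair (q k) (pA (q k)) (pC (q k))) (b : κ → V) (hi : LInd W pt b) :
    ∃ u : ν → V, (∀ k, u k ∈ W (pA (q k))) ∧ LInd W (Sum.elim pt q) (Sum.elim b u) := by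
  obtain ⟨u, hu, hu'⟩ := fr_ind hW pt q pA pC hq b hi Finset.univ
  exact ⟨u, hu, fun x l h1 h2 => hu' x l h1 (fun k hk => absurd (Finset.mem_univ k) hk) h2⟩

end TAU
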