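import Pool.Agent.TAU.Neu

/-! Project TAU, module TAU-Gen1: generic translations.

Induction on a finset `s` of `κ` (conditions for the pairs `(l, B)` with `l k ≠ 0` and `¬ C k ≤ B` for some `k ∈ s`); in the step
the coordinate `k0` is moved by an element of `W (C k0)` which avoids finitely many cosets (`avoid`). -/

namespace TAU

variable {F Λ V : Type} [Field F] [DistribLattice Λ] [BoundedOrder Λ] [AddCommGroup V]
  [Module F V] {W : Λ → Submodule F V}

private theorem lc_pi_single {κ : Type} [Fintype κ] [DecidableEq κ] (l : κ → F) (k : κ) (w : V) :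
    lc l (Pi.single k w) = l k • w := by
  unfold lc
  rw [Finset.sum_eq_single k]
  · rw [Pi.single_eq_same]
  · intro i _ hi
    rw [Pi.single_eq_of_ne hi, smul_zero]
  · intro h
    exact absurd (Finset.mem_univ k) h

private theorem gs_step (hW : LatSpace W) [Finite F] {κ : Type} [Fintype κ] (C : κ → Λ)
    (v : κ → V) (𝓑 : Finset Λ) (k0 : κ) (u : κ → V) :
    ∃ w ∈ W (C k0), ∀ (l : κ → F) (B : Λ), B ∈ 𝓑 → l k0 ≠ 0 → ¬ C k0 ≤ B →
      lc l (v + u) + l k0 • w ∉ W B := by
  classical
  have hF : Fintype (κ → F) := Fintype.ofFinite _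
  obtain ⟨w, hw, hw'⟩ := avoid hW (C k0) 0
    (((Finset.univ : Finset (κ → F)) ×ˢ (𝓑.filter (fun B => ¬ C k0 ≤ B))).image
      (fun q => (q.2, -((q.1 k0)⁻¹ • lc q.1 (v + u))))) (fun j hj hA => by
        obtain ⟨q, hq, rfl⟩ := Finset.mem_image.1 hj
        exact absurd hA (Finset.mem_filter.1 (Finset.mem_product.1 hq).2).2)
  refine ⟨w, hw, fun l B hB hl hC hm => ?_⟩
  refine hw' (B, -((l k0)⁻¹ • lc l (v + u))) (Finset.mem_image.2 ⟨(l, B), Finset.mem_product.2
    ⟨Finset.mem_univ _, Finset.mem_filter.2 ⟨hB, hC⟩⟩, rfl⟩) ?_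
  have h1 := (W B).smul_mem (l k0)⁻¹ hm
  rw [smul_add, smul_smul, inv_mul_cancel₀ hl, one_smul, add_comm] at h1
  rw [zero_add, sub_neg_eq_add]
  exact h1

theorem generic_shift (hW : LatSpace W) [Finite F] {κ : Type} [Fintype κ] (C : κ → Λ)
    (v : κ → V) (𝓑 : Finset Λ) :
    ∃ u : κ → V, (∀ k, u k ∈ W (C k)) ∧ ∀ (l : κ → F) (B : Λ), B ∈ 𝓑 →
      (∃ k, l k ≠ 0 ∧ ¬ C k ≤ B) → lc l (v + u) ∉ W B := by
  classical
  have key : ∀ s : Finset κ, ∃ u : κ → V, (∀ k, u k ∈ W (C k)) ∧ ∀ (l : κ → F) (B : Λ), B ∈ 𝓑 →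
      (∃ k ∈ s, l k ≠ 0 ∧ ¬ C k ≤ B) → lc l (v + u) ∉ W B := by
    intro s
    induction s using Finset.induction_on with
    | empty =>
      refine ⟨0, fun k => (W (C k)).zero_mem, fun l B _ h => ?_⟩
      obtain ⟨k, hk, -⟩ := h
      exact absurd hk (Finset.notMem_empty k)
    | insert k0 s hk0 ih =>
      obtain ⟨u, hu, hu'⟩ := ih
      obtain ⟨w, hw, hw'⟩ := gs_step hW C v 𝓑 k0 u
      have e : ∀ l : κ → F, lc l (v + (u + Pi.single k0 w)) = lc l (v + u) + l k0 • w := by
        intro l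
        rw [← add_assoc, lc_add, lc_pi_single]
      refine ⟨u + Pi.single k0 w, fun k => ?_, fun l B hB h => ?_⟩
      · rw [Pi.add_apply]
        refine (W (C k)).add_mem (hu k) ?_
        by_cases hk : k = k0
        · subst hk
          rw [Pi.single_eq_same]
          exact hw
        · rw [Pi.single_eq_of_ne hk]
          exact (W (C k)).zero_mem
      · rw [e]
        by_cases h0 : l k0 ≠ 0 ∧ ¬ C k0 ≤ B
        · exact hw' l B hB h0.1 h0.2
        · have hmem : l k0 • w ∈ W B := by
            by_cases h1 : l k0 = 0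
            · rw [h1, zero_smul]
              exact (W B).zero_mem
            · have h2 : C k0 ≤ B := by
                by_contra h2
                exact h0 ⟨h1, h2⟩
              exact (W B).smul_mem _ (hW.mono h2 hw)
          obtain ⟨k, hk, hk'⟩ := h
          have hks : k ∈ s := by
            rcases Finset.mem_insert.1 hk with h3 | h3
            · subst h3
              exact absurd hk' h0
            · exact h3
          intro hm
          refine hu' l B hB ⟨k, hks, hk'⟩ ?_
          have h4 := (W B).sub_mem hm hmem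
          rwa [add_sub_cancel_right] at h4
  obtain ⟨u, hu, hu'⟩ := key Finset.univ
  refine ⟨u, hu, fun l B hB h => ?_⟩
  obtain ⟨k, hk⟩ := h
  exact hu' l B hB ⟨k, Finset.mem_univ k, hk⟩

end TAU
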