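import Pool.Agent.TAU.Gen1
import Pool.Agent.TAU.Good

/-! Project TAU, module TAU-Gen2: invariance of definable relations at independent families.

PROOF of `gen_inv`.  By `BoolComb.finite` there are finitely many basic conditions `lc l v ∈ W B`
which determine membership in `R`; let `𝓑` be the finset of the `B` which occur.  For a family `v`
as in the statement let `u` be given by `generic_shift` with `C k = pC (pt k)`, `v1 = v + u`.
CLAIM: for all `l : κ → F`, `B ∈ 𝓑`: `lc l v1 ∈ W B ↔ ∀ k, l k ≠ 0 → pA (pt k) ≤ B`.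
(←) `v1 k ∈ W (pA (pt k))` (`pC ≤ pA`).  (→) By genericity `pC (pt k) ≤ B` for all `k` with
`l k ≠ 0`.  Suppose `l k0 ≠ 0` and not `pA y0 ≤ B`, `y0 = pt k0`.  Then `B ∉ y0`: otherwise
`hat (pA y0) ⊆ {y0} ∪ hat (pC y0) ⊆ hat B`, so `pA y0 ≤ B` (`hat_subset_iff`).  Let `l1 k = l k` if
`pt k = y0` and `0` otherwise, `w = lc l1 v1`, so `w = lc l v1 - lc (l - l1) v1`.  For `k` with
`l k ≠ 0`, `y = pt k ≠ y0`: `pA y ∉ y0` (otherwise `pC y ∈ y0` by `Pair`, as `y0 ≠ y`, and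
`pC y ≤ B` gives `B ∈ y0`).  So `w ∈ W E` with `E = B ⊔ sup pA (pt k)` (over these `k`), and
`E ∉ y0` since `y0` is prime.  So `w ∈ Vm W y0`.  Since `u k ∈ W (pC (pt k)) ≤ Vm W (pt k)`,
`lc l1 v ∈ Vm W y0` too (`w - lc l1 v = lc l1 u`), so `l1 = 0` by `LInd`, contradicting
`l k0 ≠ 0`.
So `v1` and the corresponding `v1' = v' + u'` agree on all the basic conditions:
`v1 ∈ R ↔ v1' ∈ R`.  `v ∈ R → v1 ∈ R` and `v1' ∈ R → v' = v1' + (- u') ∈ R` by `hinv`. -/

namespace TAU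

variable {F Λ V : Type} [Field F] [DistribLattice Λ] [BoundedOrder Λ] [AddCommGroup V]
  [Module F V] {W : Λ → Submodule F V}

private theorem lc_mem {κ : Type} [Fintype κ] (S : Submodule F V) (l : κ → F) (v : κ → V)
    (h : ∀ k, l k ≠ 0 → v k ∈ S) : lc l v ∈ S := by
  unfold lc
  apply Submodule.sum_mem
  intro k _
  by_cases hk : l k = 0
  · rw [hk, zero_smul]
    exact S.zero_mem
  · exact S.smul_mem _ (h k hk)

private theorem shift_generic (hW : LatSpace W) [Finite F] {κ : Type} [Fintype κ] (pt : κ → Pt Λ)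
    (pA pC : Pt Λ → Λ) (hp : ∀ k, Pair (pt k) (pA (pt k)) (pC (pt k))) (𝓑 : Finset Λ)
    (v : κ → V) (hv : ∀ k, v k ∈ W (pA (pt k))) (hi : LInd W pt v) :
    ∃ u : κ → V, (∀ k, u k ∈ W (pC (pt k))) ∧ ∀ (l : κ → F) (B : Λ), B ∈ 𝓑 →
      (lc l (v + u) ∈ W B ↔ ∀ k, l k ≠ 0 → pA (pt k) ≤ B) := by
  classical
  obtain ⟨u, hu, hgen⟩ := generic_shift hW (fun k => pC (pt k)) v 𝓑
  refine ⟨u, hu, fun l B hB => ?_⟩
  have hv1 : ∀ k, (v + u) k ∈ W (pA (pt k)) := fun k =>
    (W _).add_mem (hv k) (hW.mono (hp k).2.2.1 (hu k))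
  constructor
  · intro hl
    have hC : ∀ k, l k ≠ 0 → pC (pt k) ≤ B := by
      intro k hk
      by_contra hc
      exact hgen l B hB ⟨k, hk, hc⟩ hl
    by_contra hcon
    push Not at hcon
    obtain ⟨k0, hk0, hA0⟩ := hcon
    have hB0 : ¬ (pt k0).mem B := by
      intro hm
      apply hA0
      apply hat_subset_iff.1
      intro z hz
      have hz' : z.mem (pA (pt k0)) := hz
      show z.mem B
      by_cases hzC : z.mem (pC (pt k0))
      · exact z.mem_of_le hzC (hC k0 hk0)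
      · rw [(hp k0).2.2.2 z hz' hzC]
        exact hm
    set l1 : κ → F := fun k => if pt k = pt k0 then l k else 0 with hl1
    have e1 : lc l1 (v + u) = lc l (v + u) - lc (l - l1) (v + u) := by
      rw [lc_sub_left]
      abel
    have hw1 : lc l (v + u) ∈ Vm W (pt k0) := (mem_Vm hW).2 ⟨B, hB0, hl⟩
    have hw2 : lc (l - l1) (v + u) ∈ Vm W (pt k0) := by
      apply lc_mem
      intro k hk
      have hne : pt k ≠ pt k0 := by
        intro he
        apply hk
        simp only [Pi.sub_apply, hl1, if_pos he, sub_self]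
      have hlk : l k ≠ 0 := by
        intro he
        apply hk
        simp only [Pi.sub_apply, hl1, if_neg hne, he, sub_self]
      refine (mem_Vm hW).2 ⟨pA (pt k), ?_, hv1 k⟩
      intro hm
      by_cases hmC : (pt k0).mem (pC (pt k))
      · exact hB0 ((pt k0).mem_of_le hmC (hC k hlk))
      · exact hne ((hp k).2.2.2 (pt k0) hm hmC).symm
    have hw3 : lc l1 u ∈ Vm W (pt k0) := by
      apply lc_mem
      intro k hk
      have he : pt k = pt k0 := by
        by_contra hne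
        apply hk
        simp only [hl1, if_neg hne]
      have h1 := hu k
      rw [he] at h1
      exact (mem_Vm hW).2 ⟨pC (pt k0), (hp k0).2.1, h1⟩
    have hw4 : lc l1 v ∈ Vm W (pt k0) := by
      have e2 : lc l1 v = lc l1 (v + u) - lc l1 u := by
        rw [lc_add]
        abel
      rw [e2, e1]
      exact (Vm W (pt k0)).sub_mem ((Vm W (pt k0)).sub_mem hw1 hw2) hw3
    have h0 := hi (pt k0) l1 (fun k hk => by simp only [hl1, if_neg hk]) hw4 k0
    simp only [hl1, if_true] at h0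
    exact hk0 h0
  · intro h
    apply lc_mem
    intro k hk
    exact hW.mono (h k hk) (hv1 k)

theorem gen_inv (hW : LatSpace W) [Finite F] {κ : Type} [Fintype κ] (pt : κ → Pt Λ)
    (pA pC : Pt Λ → Λ) (hp : ∀ k, Pair (pt k) (pA (pt k)) (pC (pt k))) (R : Set (κ → V))
    (hR : BoolComb (basics W κ) R)
    (hinv : ∀ v u : κ → V, (∀ k, u k ∈ W (pC (pt k))) → v ∈ R → v + u ∈ R) (v v' : κ → V)
    (hv : ∀ k, v k ∈ W (pA (pt k))) (hv' : ∀ k, v' k ∈ W (pA (pt k))) (hi : LInd W pt v)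
    (hi' : LInd W pt v') : v ∈ R → v' ∈ R := by
  classical
  intro hvR
  obtain ⟨𝒢, h𝒢, hdet⟩ := hR.finite
  have h𝒢' : ∀ t : {t // t ∈ 𝒢}, ∃ (μ : κ → F) (A : Λ), t.1 = {v | lc μ v ∈ W A} :=
    fun t => h𝒢 t.1 t.2
  choose μ A hμ using h𝒢'
  obtain ⟨u, hu, hg⟩ := shift_generic hW pt pA pC hp (𝒢.attach.image A) v hv hi
  obtain ⟨u', hu', hg'⟩ := shift_generic hW pt pA pC hp (𝒢.attach.image A) v' hv' hi'
  have h1 : v + u ∈ R := hinv v u hu hvR
  have h2 : v' + u' ∈ R := by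
    refine (hdet (v + u) (v' + u') ?_).1 h1
    intro t ht
    have hB : A ⟨t, ht⟩ ∈ 𝒢.attach.image A :=
      Finset.mem_image_of_mem _ (Finset.mem_attach _ _)
    have e := hμ ⟨t, ht⟩
    have e1 := hg (μ ⟨t, ht⟩) _ hB
    have e2 := hg' (μ ⟨t, ht⟩) _ hB
    have e3 : ∀ x, x ∈ t ↔ lc (μ ⟨t, ht⟩) x ∈ W (A ⟨t, ht⟩) := by
      intro x
      have e4 : t = {v | lc (μ ⟨t, ht⟩) v ∈ W (A ⟨t, ht⟩)} := e
      rw [Set.ext_iff] at e4
      exact e4 x
    rw [e3, e3]
    exact e1.trans e2.symm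
  have h3 := hinv (v' + u') (-u') (fun k => (W _).neg_mem (hu' k)) h2
  rwa [add_neg_cancel_right] at h3

end TAU
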