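import Pool.Agent.TAU.Defs

/-! Project TAU, module TAU-Lad: a relation without ladders of length `n` has bounded tree rank
(Shelah; Hodges, Lemma 6.7.9).

`Rk R n S`: the set `S` carries a full binary tree of height `n` with nodes in `Y`. -/

namespace TAU

/-- Tree rank at least `n`. -/
def Rk {X Y : Type} (R : X → Y → Prop) : ℕ → Set X → Prop
  | 0, S => S.Nonempty
  | n + 1, S => ∃ y, Rk R n (S ∩ {x | R x y}) ∧ Rk R n (S \ {x | R x y})

theorem Rk.mono {X Y : Type} (R : X → Y → Prop) (n : ℕ) {S T : Set X} (h : S ⊆ T)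
    (hS : Rk R n S) : Rk R n T := by
  induction n generalizing S T with
  | zero => exact Set.Nonempty.mono h hS
  | succ n ih =>
    obtain ⟨y, h1, h2⟩ := hS
    exact ⟨y, ih (Set.inter_subset_inter_left _ h) h1, ih (Set.sdiff_subset_sdiff_left h) h2⟩

theorem Rk.of_succ {X Y : Type} (R : X → Y → Prop) (n : ℕ) {S : Set X} (hS : Rk R (n + 1) S) :
    Rk R n S := by
  obtain ⟨y, h1, -⟩ := hS
  exact Rk.mono R n Set.inter_subset_left h1

/-- tree rank with nodes in a subset -/
private def RkY {X Y : Type} (R : X → Y → Prop) (Y0 : Set Y) : ℕ → Set X → Prop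
  | 0, S => S.Nonempty
  | n + 1, S => ∃ y ∈ Y0, RkY R Y0 n (S ∩ {x | R x y}) ∧ RkY R Y0 n (S \ {x | R x y})

private theorem rkY_mono {X Y : Type} (R : X → Y → Prop) {Y0 Y1 : Set Y} (hY : Y0 ⊆ Y1) (n : ℕ) :
    ∀ {S T : Set X}, S ⊆ T → RkY R Y0 n S → RkY R Y1 n T := by
  induction n with
  | zero => exact fun h hS => Set.Nonempty.mono h hS
  | succ n ih =>
    intro S T h hS
    obtain ⟨y, hy, h1, h2⟩ := hS
    exact ⟨y, hY hy, ih (Set.inter_subset_inter_left _ h) h1,
      ih (Set.sdiff_subset_sdiff_left h) h2⟩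

private theorem rkY_ne {X Y : Type} (R : X → Y → Prop) {Y0 : Set Y} (n : ℕ) :
    ∀ {S : Set X}, RkY R Y0 n S → S.Nonempty := by
  induction n with
  | zero => exact fun h => h
  | succ n ih =>
    intro S hS
    obtain ⟨y, _, h1, _⟩ := hS
    exact (ih h1).mono Set.inter_subset_left

private theorem rkY_of_rk {X Y : Type} (R : X → Y → Prop) (n : ℕ) :
    ∀ {S : Set X}, Rk R n S → RkY R Set.univ n S := by
  induction n with
  | zero => exact fun h => h
  | succ n ih =>
    intro S hS
    obtain ⟨y, h1, h2⟩ := hS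
    exact ⟨y, Set.mem_univ _, ih h1, ih h2⟩

private theorem rkY_split {X Y : Type} (R : X → Y → Prop) (Y0 C : Set Y) : ∀ (N p q : ℕ),
    p + q = N → ∀ S : Set X, RkY R Y0 N S → RkY R (Y0 ∩ C) p S ∨ RkY R (Y0 \ C) q S := by
  intro N
  induction N with
  | zero =>
    intro p q hpq S hS
    have h1 : p = 0 := by omega
    subst h1
    exact Or.inl hS
  | succ N ih =>
    intro p q hpq S hS
    cases p with
    | zero => exact Or.inl (rkY_ne R _ hS)
    | succ p =>
      cases q with
      | zero => exact Or.inr (rkY_ne R _ hS)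
      | succ q =>
        obtain ⟨y, hy, h1, h2⟩ := hS
        by_cases hC : y ∈ C
        · have e : p + (q + 1) = N := by omega
          rcases ih p (q + 1) e _ h1 with h3 | h3
          · rcases ih p (q + 1) e _ h2 with h4 | h4
            · exact Or.inl ⟨y, ⟨hy, hC⟩, h3, h4⟩
            · exact Or.inr (rkY_mono R (subset_refl _) _ Set.sdiff_subset h4)
          · exact Or.inr (rkY_mono R (subset_refl _) _ Set.inter_subset_left h3)
        · have e : p + 1 + q = N := by omega
          rcases ih (p + 1) q e _ h1 with h3 | h3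
          · exact Or.inl (rkY_mono R (subset_refl _) _ Set.inter_subset_left h3)
          · rcases ih (p + 1) q e _ h2 with h4 | h4
            · exact Or.inl (rkY_mono R (subset_refl _) _ Set.sdiff_subset h4)
            · exact Or.inr ⟨y, ⟨hy, hC⟩, h3, h4⟩

private theorem rk_claim {X Y : Type} (R : X → Y → Prop) (n : ℕ) (h : ¬ Ladder R n) :
    ∀ (s a b r1 r2 : ℕ), a + b = s → r1 + a = n → r2 + b = n + 1 → ∃ N : ℕ,
      ∀ (x : ℕ → X) (y : ℕ → Y) (x' : ℕ → X) (y' : ℕ → Y) (Y0 : Set Y) (S : Set X),
        (∀ i < r1, ∀ j < r1, (R (x i) (y j) ↔ i ≤ j)) → (∀ i < r1, ∀ z ∈ Y0, R (x i) z) →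
        (∀ j < r1, ∀ w ∈ S, ¬ R w (y j)) →
        (∀ i < r2, ∀ j < r2, (R (x' i) (y' j) ↔ j < i)) → (∀ i < r2, ∀ z ∈ Y0, ¬ R (x' i) z) →
        (∀ j < r2, ∀ w ∈ S, R w (y' j)) → ¬ RkY R Y0 N S := by
  intro s
  induction s with
  | zero =>
    intro a b r1 r2 hab h1 h2
    have ha : r1 = n := by omega
    subst ha
    refine ⟨0, fun x y x' y' Y0 S hl _ _ _ _ _ _ => h ⟨fun i => x i, fun j => y j, ?_⟩⟩
    intro i j
    rw [hl i i.2 j j.2]
    exact Iff.rfl
  | succ s ih =>
    intro a b r1 r2 hab h1 h2
    cases a with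
    | zero =>
      have ha : r1 = n := by omega
      subst ha
      refine ⟨0, fun x y x' y' Y0 S hl _ _ _ _ _ _ => h ⟨fun i => x i, fun j => y j, ?_⟩⟩
      intro i j
      rw [hl i i.2 j j.2]
      exact Iff.rfl
    | succ a =>
      cases b with
      | zero =>
        have hb : r2 = n + 1 := by omega
        subst hb
        refine ⟨0, fun x y x' y' Y0 S _ _ _ hr _ _ _ =>
          h ⟨fun i => x' (n - i), fun j => y' (n - 1 - j), ?_⟩⟩
        intro i j
        have hi := i.2
        have hj := j.2
        rw [hr (n - i) (by omega) (n - 1 - j) (by omega), Fin.le_def]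
        omega
      | succ b =>
        obtain ⟨N1, hN1⟩ := ih a (b + 1) (r1 + 1) r2 (by omega) (by omega) h2
        obtain ⟨N2, hN2⟩ := ih (a + 1) b r1 (r2 + 1) (by omega) h1 (by omega)
        refine ⟨(N1 + 1) + (N2 + 1), ?_⟩
        intro x y x' y' Y0 S hl1 hl2 hl3 hr1 hr2 hr3 hS
        obtain ⟨x0, hx0⟩ := rkY_ne R _ hS
        rcases rkY_split R Y0 {z | R x0 z} _ (N1 + 1) (N2 + 1) rfl S hS with h3 | h3
        · obtain ⟨y0, hy0, -, h4⟩ := h3
          refine hN1 (fun i => if i < r1 then x i else x0) (fun i => if i < r1 then y i else y0)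
            x' y' (Y0 ∩ {z | R x0 z}) (S \ {w | R w y0}) ?_ ?_ ?_ hr1 ?_ ?_ h4
          · intro i hi j hj
            rcases Nat.lt_succ_iff_lt_or_eq.1 hi with hi' | hi'
            · rcases Nat.lt_succ_iff_lt_or_eq.1 hj with hj' | hj'
              · rw [if_pos hi', if_pos hj']
                exact hl1 i hi' j hj'
              · rw [if_pos hi', if_neg (by omega)]
                exact ⟨fun _ => by omega, fun _ => hl2 i hi' y0 hy0.1⟩
            · rcases Nat.lt_succ_iff_lt_or_eq.1 hj with hj' | hj'
              · rw [if_neg (by omega), if_pos hj']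
                exact ⟨fun h5 => absurd h5 (hl3 j hj' x0 hx0), fun h5 => by omega⟩
              · rw [if_neg (by omega), if_neg (by omega)]
                exact ⟨fun _ => by omega, fun _ => hy0.2⟩
          · intro i hi z hz
            rcases Nat.lt_succ_iff_lt_or_eq.1 hi with hi' | hi'
            · rw [if_pos hi']
              exact hl2 i hi' z hz.1
            · rw [if_neg (by omega)]
              exact hz.2
          · intro j hj w hw
            rcases Nat.lt_succ_iff_lt_or_eq.1 hj with hj' | hj'
            · rw [if_pos hj']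
              exact hl3 j hj' w hw.1
            · rw [if_neg (by omega)]
              exact hw.2
          · intro i hi z hz
            exact hr2 i hi z hz.1
          · intro j hj w hw
            exact hr3 j hj w hw.1
        · obtain ⟨y0, hy0, h4, -⟩ := h3
          refine hN2 x y (fun i => if i < r2 then x' i else x0)
            (fun i => if i < r2 then y' i else y0)
            (Y0 \ {z | R x0 z}) (S ∩ {w | R w y0}) hl1 ?_ ?_ ?_ ?_ ?_ h4
          · intro i hi z hz
            exact hl2 i hi z hz.1
          · intro j hj w hw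
            exact hl3 j hj w hw.1
          · intro i hi j hj
            rcases Nat.lt_succ_iff_lt_or_eq.1 hi with hi' | hi'
            · rcases Nat.lt_succ_iff_lt_or_eq.1 hj with hj' | hj'
              · rw [if_pos hi', if_pos hj']
                exact hr1 i hi' j hj'
              · rw [if_pos hi', if_neg (by omega)]
                exact ⟨fun h5 => absurd h5 (hr2 i hi' y0 hy0.1), fun h5 => by omega⟩
            · rcases Nat.lt_succ_iff_lt_or_eq.1 hj with hj' | hj'
              · rw [if_neg (by omega), if_pos hj']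
                exact ⟨fun _ => by omega, fun _ => hr3 j hj' x0 hx0⟩
              · rw [if_neg (by omega), if_neg (by omega)]
                exact ⟨fun h5 => absurd h5 hy0.2, fun h5 => by omega⟩
          · intro i hi z hz
            rcases Nat.lt_succ_iff_lt_or_eq.1 hi with hi' | hi'
            · rw [if_pos hi']
              exact hr2 i hi' z hz.1
            · rw [if_neg (by omega)]
              exact hz.2
          · intro j hj w hw
            rcases Nat.lt_succ_iff_lt_or_eq.1 hj with hj' | hj'
            · rw [if_pos hj']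
              exact hr3 j hj' w hw.1
            · rw [if_neg (by omega)]
              exact hw.2

theorem no_rank {X Y : Type} (R : X → Y → Prop) (n : ℕ) (h : ¬ Ladder R n) :
    ∃ N, ¬ Rk R N Set.univ := by
  rcases isEmpty_or_nonempty X with hX | ⟨⟨x0⟩⟩
  · exact ⟨0, fun hS => hX.elim hS.some⟩
  rcases isEmpty_or_nonempty Y with hY | ⟨⟨y0⟩⟩
  · refine ⟨1, ?_⟩
    rintro ⟨y, _⟩
    exact hY.elim y
  obtain ⟨N, hN⟩ := rk_claim R n h (n + (n + 1)) n (n + 1) 0 0 rfl (by omega) (by omega)
  refine ⟨N, fun hS => hN (fun _ => x0) (fun _ => y0) (fun _ => x0) (fun _ => y0) Set.univ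
    Set.univ ?_ ?_ ?_ ?_ ?_ ?_ (rkY_of_rk R N hS)⟩
  all_goals
    intro i hi
    exact absurd hi (Nat.not_lt_zero i)

end TAU
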