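import Pool.Agent.TAU.Cov

/-! Project TAU, module TAU-LemA: the type of `d` is determined by its algebraic cosets (abstract
form).

PROOF of `abs_type`.  `AlgC Df ⊤ d` holds (`E = Y`: `Df univ` from `D ∪ Dᶜ`, or
`(D ∩ Dᶜ)ᶜ`; `T = {0}`), and `AlgC` is closed under intersections: `AlgC Df G d`, `AlgC Df H d`
give `AlgC Df (G ⊓ H) d` with `E ∩ E'` (one representative for each nonempty intersection of
cosets).  So there is a least `G ∈ 𝒮` with `AlgC Df G d`: let `G` be the intersection of all of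
them (finite, in `𝒮`; or a minimal element: a minimal one is least).  Let `G'` be the least one for
`d'`.  By `h1`, `d' - d ∈ G`, so `d' + G = d + G` and `AlgC Df G d'` (same `E`, which is closed
under `+ G`), so `G' ≤ G`; by `h2` similarly `G ≤ G'`.  So `G = G'`, `d' - d ∈ G`.
Let `E` witness `AlgC Df G d`; `d' ∈ E`.  Let `N` be the number of elements of the finset `𝒞` and
`𝒯 = {H ∈ 𝒮 | H < G}`.
(*) For every `y` one of `D ∩ (y + G)` and `(y + G) \ D` is covered by `N` cosets of members of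
`𝒯`: consider the set `K0` of the points of `K = y + G` which lie in no `C ∈ 𝒞` with `K ⊄ C`
(`C` stands for the coset `C.2 + C.1`).  Any two points of `K0` lie in the same members of `𝒞`
(those with `K ⊆ C`), so by `hBC` either `K0 ⊆ D` or `K0 ∩ D = ∅`.  In the first case `K \ D`, in
the second case `D ∩ K` is contained in the union of the `C ∩ K`, `C ∈ 𝒞`, `K ⊄ C`; such a nonempty
`C ∩ K` is a coset of `C.1 ⊓ G`, which is `< G` (if `G ≤ C.1` and `C ∩ K ≠ ∅` then `K ⊆ C`).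
Hence (cover by the family indexed by `Fin N × 𝒯`, i.e. `N` cosets of each member of `𝒯`, in order
to have a fixed list of groups): let
`E1 = {y ∈ E | D ∩ (y + G) is covered by such a family}`,
`E2 = {y ∈ E | (y + G) \ D is covered by such a family}`; both in `Df` by `cov`, `E = E1 ∪ E2`,
both closed under `+ G`.
If `d ∈ E1`: `D1 = D ∩ E1` is in `Df` and is covered by finitely many cosets of members of `𝒯`
(finitely many cosets of `G` cover `E`), so by `cov_claim` every point of `D1` satisfies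
`AlgC Df H` for some `H ∈ 𝒮`, `H < G`; by minimality of `G` for `d` (and for `d'`) neither `d` nor
`d'` is in `D1`; but both are in `E1` (`d' ∈ d + G`), so neither is in `D`.
If `d ∈ E2`: in the same way with `Dᶜ` for `D`: both are in `D`.
In both cases `d ∈ D → d' ∈ D`. -/

namespace TAU

variable {Y : Type} [AddCommGroup Y]

private theorem alg_univ {Df : Set Y → Prop} {𝒮 : Finset (AddSubgroup Y)} (hS : CovSys Df 𝒮)
    {D : Set Y} (hD : Df D) (d : Y) : AlgC Df ⊤ d := by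
  have hu : Df Set.univ := by
    have h := hS.compl _ (hS.inter _ _ hD (hS.compl _ hD))
    rwa [Set.inter_compl_self, Set.compl_empty] at h
  exact ⟨Set.univ, hu, trivial, fun _ _ _ _ => trivial, {0}, fun x _ =>
    ⟨0, Finset.mem_singleton_self _, trivial⟩⟩

private theorem alg_inf {Df : Set Y → Prop} {𝒮 : Finset (AddSubgroup Y)} (hS : CovSys Df 𝒮)
    {G H : AddSubgroup Y} {d : Y} (hG : AlgC Df G d) (hH : AlgC Df H d) :
    AlgC Df (G ⊓ H) d := by
  classical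
  obtain ⟨E, hE, hdE, hEG, T, hT⟩ := hG
  obtain ⟨E', hE', hdE', hEH, T', hT'⟩ := hH
  refine ⟨E ∩ E', hS.inter _ _ hE hE', ⟨hdE, hdE'⟩, fun x hx g hg =>
    ⟨hEG x hx.1 g hg.1, hEH x hx.2 g hg.2⟩, ?_⟩
  let r : Y × Y → Y := fun p => if h : ∃ x, x - p.1 ∈ G ∧ x - p.2 ∈ H then h.choose else 0
  refine ⟨(T ×ˢ T').image r, ?_⟩
  rintro x ⟨hx, hx'⟩
  obtain ⟨t, ht, hxt⟩ := hT x hx
  obtain ⟨t', ht', hxt'⟩ := hT' x hx'
  refine ⟨r (t, t'), Finset.mem_image_of_mem _ (Finset.mem_product.2 ⟨ht, ht'⟩), ?_⟩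
  have h : ∃ x, x - (t, t').1 ∈ G ∧ x - (t, t').2 ∈ H := ⟨x, hxt, hxt'⟩
  have hr : r (t, t') = h.choose := by
    simp only [r]
    rw [dif_pos h]
  rw [hr]
  obtain ⟨h1, h2⟩ := h.choose_spec
  refine ⟨?_, ?_⟩
  · have := G.sub_mem hxt h1
    simpa using this
  · have := H.sub_mem hxt' h2
    simpa using this

private theorem alg_least {Df : Set Y → Prop} {𝒮 : Finset (AddSubgroup Y)} (hS : CovSys Df 𝒮)
    {D : Set Y} (hD : Df D) (d : Y) :
    ∃ G ∈ 𝒮, AlgC Df G d ∧ ∀ H ∈ 𝒮, AlgC Df H d → G ≤ H := by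
  classical
  have hne : (𝒮.filter fun G => AlgC Df G d).Nonempty :=
    ⟨⊤, Finset.mem_filter.2 ⟨hS.top, alg_univ hS hD d⟩⟩
  obtain ⟨G, hG⟩ := (𝒮.filter fun G => AlgC Df G d).exists_minimal hne
  obtain ⟨hG1, hG2⟩ := Finset.mem_filter.1 hG.1
  refine ⟨G, hG1, hG2, fun H hH hHd => ?_⟩
  have h := hG.2 (Finset.mem_filter.2 ⟨hS.inf G hG1 H hH, alg_inf hS hG2 hHd⟩) inf_le_left
  exact h.trans inf_le_right

private theorem no_cover {Df : Set Y → Prop} {𝒮 : Finset (AddSubgroup Y)} (hS : CovSys Df 𝒮)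
    {G : AddSubgroup Y} (hG : G ∈ 𝒮) {E X : Set Y} (hE : Df E) (hX : Df X)
    (T : Finset Y) (hT : ∀ x ∈ E, ∃ t ∈ T, x - t ∈ G) {n : ℕ} (H : Fin n → AddSubgroup Y)
    (hH : ∀ i, H i ∈ 𝒮) (hlt : ∀ i, H i < G) {d : Y} (hmin : ∀ H ∈ 𝒮, AlgC Df H d → G ≤ H)
    (hdE : d ∈ E) (hdX : d ∈ X)
    (hdc : ∃ h : Fin n → Y, ∀ w ∈ X, w - d ∈ G → ∃ i, w - h i ∈ H i) : False := by
  classical
  let C : Set Y := {y | ∃ h : Fin n → Y, ∀ w ∈ X, w - y ∈ G → ∃ i, w - h i ∈ H i}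
  have hC : Df C := hS.cov X hX G hG n H hH
  let hh : Y → Fin n → Y := fun t => if h : ∃ h' : Fin n → Y, ∀ w ∈ X, w - t ∈ G →
    ∃ i, w - h' i ∈ H i then h.choose else 0
  let J : Finset (AddSubgroup Y × Y) := T.biUnion fun t => Finset.univ.image fun i => (H i, hh t i)
  let 𝒯 : Finset (AddSubgroup Y) := Finset.univ.image H
  have h1 := cov_claim hS 𝒯 (fun K hK => by
    obtain ⟨i, _, rfl⟩ := Finset.mem_image.1 hK
    exact hH i) (X ∩ (E ∩ C)) (hS.inter _ _ hX (hS.inter _ _ hE hC)) J (fun j hj => by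
      obtain ⟨t, _, ht⟩ := Finset.mem_biUnion.1 hj
      obtain ⟨i, _, rfl⟩ := Finset.mem_image.1 ht
      exact Finset.mem_image_of_mem _ (Finset.mem_univ i)) (by
      rintro w ⟨hwX, hwE, h', hwC⟩
      obtain ⟨t, ht, hwt⟩ := hT w hwE
      have hex : ∃ h' : Fin n → Y, ∀ w ∈ X, w - t ∈ G → ∃ i, w - h' i ∈ H i := by
        refine ⟨h', fun u hu hut => hwC u hu ?_⟩
        have := G.sub_mem hut hwt
        simpa using this
      have hht : hh t = hex.choose := by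
        simp only [hh]
        rw [dif_pos hex]
      obtain ⟨i, hi⟩ := hex.choose_spec w hwX hwt
      refine ⟨(H i, hh t i), Finset.mem_biUnion.2 ⟨t, ht, Finset.mem_image_of_mem _
        (Finset.mem_univ i)⟩, ?_⟩
      simp only
      rw [hht]
      exact hi) d ⟨hdX, hdE, hdc⟩
  obtain ⟨K, hK, ⟨L, hL, hKL⟩, hKd⟩ := h1
  obtain ⟨i, _, rfl⟩ := Finset.mem_image.1 hL
  exact absurd ((hmin K hK hKd).trans hKL) (not_le_of_gt (hlt i))

theorem abs_type {Df : Set Y → Prop} {𝒮 : Finset (AddSubgroup Y)} (hS : CovSys Df 𝒮) (D : Set Y)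
    (hD : Df D) (𝒞 : Finset (AddSubgroup Y × Y)) (h𝒞 : ∀ C ∈ 𝒞, C.1 ∈ 𝒮)
    (hBC : ∀ x y : Y, (∀ C ∈ 𝒞, (x - C.2 ∈ C.1 ↔ y - C.2 ∈ C.1)) → (x ∈ D ↔ y ∈ D))
    (d d' : Y) (h1 : ∀ G ∈ 𝒮, AlgC Df G d → d' - d ∈ G)
    (h2 : ∀ G ∈ 𝒮, AlgC Df G d' → d' - d ∈ G) : d ∈ D → d' ∈ D := by
  classical
  obtain ⟨G, hG, hGd, hGmin⟩ := alg_least hS hD d
  obtain ⟨G', hG', hGd', hGmin'⟩ := alg_least hS hD d'
  have hdd : d' - d ∈ G := h1 G hG hGd
  have hdd' : d' - d ∈ G' := h2 G' hG' hGd'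
  have hle : G' ≤ G := by
    refine hGmin' G hG ?_
    obtain ⟨E, hE, hdE, hEG, T, hT⟩ := hGd
    refine ⟨E, hE, ?_, hEG, T, hT⟩
    have := hEG d hdE _ hdd
    simpa using this
  have hle' : G ≤ G' := by
    refine hGmin G' hG' ?_
    obtain ⟨E, hE, hdE, hEG, T, hT⟩ := hGd'
    refine ⟨E, hE, ?_, hEG, T, hT⟩
    have := hEG d' hdE _ (G'.neg_mem hdd')
    simpa using this
  have hGG : G' = G := le_antisymm hle hle'
  subst hGG
  obtain ⟨E, hE, hdE, hEG, T, hT⟩ := hGd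
  have hd'E : d' ∈ E := by
    have := hEG d hdE _ hdd
    simpa using this
  let I := {C // C ∈ 𝒞} × {K // K ∈ 𝒮.filter (· < G')}
  let e : Fin (Fintype.card I) ≃ I := (Fintype.equivFin I).symm
  let H : Fin (Fintype.card I) → AddSubgroup Y := fun i => (e i).2.1
  have hH : ∀ i, H i ∈ 𝒮 := fun i => (Finset.mem_filter.1 (e i).2.2).1
  have hlt : ∀ i, H i < G' := fun i => (Finset.mem_filter.1 (e i).2.2).2
  -- sets disjoint from K0 are covered
  have hcov : ∀ (X : Set Y) (y : Y), (∀ w, w - y ∈ G' → (∀ C ∈ 𝒞, w - C.2 ∈ C.1 →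
      ∀ u, u - y ∈ G' → u - C.2 ∈ C.1) → w ∉ X) →
      ∃ h : Fin (Fintype.card I) → Y, ∀ w ∈ X, w - y ∈ G' → ∃ i, w - h i ∈ H i := by
    intro X y hXy
    let r : AddSubgroup Y × Y → Y := fun C =>
      if h : ∃ u, u - y ∈ G' ∧ u - C.2 ∈ C.1 then h.choose else 0
    refine ⟨fun i => r (e i).1.1, fun w hw hwy => ?_⟩
    have h3 : ¬ ∀ C ∈ 𝒞, w - C.2 ∈ C.1 → ∀ u, u - y ∈ G' → u - C.2 ∈ C.1 :=
      fun h => hXy w hwy h hw
    push Not at h3
    obtain ⟨C, hC, hwC, u, huy, huC⟩ := h3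
    have hmem : C.1 ⊓ G' ∈ 𝒮.filter (· < G') := by
      refine Finset.mem_filter.2 ⟨hS.inf _ (h𝒞 C hC) _ hG', lt_of_le_of_ne inf_le_right ?_⟩
      intro heq
      apply huC
      have h4 : G' ≤ C.1 := by
        rw [← heq]
        exact inf_le_left
      have h5 : u - w ∈ G' := by
        have := G'.sub_mem huy hwy
        simpa using this
      have h6 := C.1.add_mem (h4 h5) hwC
      simpa using h6
    refine ⟨e.symm (⟨C, hC⟩, ⟨C.1 ⊓ G', hmem⟩), ?_⟩
    simp only [H, Equiv.apply_symm_apply]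
    have hex : ∃ u, u - y ∈ G' ∧ u - C.2 ∈ C.1 := ⟨w, hwy, hwC⟩
    have hr : r C = hex.choose := by
      simp only [r]
      rw [dif_pos hex]
    rw [hr]
    obtain ⟨h7, h8⟩ := hex.choose_spec
    refine ⟨?_, ?_⟩
    · have := C.1.sub_mem hwC h8
      simpa using this
    · have := G'.sub_mem hwy h7
      simpa using this
  intro hdD
  by_contra hd'D
  by_cases hcase : ∃ w, w - d ∈ G' ∧ (∀ C ∈ 𝒞, w - C.2 ∈ C.1 →
      ∀ u, u - d ∈ G' → u - C.2 ∈ C.1) ∧ w ∉ D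
  · obtain ⟨w0, hw0, hw0C, hw0D⟩ := hcase
    refine no_cover hS hG' hE hD T hT H hH hlt hGmin hdE hdD (hcov D d ?_)
    intro w hwy hwC hwD
    apply hw0D
    refine (hBC w w0 fun C hC => ⟨fun h => hwC C hC h w0 hw0, fun h => hw0C C hC h w hwy⟩).1 hwD
  · push Not at hcase
    refine no_cover hS hG' hE (hS.compl _ hD) T hT H hH hlt hGmin' hd'E hd'D (hcov Dᶜ d' ?_)
    intro w hwy hwC hwD
    apply hwD
    have hiff : ∀ u, u - d ∈ G' → u - d' ∈ G' := by
      intro u hu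
      have := G'.sub_mem hu hdd
      simpa using this
    refine hcase w ?_ ?_
    · have := G'.add_mem hwy hdd
      simpa using this
    · intro C hC hw u hu
      exact hwC C hC hw u (hiff u hu)

end TAU
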