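import Pool.Agent.TAU.Anti

/-! Project TAU, module TAU-LimA: structure of the spectrum near a limit point.

Outside a finite set all points are isolated.  Near `x` the points incomparable with `x` are finite in number: an infinite
set of them would contain (Ramsey) an increasing or a decreasing sequence, whose limit `x` is comparable with its first
member, or an antichain, which is a `BadSeq`. -/

namespace TAU

variable {Λ : Type} [DistribLattice Λ] [BoundedOrder Λ]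

theorem conv_of_nbhd {N : Set (Pt Λ)} (hN : IsClopen N) {x : Pt Λ}
    (h : ∀ z ∈ N, z ≠ x → IsOpen ({z} : Set (Pt Λ))) {O : Set (Pt Λ)} (hO : IsOpen O)
    (hx : x ∈ O) : (N \ O).Finite := by
  have hK : IsCompact (N \ O) := by
    have hc : IsClosed (N \ O) := by
      rw [Set.diff_eq]
      exact hN.1.inter hO.isClosed_compl
    exact hc.isCompact
  obtain ⟨t, -, ht2⟩ := hK.elim_nhds_subcover (fun z => {z}) (fun z hz => by
    have hne : z ≠ x := fun h1 => hz.2 (by rw [h1]; exact hx)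
    exact (h z hz.1 hne).mem_nhds rfl)
  refine t.finite_toSet.subset fun z hz => ?_
  have h1 := ht2 hz
  simp only [Set.mem_iUnion, Set.mem_singleton_iff] at h1
  obtain ⟨y, hy, rfl⟩ := h1
  exact hy

theorem lim_fin (hbad : {x : Pt Λ | ¬ x.Good}.Finite) :
    {x : Pt Λ | ¬ IsOpen ({x} : Set (Pt Λ))}.Finite :=
  hbad.subset fun _ hx h => hx (good_isOpen h)

/-- two different points are separated by a clopen set -/
private theorem lima_sep {x p : Pt Λ} (h : p ≠ x) : ∃ U : Set (Pt Λ), IsClopen U ∧ x ∈ U ∧ p ∉ U := by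
  by_contra hcon
  push Not at hcon
  apply h
  apply le_antisymm
  · intro A hA
    by_contra hx
    exact hcon (hat A)ᶜ (isClopen_hat A).compl hx hA
  · intro A hA
    exact hcon (hat A) (isClopen_hat A) hA

/-- the points near `x` incomparable with `x` are finite in number -/
private theorem lima_J (hanti : ∀ (x : Pt Λ) (z : ℕ → Pt Λ), ¬ BadSeq x z) {x : Pt Λ}
    {N : Set (Pt Λ)} (hN : IsClopen N) (h : ∀ z ∈ N, z ≠ x → IsOpen ({z} : Set (Pt Λ))) :
    {z | z ∈ N ∧ ¬ z ≤ x ∧ ¬ x ≤ z}.Finite := by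
  by_contra hinf
  let z : ℕ ↪ {z | z ∈ N ∧ ¬ z ≤ x ∧ ¬ x ≤ z} := Set.Infinite.natEmbedding _ hinf
  have hconv : ∀ (f : ℕ → Pt Λ), Function.Injective f → (∀ i, f i ∈ N) → ∀ O : Set (Pt Λ), IsOpen O →
      x ∈ O → {i | f i ∉ O}.Finite := by
    intro f hf hfN O hO hxO
    refine ((conv_of_nbhd hN h hO hxO).preimage hf.injOn).subset fun i hi => ?_
    exact ⟨hfN i, hi⟩
  -- first subsequence
  haveI t1 : IsTrans (Pt Λ) (fun a b => a ≤ b) := ⟨fun a b c h1 h2 => le_trans h1 h2⟩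
  obtain ⟨g, hg⟩ := exists_increasing_or_nonincreasing_subseq (fun a b : Pt Λ => a ≤ b)
    (fun i => (z i : Pt Λ))
  have hgi : Function.Injective fun i => (z (g i) : Pt Λ) := fun i j hij =>
    g.injective (z.injective (Subtype.ext hij))
  have hgN : ∀ i, (z (g i) : Pt Λ) ∈ N := fun i => (z (g i)).2.1
  rcases hg with hg | hg
  · apply (z (g 0)).2.2.1
    intro B hB
    by_contra hxB
    have h1 := hconv _ hgi hgN (hat B)ᶜ (isClopen_hat B).compl.2 hxB
    apply Set.infinite_univ (α := ℕ)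
    refine h1.subset fun i _ => ?_
    show (z (g i) : Pt Λ) ∉ (hat B)ᶜ
    rw [Set.notMem_compl_iff]
    rcases Nat.eq_zero_or_pos i with rfl | hi
    · exact hB
    · exact hg 0 i hi B hB
  · haveI t2 : IsTrans (Pt Λ) (fun a b => b ≤ a) := ⟨fun a b c h1 h2 => le_trans h2 h1⟩
    obtain ⟨g', hg'⟩ := exists_increasing_or_nonincreasing_subseq (fun a b : Pt Λ => b ≤ a)
      (fun i => (z (g i) : Pt Λ))
    have hgi' : Function.Injective fun i => (z (g (g' i)) : Pt Λ) := fun i j hij =>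
      g'.injective (hgi hij)
    have hgN' : ∀ i, (z (g (g' i)) : Pt Λ) ∈ N := fun i => hgN _
    rcases hg' with hg' | hg'
    · apply (z (g (g' 0))).2.2.2
      intro B hB
      have h1 := hconv _ hgi' hgN' (hat B) (isClopen_hat B).2 hB
      by_contra h2
      apply Set.infinite_univ (α := ℕ)
      refine h1.subset fun i _ => ?_
      show (z (g (g' i)) : Pt Λ) ∉ hat B
      rcases Nat.eq_zero_or_pos i with rfl | hi
      · exact h2
      · exact fun h3 => h2 (hg' 0 i hi B h3)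
    · refine hanti x (fun i => (z (g (g' i)) : Pt Λ)) ⟨fun i => (z (g (g' i))).2.2.2, ?_, ?_⟩
      · intro i j hij
        rcases lt_or_gt_of_ne hij with h1 | h1
        · exact hg _ _ (g'.strictMono h1)
        · exact hg' _ _ h1
      · intro B hB
        exact hconv _ hgi' hgN' (hat B) (isClopen_hat B).2 hB

theorem lim_nbhd (hbad : {x : Pt Λ | ¬ x.Good}.Finite)
    (hanti : ∀ (x : Pt Λ) (z : ℕ → Pt Λ), ¬ BadSeq x z) (x : Pt Λ) :
    ∃ N : Set (Pt Λ), IsClopen N ∧ x ∈ N ∧ ∀ z ∈ N, z ≠ x →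
      IsOpen ({z} : Set (Pt Λ)) ∧ ((z ≤ x ∧ z.Princ) ∨ x ≤ z) := by
  classical
  -- a clopen neighbourhood without bad points
  have hsep : ∀ p : Pt Λ, ∃ U : Set (Pt Λ), IsClopen U ∧ x ∈ U ∧ (p ≠ x → p ∉ U) := by
    intro p
    by_cases hp : p = x
    · exact ⟨Set.univ, isClopen_univ, Set.mem_univ _, fun h => absurd hp h⟩
    · obtain ⟨U, h1, h2, h3⟩ := lima_sep hp
      exact ⟨U, h1, h2, fun _ => h3⟩
  choose U hU1 hU2 hU3 using hsep
  obtain ⟨N0, hN0⟩ : ∃ N0 : Set (Pt Λ), N0 = ⋂ p ∈ {x : Pt Λ | ¬ x.Good}, U p := ⟨_, rfl⟩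
  have hN1 : IsClopen N0 := by
    rw [hN0]
    exact hbad.isClopen_biInter fun p _ => hU1 p
  have hN2 : x ∈ N0 := by
    rw [hN0]
    exact Set.mem_iInter₂.2 fun p _ => hU2 p
  have hN3 : ∀ z ∈ N0, z ≠ x → z.Good := by
    intro z hz hzx
    by_contra hbz
    rw [hN0] at hz
    exact hU3 z hzx (Set.mem_iInter₂.1 hz z hbz)
  have hN4 : ∀ z ∈ N0, z ≠ x → IsOpen ({z} : Set (Pt Λ)) := fun z hz hzx => good_isOpen (hN3 z hz hzx)
  have hJ := lima_J hanti hN1 hN4
  obtain ⟨J, hJe⟩ : ∃ J : Set (Pt Λ), J = {z | z ∈ N0 ∧ ¬ z ≤ x ∧ ¬ x ≤ z} := ⟨_, rfl⟩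
  rw [← hJe] at hJ
  have hJo : IsOpen J := by
    have e : J = ⋃ z ∈ J, {z} := by simp
    rw [e]
    refine isOpen_biUnion fun z hz => ?_
    rw [hJe] at hz
    refine hN4 z hz.1 fun h1 => ?_
    rw [h1] at hz
    exact hz.2.1 le_rfl
  have hJc : IsClopen J := ⟨hJ.isClosed, hJo⟩
  refine ⟨N0 ∩ Jᶜ, hN1.inter hJc.compl, ⟨hN2, fun h1 => ?_⟩, ?_⟩
  · rw [hJe] at h1
    exact h1.2.1 le_rfl
  · rintro z ⟨hz1, hz2⟩ hzx
    refine ⟨hN4 z hz1 hzx, ?_⟩
    by_cases h1 : z ≤ x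
    · exact Or.inl ⟨h1, good_princ (hN3 z hz1 hzx)⟩
    · by_cases h2 : x ≤ z
      · exact Or.inr h2
      · exact absurd (by rw [hJe]; exact ⟨hz1, h1, h2⟩) hz2

end TAU
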