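import Pool.Agent.TAU.DsB

/-! Project TAU, module TAU-MD: closure properties of mixed definable relations, and the system
of traces.  Everything is done with `Formula.relabel`, `Formula.iExs` and finite conjunctions. -/

namespace TAU

open FirstOrder FirstOrder.Language

variable {L : FirstOrder.Language.{0, 0}} {M : Type} [L.Structure M]

section
variable {Q : Set M} {α β ι κ : Type}

theorem MDef.compl {s : Set ((α → M) × (ι → Q))} (hs : MDef (L := L) s) :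
    MDef (L := L) sᶜ := by
  obtain ⟨φ, hφ⟩ := hs
  refine ⟨φ.not, fun x v => ?_⟩
  rw [Formula.realize_not, ← hφ, Set.mem_compl_iff]

theorem MDef.inter {s t : Set ((α → M) × (ι → Q))} (hs : MDef (L := L) s)
    (ht : MDef (L := L) t) : MDef (L := L) (s ∩ t) := by
  obtain ⟨φ, hφ⟩ := hs
  obtain ⟨ψ, hψ⟩ := ht
  refine ⟨φ ⊓ ψ, fun x v => ?_⟩
  rw [Formula.realize_inf, ← hφ, ← hψ, Set.mem_inter_iff]

theorem MDef.union {s t : Set ((α → M) × (ι → Q))} (hs : MDef (L := L) s)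
    (ht : MDef (L := L) t) : MDef (L := L) (s ∪ t) := by
  have h := (hs.compl.inter ht.compl).compl
  rwa [Set.compl_inter, compl_compl, compl_compl] at h

theorem MDef.univ : MDef (L := L) (Set.univ : Set ((α → M) × (ι → Q))) :=
  ⟨⊤, fun x v => by
    refine ⟨fun _ => ?_, fun _ => Set.mem_univ _⟩
    show BoundedFormula.Realize ⊤ _ _
    exact BoundedFormula.realize_top.2 trivial⟩

theorem MDef.comap (f : α → β) (g : ι → κ) {s : Set ((α → M) × (ι → Q))}
    (hs : MDef (L := L) s) :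
    MDef (L := L) {p : (β → M) × (κ → Q) | ((fun a => p.1 (f a)), fun i => p.2 (g i)) ∈ s} := by
  obtain ⟨φ, hφ⟩ := hs
  refine ⟨φ.relabel (Sum.map f g), fun x v => ?_⟩
  rw [Formula.realize_relabel]
  have h1 : (Sum.elim x fun i => (v i : M)) ∘ Sum.map f g =
      Sum.elim (fun a => x (f a)) fun i => (v (g i) : M) := by
    funext i
    rcases i with i | i <;> rfl
  rw [h1]
  exact hφ (fun a => x (f a)) fun i => v (g i)

theorem MDef.exM [Finite β] {s : Set ((α ⊕ β → M) × (ι → Q))} (hs : MDef (L := L) s) :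
    MDef (L := L) {p : (α → M) × (ι → Q) | ∃ x : β → M, (Sum.elim p.1 x, p.2) ∈ s} := by
  obtain ⟨φ, hφ⟩ := hs
  refine ⟨(φ.relabel (Sum.elim (Sum.elim (fun a => Sum.inl (Sum.inl a)) fun b => Sum.inr b)
    fun i => Sum.inl (Sum.inr i) : (α ⊕ β) ⊕ ι → (α ⊕ ι) ⊕ β)).iExs β, fun x v => ?_⟩
  rw [Formula.realize_iExs]
  refine exists_congr fun y => ?_
  rw [Formula.realize_relabel]
  have h1 : (Sum.elim (Sum.elim x fun i => (v i : M)) y ∘
      (Sum.elim (Sum.elim (fun a => Sum.inl (Sum.inl a)) fun b => Sum.inr b)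
        fun i => Sum.inl (Sum.inr i) : (α ⊕ β) ⊕ ι → (α ⊕ ι) ⊕ β)) =
      Sum.elim (Sum.elim x y) fun i => (v i : M) := by
    funext i
    rcases i with (i | i) | i <;> rfl
  rw [h1]
  exact hφ _ v

theorem MDef.fin_all {J : Type} [Finite J] (s : J → Set ((α → M) × (ι → Q)))
    (hs : ∀ j, MDef (L := L) (s j)) : MDef (L := L) {p | ∀ j, p ∈ s j} := by
  choose φ hφ using hs
  refine ⟨Formula.iInf φ, fun x v => ?_⟩
  rw [Formula.realize_iInf]
  exact forall_congr' fun j => hφ j x v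

theorem MDef.fin_ex {J : Type} [Finite J] (s : J → Set ((α → M) × (ι → Q)))
    (hs : ∀ j, MDef (L := L) (s j)) : MDef (L := L) {p | ∃ j, p ∈ s j} := by
  choose φ hφ using hs
  refine ⟨Formula.iSup φ, fun x v => ?_⟩
  rw [Formula.realize_iSup]
  exact exists_congr fun j => hφ j x v

end

section
variable (Φ : L.Formula (Fin 1)) {α β ι κ : Type}

private theorem md_ex [Finite κ] (φ : L.Formula (α ⊕ (ι ⊕ κ))) : ∃ ψ : L.Formula (α ⊕ ι),
    ∀ (x : α → M) (v : ι → Sol Φ M), ψ.Realize (Sum.elim x fun i => (v i : M)) ↔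
      ∃ w : κ → Sol Φ M, φ.Realize (Sum.elim x fun i => ((Sum.elim v w i : Sol Φ M) : M)) := by
  refine ⟨((φ.relabel (Equiv.sumAssoc α ι κ).symm) ⊓
    Formula.iInf (fun k : κ => Φ.relabel (fun _ => (Sum.inr k : (α ⊕ ι) ⊕ κ)))).iExs κ,
    fun x v => ?_⟩
  rw [Formula.realize_iExs]
  have h1 : ∀ y : κ → M, (Sum.elim (Sum.elim x fun i => (v i : M)) y) ∘ (Equiv.sumAssoc α ι κ).symm =
      Sum.elim x (Sum.elim (fun i => (v i : M)) y) := by
    intro y
    funext i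
    rcases i with i | i | i <;> rfl
  have h2 : ∀ w : κ → Sol Φ M, (fun i => ((Sum.elim v w i : Sol Φ M) : M)) =
      Sum.elim (fun i => (v i : M)) fun k => (w k : M) := by
    intro w
    funext i
    rcases i with i | i <;> rfl
  have h3 : ∀ (y : κ → M) (k : κ), (Φ.relabel (fun _ => (Sum.inr k : (α ⊕ ι) ⊕ κ))).Realize
      (Sum.elim (Sum.elim x fun i => (v i : M)) y) ↔ y k ∈ Sol Φ M := by
    intro y k
    rw [Formula.realize_relabel]
    exact Iff.rfl
  constructor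
  · rintro ⟨y, hy⟩
    rw [Formula.realize_inf, Formula.realize_relabel, h1, Formula.realize_iInf] at hy
    obtain ⟨hy1, hy2⟩ := hy
    refine ⟨fun k => ⟨y k, (h3 y k).1 (hy2 k)⟩, ?_⟩
    rw [h2]
    exact hy1
  · rintro ⟨w, hw⟩
    refine ⟨fun k => (w k : M), ?_⟩
    rw [Formula.realize_inf, Formula.realize_relabel, h1, Formula.realize_iInf]
    rw [h2] at hw
    exact ⟨hw, fun k => (h3 _ k).2 (w k).2⟩

theorem MDef.exQ [Finite κ] {s : Set ((α → M) × (ι ⊕ κ → Sol Φ M))} (hs : MDef (L := L) s) :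
    MDef (L := L) {p : (α → M) × (ι → Sol Φ M) |
      ∃ w : κ → Sol Φ M, (p.1, Sum.elim p.2 w) ∈ s} := by
  obtain ⟨φ, hφ⟩ := hs
  obtain ⟨ψ, hψ⟩ := md_ex (M := M) Φ φ
  refine ⟨ψ, fun x v => ?_⟩
  rw [hψ]
  exact exists_congr fun w => hφ x (Sum.elim v w)

theorem MDef.allQ [Finite κ] {s : Set ((α → M) × (ι ⊕ κ → Sol Φ M))} (hs : MDef (L := L) s) :
    MDef (L := L) {p : (α → M) × (ι → Sol Φ M) |
      ∀ w : κ → Sol Φ M, (p.1, Sum.elim p.2 w) ∈ s} := by
  obtain ⟨φ, hφ⟩ := (MDef.exQ Φ hs.compl).compl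
  refine ⟨φ, fun x v => ?_⟩
  rw [← hφ]
  show (∀ w : κ → Sol Φ M, (x, Sum.elim v w) ∈ s) ↔
    ¬ ∃ w : κ → Sol Φ M, ¬ (x, Sum.elim v w) ∈ s
  rw [not_exists]
  exact forall_congr' fun w => not_not.symm

/-- The traces on the powers of `Sol Φ M` of the sets definable over `c`. -/
def trSys (c : α → M) : DSys (Sol Φ M) where
  Def {ι} _ s := ∃ φ : L.Formula (α ⊕ ι), ∀ v : ι → Sol Φ M,
    v ∈ s ↔ φ.Realize (Sum.elim c fun i => (v i : M))
  compl := by
    rintro ι _ s ⟨φ, hφ⟩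
    refine ⟨φ.not, fun v => ?_⟩
    rw [Formula.realize_not, ← hφ, Set.mem_compl_iff]
  inter := by
    rintro ι _ s t ⟨φ, hφ⟩ ⟨ψ, hψ⟩
    refine ⟨φ ⊓ ψ, fun v => ?_⟩
    rw [Formula.realize_inf, ← hφ, ← hψ, Set.mem_inter_iff]
  comap := by
    rintro ι κ _ _ f s ⟨φ, hφ⟩
    refine ⟨φ.relabel (Sum.map id f), fun v => ?_⟩
    rw [Formula.realize_relabel]
    have h1 : (Sum.elim c fun i => (v i : M)) ∘ Sum.map id f =
        Sum.elim c fun i => (v (f i) : M) := by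
      funext i
      rcases i with i | i <;> rfl
    rw [h1]
    exact hφ fun i => v (f i)
  ex := by
    rintro ι κ _ _ s ⟨φ, hφ⟩
    obtain ⟨ψ, hψ⟩ := md_ex (M := M) Φ φ
    refine ⟨ψ, fun v => ?_⟩
    rw [hψ]
    exact exists_congr fun w => hφ (Sum.elim v w)

theorem trSys_def_iff [Finite ι] (c : α → M) (s : Set (ι → Sol Φ M)) :
    (trSys Φ c).Def s ↔ ∃ φ : L.Formula (α ⊕ ι), ∀ v : ι → Sol Φ M,
      v ∈ s ↔ φ.Realize (Sum.elim c fun i => (v i : M)) := Iff.rfl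

theorem trSys_of_mdef [Finite ι] (c : α → M) {s : Set ((α → M) × (ι → Sol Φ M))}
    (hs : MDef (L := L) s) : (trSys Φ c).Def {v | (c, v) ∈ s} := by
  obtain ⟨φ, hφ⟩ := hs
  exact ⟨φ, fun v => hφ c v⟩

theorem trSys_iff_mdef [Finite ι] (c : α → M) (s : Set (ι → Sol Φ M)) :
    (trSys Φ c).Def s ↔ ∃ t : Set ((α → M) × (ι → Sol Φ M)), MDef (L := L) t ∧
      s = {v | (c, v) ∈ t} := by
  constructor
  · rintro ⟨φ, hφ⟩
    refine ⟨{p | φ.Realize (Sum.elim p.1 fun i => (p.2 i : M))}, ⟨φ, fun _ _ => Iff.rfl⟩, ?_⟩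
    ext v
    exact hφ v
  · rintro ⟨t, ht, rfl⟩
    exact trSys_of_mdef Φ c ht

end

end TAU
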