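import Pool.Agent.TAU.Elim

/-! Project TAU, module TAU-Qe: quantifier elimination for lattice spaces, uniformly.

`qe`: put `χ` in disjunctive normal form (`dnf`), use `elim_conj` for each conjunction and
`bf_or_list`.
`transfer`: by induction on the number of variables.  First for `ι = Fin n` (statement for all
`n` and all `χ : BF F Λ (Fin n)`): `∃ v : Fin (n+1) → V, χ.Real W v` iff
`∃ v : Fin n → V, ∃ y, χ'.Real W (fun o => o.elim y v)` where `χ'` is `χ` reindexed along
`Fin (n+1) ≃ Option (Fin n)` (`BF.comap`); apply `qe` to `χ'`.  For `n = 0`: truth of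
`χ : BF F Λ (Fin 0)` does not depend on `V`: `lc μ v = 0` for `v : Fin 0 → V` (empty sum), which is
in `W A`; induction on `χ`.  Then general `ι` by reindexing along `ι ≃ Fin n`.
`qe_ex`: the same induction for a block of quantifiers. -/

namespace TAU

variable {F Λ : Type} [Field F] [DistribLattice Λ] [BoundedOrder Λ] {ι κ : Type} [Fintype ι]
  [Fintype κ]

theorem qe (χ : BF F Λ (Option ι)) : ∃ ρ : BF F Λ ι,
    ∀ (V : Type) [AddCommGroup V] [Module F V] (W : Λ → Submodule F V), LatSpace W →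
      ∀ v : ι → V, ρ.Real W v ↔ ∃ y : V, χ.Real W (fun o => o.elim y v) := by
  obtain ⟨D, hD⟩ := dnf χ
  choose r hr using fun c : List (Lit F Λ (Option ι)) => elim_conj c
  have : Nonempty Λ := ⟨⊤⟩
  obtain ⟨ρ, hρ⟩ := bf_or_list (D.map r)
  refine ⟨ρ, fun V _ _ W hW v => ?_⟩
  rw [hρ V W v]
  constructor
  · rintro ⟨ψ, hψ, h⟩
    obtain ⟨c, hc, rfl⟩ := List.mem_map.1 hψ
    obtain ⟨y, hy⟩ := (hr c V W hW v).1 h
    exact ⟨y, (hD V W _).2 ⟨c, hc, hy⟩⟩
  · rintro ⟨y, hy⟩
    obtain ⟨c, hc, h⟩ := (hD V W _).1 hy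
    exact ⟨r c, List.mem_map.2 ⟨c, hc, rfl⟩, (hr c V W hW v).2 ⟨y, h⟩⟩

omit [DistribLattice Λ] [BoundedOrder Λ] in
private theorem real_zero {V V' : Type} [AddCommGroup V] [Module F V] [AddCommGroup V']
    [Module F V'] (W : Λ → Submodule F V) (W' : Λ → Submodule F V') (χ : BF F Λ (Fin 0))
    (v : Fin 0 → V) (v' : Fin 0 → V') : χ.Real W v ↔ χ.Real W' v' := by
  induction χ with
  | basic μ A => simp [BF.Real, lc]
  | neg χ ih => simp only [BF.Real, ih]
  | and χ ψ ih ih' => simp only [BF.Real, ih, ih']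

private theorem transfer_fin {V V' : Type} [AddCommGroup V] [Module F V]
    [AddCommGroup V'] [Module F V'] {W : Λ → Submodule F V} {W' : Λ → Submodule F V'}
    (hW : LatSpace W) (hW' : LatSpace W') (n : ℕ) : ∀ χ : BF F Λ (Fin n),
    (∃ v : Fin n → V, χ.Real W v) ↔ ∃ v' : Fin n → V', χ.Real W' v' := by
  induction n with
  | zero =>
    intro χ
    constructor
    · rintro ⟨v, hv⟩
      exact ⟨fun i => i.elim0, (real_zero W W' χ v _).1 hv⟩
    · rintro ⟨v, hv⟩
      exact ⟨fun i => i.elim0, (real_zero W W' χ _ v).2 hv⟩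
  | succ n ih =>
    intro χ
    obtain ⟨χ', hχ'⟩ := BF.comap (finSuccEquiv n) χ
    obtain ⟨ρ, hρ⟩ := qe χ'
    have key : ∀ (X : Type) [AddCommGroup X] [Module F X] (U : Λ → Submodule F X), LatSpace U →
        ((∃ v : Fin (n + 1) → X, χ.Real U v) ↔ ∃ v : Fin n → X, ρ.Real U v) := by
      intro X _ _ U hU
      constructor
      · rintro ⟨v, hv⟩
        refine ⟨fun i => v i.succ, (hρ X U hU _).2 ⟨v 0, (hχ' X U _).2 ?_⟩⟩
        have e : (fun i => (finSuccEquiv n i).elim (v 0) fun i => v i.succ) = v := by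
          funext i
          refine Fin.cases ?_ (fun j => ?_) i
          · simp
          · simp
        rw [e]
        exact hv
      · rintro ⟨v, hv⟩
        obtain ⟨y, hy⟩ := (hρ X U hU v).1 hv
        exact ⟨_, (hχ' X U _).1 hy⟩
    rw [key V W hW, key V' W' hW', ih ρ]

theorem transfer (χ : BF F Λ ι) {V V' : Type} [AddCommGroup V] [Module F V]
    [AddCommGroup V'] [Module F V'] {W : Λ → Submodule F V} {W' : Λ → Submodule F V'}
    (hW : LatSpace W) (hW' : LatSpace W') :
    (∃ v : ι → V, χ.Real W v) ↔ ∃ v' : ι → V', χ.Real W' v' := by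
  obtain ⟨χ', hχ'⟩ := BF.comap (Fintype.equivFin ι) χ
  have key : ∀ (X : Type) [AddCommGroup X] [Module F X] (U : Λ → Submodule F X),
      (∃ v : ι → X, χ.Real U v) ↔ ∃ v : Fin (Fintype.card ι) → X, χ'.Real U v := by
    intro X _ _ U
    constructor
    · rintro ⟨v, hv⟩
      refine ⟨fun i => v ((Fintype.equivFin ι).symm i), (hχ' X U _).2 ?_⟩
      simpa using hv
    · rintro ⟨v, hv⟩
      exact ⟨_, (hχ' X U _).1 hv⟩
  rw [key V W, key V' W']
  exact transfer_fin hW hW' _ χ'

end TAU
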