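import Pool.Agent.TAU.Om2
import Pool.Agent.TAU.Hd
import Pool.Agent.TAU.Qe

/-! Project TAU, module TAU-Ms: every countable lattice space is the `Φ`-part of a countable model.

PROOF of `model_of_space`.  Apply `omit_type` with `C = V'` and
`Γ = {φ : L.Formula V' | ∃ n (φ0 : L.Formula (Fin n)) (t : Fin n → V') (χ : BF F Λ (Fin n)),
 φ = φ0.relabel t ∧ (∀ v : Fin n → Sol Φ M, φ0.Realize v ↔ χ.Real W v) ∧ χ.Real W' t}`.
TRANSFER PRINCIPLE (TP): if `χ : BF F Λ (Fin n)` is true at all `v : Fin n → Sol Φ M` in `W`, then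
it is true at all `v'` in `W'`, and conversely (`transfer` for `neg χ`).  In particular, if `χ1`,
`χ2` are both equivalent to `φ0` on `Sol Φ M`, then they are equivalent in `W'`.
(w) Well-definedness: if `φ0.relabel t = φ1.relabel t1` with `χ0, χ1` then `χ0.Real W' t ↔
χ1.Real W' t1`.  Choose `N` and an injection `j : Fin N → V'` whose range contains the ranges of
`t, t1`, `t = j ∘ g`, `t1 = j ∘ g1`; then `(φ0.relabel g).relabel j = (φ1.relabel g1).relabel j`
as formulas, so `φ0.relabel g` and `φ1.relabel g1` are equivalent in `M` under every assignment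
`u : Fin N → Sol Φ M` (extend `u` along `j` to `V' → M`, realize both sides, `realize_relabel`);
so `BF.comap` of `χ0` along `g` and of `χ1` along `g1` agree on `Sol Φ M`, hence on `V'` (TP).
(`omit_type` only needs (ha) and (hc), in which membership in `Γ` is used as an existential
statement, so (w) is probably not needed.)
(ha): for finitely many members of `Γ` with data `(n_i, φ_i, t_i, χ_i)` let `j : Fin N → V'` be an
injection whose range contains all ranges, `t_i = j ∘ g_i`.  The conjunction of the `BF.comap g_i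
χ_i` is true at `j` in `V'`, so by `transfer` it is true at some `u : Fin N → Sol Φ M`.  Define
`v : V' → M` by `v (j k) = u k` and arbitrary elsewhere (e.g. `0 : Sol Φ M`).  Then all members
hold.
(fv): every `φ : L.Formula V'` is `φ0.relabel t` for some `n, φ0, t` (finitely many free variables:
`BoundedFormula.restrictFreeVar`, or `Formula.relabel` along an equivalence of the finset of free
variables with `Fin n`; make this a lemma, also for `Option V'`: `φ = φ0.relabel (Option.map t)`).
(hc): write `φ : L.Formula (Option V')` as `φ0.relabel (Option.map t)` with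
`φ0 : L.Formula (Option (Fin n))`.  Let `χ : BF F Λ (Option (Fin n))` be equivalent to `φ0` on
`Sol Φ M` and `ρ : BF F Λ (Fin n)` from `qe` equivalent to `∃ y, χ` in all lattice spaces.  If
`ρ.Real W' t` then there is `c : V'` with `χ.Real W' (o.elim c t)`, and `φ.relabel (o.getD c)`
is in `Γ` (it is `φ0` relabelled along `o ↦ o.elim c t`; reindex `Option (Fin n) ≃ Fin (n+1)`).
Otherwise let `γ0 : L.Formula (Fin n)` be `∀ x, Φ(x) → ¬ φ0(x, ..)` (`Formula.iAlls` etc.);
on `Sol Φ M` it is equivalent to `neg ρ`, and `γ = γ0.relabel t` is in `Γ`.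
RESULT: `e = v`.  `N ⊨ completeTheory M`: a sentence `σ` true in `M`: as `φ0 : L.Formula (Fin 0)`
(relabel `Empty → Fin 0`) it is equivalent on `Sol Φ M` to `χ = basic 0 ⊤` (true), so its
relabelling is in `Γ`, hence `σ` is true in `N`.  `e` is injective: for `c ≠ c'` the formula
`¬ (x0 = x1)` is equivalent on `Sol Φ M` to `neg (basic (1, -1) ⊥)`, true at `(c, c')`.
`Φ(e c)`: `Φ` is equivalent to `basic 0 ⊤`.  Last clause: both directions from `φ0.relabel v' ∈ Γ`
or `φ0.not.relabel v' ∈ Γ` according to `χ.Real W' v'`. -/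

namespace TAU

open FirstOrder FirstOrder.Language

variable {L : FirstOrder.Language.{0, 0}} {M : Type} [L.Structure M] (Φ : L.Formula (Fin 1))
  {F Λ : Type} [Field F] [DistribLattice Λ] [BoundedOrder Λ] [AddCommGroup (Sol Φ M)]
  [Module F (Sol Φ M)]

/-- every formula only depends on finitely many variables -/
private theorem ms_fv {α : Type} (φ : L.Formula α) :
    ∃ (s : Finset α) (φ0 : L.Formula s), ∀ (N : Type) [L.Structure N] (v : α → N),
      φ.Realize v ↔ φ0.Realize (fun i => v i) := by
  classical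
  refine ⟨φ.freeVarFinset, φ.restrictFreeVar id, fun N _ v => ?_⟩
  exact (BoundedFormula.realize_restrictFreeVar (φ := φ) (f := id)
    (v := fun a : φ.freeVarFinset => v a) v (fun _ => rfl)).symm

/-- the set of formulas which describes the new space -/
private def msG (W : Λ → Submodule F (Sol Φ M)) {V' : Type} [AddCommGroup V'] [Module F V']
    (W' : Λ → Submodule F V') : Set (L.Formula V') :=
  {φ | ∃ (s : Finset V') (χ : BF F Λ s),
    (∀ v : V' → Sol Φ M, φ.Realize (fun c => (v c : M)) ↔ χ.Real W (fun i : s => v i)) ∧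
    χ.Real W' (fun i : s => (i : V'))}

private theorem ms_mem {W : Λ → Submodule F (Sol Φ M)} {V' : Type} [AddCommGroup V'] [Module F V']
    {W' : Λ → Submodule F V'} {ι : Type} [Fintype ι] (φ : L.Formula ι) (χ : BF F Λ ι) (t : ι → V')
    (ψ : L.Formula V')
    (hψ : ∀ v : V' → Sol Φ M, ψ.Realize (fun c => (v c : M)) ↔ φ.Realize (fun i => (v (t i) : M)))
    (h : ∀ v : ι → Sol Φ M, (φ.Realize fun i => (v i : M)) ↔ χ.Real W v) (ht : χ.Real W' t) :
    ψ ∈ msG Φ W W' := by
  classical
  obtain ⟨χ', hχ'⟩ := BF.comap (fun i : ι => (⟨t i, Finset.mem_image_of_mem t (Finset.mem_univ i)⟩ :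
    (Finset.univ.image t : Finset V'))) χ
  refine ⟨Finset.univ.image t, χ', fun v => ?_, ?_⟩
  · rw [hψ, hχ']
    exact h (fun i => v (t i))
  · rw [hχ']
    exact ht

private theorem ms_ha {W : Λ → Submodule F (Sol Φ M)} {V' : Type} [AddCommGroup V'] [Module F V']
    {W' : Λ → Submodule F V'} (hW : LatSpace W) (hW' : LatSpace W') (Δ : Finset (L.Formula V'))
    (hΔ : ∀ γ ∈ Δ, γ ∈ msG Φ W W') :
    ∃ (s : Finset V') (χ : BF F Λ s), χ.Real W' (fun i : s => (i : V')) ∧
      ∀ v : V' → Sol Φ M, χ.Real W (fun i : s => v i) →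
        ∀ γ ∈ Δ, γ.Realize (fun c => (v c : M)) := by
  classical
  induction Δ using Finset.induction_on with
  | empty =>
    refine ⟨∅, BF.basic 0 ⊤, ?_, fun v _ γ hγ => absurd hγ (Finset.notMem_empty γ)⟩
    exact hW'.mem_top _
  | insert γ Δ _ ih =>
    obtain ⟨s, χ, h1, h2⟩ := ih (fun γ' hγ' => hΔ γ' (Finset.mem_insert_of_mem hγ'))
    obtain ⟨s0, χ0, h3, h4⟩ := hΔ γ (Finset.mem_insert_self γ Δ)
    obtain ⟨χ', hχ'⟩ := BF.comap (fun i : s => (⟨i.1, Finset.mem_union_left s0 i.2⟩ :
      (s ∪ s0 : Finset V'))) χ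
    obtain ⟨χ0', hχ0'⟩ := BF.comap (fun i : s0 => (⟨i.1, Finset.mem_union_right s i.2⟩ :
      (s ∪ s0 : Finset V'))) χ0
    refine ⟨s ∪ s0, BF.and χ' χ0', ⟨?_, ?_⟩, ?_⟩
    · rw [hχ']
      exact h1
    · rw [hχ0']
      exact h4
    · rintro v ⟨hv, hv0⟩ γ' hγ'
      rw [hχ'] at hv
      rw [hχ0'] at hv0
      rcases Finset.mem_insert.1 hγ' with rfl | hγ'
      · exact (h3 v).2 hv0
      · exact h2 v hv γ' hγ'

private theorem ms_ha' {W : Λ → Submodule F (Sol Φ M)} {V' : Type} [AddCommGroup V'] [Module F V']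
    {W' : Λ → Submodule F V'} (hW : LatSpace W) (hW' : LatSpace W') (Δ : Finset (L.Formula V'))
    (hΔ : ∀ γ ∈ Δ, γ ∈ msG Φ W W') :
    ∃ (N : Type) (_ : L.Structure N) (_ : Nonempty N) (v : V' → N), ∀ γ ∈ Δ, γ.Realize v := by
  classical
  obtain ⟨s, χ, h1, h2⟩ := ms_ha Φ hW hW' Δ hΔ
  obtain ⟨u, hu⟩ := (transfer χ hW hW').2 ⟨_, h1⟩
  refine ⟨M, inferInstance, ⟨((0 : Sol Φ M) : M)⟩,
    fun c => ((if h : c ∈ s then u ⟨c, h⟩ else 0 : Sol Φ M) : M), ?_⟩
  refine h2 (fun c => if h : c ∈ s then u ⟨c, h⟩ else 0) ?_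
  have h3 : (fun i : s => if h : (i : V') ∈ s then u ⟨i, h⟩ else 0) = u := by
    funext i
    rw [dif_pos i.2]
  rw [h3]
  exact hu

private theorem ms_hc {W : Λ → Submodule F (Sol Φ M)} (hW : LatSpace W) (hd : HDef Φ W)
    {V' : Type} [AddCommGroup V'] [Module F V']
    {W' : Λ → Submodule F V'} (hW' : LatSpace W') (φ : L.Formula (Option V'))
    (hφ : ∀ c, (φ.relabel fun o => o.getD c) ∉ msG Φ W W') :
      ∃ γ ∈ msG Φ W W', ∀ (N : Type) [L.Structure N] (v : V' → N), γ.Realize v →
        ∀ x : N, Φ.Realize (fun _ => x) → ¬ φ.Realize fun o => o.elim x v := by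
  classical
  obtain ⟨s0, φ0, h0⟩ := ms_fv φ
  set s : Finset V' := s0.eraseNone with hs
  have hg : ∀ c : V', some c ∈ s0 → c ∈ s := fun c hc => Finset.mem_eraseNone.2 hc
  let g : s0 → Option s := fun i => match i with
    | ⟨none, _⟩ => none
    | ⟨some c, hc⟩ => some ⟨c, hg c hc⟩
  have hg1 : ∀ (N : Type) (x : N) (v : V' → N) (i : s0),
      (g i).elim x (fun k : s => v k) = (i : Option V').elim x v := by
    rintro N x v ⟨_ | c, hc⟩ <;> rfl
  obtain ⟨φ1, hφ1⟩ : ∃ φ1 : L.Formula (Option s), φ1 = φ0.relabel g := ⟨_, rfl⟩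
  have h1 : ∀ (N : Type) [L.Structure N] (x : N) (v : V' → N),
      φ.Realize (fun o => o.elim x v) ↔ φ1.Realize (fun o => o.elim x (fun k : s => v k)) := by
    intro N _ x v
    rw [h0, hφ1, Formula.realize_relabel]
    have h2 : ((fun o : Option s => o.elim x (fun k : s => v k)) ∘ g) =
        fun i : s0 => (i : Option V').elim x v := by
      funext i
      exact hg1 N x v i
    rw [h2]
  obtain ⟨χ, hχ⟩ := hdef_bf Φ hd φ1
  obtain ⟨ρ, hρ⟩ := qe χ
  by_cases hr : ρ.Real W' (fun i : s => (i : V'))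
  · exfalso
    obtain ⟨c, hc⟩ := (hρ V' W' hW' _).1 hr
    refine hφ c (ms_mem Φ φ1 χ (fun o => o.elim c (fun i : s => (i : V'))) _ (fun v => ?_) hχ hc)
    rw [Formula.realize_relabel]
    have h3 : ((fun c => (v c : M)) ∘ fun o : Option V' => o.getD c) =
        fun o : Option V' => o.elim (v c : M) (fun c => (v c : M)) := by
      funext o
      cases o <;> rfl
    have h4 : (fun o : Option s => ((v (o.elim c (fun i : s => (i : V')))) : M)) =
        fun o : Option s => o.elim (v c : M) (fun i : s => (v i : M)) := by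
      funext o
      cases o <;> rfl
    rw [h3, h4]
    exact h1 M (v c : M) (fun c => (v c : M))
  · obtain ⟨γ0, hγ0⟩ : ∃ γ0 : L.Formula s, ∀ (N : Type) [L.Structure N] (v : s → N),
        γ0.Realize v ↔ ∀ x : N, Φ.Realize (fun _ => x) → ¬ φ1.Realize (fun o => o.elim x v) := by
      refine ⟨Formula.iAlls Unit ((Φ.relabel (fun _ => (Sum.inr () : s ⊕ Unit))).imp
        (φ1.relabel (fun o : Option s => (o.elim (Sum.inr ()) Sum.inl : s ⊕ Unit))).not), ?_⟩
      intro N _ v
      rw [Formula.realize_iAlls]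
      have h5 : ∀ i : Unit → N, ((Sum.elim v i) ∘
          (fun o : Option s => (o.elim (Sum.inr ()) Sum.inl : s ⊕ Unit))) =
          fun o : Option s => o.elim (i ()) v := by
        intro i
        funext o
        cases o <;> rfl
      constructor
      · intro h x hx hx1
        have h6 := h (fun _ => x)
        rw [Formula.realize_imp, Formula.realize_not, Formula.realize_relabel,
          Formula.realize_relabel] at h6
        refine h6 hx ?_
        have h7 := h5 (fun _ => x)
        change φ1.Realize ((Sum.elim v (fun _ => x)) ∘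
          (fun o : Option s => (o.elim (Sum.inr ()) Sum.inl : s ⊕ Unit)))
        rw [h7]
        exact hx1
      · intro h i
        rw [Formula.realize_imp, Formula.realize_not, Formula.realize_relabel,
          Formula.realize_relabel]
        intro hx hx1
        refine h (i ()) hx ?_
        have h7 := h5 i
        rw [← h7]
        exact hx1
    refine ⟨γ0.relabel (fun i : s => (i : V')), ?_, ?_⟩
    · refine ⟨s, BF.neg ρ, fun v => ?_, hr⟩
      rw [Formula.realize_relabel, hγ0]
      change _ ↔ ¬ ρ.Real W (fun i : s => v i)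
      rw [hρ (Sol Φ M) W hW]
      have h8 : ∀ y : Sol Φ M, (fun o : Option s => o.elim (y : M)
          ((fun c => (v c : M)) ∘ fun i : s => (i : V'))) =
          fun o : Option s => ((o.elim y (fun i : s => v i) : Sol Φ M) : M) := by
        intro y
        funext o
        cases o <;> rfl
      constructor
      · rintro h ⟨y, hy⟩
        refine h y y.2 ?_
        rw [h8 y]
        exact (hχ _).2 hy
      · intro h x hx hx1
        refine h ⟨⟨x, hx⟩, ?_⟩
        rw [← hχ, ← h8 ⟨x, hx⟩]
        exact hx1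
    · intro N _ v hv x hx hx1
      rw [Formula.realize_relabel, hγ0] at hv
      exact hv x hx ((h1 N x v).1 hx1)

theorem model_of_space (hL : L.card ≤ Cardinal.aleph0) {W : Λ → Submodule F (Sol Φ M)}
    (hW : LatSpace W) (hd : HDef Φ W) (V' : Type) [AddCommGroup V'] [Module F V'] [Countable V']
    {W' : Λ → Submodule F V'} (hW' : LatSpace W') :
    ∃ (N : Type) (_ : L.Structure N) (_ : Nonempty N) (_ : Countable N) (e : V' → N),
      N ⊨ L.completeTheory M ∧ Function.Injective e ∧
      (∀ x : N, Φ.Realize (fun _ => x) ↔ ∃ c, e c = x) ∧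
      ∀ (n : ℕ) (φ : L.Formula (Fin n)) (χ : BF F Λ (Fin n)),
        (∀ v : Fin n → Sol Φ M, (φ.Realize fun i => (v i : M)) ↔ χ.Real W v) →
        ∀ v' : Fin n → V', (φ.Realize fun i => e (v' i)) ↔ χ.Real W' v' := by
  classical
  obtain ⟨N, iN, iNe, iNc, e, he1, he2⟩ := omit_type hL V' Φ (msG Φ W W')
    (ms_ha' Φ hW hW') (ms_hc Φ hW hd hW')
  have key : ∀ (n : ℕ) (φ : L.Formula (Fin n)) (χ : BF F Λ (Fin n)),
      (∀ v : Fin n → Sol Φ M, (φ.Realize fun i => (v i : M)) ↔ χ.Real W v) →
      ∀ v' : Fin n → V', χ.Real W' v' → (φ.Realize fun i => e (v' i)) := by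
    intro n φ χ h v' hv'
    have h1 := he1 (φ.relabel v') (ms_mem Φ φ χ v' _ (fun v => by
      rw [Formula.realize_relabel]
      rfl) h hv')
    rw [Formula.realize_relabel] at h1
    exact h1
  refine ⟨N, iN, iNe, iNc, e, ?_, ?_, ?_, ?_⟩
  · rw [Theory.model_iff]
    intro σ hσ
    have hσ' : M ⊨ σ := hσ
    have h1 := key 0 (σ.relabel Empty.elim) (BF.basic 0 ⊤) (fun v => by
      rw [Formula.realize_relabel]
      have h2 : ((fun i => (v i : M)) ∘ Empty.elim) = (default : Empty → M) :=
        Subsingleton.elim _ _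
      rw [h2]
      exact ⟨fun _ => hW.mem_top _, fun _ => hσ'⟩) Fin.elim0 (hW'.mem_top _)
    rw [Formula.realize_relabel] at h1
    have h2 : ((fun i => e ((Fin.elim0 : Fin 0 → V') i)) ∘ Empty.elim) = (default : Empty → N) :=
      Subsingleton.elim _ _
    rw [h2] at h1
    exact h1
  · intro c c' hcc
    by_contra hne
    have h1 := key 2 ((Term.var 0).equal (Term.var 1)).not
      (BF.neg (BF.basic ![1, -1] ⊥)) (fun v => by
        rw [Formula.realize_not, Formula.realize_equal]
        change ¬ ((v 0 : M) = v 1) ↔ ¬ (lc ![1, -1] v ∈ W ⊥)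
        rw [hW.mem_bot]
        unfold lc
        rw [Fin.sum_univ_two]
        simp only [Matrix.cons_val_zero, Matrix.cons_val_one, one_smul, neg_smul]
        rw [← sub_eq_add_neg, sub_eq_zero]
        exact not_congr Subtype.ext_iff.symm) ![c, c'] (by
        change ¬ (lc ![1, -1] ![c, c'] ∈ W' ⊥)
        rw [hW'.mem_bot]
        unfold lc
        rw [Fin.sum_univ_two]
        simp only [Matrix.cons_val_zero, Matrix.cons_val_one, one_smul, neg_smul]
        rw [← sub_eq_add_neg, sub_eq_zero]
        exact hne)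
    rw [Formula.realize_not, Formula.realize_equal] at h1
    exact h1 hcc
  · intro x
    constructor
    · exact he2 x
    · rintro ⟨c, rfl⟩
      exact key 1 Φ (BF.basic 0 ⊤) (fun v => by
        refine ⟨fun _ => hW.mem_top _, fun _ => ?_⟩
        have h1 : (fun i => (v i : M)) = fun _ => (v 0 : M) := by
          funext i
          rw [Subsingleton.elim i 0]
        rw [h1]
        exact (v 0).2) (fun _ => c) (hW'.mem_top _)
  · intro n φ χ h v'
    constructor
    · intro h1
      by_contra h2
      have h3 := key n φ.not (BF.neg χ) (fun v => by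
        rw [Formula.realize_not]
        exact not_congr (h v)) v' h2
      rw [Formula.realize_not] at h3
      exact h3 h1
    · exact key n φ χ h v'

end TAU
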