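import Pool.Agent.TAU.Bas

/-! Project TAU, module TAU-NED: definitions for the example.  To prove: the closure properties
`nice_union`, `nice_inter`, `nice_empty`, `nice_none` (`k = 0`). -/

namespace TAU

/-- The points at which the elements are evaluated: the cells of the grid and one extra point. -/
abbrev Om := Option (ℕ × ℕ)

/-- The cells of `A` form a down-closed set. -/
def DownC (A : Set Om) : Prop :=
  ∀ i n i' n', some (i, n) ∈ A → i' ≤ i → n' ≤ n → some (i', n') ∈ A

/-- The closed sets of the example: finite down-closed sets of cells; the extra point with `k` full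
rows and a finite rest; everything. -/
def Nice (A : Set Om) : Prop :=
  A = Set.univ ∨ (DownC A ∧ ((none ∉ A ∧ A.Finite) ∨
    (none ∈ A ∧ ∃ k, (∀ i n, i < k → some (i, n) ∈ A) ∧
      {p : ℕ × ℕ | some p ∈ A ∧ k ≤ p.1}.Finite)))

private theorem cells_fin {A : Set Om} (h : A.Finite) : {p : ℕ × ℕ | some p ∈ A}.Finite :=
  h.preimage (Option.some_injective _).injOn

/-- They form a lattice of sets.  PROOF: the union of a finite set and a finite set is finite; the
union of a finite set with a set of the second kind (with `k`) is of the second kind with the same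
`k`; for two sets of the second kind with `k1 ≤ k2` the union has `k2` full rows, and its cells
with row at least `k2` are cells of one of the sets in rows at least `k2 ≥ k1`; intersections: with
a finite set finite; for `k1 ≤ k2` the intersection has `k1` full rows and its cells in rows
`≥ k1` are cells of the first set. -/
theorem nice_union {A B : Set Om} (hA : Nice A) (hB : Nice B) : Nice (A ∪ B) := by
  rcases hA with rfl | ⟨dA, hA⟩
  · exact Or.inl (Set.univ_union B)
  rcases hB with rfl | ⟨dB, hB⟩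
  · exact Or.inl (Set.union_univ A)
  refine Or.inr ⟨?_, ?_⟩
  · intro i n i' n' h h1 h2
    rcases h with h | h
    · exact Or.inl (dA i n i' n' h h1 h2)
    · exact Or.inr (dB i n i' n' h h1 h2)
  rcases hA with ⟨nA, fA⟩ | ⟨nA, k, fA, rA⟩
  · rcases hB with ⟨nB, fB⟩ | ⟨nB, l, fB, rB⟩
    · exact Or.inl ⟨fun h => h.elim nA nB, fA.union fB⟩
    · refine Or.inr ⟨Or.inr nB, l, fun i n hi => Or.inr (fB i n hi), ?_⟩
      refine ((cells_fin fA).union rB).subset ?_
      rintro p ⟨hp | hp, hl⟩
      · exact Or.inl hp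
      · exact Or.inr ⟨hp, hl⟩
  · rcases hB with ⟨nB, fB⟩ | ⟨nB, l, fB, rB⟩
    · refine Or.inr ⟨Or.inl nA, k, fun i n hi => Or.inl (fA i n hi), ?_⟩
      refine (rA.union (cells_fin fB)).subset ?_
      rintro p ⟨hp | hp, hl⟩
      · exact Or.inl ⟨hp, hl⟩
      · exact Or.inr hp
    · rcases le_total k l with hkl | hkl
      · refine Or.inr ⟨Or.inl nA, l, fun i n hi => Or.inr (fB i n hi), ?_⟩
        refine (rA.union rB).subset ?_
        rintro p ⟨hp | hp, hl⟩
        · exact Or.inl ⟨hp, hkl.trans hl⟩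
        · exact Or.inr ⟨hp, hl⟩
      · refine Or.inr ⟨Or.inl nA, k, fun i n hi => Or.inl (fA i n hi), ?_⟩
        refine (rA.union rB).subset ?_
        rintro p ⟨hp | hp, hl⟩
        · exact Or.inl ⟨hp, hl⟩
        · exact Or.inr ⟨hp, hkl.trans hl⟩

theorem nice_inter {A B : Set Om} (hA : Nice A) (hB : Nice B) : Nice (A ∩ B) := by
  rcases hA with rfl | ⟨dA, hA⟩
  · rw [Set.univ_inter]
    exact hB
  rcases hB with rfl | ⟨dB, hB⟩
  · rw [Set.inter_univ]
    exact Or.inr ⟨dA, hA⟩
  refine Or.inr ⟨?_, ?_⟩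
  · rintro i n i' n' ⟨h, h'⟩ h1 h2
    exact ⟨dA i n i' n' h h1 h2, dB i n i' n' h' h1 h2⟩
  rcases hA with ⟨nA, fA⟩ | ⟨nA, k, fA, rA⟩
  · exact Or.inl ⟨fun h => nA h.1, fA.subset Set.inter_subset_left⟩
  rcases hB with ⟨nB, fB⟩ | ⟨nB, l, fB, rB⟩
  · exact Or.inl ⟨fun h => nB h.2, fB.subset Set.inter_subset_right⟩
  rcases le_total k l with hkl | hkl
  · refine Or.inr ⟨⟨nA, nB⟩, k, fun i n hi => ⟨fA i n hi, fB i n (hi.trans_le hkl)⟩, ?_⟩
    refine rA.subset ?_
    rintro p ⟨hp, hk⟩
    exact ⟨hp.1, hk⟩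
  · refine Or.inr ⟨⟨nA, nB⟩, l, fun i n hi => ⟨fA i n (hi.trans_le hkl), fB i n hi⟩, ?_⟩
    refine rB.subset ?_
    rintro p ⟨hp, hk⟩
    exact ⟨hp.2, hk⟩

theorem nice_empty : Nice (∅ : Set Om) :=
  Or.inr ⟨fun _ _ _ _ h => h.elim, Or.inl ⟨fun h => h.elim, Set.finite_empty⟩⟩

theorem nice_univ : Nice (Set.univ : Set Om) := Or.inl rfl

/-- The lattice of nice sets. -/
def latS : Sublattice (Set Om) where
  carrier := {A | Nice A}
  supClosed' := fun _ hA _ hB => nice_union hA hB
  infClosed' := fun _ hA _ hB => nice_inter hA hB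

instance : BoundedOrder latS where
  top := ⟨Set.univ, nice_univ⟩
  le_top := fun _ => Set.subset_univ _
  bot := ⟨∅, nice_empty⟩
  bot_le := fun _ => Set.empty_subset _

/-- The index lattice: nice sets, ordered by reverse inclusion. -/
abbrev Lam := (latS)ᵒᵈ

/-- The set of an element of `Lam`. -/
def Lam.set (A : Lam) : Set Om := ((OrderDual.ofDual A : latS) : Set Om)

theorem Lam.nice (A : Lam) : Nice A.set := (OrderDual.ofDual A : latS).2

theorem Lam.le_iff {A B : Lam} : A ≤ B ↔ B.set ⊆ A.set := Iff.rfl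

theorem Lam.set_inf (A B : Lam) : (A ⊓ B).set = A.set ∪ B.set := rfl

theorem Lam.set_sup (A B : Lam) : (A ⊔ B).set = A.set ∩ B.set := rfl

theorem Lam.set_top : (⊤ : Lam).set = ∅ := rfl

theorem Lam.set_bot : (⊥ : Lam).set = Set.univ := rfl

/-- The element of `Lam` of a nice set. -/
def Lam.mk (A : Set Om) (h : Nice A) : Lam := OrderDual.toDual ⟨A, h⟩

/-- A bijection used for coding. -/
def piC : ℕ ≃ ℕ × ℕ × ℕ :=
  Nat.pairEquiv.symm.trans (Equiv.prodCongr (Equiv.refl ℕ) Nat.pairEquiv.symm)

section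
variable (F : Type) [Field F]

/-- The space of the example: `(r, f)`.  Here `r (i, n, e)` is the coordinate `e` of the entry `n`
of row `i`, and `f` is the value at the extra point. -/
abbrev HH := (ℕ × ℕ × ℕ →₀ F) × (ℕ →₀ F)

variable {F}

/-- The sequence of rows `r + f 0 • (ρ, ρ, ρ, ..)` where `ρ` is the row whose only nonzero
coordinate is `1` in coordinate `0` of the entry `0`. -/
def sq (h : HH F) (p : ℕ × ℕ × ℕ) : F := h.1 p + h.2 0 * if p.2 = (0, 0) then 1 else 0

/-- The code of the rows `< i` of `h`, an element of `ℕ → F`. -/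
def code (h : HH F) (i e : ℕ) : F := if (piC e).1 < i then sq h (piC e) else 0

/-- Evaluation: at a cell `(i, n)` the entry `n` of row `i`, plus in column `0` the code of the
preceding rows; at the extra point `f`. -/
def evl (h : HH F) : Om → ℕ → F
  | none, e => h.2 e
  | some (i, n), e => sq h (i, n, e) + if n = 0 then code h i e else 0

theorem sq_add (h h' : HH F) (p : ℕ × ℕ × ℕ) : sq (h + h') p = sq h p + sq h' p := by
  simp only [sq, Prod.fst_add, Prod.snd_add, Finsupp.add_apply]
  ring

theorem sq_smul (a : F) (h : HH F) (p : ℕ × ℕ × ℕ) : sq (a • h) p = a * sq h p := by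
  simp only [sq, Prod.smul_fst, Prod.smul_snd, Finsupp.smul_apply, smul_eq_mul]
  ring

theorem code_add (h h' : HH F) (i e : ℕ) : code (h + h') i e = code h i e + code h' i e := by
  unfold code
  split_ifs
  · exact sq_add _ _ _
  · simp

theorem code_smul (a : F) (h : HH F) (i e : ℕ) : code (a • h) i e = a * code h i e := by
  unfold code
  split_ifs
  · exact sq_smul _ _ _
  · simp

theorem evl_add (h h' : HH F) (ω : Om) (e : ℕ) :
    evl (h + h') ω e = evl h ω e + evl h' ω e := by
  rcases ω with _ | ⟨i, n⟩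
  · rfl
  · simp only [evl, sq_add, code_add]
    split_ifs <;> ring

theorem evl_smul (a : F) (h : HH F) (ω : Om) (e : ℕ) : evl (a • h) ω e = a * evl h ω e := by
  rcases ω with _ | ⟨i, n⟩
  · rfl
  · simp only [evl, sq_smul, code_smul]
    split_ifs <;> ring

theorem evl_zero (ω : Om) (e : ℕ) : evl (0 : HH F) ω e = 0 := by
  have := evl_smul (0 : F) (0 : HH F) ω e
  simpa using this

/-- The elements which vanish on a nice set. -/
def WH (F : Type) [Field F] (A : Lam) : Submodule F (HH F) where
  carrier := {h | ∀ ω ∈ A.set, ∀ e, evl h ω e = 0}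
  add_mem' := fun {h h'} hh hh' ω hω e => by rw [evl_add, hh ω hω e, hh' ω hω e, add_zero]
  zero_mem' := fun ω _ e => evl_zero ω e
  smul_mem' := fun a h hh ω hω e => by rw [evl_smul, hh ω hω e, mul_zero]

theorem mem_WH {A : Lam} {h : HH F} :
    h ∈ WH F A ↔ ∀ ω ∈ A.set, ∀ e, evl h ω e = 0 := Iff.rfl

end

/-- The nice set `{none}`. -/
theorem nice_none : Nice ({none} : Set Om) := by
  refine Or.inr ⟨?_, Or.inr ⟨rfl, 0, fun i n hi => absurd hi (Nat.not_lt_zero i), ?_⟩⟩
  · intro i n i' n' h
    exact absurd h (by simp)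
  · have e : {p : ℕ × ℕ | some p ∈ ({none} : Set Om) ∧ 0 ≤ p.1} = ∅ := by
      ext p
      simp
    rw [e]
    exact Set.finite_empty

/-- The sort `V` of the example. -/
def Lam.zero : Lam := Lam.mk {none} nice_none

end TAU
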