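import Pool.Agent.TAU.NED

/-! Project TAU, module TAU-NEX: evaluation lemmas for the example.

* `sq_zero_of_rows`: by induction on `i < k`: if all cells of the rows `< k` vanish then
  `sq h (i, n, e) = 0` for `i < k`: for `n ≠ 0` the value at the cell is `sq`; for `n = 0` it is
  `sq h (i, 0, e) + code h i e` and the code vanishes by the induction hypothesis.
* `code_zero`: hence `code h k e = 0`.
* `evl_eq_of_sq`: if `sq h = sq h'` on the rows `≤ K` then the values on the rows `≤ K` agree.
* `evl_inj`: all values `0`: `h.2 = 0`; `sq h = 0` by `sq_zero_of_rows`, and `sq h = h.1`.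
* `row_fin`: for fixed `i` the set of the `(n, e)` with nonzero value at the cell `(i, n)`,
  coordinate `e`, is finite: `h.1` has finite support, `ρ` contributes only `(0, 0)`, the code only
  `n = 0` and the finitely many `e` with `piC e` in the (finite) set of the `p` with `p.1 < i` and
  `sq h p ≠ 0` (which is finite: `h.1` finite support, and `p = (j, 0, 0)` with `j < i`).
* `realize_rows`: given the wanted values `t i n e` for `i ≤ N`, with finite support for each
  `i ≤ N`, there is `h` with `h.2 = 0`.  Recursion on `N`: for `N + 1` take `h` for `N` and add the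
  element of `HH` with `r (N+1, n, e) = t (N+1) n e - (value of h at (N+1, n), e)` (finite support by
  `row_fin`), `r = 0` on the other rows; this does not change the rows `≤ N`, and on row `N + 1` it
  adds exactly `r (N+1, ., .)` (its code of rows `< N + 1` is `0`).
* `large_rows`: let `h.2 = 0`, `h ≠ 0`.  There is `K` such that for all `i ≥ K` the value of `h` at
  the cell `(i, 0)` is not zero: take `K` larger than all rows in the support of `h.1`; `h.1 p ≠ 0`
  for some `p` with `p.1 < K`; at coordinate `e = piC.symm p` the value at `(i, 0)` is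
  `h.1 (i, 0, e) + h.1 p = h.1 p ≠ 0`. -/

namespace TAU

variable {F : Type} [Field F]

theorem sq_zero_of_rows {h : HH F} {k : ℕ}
    (hk : ∀ i n e, i < k → evl h (some (i, n)) e = 0) {i : ℕ} (hi : i < k) (n e : ℕ) :
    sq h (i, n, e) = 0 := by
  induction i using Nat.strong_induction_on generalizing n e with
  | _ i ih =>
    have hc : code h i e = 0 := by
      unfold code
      split_ifs with hlt
      · exact ih (piC e).1 hlt (hlt.trans hi) (piC e).2.1 (piC e).2.2
      · rfl
    have h1 := hk i n e hi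
    simp only [evl, hc, ite_self, add_zero] at h1
    exact h1

theorem code_zero {h : HH F} {k : ℕ} (hk : ∀ i n e, i < k → evl h (some (i, n)) e = 0) (e : ℕ) :
    code h k e = 0 := by
  unfold code
  split_ifs with hlt
  · exact sq_zero_of_rows hk hlt (piC e).2.1 (piC e).2.2
  · rfl

theorem evl_eq_of_sq {h h' : HH F} {K : ℕ} (hK : ∀ i n e, i ≤ K → sq h (i, n, e) = sq h' (i, n, e))
    {i : ℕ} (hi : i ≤ K) (n e : ℕ) : evl h (some (i, n)) e = evl h' (some (i, n)) e := by
  have hc : code h i e = code h' i e := by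
    unfold code
    split_ifs with hlt
    · exact hK (piC e).1 (piC e).2.1 (piC e).2.2 (hlt.le.trans hi)
    · rfl
  simp only [evl]
  rw [hK i n e hi, hc]

theorem evl_inj {h : HH F} (hh : ∀ ω e, evl h ω e = 0) : h = 0 := by
  have h2 : h.2 = 0 := by
    ext e
    exact hh none e
  refine Prod.ext ?_ h2
  ext p
  have h3 : sq h (p.1, p.2.1, p.2.2) = 0 :=
    sq_zero_of_rows (k := p.1 + 1) (fun i n e _ => hh _ e) (Nat.lt_succ_self _) _ _
  have h4 : sq h p = h.1 p := by
    unfold sq
    rw [h2]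
    simp
  rw [← h4]
  exact h3

theorem row_fin (h : HH F) (i : ℕ) : {p : ℕ × ℕ | evl h (some (i, p.1)) p.2 ≠ 0}.Finite := by
  have hT : {p : ℕ × ℕ × ℕ | sq h p ≠ 0 ∧ p.1 ≤ i}.Finite := by
    refine Set.Finite.subset (((h.1.support : Finset (ℕ × ℕ × ℕ)).finite_toSet).union
      ((Set.finite_le_nat i).image fun j : ℕ => ((j, 0, 0) : ℕ × ℕ × ℕ))) ?_
    rintro ⟨j, q⟩ ⟨hp, hj⟩
    by_cases hq : q = (0, 0)
    · right
      exact ⟨j, hj, by rw [hq]⟩
    · left
      have h1 : sq h (j, q) = h.1 (j, q) := by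
        unfold sq
        simp [hq]
      rw [h1] at hp
      exact Finsupp.mem_support_iff.2 hp
  refine Set.Finite.subset ((hT.image fun p : ℕ × ℕ × ℕ => p.2).union
    (hT.image fun p : ℕ × ℕ × ℕ => ((0, piC.symm p) : ℕ × ℕ))) ?_
  rintro ⟨n, e⟩ hp
  have hp' : sq h (i, n, e) + (if n = 0 then code h i e else 0) ≠ 0 := hp
  by_cases h1 : sq h (i, n, e) = 0
  · right
    rw [h1, zero_add] at hp'
    split_ifs at hp' with hn
    · unfold code at hp'
      split_ifs at hp' with hlt
      · refine ⟨piC e, ⟨hp', hlt.le⟩, ?_⟩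
        simp [hn]
      · exact absurd rfl hp'
    · exact absurd rfl hp'
  · left
    exact ⟨(i, n, e), ⟨h1, le_rfl⟩, rfl⟩

private theorem realize_lt (N : ℕ) (t : ℕ → ℕ → ℕ → F)
    (ht : ∀ i < N, {p : ℕ × ℕ | t i p.1 p.2 ≠ 0}.Finite) :
    ∃ h : HH F, h.2 = 0 ∧ ∀ i < N, ∀ n e, evl h (some (i, n)) e = t i n e := by
  induction N with
  | zero => exact ⟨0, rfl, fun i hi => absurd hi (Nat.not_lt_zero i)⟩
  | succ N ih =>
    obtain ⟨h, h2, h1⟩ := ih fun i hi => ht i (hi.trans (Nat.lt_succ_self N))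
    have hfin : {p : ℕ × ℕ | t N p.1 p.2 - evl h (some (N, p.1)) p.2 ≠ 0}.Finite := by
      refine Set.Finite.subset ((ht N (Nat.lt_succ_self N)).union (row_fin h N)) ?_
      intro p hp
      by_cases hp1 : t N p.1 p.2 = 0
      · right
        intro hp2
        apply hp
        rw [hp1, hp2, sub_zero]
      · left
        exact hp1
    have hfin' : (Function.support fun p : ℕ × ℕ × ℕ =>
        if p.1 = N then t N p.2.1 p.2.2 - evl h (some (N, p.2.1)) p.2.2 else 0).Finite := by
      refine Set.Finite.subset (hfin.image fun q : ℕ × ℕ => ((N, q) : ℕ × ℕ × ℕ)) ?_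
      rintro ⟨j, q⟩ hp
      have hp' : (if j = N then t N q.1 q.2 - evl h (some (N, q.1)) q.2 else 0) ≠ 0 := hp
      split_ifs at hp' with hj
      · exact ⟨q, hp', by rw [hj]⟩
      · exact absurd rfl hp'
    obtain ⟨r, hr⟩ : ∃ r : ℕ × ℕ × ℕ →₀ F, ∀ p, r p =
        if p.1 = N then t N p.2.1 p.2.2 - evl h (some (N, p.2.1)) p.2.2 else 0 :=
      ⟨Finsupp.ofSupportFinite _ hfin', fun p => rfl⟩
    have hsq : ∀ p, sq ((r, 0) : HH F) p = r p := by
      intro p
      unfold sq
      simp
    have hcode : ∀ i ≤ N, ∀ e, code ((r, 0) : HH F) i e = 0 := by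
      intro i hi e
      unfold code
      split_ifs with hlt
      · rw [hsq, hr, if_neg]
        omega
      · rfl
    refine ⟨h + ((r, 0) : HH F), ?_, ?_⟩
    · rw [Prod.snd_add, h2]
      simp
    · intro i hi n e
      have hi' : i ≤ N := Nat.lt_succ_iff.1 hi
      have h3 : evl ((r, 0) : HH F) (some (i, n)) e = r (i, n, e) := by
        simp only [evl]
        rw [hsq, hcode i hi' e, ite_self, add_zero]
      rw [evl_add, h3, hr]
      by_cases hiN : i = N
      · subst hiN
        simp
      · rw [if_neg hiN, add_zero]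
        exact h1 i (by omega) n e

theorem realize_rows (N : ℕ) (t : ℕ → ℕ → ℕ → F)
    (ht : ∀ i ≤ N, {p : ℕ × ℕ | t i p.1 p.2 ≠ 0}.Finite) :
    ∃ h : HH F, h.2 = 0 ∧ ∀ i ≤ N, ∀ n e, evl h (some (i, n)) e = t i n e := by
  obtain ⟨h, h2, h1⟩ := realize_lt (N + 1) t fun i hi => ht i (Nat.lt_succ_iff.1 hi)
  exact ⟨h, h2, fun i hi => h1 i (Nat.lt_succ_of_le hi)⟩

theorem large_rows {h : HH F} (h2 : h.2 = 0) (h0 : h ≠ 0) :
    ∃ K, ∀ i ≥ K, ∃ e, evl h (some (i, 0)) e ≠ 0 := by
  have h1 : ∃ p, h.1 p ≠ 0 := by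
    by_contra hcon
    apply h0
    refine Prod.ext ?_ h2
    ext p
    by_contra hp
    exact hcon ⟨p, hp⟩
  obtain ⟨p, hp⟩ := h1
  have hsq : ∀ q, sq h q = h.1 q := by
    intro q
    unfold sq
    rw [h2]
    simp
  refine ⟨h.1.support.sup (fun q => q.1) + 1, fun i hi => ⟨piC.symm p, ?_⟩⟩
  have hK : ∀ q, h.1 q ≠ 0 → q.1 < i := by
    intro q hq
    have h3 : q.1 ≤ h.1.support.sup (fun q => q.1) :=
      Finset.le_sup (f := fun q : ℕ × ℕ × ℕ => q.1) (Finsupp.mem_support_iff.2 hq)
    omega
  have h3 : h.1 (i, 0, piC.symm p) = 0 := by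
    by_contra hq
    exact lt_irrefl _ (hK _ hq)
  have h4 : code h i (piC.symm p) = h.1 p := by
    unfold code
    rw [Equiv.apply_symm_apply, if_pos (hK p hp), hsq]
  simp only [evl]
  rw [hsq, h3, if_true, h4, zero_add]
  exact hp

end TAU
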