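import Pool.Agent.TAU.Qe

/-! Project TAU, module TAU-NL: the language of lattice spaces and quantifier elimination.

`latLang F Λ` has no function symbols and for each `μ : Fin n → F`, `A : Λ` an `n`-ary relation
symbol; in a lattice space it is interpreted as `lc μ v ∈ W A`.

* `latLang_card`: countable disjoint unions (`Language.card`, `Finite F`, `Countable Λ`).
* `lat_formula`: induction on `χ : BF F Λ (Fin n)`: the atom is the relation symbol applied to the
  variables (`Relations.formula`), `not`, `⊓`.  It holds in every structure, `BF.Ev`.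
* `lat_qe`: prove by induction on a bounded formula `φ : BoundedFormula (latLang F Λ) ι m`
  (`ι` a fintype): there is `χ : BF F Λ (ι ⊕ Fin m)` such that in all lattice spaces
  `φ.Realize v xs ↔ χ.Real W (Sum.elim v xs)`.  `falsum`: a false `BF` (`neg (basic 0 ⊤)`).
  `equal t1 t2`: the terms are variables (no function symbols), `x = y ↔ x - y ∈ W ⊥`.
  `rel R ts`: the terms are variables; reindexing (`lc_reindex`/`BF.comap`).  `imp`: `neg`, `and`.
  `all`: `∀ = ¬ ∃ ¬`, use `qe` for the last variable: reindex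
  `ι ⊕ Fin (m+1) ≃ Option (ι ⊕ Fin m)` (`BF.comap`, `Fin.snoc`).  For a formula (`m = 0`) reindex
  `ι ⊕ Fin 0 ≃ ι`. -/

namespace TAU

open FirstOrder FirstOrder.Language

/-- The language with a relation symbol for each basic condition. -/
def latLang (F Λ : Type) : FirstOrder.Language.{0, 0} :=
  ⟨fun _ => Empty, fun n => (Fin n → F) × Λ⟩

/-- The relation symbol of a basic condition. -/
def latRel {F Λ : Type} {n : ℕ} (μ : Fin n → F) (A : Λ) : (latLang F Λ).Relations n := (μ, A)

/-- A lattice space as a structure. -/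
@[reducible]
def latStr {F Λ H : Type} [Field F] [AddCommGroup H] [Module F H] (W : Λ → Submodule F H) :
    (latLang F Λ).Structure H where
  funMap := fun f _ => Empty.elim f
  RelMap := fun {n} (r : (Fin n → F) × Λ) v => lc r.1 v ∈ W r.2

/-- Evaluation of a `BF` under a truth assignment of the atoms. -/
def BF.Ev {F Λ ι : Type} (P : (ι → F) → Λ → Prop) : BF F Λ ι → Prop
  | .basic μ A => P μ A
  | .neg χ => ¬ BF.Ev P χ
  | .and χ ψ => BF.Ev P χ ∧ BF.Ev P ψ

theorem real_iff_ev {F Λ H ι : Type} [Field F] [AddCommGroup H] [Module F H] [Fintype ι]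
    (W : Λ → Submodule F H) (χ : BF F Λ ι) (v : ι → H) :
    χ.Real W v ↔ χ.Ev fun μ A => lc μ v ∈ W A := by
  induction χ with
  | basic μ A => exact Iff.rfl
  | neg χ ih => exact not_congr ih
  | and χ ψ ih ih' => exact and_congr ih ih'

theorem latLang_card (F Λ : Type) [Finite F] [Countable Λ] :
    (latLang F Λ).card ≤ Cardinal.aleph0 := by
  have h1 : ∀ n, Countable ((latLang F Λ).Functions n) := fun n =>
    inferInstanceAs (Countable Empty)
  have h2 : ∀ n, Countable ((latLang F Λ).Relations n) := fun n =>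
    inferInstanceAs (Countable ((Fin n → F) × Λ))
  have h3 : Countable ((latLang F Λ).Symbols) :=
    inferInstanceAs (Countable ((Σ n, (latLang F Λ).Functions n) ⊕
      (Σ n, (latLang F Λ).Relations n)))
  exact Cardinal.mk_le_aleph0_iff.2 h3

theorem lat_formula {F Λ : Type} {n : ℕ} (χ : BF F Λ (Fin n)) :
    ∃ φ : (latLang F Λ).Formula (Fin n), ∀ (N : Type) [(latLang F Λ).Structure N]
      (v : Fin n → N), φ.Realize v ↔
        χ.Ev fun μ A => Structure.RelMap (latRel (n := n) μ A) v := by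
  induction χ with
  | basic μ A =>
    refine ⟨Relations.formula (latRel (n := n) μ A) (fun i => Term.var i), fun N _ v => ?_⟩
    rw [Formula.realize_rel]
    exact Iff.rfl
  | neg χ ih =>
    obtain ⟨φ, h⟩ := ih
    refine ⟨φ.not, fun N _ v => ?_⟩
    rw [Formula.realize_not]
    exact not_congr (h N v)
  | and χ ψ ih ih' =>
    obtain ⟨φ, h⟩ := ih
    obtain ⟨φ', h'⟩ := ih'
    refine ⟨φ ⊓ φ', fun N _ v => ?_⟩
    rw [Formula.realize_inf]
    exact and_congr (h N v) (h' N v)

private theorem term_var {F Λ α : Type} (t : (latLang F Λ).Term α) : ∃ a, t = Term.var a := by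
  cases t with
  | var a => exact ⟨a, rfl⟩
  | func f ts => exact Empty.elim f

private theorem lat_qe_b {F Λ : Type} [Field F] [DistribLattice Λ] [BoundedOrder Λ] {ι : Type}
    [Fintype ι] {m : ℕ} (φ : (latLang F Λ).BoundedFormula ι m) : ∃ χ : BF F Λ (ι ⊕ Fin m),
      ∀ (H : Type) [AddCommGroup H] [Module F H] (W : Λ → Submodule F H), LatSpace W →
        ∀ (v : ι → H) (xs : Fin m → H),
          @BoundedFormula.Realize (latLang F Λ) H (latStr W) ι m φ v xs ↔
            χ.Real W (Sum.elim v xs) := by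
  classical
  induction φ with
  | falsum =>
    refine ⟨.neg (.basic 0 ⊤), fun H _ _ W hW v xs => ?_⟩
    refine ⟨fun h => h.elim, fun h => ?_⟩
    refine (h ?_).elim
    show _ ∈ W ⊤
    rw [hW.top]
    exact Submodule.mem_top
  | equal t₁ t₂ =>
    obtain ⟨a, rfl⟩ := term_var t₁
    obtain ⟨b, rfl⟩ := term_var t₂
    refine ⟨.basic (Pi.single a 1 - Pi.single b 1) ⊥, fun H _ _ W hW v xs => ?_⟩
    show Sum.elim v xs a = Sum.elim v xs b ↔ lc _ _ ∈ W ⊥
    rw [hW.bot, Submodule.mem_bot, lc_sub_left, lc_single, lc_single, one_smul, one_smul,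
      sub_eq_zero]
  | @rel m l R ts =>
    choose a ha using fun i => term_var (ts i)
    obtain rfl : ts = fun i => Term.var (a i) := funext ha
    obtain ⟨ν, hν⟩ := lc_reindex a R.1
    refine ⟨.basic ν R.2, fun H _ _ W hW v xs => ?_⟩
    show lc R.1 (fun i => Sum.elim v xs (a i)) ∈ W R.2 ↔ lc ν (Sum.elim v xs) ∈ W R.2
    rw [hν]
  | imp f₁ f₂ ih₁ ih₂ =>
    obtain ⟨χ₁, h₁⟩ := ih₁
    obtain ⟨χ₂, h₂⟩ := ih₂
    refine ⟨.neg (.and χ₁ (.neg χ₂)), fun H _ _ W hW v xs => ?_⟩
    show (_ → _) ↔ ¬ (BF.Real W χ₁ (Sum.elim v xs) ∧ ¬ BF.Real W χ₂ (Sum.elim v xs))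
    rw [not_and, not_not]
    exact imp_congr (h₁ H W hW v xs) (h₂ H W hW v xs)
  | @all m f ih =>
    obtain ⟨χ, h⟩ := ih
    let g : ι ⊕ Fin (m + 1) → Option (ι ⊕ Fin m) :=
      Sum.elim (fun i => some (Sum.inl i)) (Fin.snoc (fun k => some (Sum.inr k)) none)
    obtain ⟨χ', hχ'⟩ := BF.comap g (.neg χ)
    obtain ⟨ρ, hρ⟩ := qe χ'
    refine ⟨.neg ρ, fun H _ _ W hW v xs => ?_⟩
    show (∀ y : H, _) ↔ ¬ BF.Real W ρ (Sum.elim v xs)
    rw [hρ H W hW, not_exists]
    refine forall_congr' fun y => ?_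
    rw [hχ']
    have e : (fun i => (g i).elim y (Sum.elim v xs)) = Sum.elim v (Fin.snoc xs y) := by
      funext i
      rcases i with i | i
      · rfl
      · refine Fin.lastCases ?_ (fun j => ?_) i
        · simp [g]
        · simp [g]
    rw [e]
    show _ ↔ ¬ ¬ BF.Real W χ _
    rw [not_not]
    exact h H W hW v (Fin.snoc xs y)

theorem lat_qe {F Λ : Type} [Field F] [DistribLattice Λ] [BoundedOrder Λ] {ι : Type}
    [Fintype ι] (φ : (latLang F Λ).Formula ι) : ∃ χ : BF F Λ ι,
      ∀ (H : Type) [AddCommGroup H] [Module F H] (W : Λ → Submodule F H), LatSpace W →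
        ∀ v : ι → H, @Formula.Realize (latLang F Λ) H (latStr W) ι φ v ↔ χ.Real W v := by
  obtain ⟨χ, h⟩ := lat_qe_b φ
  obtain ⟨χ', h'⟩ := BF.comap (Sum.elim id (fun k : Fin 0 => k.elim0) : ι ⊕ Fin 0 → ι) χ
  refine ⟨χ', fun H _ _ W hW v => ?_⟩
  rw [h']
  have e : (fun i => v (Sum.elim id (fun k : Fin 0 => k.elim0) i)) =
      Sum.elim v (default : Fin 0 → H) := by
    funext i
    rcases i with i | i
    · rfl
    · exact i.elim0
  rw [e]
  exact h H W hW v default

end TAU
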