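import Pool.Agent.TAU.NL

/-! Project TAU, module TAU-NSm: if `Λ` has only countably many filters then the theory of a
lattice space is small. -/

namespace TAU

open FirstOrder FirstOrder.Language

/-- universal statements transfer to models of the complete theory -/
private theorem nsm_transfer {L : FirstOrder.Language.{0, 0}} {H N : Type} [L.Structure H]
    [L.Structure N] (hN : N ⊨ L.completeTheory H) {n : ℕ} (φ : L.Formula (Fin n))
    (h : ∀ v : Fin n → H, φ.Realize v) (v : Fin n → N) : φ.Realize v := by
  have h1 : ∀ (K : Type) [L.Structure K],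
      K ⊨ (((φ.relabel Sum.inr : L.Formula (Empty ⊕ Fin n)).iAlls (Fin n) : L.Formula Empty) : L.Sentence) ↔
        ∀ w : Fin n → K, φ.Realize w := by
    intro K _
    show Formula.Realize _ _ ↔ _
    rw [Formula.realize_iAlls]
    refine forall_congr' fun w => ?_
    rw [Formula.realize_relabel]
    exact Iff.rfl
  exact (h1 N).1 ((realize_iff_of_model_completeTheory H N _).2 ((h1 H).2 h)) v

/-- the relations of a lattice space, as a formula -/
private noncomputable def nsmRel {F Λ : Type} {n : ℕ} (μ : Fin n → F) (A : Λ) :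
    (latLang F Λ).Formula (Fin n) :=
  (latRel (n := n) μ A).formula fun i => Term.var i

private theorem nsmRel_realize {F Λ N : Type} {n : ℕ} [(latLang F Λ).Structure N] (μ : Fin n → F)
    (A : Λ) (v : Fin n → N) :
    (nsmRel μ A).Realize v ↔ Structure.RelMap (latRel (n := n) μ A) v := by
  unfold nsmRel
  rw [Formula.realize_rel]
  exact Iff.rfl

private theorem nsm_filter {F Λ H N : Type} [Field F] [DistribLattice Λ] [BoundedOrder Λ]
    [AddCommGroup H] [Module F H] {W : Λ → Submodule F H} (hW : LatSpace W)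
    [(latLang F Λ).Structure N] (hN : N ⊨ @completeTheory (latLang F Λ) H (latStr W)) {n : ℕ}
    (μ : Fin n → F) (v : Fin n → N) :
    IsFil {A : Λ | Structure.RelMap (latRel (n := n) μ A) v} := by
  letI : (latLang F Λ).Structure H := latStr W
  have hr : ∀ (A : Λ) (w : Fin n → H), (nsmRel μ A).Realize w ↔ lc μ w ∈ W A := by
    intro A w
    rw [nsmRel_realize]
    exact Iff.rfl
  refine ⟨?_, ?_, ?_⟩
  · show Structure.RelMap (latRel (n := n) μ (⊤ : Λ)) v
    rw [← nsmRel_realize]
    refine nsm_transfer hN _ (fun w => ?_) v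
    rw [hr, hW.top]
    trivial
  · intro A B hA hAB
    have h1 := nsm_transfer hN ((nsmRel μ A).imp (nsmRel μ B)) (fun w => by
      rw [Formula.realize_imp, hr, hr]
      intro hw
      have h2 : A ⊓ B = A := inf_eq_left.2 hAB
      have h3 := hW.inf A B
      rw [h2] at h3
      rw [h3] at hw
      exact hw.2) v
    rw [Formula.realize_imp, nsmRel_realize, nsmRel_realize] at h1
    exact h1 hA
  · intro A B hA hB
    have h1 := nsm_transfer hN ((nsmRel μ A).imp ((nsmRel μ B).imp (nsmRel μ (A ⊓ B)))) (fun w => by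
      rw [Formula.realize_imp, Formula.realize_imp, hr, hr, hr, hW.inf]
      intro hw hw'
      exact ⟨hw, hw'⟩) v
    rw [Formula.realize_imp, Formula.realize_imp, nsmRel_realize, nsmRel_realize,
      nsmRel_realize] at h1
    exact h1 hA hB

private theorem nsm_ev {F Λ H : Type} [Field F] [DistribLattice Λ] [BoundedOrder Λ]
    [AddCommGroup H] [Module F H] {W : Λ → Submodule F H} (hW : LatSpace W) {n : ℕ}
    (φ : (latLang F Λ).Formula (Fin n)) :
    ∃ χ : BF F Λ (Fin n), ∀ (N : Type) [(latLang F Λ).Structure N]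
      (_ : N ⊨ @completeTheory (latLang F Λ) H (latStr W)) (v : Fin n → N),
      φ.Realize v ↔ χ.Ev fun μ A => Structure.RelMap (latRel (n := n) μ A) v := by
  obtain ⟨χ, hχ⟩ := lat_qe φ
  obtain ⟨φ', hφ'⟩ := lat_formula χ
  refine ⟨χ, ?_⟩
  intro N _ hN v
  letI : (latLang F Λ).Structure H := latStr W
  have h1 := nsm_transfer hN (φ.iff φ') (fun w => by
    rw [Formula.realize_iff, hφ' H w]
    refine (hχ H W hW w).trans ((real_iff_ev W χ w).trans ?_)
    exact Iff.rfl) v
  rw [Formula.realize_iff] at h1
  exact h1.trans (hφ' N v)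

theorem lat_small {F Λ H : Type} [Field F] [Finite F] [DistribLattice Λ] [BoundedOrder Λ]
    [AddCommGroup H] [Module F H] {W : Λ → Submodule F H} (hW : LatSpace W)
    (hc : {𝔉 : Set Λ | IsFil 𝔉}.Countable) (n : ℕ) :
    Countable ((@completeTheory (latLang F Λ) H (latStr W)).CompleteType (Fin n)) := by
  have hcc : Countable {𝔉 : Set Λ // IsFil 𝔉} := hc.to_subtype
  have hreal : ∀ p : (@completeTheory (latLang F Λ) H (latStr W)).CompleteType (Fin n),
      ∃ 𝔊 : (Fin n → F) → {𝔉 : Set Λ // IsFil 𝔉}, ∀ (φ : (latLang F Λ).Formula (Fin n)),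
        Formula.equivSentence φ ∈ p ↔
          (nsm_ev hW φ).choose.Ev fun μ A => A ∈ (𝔊 μ).1 := by
    intro p
    obtain ⟨M, v, hv⟩ := Theory.exists_modelType_is_realized_in _ p
    refine ⟨fun μ => ⟨{A : Λ | Structure.RelMap (latRel (n := n) μ A) v},
      nsm_filter hW M.is_model μ v⟩, ?_⟩
    intro φ
    rw [← hv, Theory.CompleteType.formula_mem_typeOf]
    exact (nsm_ev hW φ).choose_spec M M.is_model v
  choose G hG using hreal
  have hinj : Function.Injective G := by
    intro p q hpq
    refine SetLike.ext fun ψ => ?_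
    have h1 := hG p (Formula.equivSentence.symm ψ)
    have h2 := hG q (Formula.equivSentence.symm ψ)
    rw [Equiv.apply_symm_apply] at h1 h2
    rw [h1, h2, hpq]
  exact hinj.countable

end TAU
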