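import Pool.Agent.TAU.Defs

/-! Project TAU, module TAU-Om1: generic models (the first half of the omitting types theorem).

`Cons Γ ψ`: the formula `ψ` in the variables `C ⊕ ℕ` is consistent with the set `Γ` of formulas in
the variables `C`.  `compact_formulas`: compactness for formulas with variables in `C`.
`generic_model`: a model of `Γ` which meets countably many dense sets of formulas. -/

namespace TAU

open FirstOrder FirstOrder.Language

variable {L : FirstOrder.Language.{0, 0}} {C : Type}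

/-- `ψ` is consistent with `Γ`. -/
def Cons (Γ : Set (L.Formula C)) (ψ : L.Formula (C ⊕ ℕ)) : Prop :=
  ∃ (N : Type) (_ : L.Structure N) (_ : Nonempty N) (v : C → N) (w : ℕ → N),
    (∀ γ ∈ Γ, γ.Realize v) ∧ ψ.Realize (Sum.elim v w)

/-- Compactness for formulas with variables in `C`. -/
theorem compact_formulas (Γ : Set (L.Formula C))
    (h : ∀ Δ : Finset (L.Formula C), (∀ γ ∈ Δ, γ ∈ Γ) →
      ∃ (N : Type) (_ : L.Structure N) (_ : Nonempty N) (v : C → N), ∀ γ ∈ Δ, γ.Realize v) :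
    ∃ (N : Type) (_ : L.Structure N) (_ : Nonempty N) (v : C → N), ∀ γ ∈ Γ, γ.Realize v := by
  classical
  let T : (L[[C]]).Theory := Formula.equivSentence '' Γ
  have hT : T.IsSatisfiable := by
    rw [Theory.isSatisfiable_iff_isFinitelySatisfiable]
    intro T0 hT0
    obtain ⟨N, sN, neN, v, hv⟩ := h (T0.image Formula.equivSentence.symm) (by
      intro γ hγ
      obtain ⟨σ, hσ, rfl⟩ := Finset.mem_image.1 hγ
      obtain ⟨γ, hγ, rfl⟩ := hT0 hσ
      rwa [Equiv.symm_apply_apply])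
    let := sN
    let := constantsOn.structure v
    have : N ⊨ (T0 : (L[[C]]).Theory) := by
      refine ⟨fun σ hσ => ?_⟩
      exact (Formula.realize_equivSentence_symm N σ v).1 (hv _ (Finset.mem_image_of_mem _ hσ))
    exact Theory.Model.isSatisfiable N
  obtain ⟨M⟩ := hT
  let : L.Structure M := (L.lhomWithConstants C).reduct M
  have : (L.lhomWithConstants C).IsExpansionOn M := LHom.isExpansionOn_reduct _ _
  refine ⟨M, inferInstance, M.nonempty', fun a => (L.con a : M), fun γ hγ => ?_⟩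
  have h1 : M ⊨ Formula.equivSentence γ := M.is_model.realize_of_mem _ ⟨γ, hγ, rfl⟩
  exact (Formula.realize_equivSentence M γ).1 h1

theorem generic_model (Γ : Set (L.Formula C)) (𝒟 : ℕ → Set (L.Formula (C ⊕ ℕ)))
    (h0 : Cons Γ ⊤) (hdense : ∀ n ψ, Cons Γ ψ → ∃ δ ∈ 𝒟 n, Cons Γ (ψ ⊓ δ)) :
    ∃ (N : Type) (_ : L.Structure N) (_ : Nonempty N) (v : C → N) (w : ℕ → N),
      (∀ γ ∈ Γ, γ.Realize v) ∧ ∀ n, ∃ δ ∈ 𝒟 n, δ.Realize (Sum.elim v w) := by
  classical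
  choose δ hδ hc using fun (n : ℕ) (s : {ψ : L.Formula (C ⊕ ℕ) // Cons Γ ψ}) =>
    hdense n s.1 s.2
  let seq : ℕ → {ψ : L.Formula (C ⊕ ℕ) // Cons Γ ψ} := fun n =>
    Nat.rec ⟨⊤, h0⟩ (fun n s => ⟨s.1 ⊓ δ n s, hc n s⟩) n
  have hstep : ∀ n, (seq (n + 1)).1 = (seq n).1 ⊓ δ n (seq n) := fun n => rfl
  have hmono : ∀ (N : Type) (_ : L.Structure N) (v : C ⊕ ℕ → N) (n m : ℕ), m ≤ n →
      (seq n).1.Realize v → (seq m).1.Realize v := by
    intro N sN v n m hmn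
    induction n, hmn using Nat.le_induction with
    | base => exact fun h => h
    | succ n _ ih =>
      intro h
      rw [hstep, Formula.realize_inf] at h
      exact ih h.1
  let Γ' : Set (L.Formula (C ⊕ ℕ)) :=
    (fun γ : L.Formula C => γ.relabel Sum.inl) '' Γ ∪ Set.range fun n => (seq n).1
  obtain ⟨N, sN, neN, u, hu⟩ := compact_formulas Γ' (by
    intro Δ hΔ
    have h1 : ∃ n : ℕ, ∀ ψ ∈ Δ, (∃ γ ∈ Γ, ψ = γ.relabel Sum.inl) ∨
        ∃ m ≤ n, ψ = (seq m).1 := by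
      have h2 : ∀ ψ ∈ Δ, ∃ n : ℕ, (∃ γ ∈ Γ, ψ = γ.relabel Sum.inl) ∨
          ∃ m ≤ n, ψ = (seq m).1 := by
        intro ψ hψ
        rcases hΔ ψ hψ with ⟨γ, hγ, rfl⟩ | ⟨m, rfl⟩
        · exact ⟨0, Or.inl ⟨γ, hγ, rfl⟩⟩
        · exact ⟨m, Or.inr ⟨m, le_rfl, rfl⟩⟩
      choose! f hf using h2
      refine ⟨Δ.sup f, fun ψ hψ => ?_⟩
      rcases hf ψ hψ with h3 | ⟨m, hm, h3⟩
      · exact Or.inl h3
      · exact Or.inr ⟨m, hm.trans (Finset.le_sup hψ), h3⟩
    obtain ⟨n, hn⟩ := h1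
    obtain ⟨N, sN, neN, v, w, hv, hw⟩ := (seq n).2
    refine ⟨N, sN, neN, Sum.elim v w, fun ψ hψ => ?_⟩
    rcases hn ψ hψ with ⟨γ, hγ, rfl⟩ | ⟨m, hm, rfl⟩
    · rw [Formula.realize_relabel, Sum.elim_comp_inl]
      exact hv γ hγ
    · exact hmono N sN _ n m hm hw)
  refine ⟨N, sN, neN, u ∘ Sum.inl, u ∘ Sum.inr, fun γ hγ => ?_, fun n => ?_⟩
  · rw [← Formula.realize_relabel]
    exact hu _ (Or.inl ⟨γ, hγ, rfl⟩)
  · refine ⟨δ n (seq n), hδ _ _, ?_⟩
    rw [Sum.elim_comp_inl_inr]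
    have h1 : (seq (n + 1)).1.Realize u := hu _ (Or.inr ⟨n + 1, rfl⟩)
    rw [hstep, Formula.realize_inf] at h1
    exact h1.2

end TAU
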