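import Pool.Agent.TAU.Om1

/-! Project TAU, module TAU-Om2: omitting the type `{Φ(x)} ∪ {x ≠ c | c ∈ C}`.

`generic_model` is used with the sets `D1 Φ i = {¬ Φ(x_i)} ∪ {x_i = c | c ∈ C}` (dense: `dense1`) and
`D2 θ = {¬ ∃ x θ} ∪ {θ(x_j) | j}` (dense: `dense2`, with a fresh `j`).  The values of the variables `x_j` form
an elementary substructure (Tarski-Vaught, `om_tv`), which omits the type. -/

namespace TAU

open FirstOrder FirstOrder.Language

variable {L : FirstOrder.Language.{0, 0}}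

/-- Truth depends only on the free variables. -/
private theorem om_agree {β : Type} [DecidableEq β] {N : Type} [L.Structure N] (θ : L.Formula β)
    (u u' : β → N) (h : ∀ b ∈ θ.freeVarFinset, u b = u' b) : θ.Realize u ↔ θ.Realize u' := by
  have h1 := BoundedFormula.realize_restrictFreeVar (φ := θ) (f := id)
    (v := fun a => u a) (xs := (default : Fin 0 → N)) u (fun _ => rfl)
  have h2 := BoundedFormula.realize_restrictFreeVar (φ := θ) (f := id)
    (v := fun a => u a) (xs := (default : Fin 0 → N)) u' (fun a => h a.1 a.2)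
  exact h1.symm.trans h2

private def D1 {C : Type} (Φ : L.Formula (Fin 1)) (i : ℕ) : Set (L.Formula (C ⊕ ℕ)) :=
  {δ | δ = (Φ.relabel fun _ => Sum.inr i).not ∨
    ∃ c : C, δ = (Term.var (Sum.inr i)).equal (Term.var (Sum.inl c))}

private noncomputable def exF {C : Type} (θ : L.Formula (Option (C ⊕ ℕ))) : L.Formula (C ⊕ ℕ) :=
  (θ.relabel fun o => o.elim (Sum.inr ()) Sum.inl : L.Formula ((C ⊕ ℕ) ⊕ Unit)).iExs Unit

private def D2 {C : Type} (θ : L.Formula (Option (C ⊕ ℕ))) : Set (L.Formula (C ⊕ ℕ)) :=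
  {δ | δ = (exF θ).not ∨ ∃ j : ℕ, δ = θ.relabel fun o => o.elim (Sum.inr j) id}

private theorem exF_iff {C N : Type} [L.Structure N] (θ : L.Formula (Option (C ⊕ ℕ)))
    (u : C ⊕ ℕ → N) : (exF θ).Realize u ↔ ∃ x, θ.Realize fun o => o.elim x u := by
  unfold exF
  rw [Formula.realize_iExs]
  constructor
  · rintro ⟨i, hi⟩
    rw [Formula.realize_relabel] at hi
    refine ⟨i (), ?_⟩
    have e : (fun o : Option (C ⊕ ℕ) => o.elim (i ()) u) =
        Sum.elim u i ∘ fun o : Option (C ⊕ ℕ) => o.elim (Sum.inr ()) Sum.inl := by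
      funext o
      cases o <;> rfl
    rw [e]
    exact hi
  · rintro ⟨x, hx⟩
    refine ⟨fun _ => x, ?_⟩
    rw [Formula.realize_relabel]
    have e : (fun o : Option (C ⊕ ℕ) => o.elim x u) =
        Sum.elim u (fun _ : Unit => x) ∘ fun o : Option (C ⊕ ℕ) => o.elim (Sum.inr ()) Sum.inl := by
      funext o
      cases o <;> rfl
    rw [← e]
    exact hx

private theorem thj_iff {C N : Type} [L.Structure N] (θ : L.Formula (Option (C ⊕ ℕ))) (j : ℕ)
    (v : C → N) (w : ℕ → N) :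
    (θ.relabel fun o => o.elim (Sum.inr j) id : L.Formula (C ⊕ ℕ)).Realize (Sum.elim v w) ↔
      θ.Realize fun o => o.elim (w j) (Sum.elim v w) := by
  rw [Formula.realize_relabel]
  have e : (fun o : Option (C ⊕ ℕ) => o.elim (w j) (Sum.elim v w)) =
      Sum.elim v w ∘ fun o : Option (C ⊕ ℕ) => o.elim (Sum.inr j) id := by
    funext o
    cases o <;> rfl
  rw [e]

private theorem dense1 {C : Type} (Φ : L.Formula (Fin 1)) (Γ : Set (L.Formula C))
    (hc : ∀ φ : L.Formula (Option C), (∀ c, (φ.relabel fun o => o.getD c) ∉ Γ) →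
      ∃ γ ∈ Γ, ∀ (N : Type) [L.Structure N] (v : C → N), γ.Realize v →
        ∀ x : N, Φ.Realize (fun _ => x) → ¬ φ.Realize fun o => o.elim x v) (i : ℕ)
    (ψ : L.Formula (C ⊕ ℕ)) (hψ : Cons Γ ψ) : ∃ δ ∈ D1 Φ i, Cons Γ (ψ ⊓ δ) := by
  classical
  by_contra hcon
  push Not at hcon
  obtain ⟨m, him, hm⟩ : ∃ m, i < m ∧ ∀ k, (Sum.inr k : C ⊕ ℕ) ∈ ψ.freeVarFinset → k < m := by
    refine ⟨i + 1 + (ψ.freeVarFinset.image (Sum.elim (fun _ => 0) id)).sup id, by omega,
      fun k hk => ?_⟩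
    have h1 : k ∈ ψ.freeVarFinset.image (Sum.elim (fun _ : C => 0) id) :=
      Finset.mem_image.2 ⟨_, hk, rfl⟩
    have h2 : id k ≤ (ψ.freeVarFinset.image (Sum.elim (fun _ : C => 0) id)).sup id :=
      Finset.le_sup h1
    have h3 : id k = k := rfl
    omega
  obtain ⟨G, hGi, hG⟩ : ∃ G : ℕ → Fin m, G i = ⟨i, him⟩ ∧ ∀ k, (G k : ℕ) = k ∨ m ≤ k := by
    refine ⟨fun k => if h : k < m then ⟨k, h⟩ else ⟨i, him⟩, dif_pos him, fun k => ?_⟩
    by_cases h : k < m
    · left
      show ((if h : k < m then (⟨k, h⟩ : Fin m) else ⟨i, him⟩ : Fin m) : ℕ) = k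
      rw [dif_pos h]
    · right
      omega
  have hφ : ∀ (N : Type) [L.Structure N] (o : Option C → N),
      ((ψ.relabel (Sum.map some G) ⊓ (Term.var (Sum.inr ⟨i, him⟩)).equal
        (Term.var (Sum.inl none)) : L.Formula (Option C ⊕ Fin m)).iExs (Fin m)).Realize o ↔
      ∃ w' : Fin m → N, ψ.Realize (Sum.elim (fun c => o (some c)) (fun k => w' (G k))) ∧
        w' ⟨i, him⟩ = o none := by
    intro N _ o
    rw [Formula.realize_iExs]
    refine exists_congr fun w' => ?_
    rw [Formula.realize_inf, Formula.realize_relabel, Formula.realize_equal]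
    have e : (Sum.elim (fun c => o (some c)) (fun k => w' (G k)) : C ⊕ ℕ → N) =
        Sum.elim o w' ∘ Sum.map some G := by
      funext s
      cases s <;> rfl
    rw [e]
    rfl
  obtain ⟨N, iN, hN, v, w, hΓ, hψw⟩ := hψ
  obtain ⟨γ, hγ, hγ2⟩ := hc _ (fun c hcΓ => by
    have h1 := hΓ _ hcΓ
    rw [Formula.realize_relabel, hφ] at h1
    obtain ⟨w', h2, h3⟩ := h1
    refine hcon ((Term.var (Sum.inr i)).equal (Term.var (Sum.inl c))) (Or.inr ⟨c, rfl⟩)
      ⟨N, iN, hN, v, fun k => w' (G k), hΓ, ?_⟩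
    rw [Formula.realize_inf, Formula.realize_equal]
    refine ⟨h2, ?_⟩
    show w' (G i) = v c
    rw [hGi, h3]
    rfl)
  have hΦ : Φ.Realize (fun _ => w i) := by
    by_contra hΦ
    refine hcon (Φ.relabel fun _ => Sum.inr i).not (Or.inl rfl) ⟨N, iN, hN, v, w, hΓ, ?_⟩
    rw [Formula.realize_inf, Formula.realize_not, Formula.realize_relabel]
    exact ⟨hψw, hΦ⟩
  refine hγ2 N v (hΓ γ hγ) (w i) hΦ ?_
  rw [hφ]
  refine ⟨fun k => w k, ?_, rfl⟩
  refine (om_agree ψ _ _ ?_).1 hψw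
  rintro (c | k) hk
  · rfl
  · show w k = w (G k)
    rcases hG k with h1 | h1
    · rw [h1]
    · have h2 := hm k hk
      omega

private theorem dense2 {C : Type} (Γ : Set (L.Formula C)) (θ : L.Formula (Option (C ⊕ ℕ)))
    (ψ : L.Formula (C ⊕ ℕ)) (hψ : Cons Γ ψ) : ∃ δ ∈ D2 θ, Cons Γ (ψ ⊓ δ) := by
  classical
  obtain ⟨N, iN, hN, v, w, hΓ, hψw⟩ := hψ
  by_cases hex : ∃ x, θ.Realize fun o => o.elim x (Sum.elim v w)
  · obtain ⟨x, hx⟩ := hex
    obtain ⟨j, hj⟩ := Infinite.exists_notMem_finset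
      (ψ.freeVarFinset.image (Sum.elim (fun _ : C => 0) id) ∪
        θ.freeVarFinset.image (fun o => o.elim 0 (Sum.elim (fun _ : C => 0) id)))
    rw [Finset.mem_union, not_or] at hj
    have hj1 : ∀ k, (Sum.inr k : C ⊕ ℕ) ∈ ψ.freeVarFinset → k ≠ j := by
      rintro k hk rfl
      exact hj.1 (Finset.mem_image.2 ⟨_, hk, rfl⟩)
    have hj2 : ∀ k, some (Sum.inr k : C ⊕ ℕ) ∈ θ.freeVarFinset → k ≠ j := by
      rintro k hk rfl
      exact hj.2 (Finset.mem_image.2 ⟨_, hk, rfl⟩)
    refine ⟨_, Or.inr ⟨j, rfl⟩, N, iN, hN, v, Function.update w j x, hΓ, ?_⟩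
    rw [Formula.realize_inf, thj_iff]
    constructor
    · refine (om_agree ψ _ _ ?_).1 hψw
      rintro (c | k) hk
      · rfl
      · show w k = Function.update w j x k
        rw [Function.update_of_ne (hj1 k hk)]
    · refine (om_agree θ _ _ ?_).1 hx
      rintro (_ | c | k) hk
      · show x = Function.update w j x j
        rw [Function.update_self]
      · rfl
      · show w k = Function.update w j x k
        rw [Function.update_of_ne (hj2 k hk)]
  · refine ⟨_, Or.inl rfl, N, iN, hN, v, w, hΓ, ?_⟩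
    rw [Formula.realize_inf, Formula.realize_not, exF_iff]
    exact ⟨hψw, hex⟩

private theorem om_tv {C N : Type} [L.Structure N] (v : C → N) (w : ℕ → N)
    (h : ∀ θ : L.Formula (Option (C ⊕ ℕ)), (∃ x, θ.Realize fun o => o.elim x (Sum.elim v w)) →
      ∃ j, θ.Realize fun o => o.elim (w j) (Sum.elim v w)) :
    ∃ S : L.ElementarySubstructure N, ∀ x, x ∈ S ↔ ∃ j, w j = x := by
  let S0 : L.Substructure N :=
    { carrier := Set.range w
      fun_mem := by
        intro n f x hx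
        choose k hk using hx
        obtain ⟨j, hj⟩ := h ((Term.var none).equal
          (Term.func f fun i => Term.var (some (Sum.inr (k i))))) ⟨Structure.funMap f x, by
            rw [Formula.realize_equal]
            show Structure.funMap f x = Structure.funMap f fun i => w (k i)
            congr 1
            funext i
            exact (hk i).symm⟩
        rw [Formula.realize_equal] at hj
        refine ⟨j, ?_⟩
        have h1 : w j = Structure.funMap f fun i => w (k i) := hj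
        rw [h1]
        congr 1
        funext i
        exact hk i }
  refine ⟨S0.toElementarySubstructure ?_, fun x => Iff.rfl⟩
  intro n φ x a ha
  have hx : ∀ i, ∃ k, w k = (x i : N) := fun i => (x i).2
  choose k hk using hx
  have hθ : ∀ y : N, (φ.toFormula.relabel (Sum.elim (fun e : Empty => e.elim)
      (fun i : Fin (n + 1) => Fin.lastCases (motive := fun _ => Option (C ⊕ ℕ)) none
        (fun i => some (Sum.inr (k i))) i)) : L.Formula (Option (C ⊕ ℕ))).Realize
        (fun o => o.elim y (Sum.elim v w)) ↔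
      φ.Realize default (Fin.snoc ((↑) ∘ x) y : _ → N) := by
    intro y
    rw [Formula.realize_relabel, BoundedFormula.realize_toFormula]
    have e1 : (((fun o : Option (C ⊕ ℕ) => o.elim y (Sum.elim v w)) ∘
        (Sum.elim (fun e : Empty => e.elim) (fun i : Fin (n + 1) =>
          Fin.lastCases (motive := fun _ => Option (C ⊕ ℕ)) none
            (fun i => some (Sum.inr (k i))) i))) ∘ Sum.inl : Empty → N) = default :=
      funext fun e => e.elim
    have e2 : (((fun o : Option (C ⊕ ℕ) => o.elim y (Sum.elim v w)) ∘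
        (Sum.elim (fun e : Empty => e.elim) (fun i : Fin (n + 1) =>
          Fin.lastCases (motive := fun _ => Option (C ⊕ ℕ)) none
            (fun i => some (Sum.inr (k i))) i))) ∘ Sum.inr : Fin (n + 1) → N) =
        (Fin.snoc ((↑) ∘ x) y : _ → N) := by
      funext i
      refine Fin.lastCases ?_ (fun i => ?_) i
      · rw [Fin.snoc_last]
        show Option.elim (Fin.lastCases (motive := fun _ => Option (C ⊕ ℕ)) none
            (fun i => some (Sum.inr (k i))) (Fin.last n)) y (Sum.elim v w) = y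
        rw [Fin.lastCases_last]
        rfl
      · rw [Fin.snoc_castSucc]
        show Option.elim (Fin.lastCases (motive := fun _ => Option (C ⊕ ℕ)) none
            (fun i => some (Sum.inr (k i))) i.castSucc) y (Sum.elim v w) = (x i : N)
        rw [Fin.lastCases_castSucc]
        exact hk i
    rw [e1, e2]
  obtain ⟨j, hj⟩ := h _ ⟨a, (hθ a).2 ha⟩
  exact ⟨⟨w j, j, rfl⟩, (hθ (w j)).1 hj⟩

theorem omit_type (hL : L.card ≤ Cardinal.aleph0) (C : Type) [Countable C]
    (Φ : L.Formula (Fin 1)) (Γ : Set (L.Formula C))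
    (ha : ∀ Δ : Finset (L.Formula C), (∀ γ ∈ Δ, γ ∈ Γ) →
      ∃ (N : Type) (_ : L.Structure N) (_ : Nonempty N) (v : C → N), ∀ γ ∈ Δ, γ.Realize v)
    (hc : ∀ φ : L.Formula (Option C), (∀ c, (φ.relabel fun o => o.getD c) ∉ Γ) →
      ∃ γ ∈ Γ, ∀ (N : Type) [L.Structure N] (v : C → N), γ.Realize v →
        ∀ x : N, Φ.Realize (fun _ => x) → ¬ φ.Realize fun o => o.elim x v) :
    ∃ (N : Type) (_ : L.Structure N) (_ : Nonempty N) (_ : Countable N) (v : C → N),
      (∀ γ ∈ Γ, γ.Realize v) ∧ ∀ x : N, Φ.Realize (fun _ => x) → ∃ c, v c = x := by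
  classical
  have hS : Countable L.Symbols := Cardinal.mk_le_aleph0_iff.1 hL
  obtain ⟨e, he⟩ := exists_surjective_nat (ℕ ⊕ L.Formula (Option (C ⊕ ℕ)))
  have h0 : Cons Γ ⊤ := by
    obtain ⟨N, iN, hN, v, hv⟩ := compact_formulas Γ ha
    exact ⟨N, iN, hN, v, fun _ => hN.some, hv, Formula.realize_top.2 trivial⟩
  obtain ⟨N, iN, hN, v, w, hΓ, hD⟩ := generic_model Γ
    (fun n => Sum.elim (fun i => D1 Φ i) (fun θ => D2 θ) (e n)) h0 (by
      intro n ψ hψ
      show ∃ δ ∈ Sum.elim (fun i => D1 Φ i) (fun θ => D2 θ) (e n), _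
      rcases e n with i | θ
      · exact dense1 Φ Γ hc i ψ hψ
      · exact dense2 Γ θ ψ hψ)
  have hD1 : ∀ i, ∃ δ ∈ D1 Φ i, δ.Realize (Sum.elim v w) := by
    intro i
    obtain ⟨n, hn⟩ := he (Sum.inl i)
    have h1 := hD n
    rw [hn] at h1
    exact h1
  have hD2 : ∀ θ : L.Formula (Option (C ⊕ ℕ)), ∃ δ ∈ D2 θ, δ.Realize (Sum.elim v w) := by
    intro θ
    obtain ⟨n, hn⟩ := he (Sum.inr θ)
    have h1 := hD n
    rw [hn] at h1
    exact h1
  have hwit : ∀ θ : L.Formula (Option (C ⊕ ℕ)),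
      (∃ x, θ.Realize fun o => o.elim x (Sum.elim v w)) →
      ∃ j, θ.Realize fun o => o.elim (w j) (Sum.elim v w) := by
    intro θ hex
    obtain ⟨δ, hδ | ⟨j, hδ⟩, hr⟩ := hD2 θ
    · rw [hδ, Formula.realize_not, exF_iff] at hr
      exact absurd hex hr
    · rw [hδ, thj_iff] at hr
      exact ⟨j, hr⟩
  obtain ⟨S, hSm⟩ := om_tv v w hwit
  have hv : ∀ c, v c ∈ S := by
    intro c
    obtain ⟨j, hj⟩ := hwit ((Term.var none).equal (Term.var (some (Sum.inl c)))) ⟨v c, by
      rw [Formula.realize_equal]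
      rfl⟩
    rw [Formula.realize_equal] at hj
    exact (hSm _).2 ⟨j, hj⟩
  have hcnt : Countable S := by
    refine Function.Surjective.countable (f := fun j : ℕ => (⟨w j, (hSm _).2 ⟨j, rfl⟩⟩ : S)) ?_
    rintro ⟨x, hx⟩
    obtain ⟨j, hj⟩ := (hSm x).1 hx
    exact ⟨j, Subtype.ext hj⟩
  refine ⟨S, inferInstance, ⟨⟨w 0, (hSm _).2 ⟨0, rfl⟩⟩⟩, hcnt, fun c => ⟨v c, hv c⟩, ?_, ?_⟩
  · intro γ hγ
    exact (S.subtype.map_formula γ (fun c => (⟨v c, hv c⟩ : S))).1 (hΓ γ hγ)
  · intro x hx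
    have hx' : Φ.Realize (fun _ => (x : N)) := (S.subtype.map_formula Φ (fun _ => x)).2 hx
    obtain ⟨i, hi⟩ := (hSm (x : N)).1 x.2
    obtain ⟨δ, hδ | ⟨c, hδ⟩, hr⟩ := hD1 i
    · rw [hδ, Formula.realize_not, Formula.realize_relabel] at hr
      refine absurd ?_ hr
      have e1 : (Sum.elim v w ∘ fun _ : Fin 1 => Sum.inr i) = fun _ => (x : N) := by
        funext _
        exact hi
      rw [e1]
      exact hx'
    · rw [hδ, Formula.realize_equal] at hr
      have h1 : w i = v c := hr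
      exact ⟨c, Subtype.ext (by rw [← hi, h1])⟩

end TAU
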