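import Pool.Agent.TAU.Basis
import Pool.Agent.TAU.Fresh

/-! Project TAU, module TAU-PatL: families with a prescribed pattern (linear algebra).

`v k = b k` if `(st k : ℕ) ∈ S` and `v k = u k` otherwise, where `u` is a family of fresh elements with the
labels of `b` (`fresh`).  A combination of `v` is a combination of `Sum.elim b u` with the same
labels (`pl_lc`), which is used to compare the two representations of the elements of `T i`. -/

namespace TAU

variable {F Λ V : Type} [Field F] [DistribLattice Λ] [BoundedOrder Λ] [AddCommGroup V]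
  [Module F V]

open scoped Classical in
omit [DistribLattice Λ] [BoundedOrder Λ] in
private theorem pl_lc {κ : Type} [Fintype κ] (P : κ → Prop) (b u : κ → V) (l l' : κ → F) :
    lc l (fun k => if P k then b k else u k) - lc l' b =
      lc (Sum.elim (fun k => (if P k then l k else 0) - l' k) (fun k => if P k then 0 else l k))
        (Sum.elim b u) := by
  rw [lc_elim]
  unfold lc
  rw [← Finset.sum_sub_distrib, ← Finset.sum_add_distrib]
  refine Finset.sum_congr rfl fun k _ => ?_
  show l k • (if P k then b k else u k) - l' k • b k =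
    ((if P k then l k else 0) - l' k) • b k + (if P k then (0 : F) else l k) • u k
  split_ifs
  · rw [sub_smul, zero_smul, add_zero]
  · rw [zero_sub, neg_smul]
    abel

private theorem pl_Vm {W : Λ → Submodule F V} (hW : LatSpace W) {pA pC : Pt Λ → Λ} {y : ℕ → Pt Λ}
    {T : ℕ → Submodule F V} (h : Items W pA pC y T) {i : ℕ} {w : V} (hw : w ∈ W (pC (y i))) :
    w ∈ Vm W (y i) := (mem_Vm hW).2 ⟨_, (h.pair i).2.1, hw⟩

theorem exists_pattern_family {W : Λ → Submodule F V} (hW : LatSpace W) [Finite F]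
    {pA pC : Pt Λ → Λ} {y : ℕ → Pt Λ} {T : ℕ → Submodule F V} (h : Items W pA pC y T) (n : ℕ)
    {κ : Type} [Fintype κ] (st : κ → Fin n) (b : κ → V) (hb : ∀ k, b k ∈ T (st k))
    (hi : LInd W (fun k => y (st k)) b) (hst : ∀ i : Fin n, ∃ k, st k = i)
    (hT : ∀ (i : Fin n) (w : V), w ∈ T i ↔ ∃ l : κ → F,
      (∀ k, l k ≠ 0 → st k ≤ i ∧ y (st k) = y i) ∧ w - lc l b ∈ W (pC (y i)))
    (S : Set ℕ) :
    ∃ v : κ → V, (∀ k, v k ∈ W (pA (y (st k)))) ∧ LInd W (fun k => y (st k)) v ∧
      ∀ i : Fin n, (∃ w : V, w ∈ T i ∧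
        (∃ l : κ → F, (∀ k, l k ≠ 0 → st k ≤ i ∧ y (st k) = y i) ∧
          w - lc l v ∈ W (pC (y i))) ∧ w ∉ W (pC (y i)) ∧
        ∀ j : Fin n, j < i → y j = y i → w ∉ T j) ↔ (i : ℕ) ∈ S := by
  classical
  obtain ⟨u, hu, hbu⟩ := fresh hW (fun k => y (st k)) (fun k => y (st k)) pA pC
    (fun k => h.pair (st k)) b hi
  refine ⟨fun k => if ((st k : Fin n) : ℕ) ∈ S then b k else u k, fun k => ?_, ?_, fun i => ⟨?_, ?_⟩⟩
  · show (if ((st k : Fin n) : ℕ) ∈ S then b k else u k) ∈ W (pA (y (st k)))
    split_ifs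
    · exact h.le _ (hb k)
    · exact hu k
  · intro x l hl hx k
    have h1 := pl_lc (fun k => ((st k : Fin n) : ℕ) ∈ S) b u l 0
    rw [lc_zero_left, sub_zero] at h1
    rw [h1] at hx
    have h2 := hbu x _ (by
      rintro (k | k) hk
      · show (if ((st k : Fin n) : ℕ) ∈ S then l k else 0) - (0 : κ → F) k = 0
        rw [hl k hk]
        split_ifs <;> exact sub_self 0
      · show (if ((st k : Fin n) : ℕ) ∈ S then (0 : F) else l k) = 0
        rw [hl k hk]
        split_ifs <;> rfl) hx
    by_cases hk : ((st k : Fin n) : ℕ) ∈ S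
    · have h3 : (if ((st k : Fin n) : ℕ) ∈ S then l k else 0) - (0 : κ → F) k = 0 := h2 (Sum.inl k)
      rw [if_pos hk] at h3
      exact sub_eq_zero.1 h3
    · have h3 : (if ((st k : Fin n) : ℕ) ∈ S then (0 : F) else l k) = 0 := h2 (Sum.inr k)
      rwa [if_neg hk] at h3
  · rintro ⟨w, hw, ⟨l, hl, hlw⟩, hwC, hwj⟩
    by_contra hiS
    obtain ⟨l', hl', hlw'⟩ := (hT i w).1 hw
    have h1 : lc l (fun k => if ((st k : Fin n) : ℕ) ∈ S then b k else u k) - lc l' b ∈
        Vm W (y i) := by
      refine pl_Vm hW h ?_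
      have h2 := (W (pC (y i))).sub_mem hlw' hlw
      rwa [sub_sub_sub_cancel_left] at h2
    have h0 := pl_lc (fun k => ((st k : Fin n) : ℕ) ∈ S) b u l l'
    rw [h0] at h1
    have hz : ∀ k, y (st k) ≠ y i → l k = 0 ∧ l' k = 0 := by
      intro k hk
      constructor
      · by_contra h3
        exact hk (hl k h3).2
      · by_contra h3
        exact hk (hl' k h3).2
    have h2 := hbu (y i) _ (by
      rintro (k | k) hk
      · show (if ((st k : Fin n) : ℕ) ∈ S then l k else 0) - l' k = 0
        rw [(hz k hk).1, (hz k hk).2]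
        split_ifs <;> exact sub_self 0
      · show (if ((st k : Fin n) : ℕ) ∈ S then (0 : F) else l k) = 0
        rw [(hz k hk).1]
        split_ifs <;> rfl) h1
    have h3 : ∀ k, ((st k : Fin n) : ℕ) ∉ S → l' k = 0 := by
      intro k hk
      have h4 : (if ((st k : Fin n) : ℕ) ∈ S then l k else 0) - l' k = 0 := h2 (Sum.inl k)
      rw [if_neg hk, zero_sub] at h4
      exact neg_eq_zero.1 h4
    have h4 : ∀ k, l' k ≠ 0 → st k < i := by
      intro k hk
      refine lt_of_le_of_ne (hl' k hk).1 ?_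
      rintro h5
      refine hk (h3 k ?_)
      rw [h5]
      exact hiS
    by_cases h5 : ∃ k, l' k ≠ 0
    · obtain ⟨k0, hk0⟩ := h5
      obtain ⟨k, hk, hmax⟩ := Finset.exists_max_image (Finset.univ.filter fun k => l' k ≠ 0) st
        ⟨k0, Finset.mem_filter.2 ⟨Finset.mem_univ _, hk0⟩⟩
      rw [Finset.mem_filter] at hk
      have hyk : y (st k) = y i := (hl' k hk.2).2
      refine hwj (st k) (h4 k hk.2) hyk ((hT (st k) w).2 ⟨l', fun k' hk' => ⟨?_, ?_⟩, ?_⟩)
      · exact hmax k' (Finset.mem_filter.2 ⟨Finset.mem_univ _, hk'⟩)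
      · rw [hyk]
        exact (hl' k' hk').2
      · rw [hyk]
        exact hlw'
    · push Not at h5
      have h6 : l' = 0 := funext h5
      rw [h6, lc_zero_left, sub_zero] at hlw'
      exact hwC hlw'
  · intro hiS
    obtain ⟨k, hk⟩ := hst i
    have hs1 : ∀ k', y (st k') ≠ y i → (Pi.single k (1 : F) : κ → F) k' = 0 := by
      intro k' hk'
      refine Pi.single_eq_of_ne ?_ _
      rintro rfl
      exact hk' (by rw [hk])
    refine ⟨b k, ?_, ⟨Pi.single k 1, ?_, ?_⟩, ?_, ?_⟩
    · rw [← hk]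
      exact hb k
    · intro k' hk'
      by_cases h1 : k' = k
      · rw [h1, hk]
        exact ⟨le_refl _, rfl⟩
      · exact absurd (Pi.single_eq_of_ne h1 _) hk'
    · rw [lc_single, one_smul, if_pos (by rw [hk]; exact hiS), sub_self]
      exact Submodule.zero_mem _
    · intro h1
      have h2 := hi (y i) (Pi.single k 1) hs1 (by
        rw [lc_single, one_smul]
        exact pl_Vm hW h h1) k
      rw [Pi.single_eq_same] at h2
      exact one_ne_zero h2
    · intro j hj hyj hbj
      obtain ⟨l, hl, hlw⟩ := (hT j (b k)).1 hbj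
      rw [hyj] at hlw
      have h1 : lc (Pi.single k 1 - l) b ∈ Vm W (y i) := by
        rw [lc_sub_left, lc_single, one_smul]
        exact pl_Vm hW h hlw
      have h2 := hi (y i) (Pi.single k 1 - l) (by
        intro k' hk'
        rw [Pi.sub_apply, hs1 k' hk', zero_sub, neg_eq_zero]
        by_contra h3
        exact hk' ((hl k' h3).2.trans hyj)) h1 k
      rw [Pi.sub_apply, Pi.single_eq_same] at h2
      have h3 : l k ≠ 0 := by
        intro h4
        rw [h4, sub_zero] at h2
        exact one_ne_zero h2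
      have h4 := (hl k h3).1
      rw [hk] at h4
      exact absurd hj (not_lt.2 h4)

end TAU
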