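import Pool.Agent.TAU.AlgDef
import Pool.Agent.TAU.LimA

/-! Project TAU, module TAU-QDim: finitely many representatives for the elements which are
algebraic near a limit point.

`exists_reps` for the subspace of these elements modulo `Vm W x`; a finite subspace which meets `Vm W x` trivially consists of
elements which are algebraic over one `A ∉ z`, `z ∈ Lx`, and it meets `W A` trivially, so that `dim_bound` applies. -/

namespace TAU

variable {F Λ V : Type} [Field F] [DistribLattice Λ] [BoundedOrder Λ] [AddCommGroup V]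
  [Module F V] {W : Λ → Submodule F V}

/-- the subspace of the elements which are algebraic near `Lx` -/
private def qP (hW : LatSpace W) (𝒟 : DSys V) (hl : 𝒟.Lin W) (Lx : Set (Pt Λ)) :
    Submodule F V where
  carrier := {b | ∀ z ∈ Lx, ∃ A, ¬ z.mem A ∧ AlgMem 𝒟 W A b}
  add_mem' := by
    intro b b' h h' z hz
    obtain ⟨A, hA, hb⟩ := h z hz
    obtain ⟨A', hA', hb'⟩ := h' z hz
    refine ⟨A ⊔ A', fun hm => ?_, ?_⟩
    · rcases z.mem_sup.1 hm with h | h
      · exact hA h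
      · exact hA' h
    · exact AlgMem.add hW 𝒟 hl (AlgMem.mono hW 𝒟 hl le_sup_left hb)
        (AlgMem.mono hW 𝒟 hl le_sup_right hb')
  zero_mem' := fun z _ => ⟨⊥, z.not_mem_bot, AlgMem.of_mem hW 𝒟 hl (W ⊥).zero_mem⟩
  smul_mem' := by
    intro a b h z hz
    obtain ⟨A, hA, hb⟩ := h z hz
    exact ⟨A, hA, AlgMem.smul hW 𝒟 hl a hb⟩

theorem q_fin (hW : LatSpace W) (𝒟 : DSys V) (hl : 𝒟.Lin W) [Finite F] (hS : SpecFin Λ)
    (hA : Atom1 W) {D : ℕ} (hD : SBound 𝒟 W D) (x : Pt Λ) (N : Set (Pt Λ)) (hN : IsClopen N)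
    (hx : x ∈ N) (hNx : ∀ z ∈ N, z ≠ x → IsOpen ({z} : Set (Pt Λ))) (Lx : Set (Pt Λ))
    (hLN : ∀ z ∈ Lx, z ∈ N ∧ z ≠ x) (hLi : Lx.Infinite) :
    ∃ R : Finset V, ∀ b : V, (∀ z ∈ Lx, ∃ A, ¬ z.mem A ∧ AlgMem 𝒟 W A b) →
      ∃ r ∈ R, b - r ∈ Vm W x := by
  obtain ⟨R, -, hR⟩ := exists_reps (qP hW 𝒟 hl Lx) (Vm W x) D (fun B hf hBP hB0 => by
    choose G hG using fun b : V => hA b
    have hxG : ∀ b ∈ B, b ≠ 0 → x.mem (G b) := by
      intro b hb hb0
      by_contra hn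
      exact hb0 (hB0 b hb ((mem_Vm hW).2 ⟨G b, hn, (hG b).1.1⟩))
    classical
    have hfin : (B : Set V).Finite := Set.toFinite _
    have hx0 : x.mem ((hfin.toFinset.filter (fun b => b ≠ 0)).inf G) := by
      rw [Pt.mem_finset_inf]
      intro b hb
      obtain ⟨h1, h2⟩ := Finset.mem_filter.1 hb
      exact hxG b (hfin.mem_toFinset.1 h1) h2
    have h1 := conv_of_nbhd hN hNx (isClopen_hat
      ((hfin.toFinset.filter (fun b => b ≠ 0)).inf G)).isOpen hx0
    obtain ⟨z, hz, hz'⟩ := (hLi.sdiff h1).nonempty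
    have hzN := (hLN z hz).1
    have hz0 : z.mem ((hfin.toFinset.filter (fun b => b ≠ 0)).inf G) := by
      by_contra hn
      exact hz' ⟨hzN, hn⟩
    rw [Pt.mem_finset_inf] at hz0
    have hex : ∀ b : B, ∃ A, ¬ z.mem A ∧ AlgMem 𝒟 W A (b : V) := fun b => hBP b.2 z hz
    choose f hf1 hf2 using hex
    have hFt : Fintype B := Fintype.ofFinite B
    have hzA : ¬ z.mem ((Finset.univ : Finset B).sup f) := by
      rw [Pt.mem_finset_sup]
      rintro ⟨b, -, hb⟩
      exact hf1 b hb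
    refine dim_bound hW 𝒟 hS hA hD ((Finset.univ : Finset B).sup f) B hf (fun b hb => ?_)
      (fun b hb hbW => ?_)
    · exact AlgMem.mono hW 𝒟 hl (Finset.le_sup (f := f) (Finset.mem_univ ⟨b, hb⟩)) (hf2 ⟨b, hb⟩)
    · by_contra hb0
      refine hzA (z.mem_of_le (hz0 b (Finset.mem_filter.2 ⟨hfin.mem_toFinset.2 hb, hb0⟩)) ?_)
      exact (hG b).1.2 _ hbW)
  exact ⟨R, fun b hb => hR b hb⟩

end TAU
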