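import Pool.Agent.TAU.Hd
import Pool.Agent.TAU.Lad

/-! Project TAU, module TAU-RkD: the tree rank of a uniformly definable family is definable.

`R` is a mixed definable relation between `α → M` and `κ → Q`, `Q = Sol Φ M`; `S` is a mixed
definable relation between `α → M` and `ι → Q`, considered as a family of subsets of `α → M`
indexed by `ι → Q`. -/

namespace TAU

open FirstOrder FirstOrder.Language

variable {L : FirstOrder.Language.{0, 0}} {M : Type} [L.Structure M] (Φ : L.Formula (Fin 1))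

theorem rk_def {α κ : Type} [Finite α] [Finite κ] (R : Set ((α → M) × (κ → Sol Φ M)))
    (hR : MDef (L := L) R) (n : ℕ) {ι : Type} (S : Set ((α → M) × (ι → Sol Φ M)))
    (hS : MDef (L := L) S) :
    MDef (L := L) {p : (Empty → M) × (ι → Sol Φ M) |
      Rk (fun (x : α → M) (y : κ → Sol Φ M) => (x, y) ∈ R) n {x | (x, p.2) ∈ S}} := by
  induction n generalizing ι S with
  | zero =>
    have h1 := (hS.comap (β := Empty ⊕ α) Sum.inr (id : ι → ι)).exM
    have e : {p : (Empty → M) × (ι → Sol Φ M) |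
        Rk (fun (x : α → M) (y : κ → Sol Φ M) => (x, y) ∈ R) 0 {x | (x, p.2) ∈ S}} =
        {p : (Empty → M) × (ι → Sol Φ M) | ∃ x : α → M, (Sum.elim p.1 x, p.2) ∈
          {p : (Empty ⊕ α → M) × (ι → Sol Φ M) | ((fun a => p.1 (Sum.inr a)), fun i => p.2 (id i)) ∈ S}} := by
      ext p
      exact Iff.rfl
    rw [e]
    exact h1
  | succ n ih =>
    have hR' : MDef (L := L) {p : (α → M) × (ι ⊕ κ → Sol Φ M) |
        ((fun a => p.1 (id a)), fun i => p.2 (Sum.inr i)) ∈ R} := hR.comap id Sum.inr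
    have hS' : MDef (L := L) {p : (α → M) × (ι ⊕ κ → Sol Φ M) |
        ((fun a => p.1 (id a)), fun i => p.2 (Sum.inl i)) ∈ S} := hS.comap id Sum.inl
    have h1 := ih _ (hS'.inter hR')
    have h2 := ih _ (hS'.inter hR'.compl)
    have h3 := (h1.inter h2).exQ
    have e : {p : (Empty → M) × (ι → Sol Φ M) |
        Rk (fun (x : α → M) (y : κ → Sol Φ M) => (x, y) ∈ R) (n + 1) {x | (x, p.2) ∈ S}} =
        {p : (Empty → M) × (ι → Sol Φ M) | ∃ w : κ → Sol Φ M, (p.1, Sum.elim p.2 w) ∈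
          ({p : (Empty → M) × (ι ⊕ κ → Sol Φ M) |
            Rk (fun (x : α → M) (y : κ → Sol Φ M) => (x, y) ∈ R) n {x | (x, p.2) ∈
              {p : (α → M) × (ι ⊕ κ → Sol Φ M) |
        ((fun a => p.1 (id a)), fun i => p.2 (Sum.inl i)) ∈ S} ∩ {p : (α → M) × (ι ⊕ κ → Sol Φ M) |
        ((fun a => p.1 (id a)), fun i => p.2 (Sum.inr i)) ∈ R}}} ∩
          {p : (Empty → M) × (ι ⊕ κ → Sol Φ M) |
            Rk (fun (x : α → M) (y : κ → Sol Φ M) => (x, y) ∈ R) n {x | (x, p.2) ∈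
              {p : (α → M) × (ι ⊕ κ → Sol Φ M) |
        ((fun a => p.1 (id a)), fun i => p.2 (Sum.inl i)) ∈ S} ∩ {p : (α → M) × (ι ⊕ κ → Sol Φ M) |
        ((fun a => p.1 (id a)), fun i => p.2 (Sum.inr i)) ∈ R}ᶜ}})} := by
      ext p
      exact Iff.rfl
    rw [e]
    exact h3

end TAU
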