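import Pool.Agent.TAU.Bas

/-! Project TAU, module TAU-Spec: the spectrum of a bounded distributive lattice (Priestley
duality, only what is needed).

* `Pt Λ` is a closed subspace of the compact space `Λ → Bool`: for each pair `A, B` the condition
  depends continuously on finitely many coordinates (`isClosed_eq`, `isClosed_iInter`).  So it is
  compact and Hausdorff.  `hat A` is the preimage of `{true}` under evaluation at `A`: clopen.
* `hat_subset_iff`, `mem_of_Zf_subset`: if `𝔉` is a filter and `A ∉ 𝔉` then there is a prime filter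
  `x ⊇ 𝔉` with `A ∉ x`: Mathlib `DistribLattice.prime_ideal_of_disjoint_filter_ideal` (filter
  `𝔉` as an `Order.PFilter`, ideal `Iic A`), complement of the prime ideal; or use Zorn directly.
  `x ⊤ = true`, `x ⊥ = false` hold: `⊤ ∈ 𝔉`, and `⊥ ∈ x` would give `A ∈ x`.
* `nhd_basis`: a neighbourhood of `x` in the product topology contains a cylinder given by
  finitely many coordinates `A_1, .., A_n`; put `A = inf` of those in `x`, `B = sup` of those not in
  `x` (`mem_finset_inf`, `mem_finset_sup`).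
* `exists_hat_subset`: compactness: `Oᶜ` is compact and covered by the open sets `(hat A)ᶜ`,
  `A ∈ 𝔉`; finitely many suffice; take their infimum (which is in `𝔉`).
* `exists_hat_of_notMem`: `Z` closed upper, `x ∉ Z`: for `z ∈ Z` not `z ≤ x` so there is `D_z ∈ z`,
  `D_z ∉ x`; `Z` is compact, covered by finitely many `hat D_z`; take the supremum `C`; `C ∉ x`
  since `x` is prime (empty supremum `⊥ ∉ x`).
* `clopen_upper`: `Z` clopen upper: for `x ∉ Z` there is `C_x` with `Z ⊆ hat C_x`, `C_x ∉ x`; the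
  compact set `Zᶜ` is covered by finitely many `(hat C_x)ᶜ`; take the infimum.
* `exists_min`: Zorn (downwards) in the closed set `Z` below `x`: the intersection of a nonempty
  chain of prime filters is a prime filter, and it is in `Z` by closedness (it is the limit of the
  chain: for finitely many coordinates some member of the chain agrees with it), or by
  compactness. -/

namespace TAU

variable {Λ : Type} [DistribLattice Λ] [BoundedOrder Λ]

private theorem sp_closed : IsClosed {x : Λ → Bool | x ⊤ = true ∧ x ⊥ = false ∧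
    (∀ A B, x (A ⊓ B) = (x A && x B)) ∧ ∀ A B, x (A ⊔ B) = (x A || x B)} := by
  have h1 : IsClosed {x : Λ → Bool | x ⊤ = true} := isClosed_eq (continuous_apply _) continuous_const
  have h2 : IsClosed {x : Λ → Bool | x ⊥ = false} := isClosed_eq (continuous_apply _) continuous_const
  have h3 : IsClosed {x : Λ → Bool | ∀ A B, x (A ⊓ B) = (x A && x B)} := by
    have e : {x : Λ → Bool | ∀ A B, x (A ⊓ B) = (x A && x B)} =
        ⋂ A, ⋂ B, {x : Λ → Bool | x (A ⊓ B) = (x A && x B)} := by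
      ext x
      simp
    rw [e]
    have hf : Continuous fun p : Bool × Bool => (p.1 && p.2) := continuous_of_discreteTopology
    refine isClosed_iInter fun A => isClosed_iInter fun B => ?_
    have hA : Continuous fun x : Λ → Bool => (x A, x B) :=
      (continuous_apply A).prodMk (continuous_apply B)
    exact isClosed_eq (continuous_apply _) (hf.comp hA)
  have h4 : IsClosed {x : Λ → Bool | ∀ A B, x (A ⊔ B) = (x A || x B)} := by
    have e : {x : Λ → Bool | ∀ A B, x (A ⊔ B) = (x A || x B)} =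
        ⋂ A, ⋂ B, {x : Λ → Bool | x (A ⊔ B) = (x A || x B)} := by
      ext x
      simp
    rw [e]
    have hf : Continuous fun p : Bool × Bool => (p.1 || p.2) := continuous_of_discreteTopology
    refine isClosed_iInter fun A => isClosed_iInter fun B => ?_
    have hA : Continuous fun x : Λ → Bool => (x A, x B) :=
      (continuous_apply A).prodMk (continuous_apply B)
    exact isClosed_eq (continuous_apply _) (hf.comp hA)
  exact h1.inter (h2.inter (h3.inter h4))

instance : CompactSpace (Pt Λ) := isCompact_iff_compactSpace.1 (sp_closed (Λ := Λ)).isCompact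

instance : T2Space (Pt Λ) := inferInstanceAs (T2Space (Subtype _))

private theorem sp_cont (A : Λ) : Continuous fun x : Pt Λ => x.1 A :=
  (continuous_apply A).comp continuous_subtype_val

theorem isClopen_hat (A : Λ) : IsClopen (hat A) :=
  (isClopen_discrete ({true} : Set Bool)).preimage (sp_cont A)

theorem isUpperSet_hat (A : Λ) : IsUpperSet (hat A) := fun _ _ hxy hx => hxy A hx

theorem hat_inf (A B : Λ) : hat (A ⊓ B) = hat A ∩ hat B := by
  ext x
  exact x.mem_inf

theorem hat_sup (A B : Λ) : hat (A ⊔ B) = hat A ∪ hat B := by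
  ext x
  exact x.mem_sup

private theorem sp_prime {𝔉 : Set Λ} (h : IsFil 𝔉) {A : Λ} (hA : A ∉ 𝔉) :
    ∃ x : Pt Λ, (∀ B ∈ 𝔉, x.mem B) ∧ ¬ x.mem A := by
  classical
  have hF : Order.IsPFilter 𝔉 := Order.IsPFilter.of_def ⟨⊤, h.top⟩
    (fun a ha b hb => ⟨a ⊓ b, h.inf a b ha hb, inf_le_left, inf_le_right⟩)
    (fun {a b} hab ha => h.up a b ha hab)
  have hdis : Disjoint (hF.toPFilter : Set Λ) (Order.Ideal.principal A : Set Λ) := by
    rw [Set.disjoint_left]
    intro B hB hB2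
    exact hA (h.up B A hB hB2)
  obtain ⟨J, hJ, hAJ, hFJ⟩ := DistribLattice.prime_ideal_of_disjoint_filter_ideal hdis
  have hFJ' : ∀ B ∈ 𝔉, B ∉ J := fun B hB => Set.disjoint_left.1 hFJ hB
  refine ⟨⟨fun B => decide (B ∉ J), ?_, ?_, fun B C => ?_, fun B C => ?_⟩, fun B hB => ?_, ?_⟩
  · exact decide_eq_true (hFJ' _ h.top)
  · exact decide_eq_false (not_not.2 J.bot_mem)
  · rw [← Bool.decide_and]
    refine decide_eq_decide.2 ⟨fun h1 => ⟨fun h2 => h1 (J.lower inf_le_left h2),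
      fun h2 => h1 (J.lower inf_le_right h2)⟩, fun h1 h2 => ?_⟩
    rcases hJ.mem_or_mem h2 with h3 | h3
    · exact h1.1 h3
    · exact h1.2 h3
  · rw [← Bool.decide_or]
    refine decide_eq_decide.2 ?_
    rw [Order.Ideal.sup_mem_iff, not_and_or]
  · exact decide_eq_true (hFJ' B hB)
  · intro h1
    have h2 : A ∉ J := of_decide_eq_true h1
    exact h2 (hAJ (le_refl A))

theorem hat_subset_iff {A B : Λ} : hat A ⊆ hat B ↔ A ≤ B := by
  constructor
  · intro h
    by_contra hAB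
    have hF : IsFil {C : Λ | A ≤ C} := ⟨le_top, fun C D hC hCD => le_trans hC hCD,
      fun C D hC hD => le_inf hC hD⟩
    obtain ⟨x, hx, hxB⟩ := sp_prime hF (A := B) hAB
    exact hxB (h (hx A (le_refl A)))
  · intro h x hx
    exact x.mem_of_le hx h

theorem isClosed_Zf (𝔉 : Set Λ) : IsClosed (Zf 𝔉) := by
  have e : Zf 𝔉 = ⋂ A ∈ 𝔉, hat A := by
    ext x
    rw [Set.mem_iInter₂]
    rfl
  rw [e]
  exact isClosed_biInter fun A _ => (isClopen_hat A).1

theorem isUpperSet_Zf (𝔉 : Set Λ) : IsUpperSet (Zf 𝔉) := fun _ _ hxy hx A hA => hxy A (hx A hA)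

theorem mem_iff_Zf_subset {𝔉 : Set Λ} (h : IsFil 𝔉) {A : Λ} : A ∈ 𝔉 ↔ Zf 𝔉 ⊆ hat A := by
  constructor
  · intro hA x hx
    exact hx A hA
  · intro hA
    by_contra h1
    obtain ⟨x, hx, hxA⟩ := sp_prime h h1
    exact hxA (hA hx)

theorem nhd_basis {O : Set (Pt Λ)} (hO : IsOpen O) {x : Pt Λ} (hx : x ∈ O) :
    ∃ A B, x.mem A ∧ ¬ x.mem B ∧ ∀ z : Pt Λ, z.mem A → ¬ z.mem B → z ∈ O := by
  classical
  obtain ⟨U, hU, rfl⟩ := isOpen_induced_iff.1 hO
  obtain ⟨I, u, hu, hI⟩ := isOpen_pi_iff.1 hU x.1 hx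
  refine ⟨(I.filter fun a => x.mem a).inf id, (I.filter fun a => ¬ x.mem a).sup id, ?_, ?_, ?_⟩
  · rw [Pt.mem_finset_inf]
    exact fun i hi => (Finset.mem_filter.1 hi).2
  · rw [Pt.mem_finset_sup]
    rintro ⟨i, hi, h1⟩
    exact (Finset.mem_filter.1 hi).2 h1
  · intro z hz1 hz2
    rw [Pt.mem_finset_inf] at hz1
    rw [Pt.mem_finset_sup] at hz2
    refine hI fun a ha => ?_
    have key : z.1 a = x.1 a := by
      by_cases h1 : x.mem a
      · have h2 : z.mem a := hz1 a (Finset.mem_filter.2 ⟨ha, h1⟩)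
        exact Eq.trans h2 (Eq.symm h1)
      · have h2 : ¬ z.mem a := fun h3 => hz2 ⟨a, Finset.mem_filter.2 ⟨ha, h1⟩, h3⟩
        have h4 : x.1 a = false := Bool.eq_false_iff.2 h1
        have h5 : z.1 a = false := Bool.eq_false_iff.2 h2
        rw [h4, h5]
    rw [key]
    exact (hu a ha).2

private theorem sp_inf {𝔉 : Set Λ} (h : IsFil 𝔉) {I : Type} (s : Finset I) (f : I → Λ)
    (hf : ∀ i, f i ∈ 𝔉) : s.inf f ∈ 𝔉 :=
  Finset.inf_induction (p := fun a => a ∈ 𝔉) h.top (fun a ha b hb => h.inf a b ha hb) fun i _ => hf i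

theorem exists_hat_subset {𝔉 : Set Λ} (h : IsFil 𝔉) {O : Set (Pt Λ)} (hO : IsOpen O)
    (hZ : Zf 𝔉 ⊆ O) : ∃ A ∈ 𝔉, hat A ⊆ O := by
  have hc : IsCompact Oᶜ := hO.isClosed_compl.isCompact
  obtain ⟨u, hu⟩ := hc.elim_finite_subfamily_closed (fun a : {A // A ∈ 𝔉} => hat a.1)
    (fun a => (isClopen_hat a.1).1) (by
      rw [Set.eq_empty_iff_forall_notMem]
      rintro x ⟨h1, h2⟩
      rw [Set.mem_iInter] at h2
      exact h1 (hZ fun A hA => h2 ⟨A, hA⟩))
  refine ⟨u.inf fun a => a.1, sp_inf h u _ fun a => a.2, fun x hx => ?_⟩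
  by_contra h1
  have h2 : x ∈ Oᶜ ∩ ⋂ i ∈ u, hat i.1 := by
    refine ⟨h1, ?_⟩
    rw [Set.mem_iInter₂]
    exact (Pt.mem_finset_inf x u _).1 hx
  rw [hu] at h2
  exact h2

theorem exists_hat_of_notMem {Z : Set (Pt Λ)} (hc : IsClosed Z) (hu : IsUpperSet Z) {x : Pt Λ}
    (hx : x ∉ Z) : ∃ C, Z ⊆ hat C ∧ ¬ x.mem C := by
  obtain ⟨t, ht⟩ := hc.isCompact.elim_finite_subcover (fun a : {D // ¬ x.mem D} => hat a.1)
    (fun a => (isClopen_hat a.1).2) (by
      intro z hz
      have h1 : ¬ z ≤ x := fun h => hx (hu h hz)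
      have h2 : ∃ D, z.mem D ∧ ¬ x.mem D := by
        by_contra h3
        push Not at h3
        exact h1 fun D hD => h3 D hD
      obtain ⟨D, hD, hD2⟩ := h2
      exact Set.mem_iUnion.2 ⟨⟨D, hD2⟩, hD⟩)
  refine ⟨t.sup fun a => a.1, fun z hz => ?_, ?_⟩
  · obtain ⟨a, ha, hza⟩ := Set.mem_iUnion₂.1 (ht hz)
    exact (Pt.mem_finset_sup z t _).2 ⟨a, ha, hza⟩
  · rw [Pt.mem_finset_sup]
    rintro ⟨a, _, h1⟩
    exact a.2 h1

theorem clopen_upper {Z : Set (Pt Λ)} (hc : IsClopen Z) (hu : IsUpperSet Z) :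
    ∃ C, Z = hat C := by
  obtain ⟨t, ht⟩ := hc.2.isClosed_compl.isCompact.elim_finite_subcover
    (fun a : {C // Z ⊆ hat C} => (hat a.1)ᶜ)
    (fun a => (isClopen_hat a.1).1.isOpen_compl) (by
      intro x hx
      obtain ⟨C, hC, hxC⟩ := exists_hat_of_notMem hc.1 hu hx
      exact Set.mem_iUnion.2 ⟨⟨C, hC⟩, hxC⟩)
  refine ⟨t.inf fun a => a.1, Set.Subset.antisymm (fun x hx => ?_) fun x hx => ?_⟩
  · exact (Pt.mem_finset_inf x t _).2 fun a _ => a.2 hx
  · by_contra h1
    obtain ⟨a, ha, hxa⟩ := Set.mem_iUnion₂.1 (ht h1)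
    exact hxa ((Pt.mem_finset_inf x t _).1 hx a ha)

theorem exists_min {Z : Set (Pt Λ)} (hc : IsClosed Z) {x : Pt Λ} (hx : x ∈ Z) :
    ∃ m ∈ Mn Z, m ≤ x := by
  obtain ⟨m, hmx, hm⟩ := zorn_superset_nonempty ((fun z : Pt Λ => {A | z.mem A}) '' Z) (by
    intro c hcS hch hne
    have hcl : ∀ s : Set Λ, IsClosed {z : Pt Λ | z ∈ Z ∧ {A | z.mem A} ⊆ s} := by
      intro s
      have e : {z : Pt Λ | z ∈ Z ∧ {A | z.mem A} ⊆ s} = Z ∩ ⋂ A ∈ sᶜ, (hat A)ᶜ := by
        ext z
        rw [Set.mem_inter_iff, Set.mem_iInter₂]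
        constructor
        · rintro ⟨h1, h2⟩
          exact ⟨h1, fun A hA h3 => hA (h2 h3)⟩
        · rintro ⟨h1, h2⟩
          refine ⟨h1, fun A hA => ?_⟩
          by_contra h3
          exact h2 A h3 hA
      rw [e]
      exact hc.inter (isClosed_biInter fun A _ => (isClopen_hat A).2.isClosed_compl)
    have : Nonempty c := hne.to_subtype
    obtain ⟨z, hz⟩ := IsCompact.nonempty_iInter_of_directed_nonempty_isCompact_isClosed
      (fun s : c => {z : Pt Λ | z ∈ Z ∧ {A | z.mem A} ⊆ s.1}) (by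
        intro s s'
        rcases hch.total s.2 s'.2 with h1 | h1
        · exact ⟨s, fun z hz => hz, fun z hz => ⟨hz.1, hz.2.trans h1⟩⟩
        · exact ⟨s', fun z hz => ⟨hz.1, hz.2.trans h1⟩, fun z hz => hz⟩) (fun s => by
        obtain ⟨z, hz, hzs⟩ := hcS s.2
        exact ⟨z, hz, hzs.subset⟩) (fun s => (hcl s.1).isCompact) (fun s => hcl s.1)
    rw [Set.mem_iInter] at hz
    refine ⟨{A | z.mem A}, ⟨z, (hz (Classical.arbitrary c)).1, rfl⟩, fun s hs => ?_⟩
    exact (hz ⟨s, hs⟩).2) {A | x.mem A} ⟨x, hx, rfl⟩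
  obtain ⟨m', hm', hmm⟩ := hm.1
  refine ⟨m', ⟨hm', fun z hz hzm => le_antisymm hzm ?_⟩, ?_⟩
  · have h1 : {A | z.mem A} ⊆ m := by
      rw [← hmm]
      exact fun A hA => hzm A hA
    have h2 := hm.2 (y := {A | z.mem A}) ⟨z, hz, rfl⟩ h1
    intro A hA
    have h3 : A ∈ m := by
      rw [← hmm]
      exact hA
    exact h2 h3
  · intro A hA
    apply hmx
    rw [← hmm]
    exact hA

end TAU
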